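import Pool.Agent.MP_f3836a_nt.BT.SpecA

set_option autoImplicit false

/-! Neighbouring relations are enough, and duality. -/

namespace Pool.Agent.MP_f3836a_nt.BT

open Function

namespace AAdj

/-- a function of two variables which is multiplicative and kills pairs of sum one -/
structure Bi {F : Type} [Field F] (b : F → F → ℚ) : Prop where
  l : ∀ x x' y, x ≠ 0 → x' ≠ 0 → y ≠ 0 → b (x * x') y = b x y + b x' y
  r : ∀ x y y', x ≠ 0 → y ≠ 0 → y' ≠ 0 → b x (y * y') = b x y + b x y'
  s : ∀ x y, x ≠ 0 → y ≠ 0 → x + y = 1 → b x y = 0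

variable {F : Type} [Field F] {b : F → F → ℚ}

theorem Bi.same (h : Bi b) {x : F} (hx : x ≠ 0) : b x x = 0 := by
  have l1 : ∀ y, y ≠ 0 → b 1 y = 0 := fun y hy => by
    have := h.l 1 1 y one_ne_zero one_ne_zero hy
    rw [mul_one] at this
    linarith
  by_cases e : x = 1
  · rw [e, l1 1 one_ne_zero]
  have n1 : (-1 : F) ≠ 0 := neg_ne_zero.2 one_ne_zero
  have a1 := h.r x 1 1 hx one_ne_zero one_ne_zero
  have a2 := h.r x (-1) (-1) hx n1 n1
  have a3 := h.r x (-1) x hx n1 hx
  have i0 := inv_ne_zero hx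
  have i1 : 1 - x⁻¹ ≠ 0 := fun h => e (inv_eq_one.1 (sub_eq_zero.1 h).symm)
  have a4 := h.r x (-1 * x) (1 - x⁻¹) hx (mul_ne_zero n1 hx) i1
  have a5 := h.l x x⁻¹ (1 - x⁻¹) hx i0 i1
  rw [mul_inv_cancel₀ hx, l1 _ i1, h.s _ _ i0 i1 (by ring)] at a5
  rw [show -1 * x * (1 - x⁻¹) = 1 - x by field_simp; ring,
    h.s _ _ hx (sub_ne_zero.2 (Ne.symm e)) (by ring)] at a4
  rw [mul_one] at a1
  rw [neg_mul_neg, mul_one] at a2
  linarith

theorem Bi.skew (h : Bi b) {x y : F} (hx : x ≠ 0) (hy : y ≠ 0) : b y x = -b x y := by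
  have a := h.same (mul_ne_zero hx hy)
  rw [h.l _ _ _ hx hy (mul_ne_zero hx hy), h.r _ _ _ hx hx hy, h.r _ _ _ hy hx hy, h.same hx,
    h.same hy] at a
  linarith

theorem Bi.hs (h : Bi b) {f g : F} (hf : f ≠ 0) (hg : g ≠ 0) (e : f + g ≠ 0) :
    b f g = b f (f + g) + b (f + g) g := by
  obtain ⟨s, hs⟩ : ∃ s, s = f + g := ⟨_, rfl⟩
  rw [← hs] at e ⊢
  have x0 := div_ne_zero hf e
  have y0 := div_ne_zero hg e
  have a0 := h.s _ _ x0 y0 (by rw [← add_div, ← hs, div_self e])
  have a1 := h.l _ s g x0 e hg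
  have a2 := h.r _ _ s x0 y0 e
  have a3 := h.l _ s s x0 e e
  rw [div_mul_cancel₀ _ e] at a1 a2 a3
  linarith [h.same e]

theorem nz {ι : Type} [DecidableEq ι] {a : ι → F} (ha : Nz a) (i : ι) {x : F} (hx : x ≠ 0) :
    Nz (update a i x) := fun l => by
  by_cases e : l = i
  · rwa [e, update_self]
  · rw [update_of_ne e]
    exact ha l

theorem bi {ι : Type} [DecidableEq ι] {φ : (ι → F) → ℚ}
    (hm : ∀ a i x y, Nz a → x ≠ 0 → y ≠ 0 →
      φ (update a i (x * y)) = φ (update a i x) + φ (update a i y))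
    {i j : ι} (e : i ≠ j) (hs : ∀ a, Nz a → a i + a j = 1 → φ a = 0) {a : ι → F} (ha : Nz a) :
    Bi fun x y => φ (update (update a i x) j y) where
  l x x' y hx hx' hy := by
    simp only [update_comm e]
    exact hm _ _ _ _ (nz ha j hy) hx hx'
  r x y y' hx hy hy' := hm _ _ _ _ (nz ha i hx) hy hy'
  s x y hx hy h := hs _ (nz (nz ha i hx) j hy) (by rwa [update_of_ne e, update_self, update_self])

theorem exists_hom {A : Type} [AddCommGroup A] (a : A) (ha : ∀ n : ℕ, 0 < n → n • a ≠ 0) :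
    ∃ l : A →+ ℚ, l a ≠ 0 := by
  obtain ⟨l, hl⟩ := (Module.Baer.of_divisible ℚ).extension_property_addMonoidHom
    (zmultiplesHom A a) ((injective_iff_map_eq_zero _).2 fun n hn => by
      by_contra h0
      exact ha n.natAbs (Int.natAbs_pos.2 h0) (natAbs_nsmul_eq_zero.2 hn)) (Int.castAddHom ℚ)
  refine ⟨l, ?_⟩
  have := DFunLike.congr_fun hl 1
  simp only [AddMonoidHom.comp_apply, zmultiplesHom_apply, one_zsmul] at this
  rw [this]
  simp

end AAdj

open AAdj

theorem rAdj : RAdj := by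
  intro F _ n φ hm ha
  have lt : ∀ (d : ℕ) (i j : Fin n), (j : ℕ) = i + d + 1 →
      ∀ a, Nz a → a i + a j = 1 → φ a = 0 := by
    intro d
    induction d with
    | zero => exact fun i j h a => ha a i j h
    | succ d ih =>
      intro i j h a h1 h2
      obtain ⟨k, hk⟩ : ∃ k : Fin n, (k : ℕ) = i + d + 1 := ⟨⟨i + d + 1, by omega⟩, rfl⟩
      have e1 : k ≠ j := fun e => by omega
      have e2 : i ≠ j := fun e => by omega
      have e3 : i ≠ k := fun e => by omega
      have s := (bi hm e1 (fun a => ha a k j (by omega)) h1).skew (h1 k) (h1 j)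
      rw [ih i k hk _ (nz (nz h1 k (h1 j)) j (h1 k)) (by
        rwa [update_of_ne e2, update_of_ne e3, update_of_ne e1, update_self]), update_eq_self,
        update_eq_self] at s
      linarith
  have all : ∀ i j : Fin n, i ≠ j → ∀ a, Nz a → a i + a j = 1 → φ a = 0 := fun i j e a h1 h2 => by
    rcases lt_or_gt_of_ne e with h | h
    · exact lt (j - i - 1) i j (by omega) a h1 h2
    · exact lt (i - j - 1) j i (by omega) a h1 (add_comm (a i) (a j) ▸ h2)
  refine ⟨hm, fun a i j e h1 h2 => ?_, fun a i j f g e h1 hf hg h =>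
    (bi hm e (all i j e) h1).hs hf hg h⟩
  have s := (bi hm e (all i j e) h1).same (h1 i)
  rwa [update_eq_self, h2, update_eq_self] at s

theorem rBr : RAdj → RBr := by
  classical
  intro hA F _ n H x
  by_contra hn
  obtain ⟨l, hl⟩ := exists_hom x fun N h1 h2 => hn ⟨N, h1, h2⟩
  obtain ⟨u, hu⟩ : ∃ u : F → Additive Fˣ, ∀ x (h : x ≠ 0), u x = Additive.ofMul (Units.mk0 x h) :=
    ⟨fun x => if h : x = 0 then 0 else Additive.ofMul (Units.mk0 x h), fun x h => dif_neg h⟩
  have h0 := H (fun a => l (QuotientAddGroup.mk (PiTensorProduct.tprod ℤ (u ∘ a))))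
    (hA F n _ (fun a i x y _ hx hy => by
      rw [comp_update, comp_update, comp_update, show u (x * y) = u x + u y by
        rw [hu _ (mul_ne_zero hx hy), hu _ hx, hu _ hy, Units.mk0_mul, ofMul_mul],
        MultilinearMap.map_update_add, QuotientAddGroup.mk_add, map_add])
    fun a i j e h1 h2 => by
      have : PiTensorProduct.tprod ℤ (u ∘ a) ∈ stein F n := AddSubgroup.subset_closure
        ⟨fun l => Units.mk0 (a l) (h1 l), i, j, e, h2, congrArg _ (funext fun l => hu _ _)⟩
      rw [(QuotientAddGroup.eq_zero_iff _).2 this, map_zero])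
  refine hl ?_
  induction x using QuotientAddGroup.induction_on with
  | H y =>
    clear hn hl
    induction y using PiTensorProduct.induction_on with
    | smul_tprod r m =>
      have := h0 (fun i => ((m i).toMul : Fˣ)) fun i => Units.ne_zero _
      rw [show (u ∘ fun i => (((m i).toMul : Fˣ) : F)) = m from funext fun i => by
        rw [comp_apply, hu _ (Units.ne_zero _), Units.mk0_val, ofMul_toMul]] at this
      rw [QuotientAddGroup.mk_zsmul, map_zsmul, this, smul_zero]
    | add y z hy hz => rw [QuotientAddGroup.mk_add, map_add, hy, hz, add_zero]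

end Pool.Agent.MP_f3836a_nt.BT
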