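import Pool.Agent.MP_f3836a_nt.BT.SpecA

set_option autoImplicit false

/-! Row ABas: elementary facts on symbol functionals. -/

namespace Pool.Agent.MP_f3836a_nt.BT

open Function

namespace ABas

variable {ι R : Type} [DecidableEq ι] [CommRing R] {φ : (ι → R) → ℚ}

theorem nzu {a : ι → R} (ha : Nz a) (i : ι) {x : R} (hx : x ≠ 0) : Nz (update a i x) := by
  intro l
  by_cases h : l = i
  · rw [h, update_self]
    exact hx
  · rw [update_of_ne h]
    exact ha l

theorem res (h : St φ) (ι' : Type) [DecidableEq ι'] (f : ι' → ι) (a : ι → R) (hf : Injective f)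
    (ha : Nz a) : St fun b : ι' → R => φ (extend f b a) := by
  have e : ∀ (b : ι' → R) i x, extend f (update b i x) a = update (extend f b a) (f i) x := by
    intro b i x
    funext l
    by_cases hl : ∃ m, f m = l
    · obtain ⟨m, rfl⟩ := hl
      rw [hf.extend_apply]
      by_cases hm : m = i
      · rw [hm, update_self, update_self]
      · rw [update_of_ne hm, update_of_ne (hf.ne hm), hf.extend_apply]
    · rw [extend_apply' _ _ _ hl, update_of_ne fun e => hl ⟨i, e.symm⟩, extend_apply' _ _ _ hl]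
  have z : ∀ b : ι' → R, Nz b → Nz (extend f b a) := by
    intro b hb l
    by_cases hl : ∃ m, f m = l
    · obtain ⟨m, rfl⟩ := hl
      rw [hf.extend_apply]
      exact hb m
    · rw [extend_apply' _ _ _ hl]
      exact ha l
  refine ⟨fun b i x y hb hx hy => ?_, fun b i j hij hb hh => ?_, fun b i j x y hij hb hx hy hs => ?_⟩
  · simp only [e]
    exact h.mul _ _ _ _ (z b hb) hx hy
  · exact h.rep _ (f i) (f j) (hf.ne hij) (z b hb) (by rw [hf.extend_apply, hf.extend_apply, hh])
  · simp only [e]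
    exact h.hs _ _ _ _ _ (hf.ne hij) (z b hb) hx hy hs

theorem comap (h : St φ) (R' : Type) [CommRing R'] (g : R' →+* R) (hg : Injective g) :
    St fun b : ι → R' => φ (g ∘ b) := by
  have z : ∀ {x : R'}, x ≠ 0 → g x ≠ 0 := fun hx => (map_ne_zero_iff g hg).2 hx
  refine ⟨fun b i x y hb hx hy => ?_, fun b i j hij hb hh => ?_, fun b i j x y hij hb hx hy hs => ?_⟩
  · simp only [comp_update, map_mul]
    exact h.mul _ _ _ _ (fun l => z (hb l)) (z hx) (z hy)
  · exact h.rep _ i j hij (fun l => z (hb l)) (congrArg g hh)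
  · simp only [comp_update, map_add]
    exact h.hs _ _ _ _ _ hij (fun l => z (hb l)) (z hx) (z hy) (map_add g x y ▸ z hs)

variable [IsDomain R]

theorem one (h : St φ) {a : ι → R} (ha : Nz a) (i : ι) : φ (update a i 1) = 0 := by
  have := h.mul a i 1 1 ha one_ne_zero one_ne_zero
  rw [mul_one] at this
  linarith

theorem pow (h : St φ) (a : ι → R) (i : ι) (x : R) (n : ℕ) (ha : Nz a) (hx : x ≠ 0) :
    φ (update a i (x ^ n)) = n * φ (update a i x) := by
  induction n with
  | zero => rw [pow_zero, one h ha, Nat.cast_zero, zero_mul]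
  | succ n ih =>
    rw [pow_succ, h.mul a i _ _ ha (pow_ne_zero n hx) hx, ih]
    push_cast
    ring

theorem tors (h : St φ) (a : ι → R) (i : ι) (n : ℕ) (ha : Nz a) (hn : 0 < n) (e : a i ^ n = 1) :
    φ a = 0 := by
  have := pow h a i (a i) n ha (ha i)
  rw [e, one h ha, update_eq_self] at this
  exact (mul_eq_zero.1 this.symm).resolve_left (Nat.cast_ne_zero.2 hn.ne')

theorem neg (h : St φ) (a : ι → R) (i : ι) (x : R) (ha : Nz a) (hx : x ≠ 0) :
    φ (update a i (-x)) = φ (update a i x) := by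
  have h1 : (-1 : R) ≠ 0 := neg_ne_zero.2 one_ne_zero
  rw [← neg_one_mul, h.mul a i _ _ ha h1 hx,
    tors h _ i 2 (nzu ha i h1) two_pos (by rw [update_self, neg_one_sq]), zero_add]

theorem swap (h : St φ) (a : ι → R) (i j : ι) (hij : i ≠ j) (ha : Nz a) :
    φ (a ∘ Equiv.swap i j) = -φ a := by
  have r : ∀ x : R, x ≠ 0 → φ (update (update a j x) i x) = 0 := fun x hx =>
    h.rep _ i j hij (nzu (nzu ha j hx) i hx) (by
      rw [update_self, update_of_ne hij.symm, update_self])
  have m : ∀ z : R, z ≠ 0 → φ (update (update a j (a i * a j)) i z)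
      = φ (update (update a j (a i)) i z) + φ (update (update a j (a j)) i z) := fun z hz => by
    simp only [update_comm hij.symm]
    exact h.mul _ _ _ _ (nzu ha i hz) (ha i) (ha j)
  have hp := mul_ne_zero (ha i) (ha j)
  have := r _ hp
  rw [h.mul _ i _ _ (nzu ha j hp) (ha i) (ha j), m _ (ha i), m _ (ha j), r _ (ha i), r _ (ha j),
    update_eq_self, update_eq_self] at this
  rw [Equiv.comp_swap_eq_update]
  linarith

theorem sumc (h : St φ) (c : R) (hc : ∀ a i, Nz a → a i = c → φ a = 0) (n : ℕ) :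
    ∀ (a : ι → R) (J : Finset ι), J.card = n + 1 → Nz a → ∑ i ∈ J, a i = c → φ a = 0 := by
  induction n with
  | zero =>
    intro a J hJ ha e
    obtain ⟨i, rfl⟩ := Finset.card_eq_one.1 hJ
    exact hc a i ha (by simpa using e)
  | succ n ih =>
    intro a J hJ ha e
    obtain ⟨i, t, hi, rfl, ht⟩ := Finset.card_eq_succ.1 hJ
    obtain ⟨j, K, hj, rfl, hK⟩ := Finset.card_eq_succ.1 ht
    rw [Finset.mem_insert, not_or] at hi
    have hij : i ≠ j := hi.1
    rw [Finset.sum_insert (by simp [hi]), Finset.sum_insert hj, ← add_assoc] at e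
    by_cases hs : a i + a j = 0
    · have e1 : a j = -a i := eq_neg_of_add_eq_zero_right hs
      rw [← update_eq_self j a, e1, neg h a j _ ha (ha i)]
      exact h.rep _ i j hij (nzu ha j (ha i)) (by rw [update_self, update_of_ne hij])
    · have k : ∀ l ∉ K, φ (update a l (a i + a j)) = 0 := fun l hl =>
        ih _ (insert l K) (by rw [Finset.card_insert_of_notMem hl, hK]) (nzu ha l hs) (by
          rw [Finset.sum_insert hl, update_self, ← e]
          exact congrArg _ (Finset.sum_congr rfl fun m hm =>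
            update_of_ne (ne_of_mem_of_not_mem hm hl) _ _))
      have := h.hs a i j _ _ hij ha (ha i) (ha j) hs
      rwa [update_eq_self, update_eq_self, update_comm hij, update_eq_self, k j hj, k i hi.2,
        add_zero] at this

theorem prod (h : St φ) {a : ι → R} (ha : Nz a) (i : ι) (l : List R)
    (hl : ∀ g ∈ l, g ≠ 0 ∧ φ (update a i g) = 0) : l.prod ≠ 0 ∧ φ (update a i l.prod) = 0 := by
  induction l with
  | nil => exact ⟨by simp, one h ha i⟩
  | cons g l ih =>
    obtain ⟨h1, h2⟩ := hl g List.mem_cons_self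
    obtain ⟨h3, h4⟩ := ih fun x hx => hl x (List.mem_cons_of_mem _ hx)
    rw [List.prod_cons, h.mul a i _ _ ha h1 h3, h2, h4, add_zero]
    exact ⟨mul_ne_zero h1 h3, rfl⟩

theorem span (h : St φ) (G : ι → Set R) (hG : ∀ i, ∀ g ∈ G i, g ≠ 0)
    (h0 : ∀ g, (∀ i, g i ∈ G i) → φ g = 0) (s : Finset ι) :
    ∀ a, Nz a → (∀ i ∈ s, ∃ (n : ℕ) (l l' : List R), 0 < n ∧ (∀ g ∈ l, g ∈ G i) ∧
      (∀ g ∈ l', g ∈ G i) ∧ a i ^ n * l'.prod = l.prod) → (∀ i ∉ s, a i ∈ G i) → φ a = 0 := by
  induction s using Finset.induction with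
  | empty => exact fun a _ _ h2 => h0 a fun i => h2 i (Finset.notMem_empty i)
  | insert j s hj ih =>
    intro a ha h1 h2
    have k : ∀ g ∈ G j, g ≠ 0 ∧ φ (update a j g) = 0 := fun g hg =>
      ⟨hG j g hg, ih _ (nzu ha j (hG j g hg)) (fun i hi => by
        rw [update_of_ne (ne_of_mem_of_not_mem hi hj)]
        exact h1 i (Finset.mem_insert_of_mem hi)) fun i hi => by
        by_cases e : i = j
        · rw [e, update_self]
          exact hg
        · rw [update_of_ne e]
          exact h2 i (by simp [e, hi])⟩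
    obtain ⟨n, l, l', hn, a1, a2, e⟩ := h1 j (Finset.mem_insert_self j s)
    obtain ⟨-, b1⟩ := prod h ha j l fun g hg => k g (a1 g hg)
    obtain ⟨b2, b3⟩ := prod h ha j l' fun g hg => k g (a2 g hg)
    rw [← e, h.mul a j _ _ ha (pow_ne_zero n (ha j)) b2, b3, pow h a j _ n ha (ha j),
      update_eq_self, add_zero] at b1
    exact (mul_eq_zero.1 b1).resolve_left (Nat.cast_ne_zero.2 hn.ne')

open scoped nonZeroDivisors in
theorem exp [Fintype ι] (h : St φ) (x y : ι → R) (hx : Nz x) (hy : Nz y) :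
    φ (x * y) = ∑ I : ι → Bool, φ fun i => if I i = true then x i else y i := by
  let c : Additive R⁰ → R := fun m => (m.toMul : R⁰)
  have z : ∀ m, c m ≠ 0 := fun m => nonZeroDivisors.coe_ne_zero _
  let F : MultilinearMap ℕ (fun _ : ι => Additive R⁰) ℚ := MultilinearMap.mk' (fun m => φ (c ∘ m))
    (fun m i u v => by
      simp only [comp_update]
      exact h.mul _ i _ _ (fun l => z _) (z u) (z v))
    fun m i n u => by
      simp only [comp_update]
      rw [nsmul_eq_mul]
      exact pow h _ i _ n (fun l => z _) (z u)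
  let g : ι → Bool → Additive R⁰ := fun i b => Additive.ofMul
    (if b = true then ⟨x i, mem_nonZeroDivisors_of_ne_zero (hx i)⟩
      else ⟨y i, mem_nonZeroDivisors_of_ne_zero (hy i)⟩)
  have e : φ (c ∘ fun i => ∑ b, g i b) = ∑ r : ι → Bool, φ (c ∘ fun i => g i (r i)) :=
    F.map_sum g
  have e1 : (c ∘ fun i => ∑ b, g i b) = x * y := by
    funext i
    rw [comp_apply, Fintype.sum_bool]
    rfl
  rw [← e1, e]
  refine Finset.sum_congr rfl fun r _ => congrArg φ (funext fun i => ?_)
  rw [comp_apply]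
  cases r i <;> rfl

end ABas

theorem rBas : RBas := by
  intro ι R _ _ _ _ φ h
  refine ⟨ABas.pow h, ABas.tors h, ABas.neg h, ABas.swap h, fun a J ha hJ e => ?_,
    fun a J ha e => ?_, ABas.exp h, fun G hG h0 a ha h1 => ABas.span h G hG h0 Finset.univ a ha
      (fun i _ => h1 i) fun i hi => absurd (Finset.mem_univ i) hi, ABas.res h, ABas.comap h⟩
  · exact ABas.sumc h 0 (fun a i ha e => absurd e (ha i)) (J.card - 1) a J
      (Nat.sub_add_cancel hJ.card_pos).symm ha e
  · have hJ : J.Nonempty := Finset.nonempty_of_sum_ne_zero (e ▸ one_ne_zero)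
    exact ABas.sumc h 1 (fun a i ha e => ABas.tors h a i 1 ha one_pos (by rw [pow_one, e]))
      (J.card - 1) a J (Nat.sub_add_cancel hJ.card_pos).symm ha e

end Pool.Agent.MP_f3836a_nt.BT
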