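import Pool.Agent.MP_f3836a_nt.BT.SpecA

set_option autoImplicit false

/-! Rows Dep and Rat: entries in a space of small dimension, and one more variable. -/

namespace Pool.Agent.MP_f3836a_nt.BT

open Function Polynomial IntermediateField

theorem rDep : RBas → RDep := by
  intro hB k Ω _ _ _ F Λ _ e s he hF ι _ _ φ hφ hc
  have hb := hB ι Ω φ hφ
  suffices H : ∀ (n : ℕ) (J : Finset ι), s ≤ J.card + n → ∀ a, Nz a → (∀ i ∈ J, a i ∈ F) →
      (∀ i ∉ J, a i ∈ Λ) → φ a = 0 from
    fun a ha h => H s ∅ (by simp) a ha (by simp) fun i _ => h i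
  intro n
  induction n with
  | zero =>
    intro J hJ a ha h1 _
    have h := hF J _ (hb.res J Subtype.val a Subtype.val_injective ha) (by simpa using hJ)
      (fun j => a j) (fun j => ha j) fun j => h1 j j.2
    refine Eq.trans (congrArg φ (funext fun i => ?_)) h
    by_cases hi : i ∈ J
    · exact (Subtype.val_injective.extend_apply (fun j : J => a j) a ⟨i, hi⟩).symm
    · rw [extend_apply' _ _ _ fun ⟨j, hj⟩ => hi (hj ▸ j.2)]
  | succ n ih =>
    intro J hJ a ha h1 h2
    by_cases hn : s ≤ J.card + n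
    · exact ih J hn a ha h1 h2
    have hd : ¬LinearIndepOn F a (Jᶜ : Finset ι) := fun h => by
      have h3 := (LinearIndependent.of_comp Λ.subtype (v := fun i : (Jᶜ : Finset ι) =>
        (⟨a i, h2 i (Finset.mem_compl.1 i.2)⟩ : Λ)) h).fintype_card_le_finrank
      rw [Fintype.card_coe, Finset.card_compl] at h3
      omega
    obtain ⟨c, h3, i₀, h4, h5⟩ := not_linearIndepOn_finset_iff.1 hd
    have nz : ∀ I : Finset ι, (∀ i ∈ I, c i ≠ 0) → Nz (I.piecewise (fun i => c i • a i) a) :=
      fun I hI i => by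
        by_cases hi : i ∈ I
        · rw [Finset.piecewise_eq_of_mem _ _ _ hi]
          exact smul_ne_zero (hI i hi) (ha i)
        · rw [Finset.piecewise_eq_of_notMem _ _ _ hi]
          exact ha i
    have key : ∀ I : Finset ι, (∀ i ∈ I, i ∉ J ∧ c i ≠ 0) →
        φ (I.piecewise (fun i => c i • a i) a) = φ a := by
      intro I
      induction I using Finset.induction_on with
      | empty => simp
      | insert i I hi ih' =>
        intro hI
        have hI' := fun j hj => hI j (Finset.mem_insert_of_mem hj)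
        obtain ⟨h6, h7⟩ := hI i (Finset.mem_insert_self _ _)
        have h8 := nz I fun j hj => (hI' j hj).2
        have h9 : (c i : Ω) ≠ 0 := fun h => h7 (Subtype.ext h)
        rw [Finset.piecewise_insert, IntermediateField.smul_def, smul_eq_mul,
          hφ.mul _ _ _ _ h8 h9 (ha i), update_eq_self_iff.2
            (Finset.piecewise_eq_of_notMem _ _ _ hi).symm, ih' hI', add_eq_right]
        refine ih (insert i J) (by rw [Finset.card_insert_of_notMem h6]; omega) _
          (fun j => ?_) (fun j hj => ?_) fun j hj => ?_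
        · rcases eq_or_ne j i with rfl | h
          · rwa [update_self]
          · rw [update_of_ne h]
            exact h8 j
        · rcases eq_or_ne j i with rfl | h
          · rw [update_self]
            exact (c j).2
          · have hj' := (Finset.mem_insert.1 hj).resolve_left h
            rw [update_of_ne h, Finset.piecewise_eq_of_notMem _ _ _ fun e => (hI' j e).1 hj']
            exact h1 j hj'
        · rw [Finset.mem_insert, not_or] at hj
          rw [update_of_ne hj.1]
          by_cases hjI : j ∈ I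
          · rw [Finset.piecewise_eq_of_mem _ _ _ hjI]
            exact Λ.smul_mem _ (h2 j hj.2)
          · rw [Finset.piecewise_eq_of_notMem _ _ _ hjI]
            exact h2 j hj.2
    classical
    rw [← key (Jᶜ.filter fun i => c i ≠ 0) (by simp)]
    refine hb.sum0 _ (Jᶜ.filter fun i => c i ≠ 0) (nz _ (by simp))
      ⟨i₀, Finset.mem_filter.2 ⟨h4, h5⟩⟩ ?_
    rw [← h3, Finset.sum_congr rfl fun i => Finset.piecewise_eq_of_mem _ (fun i => c i • a i) a]
    exact Finset.sum_filter_of_ne fun i _ h e => h (by rw [e, zero_smul])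

namespace ADep

open scoped algebraAdjoinAdjoin in
theorem trdeg_le {k Ω : Type} [Field k] [Field Ω] [Algebra k Ω] {d : ℕ} (z : Fin d → Ω) :
    Algebra.trdeg k (algebraicClosure (adjoin k (Set.range z)) Ω) ≤ d := by
  rw [← trdeg_add_eq k (adjoin k (Set.range z)), trdeg_eq_zero (R := adjoin k (Set.range z)),
    add_zero, ← trdeg_add_eq k (Algebra.adjoin k (Set.range z)),
    trdeg_eq_zero (R := Algebra.adjoin k (Set.range z)), add_zero,
    Algebra.adjoin_range_eq_range_aeval]
  simpa using trdeg_le_of_surjective _ (MvPolynomial.aeval (R := k) z).rangeRestrict_surjective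

theorem lst {F Ω : Type} [Field F] [IsAlgClosed F] [Field Ω] [Algebra F Ω] (t : Ω) (r : F[X])
    (hr : aeval t r ≠ 0) : ∃ l : List Ω,
      (∀ g ∈ l, g ∈ {g | g ∈ Submodule.span F (Set.range ![1, t]) ∧ g ≠ 0}) ∧ l.prod = aeval t r := by
  have h1 : ∀ c : F, algebraMap F Ω c ∈ Submodule.span F (Set.range ![1, t]) := fun c => by
    rw [Algebra.algebraMap_eq_smul_one]
    exact Submodule.smul_mem _ _ (Submodule.subset_span ⟨0, rfl⟩)
  have h2 : aeval t r ∈ Submonoid.closure (Submodule.span F (Set.range ![1, t]) : Set Ω) := by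
    have h := IsAlgClosed.splits r
    clear hr
    induction h using Submonoid.closure_induction with
    | mem p hp =>
      rcases hp with ⟨c, rfl⟩ | ⟨c, rfl⟩
      · rw [aeval_C]
        exact Submonoid.subset_closure (h1 c)
      · rw [map_add, aeval_C, aeval_X]
        exact Submonoid.subset_closure (add_mem (Submodule.subset_span ⟨1, rfl⟩) (h1 c))
    | one => simpa only [map_one] using one_mem _
    | mul p q _ _ hp hq => simpa only [map_mul] using mul_mem hp hq
  obtain ⟨l, h3, h4⟩ := Submonoid.exists_list_of_mem_closure h2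
  exact ⟨l, fun g hg => ⟨h3 g hg, fun e => hr (h4 ▸ List.prod_eq_zero (e ▸ hg))⟩, h4⟩

end ADep

theorem rRat : RBas → RDep → RRat := by
  intro hB hD k Ω _ _ _ _ d s hV y ι _ _ φ hφ hc a ha h
  obtain ⟨F, hF⟩ : ∃ F, F = algebraicClosure (adjoin k (Set.range (y ∘ Fin.succ))) Ω := ⟨_, rfl⟩
  have : IsAlgClosed F := hF ▸ IsAlgClosure.isAlgClosed (adjoin k (Set.range (y ∘ Fin.succ)))
  have : FiniteDimensional F (Submodule.span F (Set.range ![1, y 0])) :=
    FiniteDimensional.span_of_finite _ (Set.finite_range _)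
  have h1 := hD _ Ω F (Submodule.span F (Set.range ![1, y 0])) 2 s (finrank_range_le_card _)
    (hV (F.restrictScalars k) (hF ▸ ADep.trdeg_le _)) ι φ hφ hc
  refine (hB ι Ω φ hφ).span (fun _ => {g | g ∈ Submodule.span F (Set.range ![1, y 0]) ∧ g ≠ 0})
    (fun _ _ hg => hg.2) (fun g hg => h1 g (fun i => (hg i).2) fun i => (hg i).1) a ha fun i => ?_
  have h2 : adjoin k (Set.range y) ≤ ((adjoin F {y 0}).restrictScalars
      (adjoin k (Set.range (y ∘ Fin.succ)))).restrictScalars k := by
    rw [adjoin_le_iff]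
    rintro _ ⟨j, rfl⟩
    refine Fin.cases (mem_adjoin_simple_self F _) (fun j => ?_) j
    exact (adjoin F {y 0}).algebraMap_mem
      ⟨_, F.algebraMap_mem ⟨y j.succ, subset_adjoin _ _ ⟨j, rfl⟩⟩⟩
  obtain ⟨r, r', e⟩ := (mem_adjoin_simple_iff F _).1 (h2 (h i))
  have h3 := div_ne_zero_iff.1 (e ▸ ha i)
  obtain ⟨l, h4, h5⟩ := ADep.lst _ r h3.1
  obtain ⟨l', h6, h7⟩ := ADep.lst _ r' h3.2
  exact ⟨1, l, l', one_pos, h4, h6, by rw [h5, h7, e, pow_one, div_mul_cancel₀ _ h3.2]⟩

end Pool.Agent.MP_f3836a_nt.BT
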