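import Pool.Agent.MP_f3836a_nt.BT.SpecA

set_option autoImplicit false

/-! The identity on orthogonal pairs, and the reduction to algebraically closed fields. -/

namespace Pool.Agent.MP_f3836a_nt.BT

open Function Polynomial

namespace AId

/-- the residue at infinity -/
noncomputable def Th {ι Ω : Type} [DecidableEq ι] [Fintype ι] [Field Ω] (φ : (ι → Ω) → ℚ)
    (T : Option ι → Polynomial Ω) : ℚ :=
  wg φ ((fun f : Polynomial Ω => f.leadingCoeff) ∘ T) ((fun f : Polynomial Ω => (f.natDegree : ℚ)) ∘ T)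

theorem lin_ne {Ω : Type} [Field Ω] {t : Ω} (h : t ≠ 0) : C t * X ≠ 0 :=
  mul_ne_zero (C_ne_zero.2 h) X_ne_zero

theorem Th_lin {ι Ω : Type} [DecidableEq ι] [Fintype ι] [Field Ω] (φ : (ι → Ω) → ℚ)
    {t : Option ι → Ω} (ht : Nz t) : Th φ (fun j => C (t j) * X) = del φ t := by
  have e : ((fun f : Polynomial Ω => f.leadingCoeff) ∘ fun j => C (t j) * X) = t :=
    funext fun j => leadingCoeff_C_mul_X _
  unfold Th wg del
  rw [e]
  refine Finset.sum_congr rfl fun j _ => ?_
  simp [natDegree_C_mul_X _ (ht j)]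

theorem Th_const {ι Ω : Type} [DecidableEq ι] [Fintype ι] [Field Ω] (φ : (ι → Ω) → ℚ)
    (a : ι → Ω) {z : Ω} (hz : z ≠ 0) : Th φ (fun j => j.elim (C z * X) fun i => C (a i)) = φ a := by
  unfold Th wg
  rw [Fintype.sum_option, face_none]
  simp [sg, natDegree_C_mul_X _ hz]

theorem tor (p : ℕ) [Fact p.Prime] : Tor (AlgebraicClosure (ZMod p)) := by
  intro a ha
  have := IntermediateField.adjoin.finiteDimensional
    (Algebra.IsAlgebraic.isAlgebraic (R := ZMod p) a).isIntegral
  have : Finite (IntermediateField.adjoin (ZMod p) {a}) := Module.finite_of_finite (ZMod p)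
  obtain ⟨n, h1, h2⟩ := isOfFinOrder_iff_pow_eq_one.1 (isOfFinOrder_of_finite
    (Units.mk0 (IntermediateField.AdjoinSimple.gen (ZMod p) a) fun h => ha (congrArg Subtype.val h)))
  exact ⟨n, h1, congrArg (fun u => u.val.val) h2⟩

end AId

open AId in
theorem rId : RBas → RWg → RVS → RId := by
  intro hb hw hv ι Ω _ _ _ φ hφ
  have B : Bas (Th φ) := hb _ _ _ (hw ι _ _ _ _ φ (hv Ω).1 hφ)
  refine ⟨fun x y hx hy h => ?_, fun a b z ha hb' hz h => ?_⟩
  · have n1 : Nz fun j => C (x j) * X := fun j => lin_ne (hx j)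
    have n2 : Nz fun j => C (y j) * X := fun j => lin_ne (hy j)
    have h1 := B.sum0 ((fun j => C (x j) * X) * fun j => C (y j) * X) Finset.univ
      (fun j => mul_ne_zero (n1 j) (n2 j)) Finset.univ_nonempty (by
        have : ∀ j, C (x j) * X * (C (y j) * X) = C (x j * y j) * X ^ 2 :=
          fun j => by rw [C_mul]; ring
        simp only [Pi.mul_apply, this]
        rw [← Finset.sum_mul, ← map_sum, h, C_0, zero_mul])
    rw [B.exp _ _ n1 n2] at h1
    refine Eq.trans (Finset.sum_congr rfl fun I _ => ?_) h1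
    rw [← Th_lin φ fun j => by split_ifs; exacts [hx j, hy j]]
    congr 1
    funext j
    split_ifs <;> rfl
  · classical
    rw [← Th_const φ a hz]
    refine B.span (fun j => j.elim {C z * X} fun i => {C (a i * b i) * X, C (b i) * X}) ?_
      (fun g hg => ?_) _ ?_ ?_
    · rintro (_ | i) g hg
      · exact hg ▸ lin_ne hz
      · rcases hg with rfl | rfl
        exacts [lin_ne (mul_ne_zero (ha i) (hb' i)), lin_ne (hb' i)]
    · rw [← h fun i => decide (g (some i) = C (a i * b i) * X), ← Th_lin φ]
      · congr 1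
        funext j
        rcases j with _ | i
        · exact hg none
        · by_cases e : g (some i) = C (a i * b i) * X
          · simp [e]
          · simp only [Option.elim, decide_eq_true_eq, if_neg e]
            exact (hg (some i)).resolve_left e
      · rintro (_ | i)
        · exact hz
        · dsimp only [Option.elim]
          split_ifs
          exacts [mul_ne_zero (ha i) (hb' i), hb' i]
    · rintro (_ | i)
      exacts [lin_ne hz, C_ne_zero.2 (ha i)]
    · rintro (_ | i)
      · exact ⟨1, [C z * X], [], one_pos, by simp, by simp, by simp⟩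
      · exact ⟨1, [C (a i * b i) * X], [C (b i) * X], one_pos, by simp, by simp, by simp [mul_assoc]⟩

theorem rFinal : RTr → RBr → MainT → Final := by
  intro ht hb hm d p _ F _ _ hd n hn
  refine hb F n fun φ hφ a ha => ?_
  obtain ⟨φ', h1, h2⟩ := ht _ F (AlgebraicClosure F) φ hφ
  let f : AlgebraicClosure (ZMod p) →ₐ[ZMod p] AlgebraicClosure F := IsAlgClosed.lift
  let := f.toAlgebra
  have : IsScalarTower (ZMod p) (AlgebraicClosure (ZMod p)) (AlgebraicClosure F) :=
    IsScalarTower.of_algebraMap_eq' (Subsingleton.elim _ _)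
  have e1 := trdeg_add_eq (ZMod p) F (A := AlgebraicClosure F)
  have e2 := trdeg_add_eq (ZMod p) (AlgebraicClosure (ZMod p)) (A := AlgebraicClosure F)
  rw [trdeg_eq_zero (R := F), add_zero] at e1
  rw [trdeg_eq_zero (R := ZMod p), zero_add, ← e1] at e2
  rw [← h2 a ha]
  refine hm (AlgebraicClosure (ZMod p)) (AlgebraicClosure F) p (AId.tor p) d ⊤ ?_ (Fin n) φ' h1
    (by rwa [Fintype.card_fin]) _ (fun i => (_root_.map_ne_zero _).2 (ha i)) fun _ => trivial
  exact (trdeg_le_of_injective (IntermediateField.val ⊤) Subtype.val_injective).trans (e2 ▸ hd)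

end Pool.Agent.MP_f3836a_nt.BT
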