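import Pool.Agent.MP_f3836a_nt.BT.SpecA

set_option autoImplicit false

/-! The degree filtration on symbols with polynomial entries. -/

namespace Pool.Agent.MP_f3836a_nt.BT

open Function Polynomial

namespace AMa

theorem nz_up {ι R : Type} [DecidableEq ι] [Zero R] {a : ι → R} (h : Nz a) (i : ι) {x : R}
    (hx : x ≠ 0) : Nz (update a i x) := by
  intro j
  by_cases e : j = i
  · subst e
    rwa [update_self]
  · rw [update_of_ne e]
    exact h j

theorem el_up {ι V W : Type} [DecidableEq ι] (p : W) (r : V → W) (a : ι → V) (i : ι) (x : V) :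
    (fun j : Option ι => j.elim p fun l => r (update a i x l)) =
      update (fun j : Option ι => j.elim p fun l => r (a l)) (some i) (r x) := by
  funext j
  cases j with
  | none => simp
  | some l =>
    by_cases e : l = i
    · subst e
      simp
    · rw [update_of_ne (by simpa using e)]
      simp [update_of_ne e]

/-- reduction of a product modulo the polynomial in the first slot -/
theorem red {ι F : Type} [DecidableEq ι] [Field F] {Θ : (Option ι → F[X]) → ℚ} {π : F[X]}
    (hm : π.Monic) (hΘ : St Θ) (hL : Low π.natDegree Θ) {T : Option ι → F[X]} (h0 : T none = π)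
    (hT : ∀ l, T (some l) ≠ 0 ∧ (T (some l)).natDegree < π.natDegree) (i : ι) {g g' : F[X]}
    (hg : g ≠ 0 ∧ g.natDegree < π.natDegree) (hg' : g' ≠ 0 ∧ g'.natDegree < π.natDegree)
    (hr : (g * g') %ₘ π ≠ 0 ∧ ((g * g') %ₘ π).natDegree < π.natDegree) :
    Θ (update T (some i) ((g * g') %ₘ π)) = Θ (update T (some i) (g * g')) := by
  have e := modByMonic_add_div (g * g') π
  have hq : ((g * g') /ₘ π).natDegree < π.natDegree := by
    rw [natDegree_divByMonic _ hm, natDegree_mul hg.1 hg'.1]
    omega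
  generalize (g * g') %ₘ π = r at *
  generalize (g * g') /ₘ π = q at *
  by_cases hq0 : q = 0
  · rw [← e, hq0, mul_zero, add_zero]
  have hπ := hm.ne_zero
  have hN : Nz T := fun j => by
    cases j with
    | none => rw [h0]; exact hπ
    | some l => exact (hT l).1
  have ne : (none : Option ι) ≠ some i := by simp
  have low : ∀ u v : F[X], u ≠ 0 ∧ u.natDegree < π.natDegree → v ≠ 0 ∧ v.natDegree < π.natDegree →
      Θ (update (update T none u) (some i) v) = 0 := by
    intro u v hu hv
    refine hL _ fun j => ?_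
    by_cases e1 : j = some i
    · subst e1
      rwa [update_self]
    · rw [update_of_ne e1]
      cases j with
      | none => rwa [update_self]
      | some l => rw [update_of_ne (by simp)]; exact hT l
  have m1 : ∀ u u' v : F[X], u ≠ 0 → u' ≠ 0 → v ≠ 0 → Θ (update (update T none (u * u')) (some i) v) =
      Θ (update (update T none u) (some i) v) + Θ (update (update T none u') (some i) v) := by
    intro u u' v hu hu' hv
    simp only [update_comm ne]
    exact hΘ.mul _ _ _ _ (nz_up hN _ hv) hu hu'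
  have hgg := mul_ne_zero hg.1 hg'.1
  have e' : π * q + r = g * g' := by rw [← e, add_comm]
  have h1 := hΘ.hs T none (some i) (π * q) r ne hN (mul_ne_zero hπ hq0) hr.1 (e' ▸ hgg)
  rw [e', m1 _ _ _ hπ hq0 hr.1, m1 _ _ _ hπ hq0 hgg, m1 _ _ _ hg.1 hg'.1 hr.1,
    hΘ.mul (update T none q) _ _ _ (nz_up hN _ hq0) hg.1 hg'.1, low _ _ ⟨hq0, hq⟩ hr,
    low _ _ ⟨hq0, hq⟩ hg, low _ _ ⟨hq0, hq⟩ hg', low _ _ hg hr, low _ _ hg' hr,
    (update_eq_self_iff (f := T) (a := none)).2 h0.symm] at h1
  linarith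

/-- the generators -/
def Gn {F : Type} [Field F] (e : ℕ) (g : F[X]) : Prop :=
  (g ≠ 0 ∧ g.natDegree < e) ∨ (g.Monic ∧ Irreducible g ∧ g.natDegree = e)

theorem Gn.ne {F : Type} [Field F] {e : ℕ} {g : F[X]} (h : Gn e g) : g ≠ 0 :=
  h.elim (fun h => h.1) fun h => h.1.ne_zero

theorem fac {F : Type} [Field F] {e : ℕ} (he : 1 ≤ e) {g : F[X]} (h0 : g ≠ 0)
    (hg : g.natDegree < e + 1) : ∃ l : List F[X], (∀ x ∈ l, Gn e x) ∧ g = l.prod := by
  by_cases h1 : g.natDegree < e
  · exact ⟨[g], fun x hx => by rw [List.mem_singleton.1 hx]; exact Or.inl ⟨h0, h1⟩, by simp⟩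
  have h2 : g.natDegree = e := by omega
  have hc : g.leadingCoeff ≠ 0 := leadingCoeff_ne_zero.2 h0
  by_cases hi : Irreducible g
  · refine ⟨[g * C g.leadingCoeff⁻¹, C g.leadingCoeff], fun x hx => ?_, ?_⟩
    · rcases List.mem_pair.1 hx with rfl | rfl
      · exact Or.inr ⟨monic_mul_leadingCoeff_inv h0, irreducible_mul_leadingCoeff_inv.2 hi,
          (natDegree_mul_leadingCoeff_inv _ h0).trans h2⟩
      · exact Or.inl ⟨C_ne_zero.2 hc, by rw [natDegree_C]; exact he⟩
    · rw [List.prod_cons, List.prod_singleton, mul_assoc, ← C_mul, inv_mul_cancel₀ hc, C_1, mul_one]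
  · have hu : ¬IsUnit g := fun h => by
      have := natDegree_eq_zero_of_isUnit h
      omega
    obtain ⟨a, b, rfl, ha, hb⟩ : ∃ a b, g = a * b ∧ ¬IsUnit a ∧ ¬IsUnit b := by
      by_contra hh
      refine hi ⟨hu, fun a b hab => ?_⟩
      by_contra h3
      exact hh ⟨a, b, hab, fun h => h3 (Or.inl h), fun h => h3 (Or.inr h)⟩
    have a0 := left_ne_zero_of_mul h0
    have b0 := right_ne_zero_of_mul h0
    have da := natDegree_pos_iff_degree_pos.2 (degree_pos_of_ne_zero_of_nonunit a0 ha)
    have db := natDegree_pos_iff_degree_pos.2 (degree_pos_of_ne_zero_of_nonunit b0 hb)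
    rw [natDegree_mul a0 b0] at h2
    refine ⟨[a, b], fun x hx => ?_, by simp⟩
    rcases List.mem_pair.1 hx with rfl | rfl
    · exact Or.inl ⟨a0, by omega⟩
    · exact Or.inl ⟨b0, by omega⟩

theorem card_lt {ι F : Type} [DecidableEq ι] [Fintype ι] [Field F] {e : ℕ} (g : ι → F[X]) {i : ι}
    (hi : (g i).natDegree = e) {x : F[X]} (hx : x.natDegree < e) :
    (Finset.univ.filter fun j => (update g i x j).natDegree = e).card <
      (Finset.univ.filter fun j => (g j).natDegree = e).card := by
  refine Finset.card_lt_card ⟨fun j hj => ?_, fun h => ?_⟩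
  · rw [Finset.mem_filter] at hj ⊢
    refine ⟨hj.1, ?_⟩
    by_cases e1 : j = i
    · rw [e1, hi]
    · rw [← hj.2, update_of_ne e1]
  · have := (Finset.mem_filter.1 (h (Finset.mem_filter.2 ⟨Finset.mem_univ i, hi⟩))).2
    rw [update_self] at this
    omega

theorem gn_up {ι F : Type} [DecidableEq ι] [Field F] {e : ℕ} {g : ι → F[X]} (h : ∀ j, Gn e (g j))
    (i : ι) {x : F[X]} (hx : Gn e x) (j : ι) : Gn e (update g i x j) := by
  by_cases e1 : j = i
  · subst e1
    rwa [update_self]
  · rw [update_of_ne e1]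
    exact h j

end AMa

open AMa in
theorem rMa : RBas → RMa := by
  intro _ ι F _ _ _ Θ π hπ hm hΘ hL
  have h1 : π ≠ 1 := fun h => hπ.out.not_isUnit (h ▸ isUnit_one)
  let r : AdjoinRoot π →ₗ[F] F[X] := AdjoinRoot.modByMonicHom hm
  have r1 : ∀ b, AdjoinRoot.mk π (r b) = b := AdjoinRoot.mk_leftInverse hm
  have r2 : ∀ f, r (AdjoinRoot.mk π f) = f %ₘ π := AdjoinRoot.modByMonicHom_mk hm
  have r3 : ∀ b, b ≠ 0 → r b ≠ 0 ∧ (r b).natDegree < π.natDegree := by
    intro b hb
    refine ⟨fun h => hb (by rw [← r1 b, h, map_zero]), ?_⟩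
    rw [← r1 b, r2]
    exact natDegree_modByMonic_lt _ hm h1
  have hN : ∀ a : ι → AdjoinRoot π, Nz a → Nz fun j : Option ι => j.elim π fun l => r (a l) := by
    intro a ha j
    cases j with
    | none => exact hm.ne_zero
    | some l => exact (r3 _ (ha l)).1
  refine ⟨fun b => Θ fun j => j.elim π fun l => r (b l), ⟨?_, ?_, ?_⟩, fun g hg => ?_⟩
  · intro a i x y ha hx hy
    have e : r (x * y) = (r x * r y) %ₘ π := by
      rw [← r2, map_mul (AdjoinRoot.mk π), r1, r1]
    rw [el_up, el_up, el_up, ← hΘ.mul _ _ _ _ (hN a ha) (r3 x hx).1 (r3 y hy).1, e]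
    exact red hm hΘ hL rfl (fun l => r3 _ (ha l)) i (r3 x hx) (r3 y hy)
      (e ▸ r3 _ (mul_ne_zero hx hy))
  · intro a i j hij ha h
    exact hΘ.rep _ (some i) (some j) (by simpa using hij) (hN a ha) (congrArg r h)
  · intro a i j f g hij ha hf hg hfg
    simp only [el_up, map_add]
    exact hΘ.hs _ (some i) (some j) _ _ (by simpa using hij) (hN a ha) (r3 f hf).1 (r3 g hg).1
      (map_add r f g ▸ (r3 _ hfg).1)
  · have e : ∀ l, r (AdjoinRoot.mk π (g l)) = g l := fun l => by
      rw [r2, modByMonic_eq_self_iff hm]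
      exact degree_lt_degree (hg l).2
    simp only [comp_apply, e]

open AMa in
theorem rMb : RBas → RMb := by
  intro hB ι F _ _ _ Θ e hΘ he hL h1 T hT
  have B := hB _ _ Θ hΘ
  have key : ∀ (n : ℕ) (g : Option ι → F[X]), (∀ j, Gn e (g j)) →
      (Finset.univ.filter fun j => (g j).natDegree = e).card = n → Θ g = 0 := by
    intro n
    induction n using Nat.strong_induction_on with
    | _ n ih =>
    intro g hg hn
    have hN : Nz g := fun j => (hg j).ne
    have lo : ∀ j, (g j).natDegree ≠ e → g j ≠ 0 ∧ (g j).natDegree < e := fun j hj =>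
      (hg j).elim id fun h => absurd h.2.2 hj
    have hi : ∀ j, (g j).natDegree = e → (g j).Monic ∧ Irreducible (g j) := fun j hj =>
      (hg j).elim (fun h => absurd hj h.2.ne) fun h => ⟨h.1, h.2.1⟩
    by_cases c0 : ∀ j, (g j).natDegree ≠ e
    · exact hL g fun j => lo j (c0 j)
    obtain ⟨i, hi0⟩ := not_forall.1 c0
    have hi1 : (g i).natDegree = e := not_not.1 hi0
    by_cases c1 : ∀ j, j ≠ i → (g j).natDegree ≠ e
    · have one : ∀ g' : Option ι → F[X], g' none = g i →
          (∀ l, g' (some l) ≠ 0 ∧ (g' (some l)).natDegree < e) → Θ g' = 0 := by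
        intro g' e0 hl
        rw [← h1 (g i) (fun l => g' (some l)) (hi i hi1).1 (hi i hi1).2 hi1 hl]
        congr 1
        funext j
        cases j with
        | none => exact e0
        | some l => rfl
      by_cases c2 : none = i
      · subst c2
        exact one g rfl fun l => lo _ (c1 _ (by simp))
      · have := B.swap g none i c2 hN
        rw [one (g ∘ Equiv.swap none i) (by simp) fun l => lo _ (c1 _ ?_)] at this
        · linarith
        · intro h
          rw [Equiv.swap_apply_eq_iff, Equiv.swap_apply_right] at h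
          exact Option.some_ne_none l h
    obtain ⟨j, hj⟩ := not_forall.1 c1
    obtain ⟨hji, hj0⟩ := Classical.not_imp.1 hj
    have hj1 : (g j).natDegree = e := not_not.1 hj0
    by_cases c2 : g i = g j
    · exact hΘ.rep g i j (Ne.symm hji) hN c2
    have d0 : g i + -g j ≠ 0 := by rw [← sub_eq_add_neg]; exact sub_ne_zero.2 c2
    have d1 : (g i + -g j).natDegree < e := by
      rw [← hi1]
      refine natDegree_lt_natDegree d0 ?_
      rw [← sub_eq_add_neg]
      refine degree_sub_lt_left ?_ (hN i) ?_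
      · rw [degree_eq_natDegree (hN i), degree_eq_natDegree (hN j), hi1, hj1]
      · rw [(hi i hi1).1.leadingCoeff, (hi j hj1).1.leadingCoeff]
    have h2 := hΘ.hs g i j (g i) (-g j) (Ne.symm hji) hN (hN i) (neg_ne_zero.2 (hN j)) d0
    rw [update_eq_self, B.neg _ _ _ hN (hN j), B.neg _ _ _ (nz_up hN _ d0) (hN j), update_eq_self,
      update_eq_self_iff.2 (update_of_ne hji _ _).symm,
      ih _ (hn ▸ card_lt g hj1 d1) _ (gn_up hg j (Or.inl ⟨d0, d1⟩)) rfl,
      ih _ (hn ▸ card_lt g hi1 d1) _ (gn_up hg i (Or.inl ⟨d0, d1⟩)) rfl] at h2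
    linarith
  refine B.span (fun _ => {g | Gn e g}) (fun _ g hg => Gn.ne hg) (fun g hg => key _ g hg rfl) T
    (fun j => (hT j).1) fun j => ?_
  obtain ⟨l, hl, e1⟩ := fac he (hT j).1 (hT j).2
  exact ⟨1, l, [], one_pos, hl, by simp, by simpa using e1⟩

end Pool.Agent.MP_f3836a_nt.BT
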