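import Pool.Agent.MP_f3836a_nt.BT.SpecA

set_option autoImplicit false

/-! Row ARec: reciprocity and the extension to a simple algebraic extension. -/

namespace Pool.Agent.MP_f3836a_nt.BT

open Function Polynomial

namespace ARec

theorem nz_update {ι R : Type} [DecidableEq ι] [Zero R] {a : ι → R} (ha : Nz a) (i : ι) {x : R}
    (hx : x ≠ 0) : Nz (update a i x) := by
  intro j
  by_cases h : j = i
  · subst h
    rwa [update_self]
  · rw [update_of_ne h]
    exact ha j

theorem st_sub {ι R : Type} [DecidableEq ι] [CommRing R] {φ ψ : (ι → R) → ℚ} (h : St φ)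
    (h' : St ψ) : St fun a => φ a - ψ a where
  mul a i x y ha hx hy := by rw [h.mul a i x y ha hx hy, h'.mul a i x y ha hx hy]; ring
  rep a i j hij ha he := by rw [h.rep a i j hij ha he, h'.rep a i j hij ha he, sub_zero]
  hs a i j f g hij ha hf hg hfg := by
    rw [h.hs a i j f g hij ha hf hg hfg, h'.hs a i j f g hij ha hf hg hfg]; ring

theorem st_finsum {ι R P : Type} [DecidableEq ι] [CommRing R] [IsDomain R]
    {W : P → (ι → R) → ℚ} (h : ∀ p, St (W p))
    (hfin : ∀ a, Nz a → HasFiniteSupport fun p => W p a) : St fun a => ∑ᶠ p, W p a where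
  mul a i x y ha hx hy := by
    rw [← finsum_add_distrib (hfin _ (nz_update ha i hx)) (hfin _ (nz_update ha i hy))]
    exact finsum_congr fun p => (h p).mul a i x y ha hx hy
  rep a i j hij ha he := by
    rw [finsum_congr fun p => (h p).rep a i j hij ha he, finsum_zero]
  hs a i j f g hij ha hf hg hfg := by
    rw [← finsum_add_distrib (hfin _ (nz_update (nz_update ha i hf) j hfg))
      (hfin _ (nz_update (nz_update ha i hfg) j hg))]
    exact finsum_congr fun p => (h p).hs a i j f g hij ha hf hg hfg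

theorem st_map {ι R R' : Type} [DecidableEq ι] [CommRing R] [CommRing R'] {φ : (ι → R) → ℚ}
    (h : St φ) (g : R' →+* R) (hg : Injective g) (c : ℚ) : St fun b : ι → R' => c * φ (g ∘ b) := by
  have h0 : ∀ x : R', x ≠ 0 → g x ≠ 0 := fun x hx => (map_ne_zero_iff g hg).mpr hx
  have hz : ∀ a : ι → R', Nz a → Nz (g ∘ a) := fun a ha i => h0 _ (ha i)
  refine ⟨fun a i x y ha hx hy => ?_, fun a i j hij ha he => ?_,
    fun a i j f f' hij ha hf hf' hff => ?_⟩
  · simp only [comp_update, map_mul]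
    rw [h.mul _ i _ _ (hz a ha) (h0 x hx) (h0 y hy), mul_add]
  · rw [h.rep _ i j hij (hz a ha) (by simp only [comp_apply, he]), mul_zero]
  · simp only [comp_update, map_add]
    rw [h.hs _ i j _ _ hij (hz a ha) (h0 f hf) (h0 f' hf') (by rw [← map_add]; exact h0 _ hff),
      mul_add]

theorem wg_zero {ι V : Type} [DecidableEq ι] [Fintype ι] (φ : (ι → V) → ℚ) (T : Option ι → V)
    (w : Option ι → ℚ) (hw : ∀ j, w j = 0) : wg φ T w = 0 := by
  simp [wg, hw]

theorem wg_none {ι V : Type} [DecidableEq ι] [Fintype ι] (φ : (ι → V) → ℚ) (T : Option ι → V)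
    (w : Option ι → ℚ) (hw : ∀ i, w (some i) = 0) :
    wg φ T w = w none * φ fun i => T (some i) := by
  simp [wg, hw, Fintype.sum_option, sg, face_none]

theorem not_dvd {F : Type} [Field F] {π f : F[X]} (hf : f ≠ 0) (h : f.natDegree < π.natDegree) :
    ¬π ∣ f := fun hd => absurd (natDegree_le_of_dvd hd hf) (not_le.mpr h)

theorem exW (h1 : RWg) (h2 : RVS) (h3 : RMa) (ι F : Type) [DecidableEq ι] [Fintype ι] [Field F]
    (Θ : (Option ι → F[X]) → ℚ) (π : F[X]) (hm : π.Monic) (hi : Irreducible π) (hS : St Θ)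
    (hL : Low π.natDegree Θ) :
    ∃ W : (Option ι → F[X]) → ℚ, St W ∧ (∀ T, (∀ j, ¬π ∣ T j) → W T = 0) ∧
      ∀ g : ι → F[X], Lw π.natDegree g →
        W (fun j => j.elim π g) = Θ fun j => j.elim π g := by
  have : Fact (Irreducible π) := ⟨hi⟩
  obtain ⟨ψ, hψ, hψ'⟩ := h3 ι F Θ π hm hS hL
  obtain ⟨v, s, hvs, hv1, hv0⟩ := (h2 F).2 π
  refine ⟨_, h1 ι F[X] (AdjoinRoot π) v s ψ hvs hψ, fun T hT => ?_, fun g hg => ?_⟩
  · exact wg_zero _ _ _ fun j => (hv0 _ (hT j)).1
  · have hn : ∀ i, ¬π ∣ g i := fun i => not_dvd (hg i).1 (hg i).2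
    rw [wg_none _ _ _ fun i => (hv0 _ (hn i)).1, ← hψ' g hg]
    simp only [comp_apply, Option.elim_none, Option.elim_some, hv1, one_mul]
    congr 1
    funext i
    exact (hv0 _ (hn i)).2

end ARec

open ARec

theorem rRec : RWg → RVS → RMa → RMb → RRec := by
  intro h1 h2 h3 h4 ι F _ _ _ φ hφ e he
  induction e, he using Nat.le_induction with
  | base =>
    refine ⟨_, h1 ι F[X] F _ _ φ (h2 F).1 hφ, fun T hT => ?_, fun π c _ _ _ _ => ?_⟩
    · refine wg_zero _ _ _ fun j => ?_
      have := (hT j).2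
      simp only [comp_apply, Nat.cast_eq_zero]
      omega
    · rw [wg_none _ _ _ fun i => by simp]
      simp
  | succ e he ih =>
    obtain ⟨Θ, hS, hL, hF⟩ := ih
    have hW : ∀ p : {π : F[X] // π.Monic ∧ Irreducible π ∧ π.natDegree = e},
        ∃ W : (Option ι → F[X]) → ℚ, St W ∧ (∀ T, (∀ j, ¬p.1 ∣ T j) → W T = 0) ∧
          ∀ g : ι → F[X], Lw e g →
            W (fun j => j.elim p.1 g) = Θ fun j => j.elim p.1 g := by
      rintro ⟨π, hm, hi, rfl⟩
      exact exW h1 h2 h3 ι F Θ π hm hi hS hL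
    choose W hWS hW0 hW1 using hW
    have hfin : ∀ T : Option ι → F[X], Nz T → HasFiniteSupport fun p => W p T := by
      intro T hT
      have hp : ∏ j, T j ≠ 0 := Finset.prod_ne_zero_iff.mpr fun j _ => hT j
      have hf : {g : F[X] | g.Monic ∧ g ∣ ∏ j, T j}.Finite :=
        @Finite.of_fintype _ (fintypeSubtypeMonicDvd _ hp)
      refine (hf.preimage Subtype.val_injective.injOn).subset fun p hp' => ⟨p.2.1, ?_⟩
      by_contra hn
      exact hp' (hW0 p T fun j hj => hn (hj.trans (Finset.dvd_prod_of_mem _ (Finset.mem_univ j))))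
    have hS' := st_sub hS (st_finsum hWS hfin)
    have hlow : ∀ (p : {π : F[X] // π.Monic ∧ Irreducible π ∧ π.natDegree = e}) (f : F[X]),
        f ≠ 0 → f.natDegree < e → ¬p.1 ∣ f := fun p f hf hd =>
      not_dvd hf (by rw [p.2.2.2]; exact hd)
    have heq : ∀ (p : {π : F[X] // π.Monic ∧ Irreducible π ∧ π.natDegree = e}) (π : F[X]),
        π.Monic → Irreducible π → p.1 ∣ π → p.1 = π := fun p π hm hi hd =>
      eq_of_monic_of_associated p.2.1 hm (p.2.2.1.associated_of_dvd hi hd)
    refine ⟨_, hS', h4 ι F _ e hS' he (fun T hT => ?_) (fun π g hm hi hd hg => ?_),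
      fun π c hm hi hd hc => ?_⟩
    · rw [hL T hT, finsum_congr fun p => hW0 p T fun j => hlow p _ (hT j).1 (hT j).2,
        finsum_zero, sub_zero]
    · rw [finsum_eq_single _ ⟨π, hm, hi, hd⟩, hW1 _ g hg, sub_self]
      intro p hp
      refine hW0 p _ fun j => ?_
      cases j with
      | none => exact fun h => hp (Subtype.ext (heq p π hm hi h))
      | some i => exact hlow p _ (hg i).1 (hg i).2
    · have h0 : ∀ p, W p (fun j => j.elim π fun i => C (c i)) = 0 := by
        intro p
        refine hW0 p _ fun j => ?_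
        cases j with
        | none =>
          intro h
          have h5 := p.2.2.2
          rw [heq p π hm hi h] at h5
          omega
        | some i =>
          exact hlow p _ (C_ne_zero.mpr (hc i))
            (by simp only [Option.elim_some, natDegree_C]; omega)
      rw [finsum_congr h0, finsum_zero, sub_zero, hF π c hm hi (by omega) hc]

theorem rStep : RMa → RRec → RStep := by
  intro h3 h5 ι F E _ _ _ _ _ α hα htop φ hφ
  have hi : Irreducible (minpoly F α) := minpoly.irreducible hα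
  have hm : (minpoly F α).Monic := minpoly.monic hα
  have hd : 0 < (minpoly F α).natDegree := minpoly.natDegree_pos hα
  have : Fact (Irreducible (minpoly F α)) := ⟨hi⟩
  obtain ⟨Θ, hS, hL, hF⟩ := h5 ι F φ hφ _ hd
  obtain ⟨ψ, hψ, hψ'⟩ := h3 ι F Θ _ hm hS hL
  let τ : E ≃ₐ[F] AdjoinRoot (minpoly F α) :=
    (((minpoly.equivAdjoin hα).trans (Subalgebra.equivOfEq _ _ htop)).trans
      Subalgebra.topEquiv).symm
  refine ⟨_, st_map hψ (τ : E →+* AdjoinRoot (minpoly F α)) τ.injective
    ((minpoly F α).natDegree : ℚ)⁻¹, fun a ha => ?_⟩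
  have h6 : (τ : E →+* AdjoinRoot (minpoly F α)) ∘ (algebraMap F E ∘ a) =
      AdjoinRoot.mk (minpoly F α) ∘ fun i => C (a i) := by
    funext i
    exact τ.commutes (a i)
  have h7 : ((minpoly F α).natDegree : ℚ) ≠ 0 := by exact_mod_cast hd.ne'
  rw [h6, hψ' _ fun i => ⟨C_ne_zero.mpr (ha i), by rwa [natDegree_C]⟩, hF _ a hm hi le_rfl ha,
    inv_mul_cancel_left₀ h7]

end Pool.Agent.MP_f3836a_nt.BT
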