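import Pool.Agent.MP_f3836a_nt.BT.SpecA

set_option autoImplicit false

/-! Extension of a symbol functional to an algebraic extension, by a maximal element. -/

namespace Pool.Agent.MP_f3836a_nt.BT

open Function

namespace ATr

/-- the clauses of `St` for entries in a set -/
structure StOn {ι E : Type} [DecidableEq ι] [Field E] (A : Set E) (ψ : (ι → E) → ℚ) : Prop where
  mul : ∀ a i x y, Nz a → (∀ l, a l ∈ A) → x ∈ A → y ∈ A → x ≠ 0 → y ≠ 0 →
    ψ (update a i (x * y)) = ψ (update a i x) + ψ (update a i y)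
  rep : ∀ a i j, i ≠ j → Nz a → (∀ l, a l ∈ A) → a i = a j → ψ a = 0
  hs : ∀ a i j f g, i ≠ j → Nz a → (∀ l, a l ∈ A) → f ∈ A → g ∈ A → f ≠ 0 → g ≠ 0 → f + g ≠ 0 →
    ψ (update (update a i f) j g) =
      ψ (update (update a i f) j (f + g)) + ψ (update (update a i (f + g)) j g)

theorem nz_of_comp {ι K E : Type} [Field K] [Field E] (g : K →+* E) {b : ι → K}
    (h : Nz (g ∘ b)) : Nz b := fun i hi => h i (by simp [hi])

theorem nz_comp {ι K E : Type} [Field K] [Field E] (g : K →+* E) {b : ι → K}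
    (h : Nz b) : Nz (g ∘ b) := fun i => by simpa using h i

theorem push {ι K E : Type} [DecidableEq ι] [Field K] [Field E] (g : K →+* E)
    (φ : (ι → K) → ℚ) (h : St φ) :
    ∃ ψ : (ι → E) → ℚ, StOn (Set.range g) ψ ∧ ∀ b, ψ (g ∘ b) = φ b := by
  have key : ∀ b : ι → K, φ (invFun g ∘ (g ∘ b)) = φ b := fun b => by
    congr 1
    funext i
    exact leftInverse_invFun g.injective (b i)
  refine ⟨fun a => φ (invFun g ∘ a), ⟨?_, ?_, ?_⟩, key⟩
  · rintro a i _ _ ha hA ⟨x, rfl⟩ ⟨y, rfl⟩ hx hy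
    choose b hb using hA
    obtain rfl : a = g ∘ b := funext fun l => (hb l).symm
    rw [← map_mul, ← comp_update g, ← comp_update g, ← comp_update g, key, key, key]
    exact h.mul b i x y (nz_of_comp g ha) (by simpa using hx) (by simpa using hy)
  · intro a i j hij ha hA e
    choose b hb using hA
    obtain rfl : a = g ∘ b := funext fun l => (hb l).symm
    rw [key]
    exact h.rep b i j hij (nz_of_comp g ha) (g.injective e)
  · rintro a i j _ _ hij ha hA ⟨x, rfl⟩ ⟨y, rfl⟩ hx hy hxy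
    choose b hb using hA
    obtain rfl : a = g ∘ b := funext fun l => (hb l).symm
    rw [← map_add] at hxy ⊢
    simp only [← comp_update g]
    rw [key, key, key]
    exact h.hs b i j x y hij (nz_of_comp g ha) (by simpa using hx) (by simpa using hy)
      (fun e => hxy (by rw [e, map_zero]))

theorem pull {ι K E : Type} [DecidableEq ι] [Field K] [Field E] (g : K →+* E) (A : Set E)
    (hA : ∀ x, g x ∈ A) (ψ : (ι → E) → ℚ) (h : StOn A ψ) : St fun b : ι → K => ψ (g ∘ b) := by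
  refine ⟨?_, ?_, ?_⟩
  · intro a i x y ha hx hy
    simp only [comp_update, map_mul]
    exact h.mul _ i _ _ (nz_comp g ha) (fun l => hA _) (hA _) (hA _) (by simpa using hx)
      (by simpa using hy)
  · intro a i j hij ha e
    exact h.rep _ i j hij (nz_comp g ha) (fun l => hA _) (congrArg g e)
  · intro a i j x y hij ha hx hy hxy
    simp only [comp_update, map_add]
    exact h.hs _ i j _ _ hij (nz_comp g ha) (fun l => hA _) (hA _) (hA _) (by simpa using hx)
      (by simpa using hy) (by rw [← map_add]; exact (map_ne_zero g).2 hxy)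

theorem upd_nz {ι E : Type} [DecidableEq ι] [Field E] {a : ι → E} (ha : Nz a) (i : ι) {x : E}
    (hx : x ≠ 0) : Nz (update a i x) := fun l => by
  by_cases e : l = i
  · subst e
    simpa using hx
  · simpa [update_of_ne e] using ha l

theorem upd_mem {ι E : Type} [DecidableEq ι] {A : Set E} {a : ι → E} (ha : ∀ l, a l ∈ A) (i : ι)
    {x : E} (hx : x ∈ A) : ∀ l, update a i x l ∈ A := fun l => by
  by_cases e : l = i
  · subst e
    simpa using hx
  · simpa [update_of_ne e] using ha l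

/-- an extension to an intermediate field -/
structure Pr {ι F : Type} (E : Type) [DecidableEq ι] [Field F] [Field E] [Algebra F E]
    (φ : (ι → F) → ℚ) where
  S : IntermediateField F E
  ψ : (ι → E) → ℚ
  st : StOn (S : Set E) ψ
  ext : ∀ a, Nz a → ψ (algebraMap F E ∘ a) = φ a

variable {ι F E : Type} [DecidableEq ι] [Field F] [Field E] [Algebra F E] {φ : (ι → F) → ℚ}

/-- the order on extensions -/
def Le (p q : Pr E φ) : Prop :=
  p.S ≤ q.S ∧ ∀ a, Nz a → (∀ l, a l ∈ (p.S : Set E)) → q.ψ a = p.ψ a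

theorem le_refl' (p : Pr E φ) : Le p p := ⟨le_rfl, fun _ _ _ => rfl⟩

theorem le_trans' {p q r : Pr E φ} (h : Le p q) (h' : Le q r) : Le p r :=
  ⟨h.1.trans h'.1, fun a ha hA => (h'.2 a ha fun l => h.1 (hA l)).trans (h.2 a ha hA)⟩

theorem base (h : St φ) : Nonempty (Pr E φ) := by
  obtain ⟨ψ, h1, h2⟩ := push (algebraMap F E) φ h
  refine ⟨⟨⊥, ψ, ?_, fun a _ => h2 a⟩⟩
  rw [IntermediateField.coe_bot]
  exact h1

theorem chain [Fintype ι] (c : Set (Pr E φ)) (hc : IsChain Le c) (hne : c.Nonempty) :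
    ∃ u, ∀ p ∈ c, Le p u := by
  classical
  have tot : ∀ p ∈ c, ∀ q ∈ c, Le p q ∨ Le q p := fun p hp q hq => by
    by_cases e : p = q
    · subst e
      exact Or.inl (le_refl' p)
    · exact hc hp hq e
  have : Nonempty c := hne.to_subtype
  have dir : Directed (· ≤ ·) fun p : c => p.1.S := fun p q => by
    rcases tot p p.2 q q.2 with h | h
    · exact ⟨q, h.1, le_rfl⟩
    · exact ⟨p, le_rfl, h.1⟩
  set S : IntermediateField F E := ⨆ p : c, p.1.S with hS
  have memS : ∀ x ∈ (S : Set E), ∃ p : c, x ∈ p.1.S := fun x hx => by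
    rw [hS, IntermediateField.coe_iSup_of_directed dir] at hx
    simpa using hx
  have fin : ∀ (a : ι → E) (x y : E), (∀ l, a l ∈ (S : Set E)) → x ∈ (S : Set E) →
      y ∈ (S : Set E) → ∃ p ∈ c, (∀ l, a l ∈ (p.S : Set E)) ∧ x ∈ p.S ∧ y ∈ p.S := by
    intro a x y ha hx hy
    choose f hf using fun l => memS _ (ha l)
    obtain ⟨p, hp⟩ := memS x hx
    obtain ⟨q, hq⟩ := memS y hy
    obtain ⟨r, hr⟩ := dir.finset_le (insert p (insert q (Finset.univ.image f)))
    exact ⟨r, r.2, fun l => hr (f l) (by simp) (hf l), hr p (by simp) hp, hr q (by simp) hq⟩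
  let ψ : (ι → E) → ℚ := fun a =>
    if h : ∃ p ∈ c, ∀ l, a l ∈ (p.S : Set E) then h.choose.ψ a else 0
  have agree : ∀ p ∈ c, ∀ a, Nz a → (∀ l, a l ∈ (p.S : Set E)) → ψ a = p.ψ a := by
    intro p hp a ha hA
    have h : ∃ p ∈ c, ∀ l, a l ∈ (p.S : Set E) := ⟨p, hp, hA⟩
    simp only [ψ, dif_pos h]
    rcases tot p hp _ h.choose_spec.1 with e | e
    · exact e.2 a ha hA
    · exact (e.2 a ha h.choose_spec.2).symm
  refine ⟨⟨S, ψ, ⟨?_, ?_, ?_⟩, ?_⟩, fun p hp => ⟨le_iSup (fun p : c => p.1.S) ⟨p, hp⟩, agree p hp⟩⟩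
  · intro a i x y ha hA hx hy hx0 hy0
    obtain ⟨p, hp, h1, h2, h3⟩ := fin a x y hA hx hy
    rw [agree p hp _ (upd_nz ha i (mul_ne_zero hx0 hy0)) (upd_mem h1 i (mul_mem h2 h3)),
      agree p hp _ (upd_nz ha i hx0) (upd_mem h1 i h2),
      agree p hp _ (upd_nz ha i hy0) (upd_mem h1 i h3)]
    exact p.st.mul a i x y ha h1 h2 h3 hx0 hy0
  · intro a i j hij ha hA e
    obtain ⟨p, hp, h1, -, -⟩ := fin a 0 0 hA (zero_mem S) (zero_mem S)
    rw [agree p hp _ ha h1]
    exact p.st.rep a i j hij ha h1 e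
  · intro a i j x y hij ha hA hx hy hx0 hy0 hxy
    obtain ⟨p, hp, h1, h2, h3⟩ := fin a x y hA hx hy
    have h4 : x + y ∈ (p.S : Set E) := add_mem h2 h3
    rw [agree p hp _ (upd_nz (upd_nz ha i hx0) j hy0) (upd_mem (upd_mem h1 i h2) j h3),
      agree p hp _ (upd_nz (upd_nz ha i hx0) j hxy) (upd_mem (upd_mem h1 i h2) j h4),
      agree p hp _ (upd_nz (upd_nz ha i hxy) j hy0) (upd_mem (upd_mem h1 i h4) j h3)]
    exact p.st.hs a i j x y hij ha h1 h2 h3 hx0 hy0 hxy
  · intro a ha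
    obtain ⟨p, hp⟩ := hne
    rw [agree p hp _ (nz_comp _ ha) fun l => p.S.algebraMap_mem _]
    exact p.ext a ha

theorem step [Fintype ι] [Algebra.IsAlgebraic F E] (hS : RStep) (p : Pr E φ) (α : E) :
    ∃ q : Pr E φ, Le p q ∧ α ∈ q.S := by
  have hα : IsIntegral p.S α := (Algebra.IsIntegral.isIntegral (R := F) α).tower_top
  let L : IntermediateField p.S E := IntermediateField.adjoin p.S {α}
  have h0 := pull (algebraMap p.S E) (p.S : Set E) (fun x => x.2) p.ψ p.st
  have hgen : Algebra.adjoin p.S {IntermediateField.AdjoinSimple.gen p.S α} = ⊤ := by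
    simpa using (IntermediateField.adjoin.powerBasis hα).adjoin_gen_eq_top
  obtain ⟨φ', h1, h2⟩ := hS ι p.S L (IntermediateField.AdjoinSimple.gen p.S α)
    ((IntermediateField.AdjoinSimple.isIntegral_gen p.S α).2 hα) hgen _ h0
  obtain ⟨ψ, h3, h4⟩ := push (algebraMap L E) φ' h1
  have hr : Set.range (algebraMap L E) = (L.restrictScalars F : Set E) := by
    ext x
    exact ⟨fun ⟨y, hy⟩ => hy ▸ y.2, fun hx => ⟨⟨x, hx⟩, rfl⟩⟩
  have ag : ∀ a, Nz a → (∀ l, a l ∈ (p.S : Set E)) → ψ a = p.ψ a := by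
    intro a ha hA
    let b : ι → p.S := fun l => ⟨a l, hA l⟩
    have e : a = algebraMap L E ∘ (algebraMap p.S L ∘ b) := rfl
    have hb : Nz b := fun l hl => ha l (congrArg Subtype.val hl)
    rw [e, h4, h2 b hb]
    rfl
  refine ⟨⟨L.restrictScalars F, ψ, hr ▸ h3, fun a ha => ?_⟩, ⟨fun x hx => ?_, ag⟩, ?_⟩
  · rw [ag _ (nz_comp _ ha) fun l => p.S.algebraMap_mem _]
    exact p.ext a ha
  · exact L.algebraMap_mem ⟨x, hx⟩
  · exact IntermediateField.mem_adjoin_simple_self p.S α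

end ATr

theorem rTr : RBas → RStep → RTr := by
  intro _ hS ι F E _ _ _ _ _ _ φ h
  have : Nonempty (ATr.Pr E φ) := ATr.base h
  obtain ⟨m, hm⟩ := exists_maximal_of_nonempty_chains_bounded (r := ATr.Le (E := E) (φ := φ))
    ATr.chain ATr.le_trans'
  have hall : ∀ x : E, x ∈ (m.S : Set E) := fun x => by
    obtain ⟨q, hq, hx⟩ := ATr.step hS m x
    exact (hm q hq).1 hx
  exact ⟨m.ψ, ATr.pull (RingHom.id E) _ hall m.ψ m.st, m.ext⟩

end Pool.Agent.MP_f3836a_nt.BT
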