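import Pool.Agent.MP_f3836a_nt.BT.SpecA

set_option autoImplicit false

/-! Residues of symbols and the two order functions on polynomials. -/

namespace Pool.Agent.MP_f3836a_nt.BT

open Function Polynomial

namespace AWg

section
variable {ι V : Type} [DecidableEq ι]

theorem face_self (T : Option ι → V) (j : Option ι) (x : V) : face (update T j x) j = face T j := by
  funext i
  refine update_of_ne (fun h => ?_) _ _
  have := (Equiv.swap none j).injective (h.trans (Equiv.swap_apply_left none j).symm)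
  simp at this

theorem face_ne {j l : Option ι} (h : l ≠ j) : ∃ i : ι, Equiv.swap none j (some i) = l ∧
    ∀ (T : Option ι → V) (x : V), face (update T l x) j = update (face T j) i x := by
  have h1 : Equiv.swap none j l ≠ none := fun e =>
    h ((Equiv.swap none j).injective (e.trans (Equiv.swap_apply_right none j).symm))
  obtain ⟨i, hi⟩ := Option.ne_none_iff_exists'.1 h1
  have h2 : Equiv.swap none j (some i) = l := by rw [← hi, Equiv.swap_apply_self]
  refine ⟨i, h2, fun T x => ?_⟩
  subst h2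
  exact update_comp_eq_of_injective T (f := fun i => Equiv.swap none j (some i))
    ((Equiv.swap none j).injective.comp (Option.some_injective _)) i x

theorem nz_up {α R : Type} [DecidableEq α] [Zero R] {a : α → R} (h : Nz a) (i : α) {x : R}
    (hx : x ≠ 0) : Nz (update a i x) := fun l => by
  by_cases e : l = i
  · subst e
    rwa [update_self]
  · rw [update_of_ne e]
    exact h l

end

variable {ι κ : Type} [DecidableEq ι] [Fintype ι] [Field κ] {ψ : (ι → κ) → ℚ}

omit [Fintype ι] in
theorem nz_face {T : Option ι → κ} (h : Nz T) (j : Option ι) : Nz (face T j) := fun _ => h _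

theorem canc (hB : Bas ψ) {T : Option ι → κ} (hT : Nz T) {i j : Option ι} (h : i ≠ j)
    (e : T i = T j) : sg ℚ i * ψ (face T i) + sg ℚ j * ψ (face T j) = 0 := by
  rcases i with _ | a <;> rcases j with _ | b
  · exact absurd rfl h
  · rw [face_some, face_none, e, update_eq_self b fun i => T (some i)]
    simp [sg]
  · rw [face_some, face_none, ← e, update_eq_self a fun i => T (some i)]
    simp [sg]
  · have hab : a ≠ b := fun x => h (by rw [x])
    have e1 : face T (some b) = face T (some a) ∘ Equiv.swap a b := by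
      rw [face_some, face_some]
      funext l
      by_cases h1 : l = a
      · subst h1
        simp [hab, hab.symm, e]
      · by_cases h2 : l = b
        · subst h2
          simp
        · simp [h1, h2, Equiv.swap_apply_of_ne_of_ne h1 h2]
    rw [e1, hB.swap _ a b hab (nz_face hT _)]
    simp [sg]

theorem w1 (hψ : St ψ) {T : Option ι → κ} (hT : Nz T) (w : Option ι → ℚ) (j : Option ι) {x y : κ}
    (hx : x ≠ 0) (hy : y ≠ 0) (a b : ℚ) : wg ψ (update T j (x * y)) (update w j (a + b)) =
      wg ψ (update T j x) (update w j a) + wg ψ (update T j y) (update w j b) := by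
  unfold wg
  rw [← Finset.sum_add_distrib]
  refine Finset.sum_congr rfl fun l _ => ?_
  by_cases h : j = l
  · subst h
    simp only [face_self, update_self]
    ring
  · obtain ⟨i, -, hi⟩ := face_ne (V := κ) h
    simp only [hi, update_of_ne (Ne.symm h)]
    rw [hψ.mul _ i x y (nz_face hT l) hx hy]
    ring

theorem w2 (hψ : St ψ) (hB : Bas ψ) {T : Option ι → κ} (hT : Nz T) {w : Option ι → ℚ}
    {i j : Option ι} (h : i ≠ j) (e : T i = T j) (e' : w i = w j) : wg ψ T w = 0 := by
  unfold wg
  rw [Fintype.sum_eq_add i j h]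
  · rw [e']
    linear_combination w j * canc hB hT h e
  · rintro l ⟨h1, h2⟩
    obtain ⟨a, ha, -⟩ := face_ne (V := κ) (Ne.symm h1)
    obtain ⟨b, hb, -⟩ := face_ne (V := κ) (Ne.symm h2)
    rw [hψ.rep (face T l) a b (fun x => h (by rw [← ha, ← hb, x])) (nz_face hT l)
      (by simp only [face, ha, hb, e])]
    simp

theorem w3 (hB : Bas ψ) {T : Option ι → κ} (hT : Nz T) (w : Option ι → ℚ) (j : Option ι) {x : κ}
    (hx : x ≠ 0) : wg ψ (update T j (-x)) w = wg ψ (update T j x) w := by
  unfold wg
  refine Finset.sum_congr rfl fun l _ => ?_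
  by_cases h : j = l
  · subst h
    simp only [face_self]
  · obtain ⟨i, -, hi⟩ := face_ne (V := κ) h
    rw [hi, hi, hB.neg _ i x (nz_face hT l) hx]

theorem w4 (hψ : St ψ) (hB : Bas ψ) {T : Option ι → κ} (hT : Nz T) (w : Option ι → ℚ)
    {i j : Option ι} (h : i ≠ j) {x : κ} (hx : x ≠ 0) (a : ℚ) :
    wg ψ (update (update T i x) j x) (update (update w i a) j a) = 0 :=
  w2 hψ hB (nz_up (nz_up hT i hx) j hx) h (by simp [h]) (by simp [h])

theorem w5 (hψ : St ψ) (hB : Bas ψ) {T : Option ι → κ} (hT : Nz T) (w : Option ι → ℚ)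
    {i j : Option ι} (h : i ≠ j) {x y : κ} (hx : x ≠ 0) (hy : y ≠ 0) (a b : ℚ) :
    wg ψ (update (update T i x) j y) (update (update w i a) j b) +
      wg ψ (update (update T i y) j x) (update (update w i b) j a) = 0 := by
  have h0 := w4 hψ hB hT w h (mul_ne_zero hx hy) (a + b)
  rw [w1 hψ (nz_up hT i (mul_ne_zero hx hy)) _ j hx hy] at h0
  simp only [update_comm h] at h0
  rw [w1 hψ (nz_up hT j hx) _ i hx hy, w1 hψ (nz_up hT j hy) _ i hx hy] at h0
  simp only [update_comm h.symm] at h0
  rw [w4 hψ hB hT w h hx, w4 hψ hB hT w h hy] at h0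
  linarith

theorem w6 (hψ : St ψ) (hB : Bas ψ) {T : Option ι → κ} (hT : Nz T) {w : Option ι → ℚ}
    {i j : Option ι} (h : i ≠ j) (e : w i = w j) {x y : κ} (hx : x ≠ 0) (hy : y ≠ 0)
    (hz : x + y ≠ 0) : wg ψ (update (update T i x) j y) w =
      wg ψ (update (update T i x) j (x + y)) w + wg ψ (update (update T i (x + y)) j y) w := by
  rw [← sub_eq_zero]
  unfold wg
  rw [← Finset.sum_add_distrib, ← Finset.sum_sub_distrib, Fintype.sum_eq_add i j h]
  · have c := canc hB (nz_up (nz_up hT i hz) j hz) h (by simp [h])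
    have e1 : ∀ u t : κ, face (update (update T i u) j t) i = face (update T j t) i := fun u t => by
      rw [update_comm h, face_self]
    simp only [e1, face_self] at c ⊢
    rw [e]
    linear_combination -(w j) * c
  · rintro l ⟨h1, h2⟩
    obtain ⟨a, ha, ha'⟩ := face_ne (V := κ) (Ne.symm h1)
    obtain ⟨b, hb, hb'⟩ := face_ne (V := κ) (Ne.symm h2)
    simp only [ha', hb']
    rw [hψ.hs (face T l) a b x y (fun x => h (by rw [← ha, ← hb, x])) (nz_face hT l) hx hy hz]
    ring

theorem uniq {R : Type} [CommRing R] [IsDomain R] {π a b : R} (h0 : π ≠ 0) {n m : ℕ} (ha : ¬π ∣ a)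
    (hb : ¬π ∣ b) (e : π ^ n * a = π ^ m * b) : n = m ∧ a = b := by
  have k : ∀ {a b : R} {n m : ℕ}, ¬π ∣ a → π ^ n * a = π ^ m * b → m ≤ n := by
    intro a b n m ha e
    by_contra hc
    obtain ⟨t, rfl⟩ := Nat.exists_eq_add_of_lt (not_le.1 hc)
    refine ha ⟨π ^ t * b, mul_left_cancel₀ (pow_ne_zero n h0) ?_⟩
    rw [e]
    ring
  have e1 : n = m := le_antisymm (k hb e.symm) (k ha e)
  subst e1
  exact ⟨rfl, mul_left_cancel₀ (pow_ne_zero n h0) e⟩

end AWg

open AWg in
theorem rWg : RBas → RWg := by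
  intro hR ι R κ _ _ _ _ _ v s ψ hV hψ
  have hB := hR ι κ ψ hψ
  have nz : ∀ {a : Option ι → R}, Nz a → Nz (s ∘ a) := fun h i => hV.sne _ (h i)
  refine ⟨fun a i x y ha hx hy => ?_, fun a i j h ha e => ?_, fun a i j f g h ha hf hg hz => ?_⟩
  · simp only [comp_update]
    rw [hV.smul x y hx hy, hV.vmul x y hx hy, w1 hψ (nz ha) _ i (hV.sne x hx) (hV.sne y hy)]
  · exact w2 hψ hB (nz ha) h (by simp [e]) (by simp [e])
  · simp only [comp_update]
    have sf := hV.sne f hf
    have sg := hV.sne g hg
    have sz := hV.sne _ hz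
    rcases hV.add f g hf hg hz with ⟨e1, e2⟩ | ⟨e1, e2⟩ | ⟨e1, e2⟩ | ⟨e1, e2, e3⟩
    · rw [e1, e2, w4 hψ hB (nz ha) _ h sz, add_zero]
    · rw [e1, e2, w4 hψ hB (nz ha) _ h sz, zero_add]
    · rw [← e1, e2, w3 hB (nz_up (nz ha) i sf) _ j sf, w3 hB (nz_up (nz ha) i sz) _ j sf,
        w4 hψ hB (nz ha) _ h sf, w5 hψ hB (nz ha) _ h sf sz]
    · rw [← e2, e1, ← e3]
      exact w6 hψ hB (nz ha) h (by simp [h]) sf sg (e3 ▸ sz)

open AWg in
theorem rVS : RVS := by
  intro F _
  refine ⟨⟨fun f g hf hg => ?_, fun f g _ _ => leadingCoeff_mul f g,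
    fun f hf => leadingCoeff_ne_zero.2 hf, fun f g hf hg hz => ?_⟩, fun π hπ => ?_⟩
  · rw [natDegree_mul hf hg, Nat.cast_add]
  · rcases lt_trichotomy f.degree g.degree with h | h | h
    · exact Or.inl ⟨by rw [natDegree_add_eq_right_of_degree_lt h],
        (leadingCoeff_add_of_degree_lt h).symm⟩
    · have e := natDegree_eq_of_degree_eq h
      by_cases c : f.leadingCoeff + g.leadingCoeff = 0
      · exact Or.inr (Or.inr (Or.inl ⟨by rw [e], by linear_combination c⟩))
      · refine Or.inr (Or.inr (Or.inr ⟨by rw [e], ?_, (leadingCoeff_add_of_degree_eq h c).symm⟩))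
        have e2 := degree_add_eq_of_leadingCoeff_add_ne_zero c
        rw [h, max_self] at e2
        rw [natDegree_eq_of_degree_eq e2]
    · exact Or.inr (Or.inl ⟨by rw [natDegree_add_eq_left_of_degree_lt h],
        (leadingCoeff_add_of_degree_lt' h).symm⟩)
  · have hi := hπ.out
    have hp := hi.prime
    have ex : ∀ f : F[X], ∃ (n : ℕ) (a : F[X]), f ≠ 0 → ¬π ∣ a ∧ f = π ^ n * a := fun f => by
      by_cases h : f = 0
      · exact ⟨0, 0, fun x => absurd h x⟩
      · obtain ⟨n, a, H⟩ := WfDvdMonoid.max_power_factor h hi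
        exact ⟨n, a, fun _ => H⟩
    choose n u H using ex
    have key : ∀ (f : F[X]) (m : ℕ) (a : F[X]), ¬π ∣ a → f = π ^ m * a → n f = m ∧ u f = a := by
      intro f m a ha e
      have f0 : f ≠ 0 := by
        rw [e]
        exact mul_ne_zero (pow_ne_zero _ hp.ne_zero) fun x => ha (x ▸ dvd_zero π)
      exact uniq hp.ne_zero (H f f0).1 ha ((H f f0).2.symm.trans e)
    have km : ∀ f g, f ≠ 0 → g ≠ 0 → n (f * g) = n f + n g ∧ u (f * g) = u f * u g := by
      intro f g hf hg
      refine key _ _ _ (fun x => (hp.dvd_or_dvd x).elim (H f hf).1 (H g hg).1) ?_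
      linear_combination (exp := 1) g * (H f hf).2 + π ^ n f * u f * (H g hg).2
    have kl : ∀ f g, f ≠ 0 → g ≠ 0 → n f < n g → (n f : ℚ) = n (f + g) ∧
        AdjoinRoot.mk π (u f) = AdjoinRoot.mk π (u (f + g)) := by
      intro f g hf hg h
      obtain ⟨t, ht⟩ := Nat.exists_eq_add_of_lt h
      obtain ⟨a, b⟩ := key (f + g) (n f) (u f + π * (π ^ t * u g))
        (fun x => (H f hf).1 ((dvd_add_left (dvd_mul_right _ _)).1 x)) (by
          have e := (H g hg).2
          rw [ht] at e
          linear_combination (exp := 1) (H f hf).2 + e)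
      rw [a, b]
      simp
    refine ⟨fun f => n f, fun f => AdjoinRoot.mk π (u f), ⟨fun f g hf hg => ?_, fun f g hf hg => ?_,
      fun f hf x => (H f hf).1 (AdjoinRoot.mk_eq_zero.1 x), fun f g hf hg hz => ?_⟩, ?_, fun f hf => ?_⟩
    · rw [(km f g hf hg).1, Nat.cast_add]
    · rw [(km f g hf hg).2, map_mul]
    · rcases lt_trichotomy (n f) (n g) with h | h | h
      · exact Or.inr (Or.inl (kl f g hf hg h))
      · by_cases c : π ∣ u f + u g
        · refine Or.inr (Or.inr (Or.inl ⟨by rw [h], ?_⟩))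
          have := AdjoinRoot.mk_eq_zero.2 c
          rw [map_add] at this
          linear_combination this
        · obtain ⟨a, b⟩ := key (f + g) (n g) _ c (by
            have e := (H f hf).2
            rw [h] at e
            linear_combination (exp := 1) e + (H g hg).2)
          exact Or.inr (Or.inr (Or.inr ⟨by rw [h], by rw [a], by rw [b, map_add]⟩))
      · have := kl g f hg hf h
        rw [add_comm g f] at this
        exact Or.inl this
    · show ((n π : ℕ) : ℚ) = 1
      rw [(key π 1 1 hp.not_dvd_one (by simp)).1, Nat.cast_one]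
    · obtain ⟨a, b⟩ := key f 0 f hf (by simp)
      exact ⟨by simp [a], by simp [b]⟩

end Pool.Agent.MP_f3836a_nt.BT
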