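import Pool.Agent.MP_f3836a_nt.BT.SpecG

set_option autoImplicit false

/-! The projection method. -/

namespace Pool.Agent.MP_f3836a_nt.BT

open Filter Module

namespace GA2

variable {k Ω : Type} [Field k] [Field Ω] [Algebra k Ω] {U V : Submodule k Ω}

lemma pow_mem_adj (n : ℕ) : ∀ x ∈ U ^ n, x ∈ IntermediateField.adjoin k (U : Set Ω) :=
  fun _ hx => Submodule.pow_induction_on_left U (fun r => IntermediateField.algebraMap_mem _ r)
    (fun _ _ => add_mem) (fun _ h _ => mul_mem (IntermediateField.subset_adjoin _ _ h)) hx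

lemma pow_mono (h : 1 ∈ U) {m n : ℕ} (e : m ≤ n) : U ^ m ≤ U ^ n :=
  pow_le_pow_right' (Submodule.one_le.2 h) e

lemma fin_pow [FiniteDimensional k U] (n : ℕ) : FiniteDimensional k (U ^ n : Submodule k Ω) :=
  Module.Finite.iff_fg.2 ((Module.Finite.iff_fg.1 ‹_›).pow n)

lemma div_mem_rat {a b : Ω} (ha : a ∈ V) (hb : b ∈ V) : a / b ∈ RatF V :=
  IntermediateField.subset_adjoin _ _ ⟨a, ha, b, hb, rfl⟩

lemma rat_mono (h : U ≤ V) : RatF U ≤ RatF V :=
  IntermediateField.adjoin.mono _ _ _ fun _ ⟨a, ha, b, hb, e⟩ => ⟨a, h ha, b, h hb, e⟩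

lemma alg [FiniteDimensional k U] {s : ℕ} (h1 : 1 ∈ U) (hV : V ≤ U ^ s)
    (h : hh U (2 * s) < (s + 1) * finrank k V) {u : Ω} (hu : u ∈ U) : IsAlgebraic (RatF V) u := by
  by_contra tr
  have := fin_pow (U := U) s
  have := fin_pow (U := U) (2 * s)
  have := Submodule.finiteDimensional_of_le hV
  let f : (Fin (s + 1) → V) →ₗ[k] Ω :=
    ∑ i : Fin (s + 1), LinearMap.mulRight k (u ^ (i : ℕ)) ∘ₗ V.subtype ∘ₗ LinearMap.proj i
  have fa : ∀ g, f g = ∑ i : Fin (s + 1), (g i : Ω) * u ^ (i : ℕ) := fun g => by simp [f]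
  have m : ∀ g, f g ∈ U ^ (2 * s) := fun g => by
    rw [fa, two_mul, pow_add]
    exact sum_mem fun i _ => Submodule.mul_mem_mul (hV (g i).2)
      (pow_mono h1 (Nat.lt_succ_iff.1 i.2) (Submodule.pow_mem_pow U hu i))
  have inj : Function.Injective (f.codRestrict _ m) := by
    refine (injective_iff_map_eq_zero _).2 fun g hg => funext fun j => Subtype.ext ?_
    by_contra h0
    have e : ∑ i : Fin (s + 1), (g i : Ω) * u ^ (i : ℕ) = 0 := (fa g).symm.trans
      (congrArg Subtype.val hg)
    have z := transcendental_iff.1 tr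
      (∑ i : Fin (s + 1), Polynomial.monomial i ⟨_, div_mem_rat (g i).2 (g j).2⟩) (by
        simp only [map_sum, Polynomial.aeval_monomial, IntermediateField.algebraMap_apply,
          div_mul_eq_mul_div]
        rw [← Finset.sum_div, e, zero_div])
    have c := congrArg (fun P => Polynomial.coeff P j) z
    simp only [Polynomial.finsetSum_coeff, Polynomial.coeff_monomial, Fin.val_inj,
      Finset.sum_ite_eq', Finset.mem_univ, if_true, Polynomial.coeff_zero] at c
    exact div_ne_zero h0 h0 (congrArg Subtype.val c)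
  have := LinearMap.finrank_le_finrank_of_injective inj
  rw [Module.finrank_pi_fintype] at this
  simp only [Finset.sum_const, Finset.card_univ, Fintype.card_fin, smul_eq_mul] at this
  exact absurd this (not_le.2 h)

lemma shift (c ε : ℝ) (hε : 0 < ε) (a d : ℕ) :
    ∀ᶠ t : ℕ in atTop, c * ((t + a : ℕ) : ℝ) ^ d ≤ (c + ε) * (t : ℝ) ^ d := by
  have h : Tendsto (fun t : ℕ => c * (1 + (a : ℝ) / t) ^ d) atTop (nhds (c * (1 + 0) ^ d)) :=
    (((tendsto_const_div_atTop_nhds_zero_nat (a : ℝ)).const_add 1).pow d).const_mul c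
  filter_upwards [h.eventually_lt_const (show c * (1 + 0) ^ d < c + ε by simpa using hε),
    eventually_gt_atTop 0] with t h1 h2
  have t0 : (0 : ℝ) < t := by exact_mod_cast h2
  have : ((t + a : ℕ) : ℝ) = (1 + a / t) * t := by push_cast; field_simp
  rw [this, mul_pow, ← mul_assoc]
  exact mul_le_mul_of_nonneg_right h1.le (by positivity)

end GA2

open GA2

theorem rA2 : RA2 := by
  intro k Ω _ _ _ U V _ s h1 hV
  have le : ∀ W : Submodule k Ω, W ≤ U ^ s → RatF W ≤ IntermediateField.adjoin k (U : Set Ω) :=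
    fun W hW => IntermediateField.adjoin_le_iff.2 fun _ ⟨a, ha, b, hb, e⟩ =>
      e ▸ div_mem (pow_mem_adj s a (hW ha)) (pow_mem_adj s b (hW hb))
  refine ⟨le V hV, fun hs => (le _ le_rfl).antisymm (IntermediateField.adjoin_le_iff.2
    fun u hu => ?_), fun h => ?_⟩
  · have := pow_mono h1 hs
    rw [pow_one] at this
    simpa using div_mem_rat (this hu) (this h1)
  · obtain ⟨S, hS⟩ : U.FG := Module.Finite.iff_fg.1 ‹_›
    have sub : (S : Set Ω) ⊆ U := hS ▸ Submodule.subset_span
    have e : IntermediateField.adjoin k (U : Set Ω) = IntermediateField.adjoin k (S : Set Ω) := by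
      refine le_antisymm (IntermediateField.adjoin_le_iff.2 ?_)
        (IntermediateField.adjoin.mono _ _ _ sub)
      rw [← hS]
      exact Submodule.span_le (p := (IntermediateField.adjoin k (S : Set Ω)).toSubalgebra.toSubmodule)
        |>.2 (IntermediateField.subset_adjoin _ _)
    have l := le V hV
    rw [e] at l ⊢
    rw [IntermediateField.relfinrank_eq_finrank_of_le l, IntermediateField.extendScalars_adjoin l]
    have := IntermediateField.finiteDimensional_adjoin (K := RatF V) (S := (S : Set Ω))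
      fun x hx => (alg h1 hV h (sub hx)).isIntegral
    exact finrank_pos

theorem rAlb : RGrow → RAr → RA1 → RA2 → RAlb := by
  intro hG hR h1 h2 k Ω _ _ _ U _ d y hd u1 hy ai tr
  obtain ⟨C, hC⟩ := (hG k Ω U d).1 tr
  obtain ⟨D, s, s1, up, lt⟩ := hR.2 d C (hh U) hd hC ((hG k Ω U d).2 y hd u1 hy ai)
  set F := IntermediateField.adjoin k (U : Set Ω) with hF
  have := fin_pow (U := U) s
  have key : ∀ (n : ℕ) (V : Submodule k Ω), finrank k V = n → V ≤ U ^ s → V ≠ ⊥ →
      0 < (RatF V).relfinrank F → (∀ ε : ℝ, 0 < ε → ∀ᶠ t : ℕ in atTop,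
        ((RatF V).relfinrank F * hh V t : ℝ) ≤ (D * s ^ d - 3 * (hh U s - n) + ε) * t ^ d) →
      ∃ V : Submodule k Ω, FiniteDimensional k V ∧ V ≠ ⊥ ∧ RatF V ≤ F ∧
        0 < (RatF V).relfinrank F ∧ Sml V d (3 / (RatF V).relfinrank F) := by
    intro n
    induction n using Nat.strong_induction_on with
    | _ n ih =>
    intro V hn hV V0 κ0 ev
    have := Submodule.finiteDimensional_of_le hV
    have lV := (h2 k Ω U V s u1 hV).1
    by_cases sm : Sml V d (3 / (RatF V).relfinrank F)
    · exact ⟨V, this, V0, lV, κ0, sm⟩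
    simp only [Sml, not_forall, not_not] at sm
    obtain ⟨l, hl, l0, χ, big⟩ := sm
    obtain ⟨V', le, rk, pr⟩ := h1 k Ω V l hl l0 χ
    rw [hn] at rk
    have rk' : (finrank k V' : ℝ) + 1 = n := by exact_mod_cast rk
    have c0 : 0 ≤ D * s ^ d - 3 * (hh U s - n) := le_of_forall_pos_le_add fun ε hε => by
      obtain ⟨t, a, b⟩ := ((ev ε hε).and (eventually_gt_atTop 0)).exists
      exact nonneg_of_mul_nonneg_left (le_trans (by positivity) a) (by positivity)
    have big2 : hh U (2 * s) < (s + 1) * finrank k V' := by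
      have : (hh U (2 * s) : ℝ) < (s + 1) * finrank k V' :=
        lt.trans_le (mul_le_mul_of_nonneg_left (by linarith) (by positivity))
      exact_mod_cast this
    have V0' : V' ≠ ⊥ := by
      rintro rfl
      simp at big2
    have κ' := (h2 k Ω U V' s u1 (le.trans hV)).2.2 big2
    have mul := IntermediateField.relfinrank_mul_relfinrank (rat_mono le) lV
    obtain ⟨a, ha⟩ := pr V0' (Nat.pos_of_mul_pos_right (mul ▸ κ'))
    refine ih _ (by omega) V' rfl (le.trans hV) V0' κ' fun ε hε => ?_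
    filter_upwards [big, (tendsto_add_atTop_nat a).eventually (ev (ε / 2) (by positivity)),
      shift (D * s ^ d - 3 * (hh U s - n) + ε / 2) (ε / 2) (by positivity) a d] with t e1 e2 e3
    have e4 : (len χ t : ℝ) + (RatF V').relfinrank (RatF V) * hh V' t ≤ hh V (t + a) := by
      exact_mod_cast ha t
    have k0 : (0 : ℝ) < (RatF V).relfinrank F := by exact_mod_cast κ0
    rw [div_mul_eq_mul_div, div_le_iff₀ k0] at e1
    have e5 := mul_le_mul_of_nonneg_left e4 k0.le
    rw [← mul, ← rk', Nat.cast_mul] at *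
    linarith
  have e := (h2 k Ω U _ s u1 le_rfl).2.1 s1
  refine key _ (U ^ s) rfl le_rfl (fun h => ?_) (by simp [e, ← hF]) fun ε hε => ?_
  · have := pow_mono u1 (Nat.zero_le s) (Submodule.one_le.1 (pow_zero U).ge)
    simp [h] at this
  · have s0 : (0 : ℝ) < s ^ d := by positivity
    filter_upwards [(tendsto_id.const_mul_atTop' (s1 : 0 < s)).eventually
      (up (ε / s ^ d) (by positivity))] with t ht
    rw [e, IntermediateField.relfinrank_self, hh, ← pow_mul]
    refine le_of_eq_of_le (by simp [hh]) (ht.trans_eq ?_)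
    simp only [hh, id, Nat.cast_mul, mul_pow]
    field_simp
    ring

end Pool.Agent.MP_f3836a_nt.BT
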