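import Pool.Agent.MP_f3836a_nt.BT.SpecG

set_option autoImplicit false

/-! Two real estimates. -/

namespace Pool.Agent.MP_f3836a_nt.BT

open Filter Topology

namespace GAr

theorem ratio (d c : ℕ) :
    Tendsto (fun t : ℕ => (1 - (c : ℝ) / t) ^ d) atTop (𝓝 1) := by
  have h := ((tendsto_const_nhds (x := (1 : ℝ))).sub (tendsto_const_div_atTop_nhds_zero_nat (c : ℝ))).pow d
  simpa using h

theorem one (d o c : ℕ) (b : ℝ) (l : ℕ → ℕ) (hd : 1 ≤ d)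
    (h : ∀ t : ℕ, o * t ^ d ≤ d ^ d * l (t + c))
    (hn : ¬(∀ᶠ t : ℕ in atTop, b * (t : ℝ) ^ d ≤ l t)) : (o : ℝ) ≤ b * d ^ d := by
  by_contra hc
  apply hn
  have h1 : b * d ^ d < o * 1 := by rw [mul_one]; exact not_le.1 hc
  have h2 := ((ratio d c).const_mul (o : ℝ)).eventually (lt_mem_nhds h1)
  have d0 : (0 : ℝ) < (d : ℝ) ^ d := pow_pos (by exact_mod_cast hd) d
  filter_upwards [h2, eventually_ge_atTop (c + 1)] with t ht htc
  obtain ⟨s, rfl⟩ : ∃ s, t = s + c := ⟨t - c, by omega⟩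
  have t0 : (0 : ℝ) < ((s + c : ℕ) : ℝ) := by exact_mod_cast (show 0 < s + c by omega)
  have h3 : (o : ℝ) * (s : ℝ) ^ d ≤ (d : ℝ) ^ d * l (s + c) := by exact_mod_cast h s
  have e : (1 - (c : ℝ) / ((s + c : ℕ) : ℝ)) ^ d * ((s + c : ℕ) : ℝ) ^ d = (s : ℝ) ^ d := by
    rw [← mul_pow]
    congr 1
    field_simp
    push_cast
    ring
  have h4 := mul_le_mul_of_nonneg_right ht.le (pow_pos t0 d).le
  rw [mul_assoc (o : ℝ), e] at h4
  refine le_of_mul_le_mul_left ?_ d0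
  linarith

theorem two (d C : ℕ) (h : ℕ → ℕ) (hd : 1 ≤ d) (hC : ∀ t, 1 ≤ t → h t ≤ C * t ^ d)
    (hl : ∀ t, t ^ d ≤ d ^ d * h t) :
    ∃ (D : ℝ) (s : ℕ), 1 ≤ s ∧
      (∀ ε : ℝ, 0 < ε → ∀ᶠ t : ℕ in atTop, (h t : ℝ) ≤ (D + ε) * t ^ d) ∧
      (h (2 * s) : ℝ) < (s + 1) * (h s - D * s ^ d / 3 - 1) := by
  set S : Set ℝ := {a | ∀ᶠ t : ℕ in atTop, (h t : ℝ) ≤ a * t ^ d} with hS
  have d0 : (0 : ℝ) < (d : ℝ) ^ d := pow_pos (by exact_mod_cast hd) d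
  have hne : S.Nonempty := ⟨C, (eventually_ge_atTop 1).mono fun t ht => by exact_mod_cast hC t ht⟩
  have hlow : ∀ a ∈ S, 1 / (d : ℝ) ^ d ≤ a := by
    intro a ha
    obtain ⟨t, h1, h2⟩ := ((show ∀ᶠ t : ℕ in atTop, (h t : ℝ) ≤ a * t ^ d from ha).and
      (eventually_ge_atTop 1)).exists
    have t0 : (0 : ℝ) < (t : ℝ) ^ d := pow_pos (by exact_mod_cast h2) d
    have h3 : (t : ℝ) ^ d ≤ (d : ℝ) ^ d * h t := by exact_mod_cast hl t
    rw [div_le_iff₀ d0]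
    refine le_of_mul_le_mul_right ?_ t0
    nlinarith [mul_le_mul_of_nonneg_left h1 d0.le]
  have hbd : BddBelow S := ⟨_, hlow⟩
  have hD : 0 < sInf S := lt_of_lt_of_le (by positivity) (le_csInf hne hlow)
  set D := sInf S with hDd
  have hfr : ¬(∀ᶠ t : ℕ in atTop, (h t : ℝ) ≤ (2 * D / 3) * t ^ d) := fun h1 => by
    have := csInf_le hbd (show 2 * D / 3 ∈ S from h1)
    linarith
  have hev := (tendsto_natCast_atTop_atTop (R := ℝ)).eventually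
    (eventually_ge_atTop (6 / D + 6 * (C * 2 ^ d) / D))
  obtain ⟨s, h1, h2, h3⟩ := ((not_eventually.1 hfr).and_eventually
    (hev.and (eventually_ge_atTop 1))).exists
  refine ⟨D, s, h3, fun ε hε => ?_, ?_⟩
  · obtain ⟨a, ha, h4⟩ := exists_lt_of_csInf_lt hne (show D < D + ε by linarith)
    exact (show ∀ᶠ t : ℕ in atTop, (h t : ℝ) ≤ a * t ^ d from ha).mono fun t ht =>
      ht.trans (mul_le_mul_of_nonneg_right h4.le (by positivity))
  · have s1 : (1 : ℝ) ≤ s := by exact_mod_cast h3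
    have h4 : (h (2 * s) : ℝ) ≤ C * 2 ^ d * (s : ℝ) ^ d := by
      rw [mul_assoc, ← mul_pow]
      exact_mod_cast hC (2 * s) (by omega)
    have h5 : (s : ℝ) ≤ (s : ℝ) ^ d := le_self_pow₀ s1 (by omega)
    rw [← add_div, div_le_iff₀ hD] at h2
    have c0 : (0 : ℝ) ≤ C * 2 ^ d := by positivity
    have h6 : D * (s : ℝ) ^ d / 6 < h s - D * s ^ d / 3 - 1 := by
      have := mul_le_mul_of_nonneg_left h5 hD.le
      have := not_le.1 h1
      linarith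
    have h7 : (C : ℝ) * 2 ^ d * (s : ℝ) ^ d ≤ (s + 1) * (D * (s : ℝ) ^ d / 6) := by
      have : (C : ℝ) * 2 ^ d ≤ (s + 1) * D / 6 := by linarith
      calc (C : ℝ) * 2 ^ d * (s : ℝ) ^ d ≤ (s + 1) * D / 6 * (s : ℝ) ^ d :=
            mul_le_mul_of_nonneg_right this (by positivity)
        _ = _ := by ring
    exact (h4.trans h7).trans_lt (mul_lt_mul_of_pos_left h6 (by linarith))

end GAr

theorem rAr : RAr := ⟨GAr.one, GAr.two⟩

end Pool.Agent.MP_f3836a_nt.BT
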