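import Pool.Agent.MP_f3836a_nt.BT.SpecG

set_option autoImplicit false

/-! Row Chart: a chart containing finitely many points. -/

namespace Pool.Agent.MP_f3836a_nt.BT

open MvPolynomial

namespace GChart

variable {k Ω : Type} [Field k] [Field Ω] [Algebra k Ω] {N : ℕ}

theorem hom {L : MvPolynomial (Fin N) k} (hL : L.IsHomogeneous 1) (P : MvPolynomial (Fin N) k) :
    ∃ (n : ℕ) (H : MvPolynomial (Fin N) k), H.IsHomogeneous n ∧
      ∀ (K : Type) [Field K] [Algebra k K] (v : Fin N → K), aeval v L ≠ 0 →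
        aeval v H = aeval (fun i => v i / aeval v L) P * aeval v L ^ n := by
  induction P using MvPolynomial.induction_on with
  | C c => exact ⟨0, C c, isHomogeneous_C _ c, fun K _ _ v _ => by simp⟩
  | add P Q hP hQ =>
    obtain ⟨n, H, h1, h2⟩ := hP
    obtain ⟨m, G, h3, h4⟩ := hQ
    refine ⟨n + m, H * L ^ m + L ^ n * G, (h1.mul (one_mul m ▸ hL.pow m :)).add
      (IsHomogeneous.mul (one_mul n ▸ hL.pow n :) h3), fun K _ _ v hv => ?_⟩
    simp only [map_add, map_mul, map_pow, h2 K v hv, h4 K v hv]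
    ring
  | mul_X P i hP =>
    obtain ⟨n, H, h1, h2⟩ := hP
    refine ⟨n + 1, H * X i, h1.mul (isHomogeneous_X _ i), fun K _ _ v hv => ?_⟩
    simp only [map_mul, aeval_X, h2 K v hv]
    field_simp
    ring

theorem un {ξ : Fin N → Ω} {S : Set (Fin N → k)} {a A B : Ω} {m : ℕ} (hA : A ∈ Sp k ξ ^ m)
    (hB : B ∈ Sp k ξ ^ m) (e : a * B = A) (a0 : a ≠ 0) (B0 : B ≠ 0) {G : MvPolynomial (Fin N) k}
    (hG : G.IsHomogeneous (m + m)) (hg : aeval ξ G = A * B) (hS : ∀ x ∈ S, eval x G ≠ 0) :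
    a ∈ Un ξ S := by
  refine ⟨m + m, G, hG, hg ▸ mul_ne_zero (e ▸ mul_ne_zero a0 B0) B0, hS, ?_, ?_⟩ <;>
    rw [hg, pow_add]
  · rw [mul_assoc, mul_comm B, e]
    exact Submodule.mul_mem_mul hA hA
  · rw [← e, mul_assoc, mul_div_cancel_left₀ _ a0]
    exact Submodule.mul_mem_mul hB hB

end GChart

open GChart in
theorem rChart : RPw → RChF → RChart := by
  intro hP hC k Ω _ _ _ _ N ξ S hV hS hx
  obtain ⟨h1, h2⟩ := hP k Ω N ξ
  obtain ⟨L, hL, l0, hLS⟩ := h2 hV S hS fun x h => (hx x h).1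
  have lV : aeval ξ L ∈ Sp k ξ := by simpa using (h1 1 _).2 ⟨L, hL, rfl⟩
  have : FiniteDimensional k (Sp k ξ) := FiniteDimensional.span_of_finite _ (Set.finite_range _)
  obtain ⟨-, -, c1, c2, -⟩ := hC k Ω (Sp k ξ) _ lV l0
  refine ⟨fun e a ha a0 => ?_, _, lV, l0, ?_⟩
  · obtain ⟨r, hr, r', hr', r0, e'⟩ := c1 a ha
    obtain ⟨n, hn⟩ := c2 r hr
    obtain ⟨n', hn'⟩ := c2 r' hr'
    have hA := hn (n + n') (by omega)
    have hB := hn' (n + n') (by omega)
    obtain ⟨G, hG, hg⟩ := (h1 _ _).1 ((pow_add (Sp k ξ) _ _).ge (Submodule.mul_mem_mul hA hB))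
    exact un hA hB (by rw [← mul_assoc, e']) a0 (mul_ne_zero r0 (pow_ne_zero _ l0)) hG hg
      (by simp [e])
  let f : MvPolynomial (Fin N) k →ₐ[k] Chart (Sp k ξ) (aeval ξ L) := aeval fun i =>
    ⟨ξ i / aeval ξ L, Algebra.subset_adjoin ⟨ξ i, Submodule.subset_span ⟨i, rfl⟩, rfl⟩⟩
  have hf : ∀ P, (f P : Ω) = aeval (fun i => ξ i / aeval ξ L) P := fun P =>
    comp_aeval_apply _ (Chart (Sp k ξ) (aeval ξ L)).val P
  have fs : Function.Surjective f := fun u => by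
    have h : Chart (Sp k ξ) (aeval ξ L) ≤
        (aeval fun i => ξ i / aeval ξ L : MvPolynomial (Fin N) k →ₐ[k] Ω).range := by
      refine Algebra.adjoin_le ?_
      rintro _ ⟨a, ha, rfl⟩
      induction ha using Submodule.span_induction with
      | mem _ h => obtain ⟨i, rfl⟩ := h; exact ⟨X i, aeval_X _ i⟩
      | zero => exact (zero_div (aeval ξ L)).symm ▸ zero_mem _
      | add a b _ _ ha hb => exact (add_div a b _).symm ▸ add_mem ha hb
      | smul c a _ ha => exact (smul_div_assoc c a _).symm ▸ Subalgebra.smul_mem _ ha c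
    obtain ⟨P, e⟩ := h u.2
    exact ⟨P, Subtype.ext ((hf P).trans e)⟩
  refine ⟨fun x => f.liftOfSurjective fs (aeval fun i => x.1 i / aeval x.1 L) fun P hP => ?_,
    fun u u0 hu => ?_⟩
  · obtain ⟨n, H, h3, h4⟩ := hom hL P
    have h5 := h4 Ω ξ l0
    rw [← hf, show f P = 0 from hP, ZeroMemClass.coe_zero, zero_mul] at h5
    exact (mul_eq_zero.1 ((h4 k x (hLS x x.2)).symm.trans ((hx x x.2).2 n H h3 h5))).resolve_right
      (pow_ne_zero _ (hLS x x.2))
  · obtain ⟨P, rfl⟩ := fs u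
    obtain ⟨n, H, h3, h4⟩ := hom hL P
    refine un ((h1 n _).2 ⟨H, h3, rfl⟩) (Submodule.pow_mem_pow _ lV n)
      (by rw [hf, h4 Ω ξ l0]) (fun e => u0 (Subtype.ext e)) (pow_ne_zero _ l0)
      (h3.mul (one_mul n ▸ hL.pow n :)) (by rw [map_mul, map_pow]) fun x h => ?_
    have h5 := hu ⟨x, h⟩
    rw [AlgHom.liftOfSurjective_apply] at h5
    rw [map_mul, map_pow]
    exact mul_ne_zero ((h4 k x (hLS x h)).trans_ne (mul_ne_zero h5 (pow_ne_zero _ (hLS x h))))
      (pow_ne_zero _ (hLS x h))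

end Pool.Agent.MP_f3836a_nt.BT
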