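import Pool.Agent.MP_f3836a_nt.BT.SpecG

set_option autoImplicit false

/-! A good direction of projection. -/

namespace Pool.Agent.MP_f3836a_nt.BT

open MvPolynomial

namespace GDir

variable {k R : Type} [Field k] [CommRing R] [Algebra k R]

lemma dep [Nontrivial R] {d : ℕ} (h : Algebra.trdeg k R ≤ d) (v : Fin (d + 1) → R) :
    ¬AlgebraicIndependent k v := fun hv => by
  have := hv.cardinalMk_le_trdeg.trans h
  rw [Cardinal.mk_fin, Nat.cast_le] at this
  omega

/-- a power of the variable can be split off -/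
lemma strip {A : Type} [CommRing A] {P : Polynomial A} (hP : P ≠ 0) :
    ∃ (m : ℕ) (Q : Polynomial A), P = Polynomial.X ^ m * Q ∧ Q.coeff 0 ≠ 0 := by
  obtain ⟨Q, h1, h2⟩ := P.exists_eq_pow_rootMultiplicity_mul_and_not_dvd hP 0
  rw [map_zero, sub_zero] at h1 h2
  exact ⟨_, Q, h1, fun h => h2 (Polynomial.X_dvd_iff.2 h)⟩

/-- the relation restricted to a line -/
lemma order {d : ℕ} (χ : R →ₐ[k] k) (v : Fin (d + 1) → R) (o : ℕ)
    (h : OrdZ χ (fun j => v j.succ) (v 0) o) :
    ∃ ρ : MvPolynomial (Fin d) k, ρ ≠ 0 ∧ ∀ α, eval α ρ ≠ 0 → ∃ g : Polynomial k,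
      g.coeff o ≠ 0 ∧ Polynomial.aeval (v 0 - algebraMap k R (χ (v 0))) g ∈ cI χ (sh v α) := by
  obtain ⟨G, h0, h1⟩ := h
  let φ : MvPolynomial (Fin d) k →+* Polynomial (MvPolynomial (Fin d) k) :=
    eval₂Hom (Polynomial.C.comp C)
      fun j => Polynomial.C (C (χ (v j.succ))) + Polynomial.C (X j) * Polynomial.X
  let P := G.eval₂ φ (Polynomial.X + Polynomial.C (C (χ (v 0))))
  have hm : ∀ α : Fin d → k, P.map (eval α) =
      G.eval₂ ((Polynomial.mapRingHom (eval α)).comp φ)
        (Polynomial.X + Polynomial.C (χ (v 0))) := fun α => by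
    have := Polynomial.hom_eval₂ G φ (Polynomial.mapRingHom (eval α))
      (Polynomial.X + Polynomial.C (C (χ (v 0))))
    simpa using this
  refine ⟨P.coeff o, fun e => h1 ?_, fun α hα => ⟨P.map (eval α), ?_, ?_⟩⟩
  · have e1 : (P.map (eval 0)).coeff o = 0 := by rw [Polynomial.coeff_map, e, map_zero]
    have e2 : (Polynomial.mapRingHom (eval (0 : Fin d → k))).comp φ =
        Polynomial.C.comp (eval fun j => χ (v j.succ)) :=
      ringHom_ext (fun a => by simp [φ]) fun j => by simp [φ]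
    rw [hm, e2] at e1
    rwa [Polynomial.comp, Polynomial.eval₂_map]
  · rwa [Polynomial.coeff_map]
  · set w := v 0 - algebraMap k R (χ (v 0)) with hw
    set I := cI χ (sh v α) with hI
    let π : Polynomial k →+* R ⧸ I :=
      (Ideal.Quotient.mk I).comp (Polynomial.aeval w : Polynomial k →ₐ[k] R).toRingHom
    rw [← Ideal.Quotient.eq_zero_iff_mem]
    change π _ = 0
    have e1 : π.comp ((Polynomial.mapRingHom (eval α)).comp φ) =
        (Ideal.Quotient.mk I).comp (aeval fun j => v j.succ : _ →ₐ[k] R).toRingHom := by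
      refine ringHom_ext (fun a => by simp [φ, π]) fun j => ?_
      have m : sh v α j - algebraMap k R (χ (sh v α j)) ∈ I := Ideal.subset_span ⟨j, rfl⟩
      have e : π (((Polynomial.mapRingHom (eval α)).comp φ) (X j)) = Ideal.Quotient.mk I
          (algebraMap k R (χ (v j.succ)) + algebraMap k R (α j) * w) := by simp [φ, π]
      rw [RingHom.comp_apply, e]
      simp only [RingHom.comp_apply, AlgHom.toRingHom_eq_coe, RingHom.coe_coe, aeval_X]
      rw [eq_comm, Ideal.Quotient.eq]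
      have e' : v j.succ - (algebraMap k R (χ (v j.succ)) + algebraMap k R (α j) * w) =
          sh v α j - algebraMap k R (χ (sh v α j)) := by
        simp only [sh, hw, Algebra.smul_def, map_sub, map_mul, AlgHom.commutes,
          Algebra.algebraMap_self, RingHom.id_apply]
        ring
      rwa [e']
    have e2 : π (Polynomial.X + Polynomial.C (χ (v 0))) = Ideal.Quotient.mk I (v 0) := by
      have : v 0 = w + algebraMap k R (χ (v 0)) := by rw [hw, sub_add_cancel]
      conv_rhs => rw [this]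
      simp [π]
    rw [hm, Polynomial.hom_eval₂, e1, e2, ← Polynomial.hom_eval₂, h0, map_zero]

/-- the directions towards the zeros of `c` lie in a hypersurface -/
lemma avoid [IsDomain R] {d : ℕ} (h : Algebra.trdeg k R ≤ d) {c : R} (hc : c ≠ 0) (w : R)
    (η : Fin d → R) : ∃ ρ : MvPolynomial (Fin d) k, ρ ≠ 0 ∧ ∀ α, eval α ρ ≠ 0 →
      ∀ χ : R →ₐ[k] k, χ c = 0 → (∀ j, χ (η j) = α j * χ w) → χ w = 0 := by
  rcases eq_or_ne w 0 with rfl | w0
  · exact ⟨1, one_ne_zero, fun _ _ χ _ _ => map_zero χ⟩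
  have hle := powers_le_nonZeroDivisors_of_noZeroDivisors w0
  let L := Localization.Away w
  have : IsDomain L := IsLocalization.isDomain_localization hle
  have inj : Function.Injective (algebraMap R L) := IsLocalization.injective L hle
  have : FaithfulSMul R L := (faithfulSMul_iff_algebraMap_injective R L).2 inj
  have : Algebra.IsAlgebraic R L := IsLocalization.isAlgebraic L (Submonoid.powers w)
  have hL : Algebra.trdeg k L ≤ d := by
    rw [← trdeg_add_eq k R (A := L), trdeg_eq_zero (R := R) (A := L), add_zero]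
    exact h
  let θ : Fin d → L := fun j => algebraMap R L (η j) * IsLocalization.Away.invSelf w
  have hd := dep hL (Fin.cons (algebraMap R L c) θ : Fin (d + 1) → L)
  rw [algebraicIndependent_iff] at hd
  push Not at hd
  obtain ⟨H, H1, H0⟩ := hd
  obtain ⟨m, Q, e, Q0⟩ := strip (P := finSuccEquiv k d H)
    (fun e => H0 ((finSuccEquiv k d).injective (by rw [e, map_zero])))
  let E : Polynomial (MvPolynomial (Fin d) k) →+* L :=
    Polynomial.eval₂RingHom (aeval θ : _ →ₐ[k] L).toRingHom (algebraMap R L c)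
  have e1 : E.comp (finSuccEquiv k d : _ →+* _) =
      (aeval (Fin.cons (algebraMap R L c) θ : Fin (d + 1) → L) : _ →ₐ[k] L).toRingHom := by
    refine ringHom_ext (fun a => by simp [E, finSuccEquiv_apply]) fun j => ?_
    refine Fin.cases ?_ (fun j => ?_) j
    · simp [E, finSuccEquiv_X_zero]
    · simp [E, finSuccEquiv_X_succ]
  have e2 : E (finSuccEquiv k d H) = 0 := (RingHom.congr_fun e1 H).trans H1
  have c0 : algebraMap R L c ≠ 0 := fun e => hc (inj (by rw [e, map_zero]))
  have e3 : E Q = 0 := by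
    rw [e, map_mul, map_pow] at e2
    refine (mul_eq_zero.1 e2).resolve_left (pow_ne_zero _ ?_)
    simpa [E] using c0
  refine ⟨Q.coeff 0, Q0, fun α hα χ χc χη => ?_⟩
  by_contra hw
  let ψ : L →ₐ[k] k := IsLocalization.Away.liftAlgHom w (f := χ) (IsUnit.mk0 _ hw)
  have ψa : ∀ r, ψ (algebraMap R L r) = χ r := fun r =>
    IsLocalization.Away.lift_eq w (g := χ.toRingHom) (IsUnit.mk0 _ hw) r
  have ψθ : ∀ j, ψ (θ j) = α j := fun j => by
    have a1 : θ j * algebraMap R L w = algebraMap R L (η j) := by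
      simp only [θ]
      rw [mul_assoc, mul_comm (IsLocalization.Away.invSelf w), IsLocalization.Away.mul_invSelf,
        mul_one]
    have a2 := congrArg ψ a1
    rw [map_mul, ψa, ψa, χη] at a2
    exact mul_right_cancel₀ hw a2
  have e4 : ψ.toRingHom.comp (aeval θ : _ →ₐ[k] L).toRingHom = eval α :=
    ringHom_ext (fun a => by simp) fun j => by simp [ψθ]
  have e5 := congrArg ψ.toRingHom e3
  simp only [E, Polynomial.coe_eval₂RingHom] at e5
  rw [Polynomial.hom_eval₂, e4, map_zero] at e5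
  have e6 : ψ.toRingHom (algebraMap R L c) = 0 := (ψa c).trans χc
  rw [e6, Polynomial.eval₂_at_zero] at e5
  exact hα e5

/-- the theorem of zeros -/
lemma nst [IsAlgClosed k] [Algebra.FiniteType k R] (J : Ideal R) (w : R)
    (h : ∀ χ : R →ₐ[k] k, (∀ x ∈ J, χ x = 0) → χ w = 0) : w ∈ J.radical := by
  have : IsJacobsonRing R := isJacobsonRing_of_finiteType (A := k)
  rw [J.radical_eq_jacobson, Ideal.jacobson, Ideal.mem_sInf]
  rintro m ⟨hJ, hm⟩
  let := Ideal.Quotient.field m
  have : Module.Finite k (R ⧸ m) := finite_of_finite_type_of_isJacobsonRing k (R ⧸ m)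
  let e : k ≃ₐ[k] R ⧸ m := AlgEquiv.ofBijective (Algebra.ofId k _)
    IsAlgClosed.algebraMap_bijective_of_isIntegral
  have key : ∀ x, (e.symm.toAlgHom.comp (Ideal.Quotient.mkₐ k m)) x = 0 ↔ x ∈ m := fun x => by
    change e.symm (Ideal.Quotient.mk m x) = 0 ↔ _
    rw [map_eq_zero_iff _ e.symm.injective, Ideal.Quotient.eq_zero_iff_mem]
  exact (key w).1 (h _ fun x hx => (key x).2 (hJ hx))

lemma pow_mem' {J : Ideal R} {w : R} {g : Polynomial k} {o B : ℕ} (ho : o ≤ B)
    (g0 : g.coeff o ≠ 0) (hg : Polynomial.aeval w g ∈ J) (hw : w ∈ J.radical) : w ^ B ∈ J := by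
  obtain ⟨m, u, rfl, u0⟩ := strip (P := g) (fun e => g0 (by rw [e, Polynomial.coeff_zero]))
  have mo : m ≤ o := not_lt.1 fun l =>
    g0 (Polynomial.X_pow_dvd_iff.1 (dvd_mul_right _ _) o l)
  have nil : IsNilpotent (Ideal.Quotient.mk J w) := by
    obtain ⟨n, hn⟩ := hw
    exact ⟨n, by rw [← map_pow, Ideal.Quotient.eq_zero_iff_mem]; exact hn⟩
  have un : IsUnit (Ideal.Quotient.mk J (Polynomial.aeval w u)) := by
    rw [← u.X_mul_divX_add, map_add, map_mul, map_add, map_mul, Polynomial.aeval_X,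
      Polynomial.aeval_C]
    exact ((Commute.all _ _).isNilpotent_mul_right nil).isUnit_add_right_of_commute
      (((IsUnit.mk0 _ u0).map (algebraMap k R)).map _) (Commute.all _ _)
  rw [← Ideal.Quotient.eq_zero_iff_mem, map_mul, map_mul, un.mul_left_eq_zero, map_pow,
    Polynomial.aeval_X, Ideal.Quotient.eq_zero_iff_mem] at hg
  obtain ⟨r, rfl⟩ := Nat.exists_eq_add_of_le (mo.trans ho)
  rw [pow_add]
  exact J.mul_mem_right _ hg

end GDir

open GDir in
theorem rDir : RNN0 → RDir := by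
  intro H k R _ _ _ _ _ d B v hv hd σ _ χ ho c hc
  have : Algebra.FiniteType k R :=
    ⟨hv ▸ Subalgebra.fg_def.2 ⟨_, Set.finite_range v, rfl⟩⟩
  obtain ⟨ρ, ρ0, hρ⟩ := (H k R d v (dep hd v)).1
  have key : ∀ s, ∃ τ : MvPolynomial (Fin d) k, τ ≠ 0 ∧ ∀ α, eval α τ ≠ 0 →
      (v 0 - algebraMap k R (χ s (v 0))) ^ B ∈ cI (χ s) (sh v α) ⊔ Ideal.span {c} := fun s => by
    obtain ⟨o, oB, h⟩ := ho s
    obtain ⟨τ, τ0, hτ⟩ := order (χ s) v o h
    obtain ⟨μ, μ0, hμ⟩ := avoid hd hc (v 0 - algebraMap k R (χ s (v 0)))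
      fun j => v j.succ - algebraMap k R (χ s (v j.succ))
    refine ⟨τ * μ, mul_ne_zero τ0 μ0, fun α hα => ?_⟩
    rw [map_mul, mul_ne_zero_iff] at hα
    obtain ⟨g, g0, hg⟩ := hτ α hα.1
    refine pow_mem' oB g0 (Ideal.mem_sup_left hg) (nst (k := k) _ _ fun χ' h' => ?_)
    refine hμ α hα.2 χ' (h' c (Ideal.mem_sup_right (Ideal.mem_span_singleton_self c))) fun j => ?_
    have := h' _ (Ideal.mem_sup_left (Ideal.subset_span ⟨j, rfl⟩))
    simp only [sh, map_sub, map_smul, smul_eq_mul, map_mul, AlgHom.commutes,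
      Algebra.algebraMap_self, RingHom.id_apply] at this ⊢
    linear_combination this
  choose τ τ0 hτ using key
  have := Fintype.ofFinite σ
  have ne : ρ * ∏ s, τ s ≠ 0 := mul_ne_zero ρ0 (Finset.prod_ne_zero_iff.2 fun s _ => τ0 s)
  obtain ⟨α, hα⟩ : ∃ α, eval α (ρ * ∏ s, τ s) ≠ 0 := by
    by_contra hn
    push Not at hn
    exact ne (MvPolynomial.funext fun α => by rw [hn α, map_zero])
  rw [map_mul, mul_ne_zero_iff, map_prod, Finset.prod_ne_zero_iff] at hα
  exact ⟨α, hρ α hα.1, fun s => hτ s α (hα.2 s (Finset.mem_univ s))⟩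

end Pool.Agent.MP_f3836a_nt.BT
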