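import Pool.Agent.MP_f3836a_nt.BT.SpecG

set_option autoImplicit false

/-! A dimension function on the cone. -/

namespace Pool.Agent.MP_f3836a_nt.BT

open MvPolynomial

namespace GDrop

variable {k : Type} [Field k] {N : ℕ}

theorem hom_mul {B : Type} [CommRing B] [Algebra k B] {n : ℕ} {G : MvPolynomial (Fin N) k}
    (hG : G.IsHomogeneous n) (c : B) (x : Fin N → B) :
    aeval (fun i => x i * c) G = aeval x G * c ^ n := by
  rw [aeval_def, aeval_def, eval₂_eq', eval₂_eq', Finset.sum_mul]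
  refine Finset.sum_congr rfl fun d hd => ?_
  have e : ∑ i, d i = n := by
    by_contra e
    exact mem_support_iff.1 hd (hG.coeff_eq_zero (by rwa [Finsupp.degree_eq_sum]))
  simp only [mul_pow, Finset.prod_mul_distrib, Finset.prod_pow_eq_pow_sum, e, mul_assoc]

/-- the line through a point -/
noncomputable def line {K : Type} [CommRing K] [Algebra k K] (η : Fin N → K) :
    MvPolynomial (Fin N) k →ₐ[k] Polynomial K :=
  aeval fun i => Polynomial.C (η i) * Polynomial.X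

theorem line_hom {K : Type} [CommRing K] [Algebra k K] (η : Fin N → K) {n : ℕ}
    {G : MvPolynomial (Fin N) k} (hG : G.IsHomogeneous n) :
    line η G = Polynomial.C (aeval η G) * Polynomial.X ^ n := by
  rw [line, hom_mul hG]
  congr 1
  exact (comp_aeval_apply η (Polynomial.CAlgHom (R := k) (A := K)) G).symm

theorem line_coeff {K : Type} [CommRing K] [Algebra k K] (η : Fin N → K) (n : ℕ)
    (G : MvPolynomial (Fin N) k) :
    (line η G).coeff n = aeval η (homogeneousComponent n G) := by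
  conv_lhs => rw [← sum_homogeneousComponent G, map_sum, Polynomial.finsetSum_coeff]
  simp only [line_hom η (homogeneousComponent_isHomogeneous _ G), Polynomial.coeff_C_mul_X_pow]
  rw [Finset.sum_ite_eq]
  split_ifs with h
  · rfl
  · rw [homogeneousComponent_eq_zero n G (by simpa using h), map_zero]

theorem ind_of_ker {A R R' ι : Type} [CommRing A] [CommRing R] [CommRing R'] [Algebra k A]
    [Algebra k R] [Algebra k R'] {ψ : A →ₐ[k] R} {π : A →ₐ[k] R'} (h : ∀ a, π a = 0 → ψ a = 0)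
    {f : ι → A} (hf : AlgebraicIndependent k fun i => ψ (f i)) :
    AlgebraicIndependent k fun i => π (f i) := by
  rw [algebraicIndependent_iff] at hf ⊢
  intro p hp
  rw [← comp_aeval_apply] at hp
  exact hf p (by rw [← comp_aeval_apply, h _ hp])

theorem ind_opt {A R R' ι : Type} [CommRing A] [CommRing R] [CommRing R'] [IsDomain R']
    [Algebra k A] [Algebra k R] [Algebra k R'] {ψ : A →ₐ[k] R} {π : A →ₐ[k] R'}
    (hs : Function.Surjective π) (h : ∀ a, π a = 0 → ψ a = 0) {f : ι → A}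
    (hf : AlgebraicIndependent k fun i => ψ (f i)) {G : A} (h0 : π G ≠ 0) (h1 : ψ G = 0) :
    AlgebraicIndependent k fun o : Option ι => π (o.elim G f) := by
  have e : (fun o : Option ι => π (o.elim G f)) = fun o => o.elim (π G) fun i => π (f i) := by
    funext o
    cases o <;> rfl
  rw [e, AlgebraicIndependent.option_iff]
  refine ⟨ind_of_ker h hf, fun ha => ?_⟩
  obtain ⟨⟨b, hb⟩, b0, c, hc⟩ := ha.exists_nonzero_dvd (mem_nonZeroDivisors_of_ne_zero h0)
  obtain ⟨H, rfl⟩ := hs c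
  obtain ⟨p, rfl⟩ : ∃ p, aeval (fun i => π (f i)) p = b := by
    rwa [Algebra.adjoin_range_eq_range_aeval] at hb
  have h2 : π (aeval f p - G * H) = 0 := by
    rw [map_sub, map_mul, comp_aeval_apply, ← hc]
    exact sub_self _
  have h3 := h _ h2
  rw [map_sub, map_mul, h1, zero_mul, sub_zero, comp_aeval_apply] at h3
  obtain rfl := algebraicIndependent_iff.1 hf p h3
  exact b0 (Subtype.ext (map_zero (aeval fun i => π (f i))))

variable {Ω : Type} [Field Ω] [Algebra k Ω] (ξ : Fin N → Ω)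

/-- the forms that vanish at the generic point -/
def P0 : Set (MvPolynomial (Fin N) k) := {G | (∃ n, G.IsHomogeneous n) ∧ aeval ξ G = 0}

/-- the dimension function -/
def DD (n : ℕ) (I : Set (MvPolynomial (Fin N) k)) : Prop :=
  ∀ (R : Type) [CommRing R] [IsDomain R] [Algebra k R] (ψ : MvPolynomial (Fin N) k →ₐ[k] R),
    (∀ G ∈ P0 ξ ∪ I, ψ G = 0) → ∀ (ι : Type) [Fintype ι] (f : ι → MvPolynomial (Fin N) k),
    (AlgebraicIndependent k fun i => ψ (f i)) → Fintype.card ι ≤ n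

theorem top {d : ℕ} (hd : Algebra.trdeg k (RatF (Sp k ξ)) ≤ d) : DD (k := k) ξ (d + 1) ∅ := by
  intro R _ _ _ ψ hψ ι _ f hf
  obtain ⟨v, v0, hv⟩ : ∃ v : Ω, v ≠ 0 ∧ ∀ i, ξ i / v ∈ RatF (Sp k ξ) := by
    by_cases e : ∀ i, ξ i = 0
    · exact ⟨1, one_ne_zero, fun i => by rw [e, zero_div]; exact zero_mem _⟩
    · obtain ⟨j, hj⟩ := not_forall.1 e
      exact ⟨ξ j, hj, fun i => IntermediateField.subset_adjoin _ _
        ⟨_, Submodule.subset_span ⟨i, rfl⟩, _, Submodule.subset_span ⟨j, rfl⟩, rfl⟩⟩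
  let η : Fin N → RatF (Sp k ξ) := fun i => ⟨ξ i / v, hv i⟩
  have h1 : ∀ G, line η G = 0 → ψ G = 0 := by
    intro G hG
    rw [← sum_homogeneousComponent G, map_sum]
    refine Finset.sum_eq_zero fun n _ => hψ _ (Or.inl
      ⟨⟨n, homogeneousComponent_isHomogeneous n G⟩, ?_⟩)
    have h2 := line_coeff η n G
    rw [hG, Polynomial.coeff_zero] at h2
    have h3 := comp_aeval_apply η (RatF (Sp k ξ)).val (homogeneousComponent n G)
    rw [← h2, map_zero] at h3
    have h4 := hom_mul (homogeneousComponent_isHomogeneous n G) v fun i => ξ i / v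
    simp only [div_mul_cancel₀ _ v0] at h4
    rw [h4]
    exact mul_eq_zero_of_left h3.symm _
  have h5 := (ind_of_ker h1 hf).cardinalMk_le_trdeg
  rw [← trdeg_add_eq k (RatF (Sp k ξ)), Polynomial.trdeg_of_isDomain, Cardinal.mk_fintype] at h5
  exact_mod_cast h5.trans (add_le_add_left hd 1)

theorem step [IsAlgClosed k] (n : ℕ) (I : Set (MvPolynomial (Fin N) k)) (h : DD ξ (n + 1) I) :
    ∃ S : Set (Fin N → k), S.Finite ∧ (∀ x ∈ S, IsPt ξ x) ∧
      ∀ G, (∀ x ∈ S, eval x G ≠ 0) → DD ξ n (insert G I) := by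
  have key : ∀ Q : Ideal (MvPolynomial (Fin N) k), ∃ T : Set (Fin N → k), T.Finite ∧
      (∀ x ∈ T, x ≠ 0 ∧ x ∈ zeroLocus k Q) ∧ (T.Nonempty ∨ ∀ x ∈ zeroLocus k Q, x = 0) := by
    intro Q
    by_cases e : ∀ x ∈ zeroLocus k Q, x = 0
    · exact ⟨∅, Set.finite_empty, fun _ h => h.elim, Or.inr e⟩
    · obtain ⟨x, hx⟩ := not_forall.1 e
      obtain ⟨x1, x2⟩ := Classical.not_imp.1 hx
      exact ⟨{x}, Set.finite_singleton x, fun y hy => hy ▸ ⟨x2, x1⟩, Or.inl ⟨x, rfl⟩⟩
  choose T T1 T2 T3 using key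
  refine ⟨⋃ Q ∈ (Ideal.span (P0 ξ ∪ I)).minimalPrimes, T Q,
    (Ideal.finite_minimalPrimes_of_isNoetherianRing _ _).biUnion fun Q _ => T1 Q, ?_, ?_⟩
  · intro x hx
    obtain ⟨Q, hQ, hx⟩ := Set.mem_iUnion₂.1 hx
    refine ⟨(T2 Q x hx).1, fun m G hG e => ?_⟩
    rw [← aeval_eq_eval]
    exact (T2 Q x hx).2 G (hQ.1.2 (Ideal.subset_span (Or.inl ⟨⟨m, hG⟩, e⟩)))
  intro G hG R _ _ _ ψ hψ ι _ f hf
  have := RingHom.ker_isPrime ψ
  obtain ⟨Q, hQ, le⟩ := Ideal.exists_minimalPrimes_le (I := Ideal.span (P0 ξ ∪ I))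
    (J := RingHom.ker ψ) (Ideal.span_le.2 fun H hH =>
      hψ H (hH.elim Or.inl fun e => Or.inr (Or.inr e)))
  have := hQ.1.1
  have z : ∀ a, Ideal.Quotient.mkₐ k Q a = 0 ↔ a ∈ Q := fun _ => Ideal.Quotient.eq_zero_iff_mem
  rcases T3 Q with ⟨x, hx⟩ | e
  · have h0 : G ∉ Q := fun e => hG x (Set.mem_iUnion₂.2 ⟨Q, hQ, hx⟩) (by
      rw [← aeval_eq_eval]
      exact (T2 Q x hx).2 G e)
    have := h _ (Ideal.Quotient.mkₐ k Q) (fun H hH => (z H).2 (hQ.1.2 (Ideal.subset_span hH))) _ _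
      (ind_opt (Ideal.Quotient.mkₐ_surjective k Q) (fun a ha => le ((z a).1 ha)) hf
        (fun e => h0 ((z G).1 e)) (hψ G (Or.inr (Or.inl rfl))))
    rw [Fintype.card_option] at this
    omega
  · have h1 : ∀ i, ψ (X i) = 0 := fun i => le (by
      rw [← IsPrime.vanishingIdeal_zeroLocus (K := k) Q]
      intro x hx
      rw [e x hx, aeval_X]
      rfl)
    have h2 : ψ = aeval 0 := algHom_ext fun i => by rw [h1, aeval_X]; rfl
    have : IsEmpty ι := ⟨fun i => hf.transcendental i (by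
      rw [h2, aeval_zero]
      exact isAlgebraic_algebraMap _)⟩
    rw [Fintype.card_eq_zero]
    exact n.zero_le

theorem bot (I : Set (MvPolynomial (Fin N) k)) (h : DD ξ 0 I)
    (hI : ∀ G ∈ I, ∃ γ, G.IsHomogeneous γ) (x : Fin N → k) (hx : IsPt ξ x) :
    ∃ G ∈ I, eval x G ≠ 0 := by
  by_contra e
  obtain ⟨i, hi⟩ := Function.ne_iff.1 hx.1
  have z : ∀ {G : MvPolynomial (Fin N) k} {m : ℕ}, G.IsHomogeneous m → eval x G = 0 →
      line x G = 0 := fun hG e => by rw [line_hom x hG, aeval_eq_eval, e, map_zero, zero_mul]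
  have := h _ (line x) (fun G hG => hG.elim (fun ⟨⟨m, a⟩, b⟩ => z a (hx.2 m G a b))
    fun a => (hI G a).elim fun _ b => z b (by_contra fun c => e ⟨G, a, c⟩)) Unit (fun _ => X i) (by
      rw [algebraicIndependent_unique_type_iff, line, aeval_X]
      refine Polynomial.transcendental _ ?_ ?_
      · rw [Polynomial.natDegree_C_mul_X _ hi]
        exact one_ne_zero
      · rw [Polynomial.leadingCoeff_C_mul_X]
        exact mem_nonZeroDivisors_of_ne_zero hi)
  simp at this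

end GDrop

theorem rDrop : RDrop := fun _ _ _ _ _ _ _ _ ξ hd =>
  ⟨GDrop.DD ξ, GDrop.top ξ hd, GDrop.step ξ, GDrop.bot ξ⟩

end Pool.Agent.MP_f3836a_nt.BT
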