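import Pool.Agent.MP_f3836a_nt.BT.SpecG

set_option autoImplicit false

/-! The cover by monomials. -/

namespace Pool.Agent.MP_f3836a_nt.BT

open Finset

namespace GGen

variable {k Ω : Type} [Field k] [Field Ω] [Algebra k Ω] {m : ℕ}

/-- a monomial -/
def mon (g : Fin m → Ω) (n : Fin m → ℕ) : Ω := ∏ l, g l ^ n l

theorem mon_add (g : Fin m → Ω) (n n' : Fin m → ℕ) : mon g (n + n') = mon g n * mon g n' := by
  simp only [mon, Pi.add_apply, pow_add, prod_mul_distrib]

theorem mon_single (g : Fin m → Ω) (j : Fin m) : mon g (Pi.single j 1) = g j := by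
  unfold mon
  rw [prod_eq_single j]
  · simp
  · intro l _ hl
    simp [hl]
  · intro h
    exact absurd (mem_univ j) h

theorem sum_single (j : Fin m) (c : ℕ) : ∑ l, (Pi.single j c : Fin m → ℕ) l = c := by simp

theorem mon_mem {V : Submodule k Ω} {γ : ℕ} {g : Fin m → Ω} (hg : ∀ j, g j ∈ V ^ γ)
    (n : Fin m → ℕ) : mon g n ∈ V ^ ((∑ l, n l) * γ) := by
  unfold mon
  induction (univ : Finset (Fin m)) using Finset.induction_on with
  | empty =>
    rw [prod_empty, sum_empty, zero_mul, pow_zero]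
    exact Submodule.one_le.1 le_rfl
  | insert l s hl ih =>
    rw [prod_insert hl, sum_insert hl, add_mul, pow_add]
    refine Submodule.mul_mem_mul ?_ ih
    rw [mul_comm, pow_mul]
    exact Submodule.pow_mem_pow _ (hg l) _

theorem ind {V : Submodule k Ω} {γ T₀ T : ℕ} {g : Fin m → Ω} (hG : ∀ T, T₀ ≤ T → GenT V γ g T)
    (hT : T₀ ≤ T) (S : AddSubmonoid Ω) (N : ℕ) : ∀ c : Ω,
    (∀ n : Fin m → ℕ, ∑ l, n l = N → ∀ x ∈ V ^ T, c * (mon g n * x) ∈ S) →
    ∀ w ∈ V ^ (T + N * γ), c * w ∈ S := by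
  induction N with
  | zero =>
    intro c h w hw
    rw [zero_mul, add_zero] at hw
    simpa [mon] using h 0 (by simp) w hw
  | succ N ih =>
    intro c h w hw
    rw [add_mul, one_mul, ← add_assoc] at hw
    obtain ⟨v, hv, rfl⟩ := hG (T + N * γ) (by omega) w hw
    rw [mul_sum]
    refine S.sum_mem fun j _ => ?_
    rw [← mul_assoc]
    refine ih (c * g j) (fun n hn x hx => ?_) _ (hv j)
    have h1 := h (n + Pi.single j 1) (by
      simp only [Pi.add_apply, sum_add_distrib, hn, sum_single]) x hx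
    rw [mon_add, mon_single] at h1
    convert h1 using 1
    ring

theorem sub_sum (n : Fin m → ℕ) (s : ℕ) (h : s ≤ ∑ l, n l) :
    ∃ w : Fin m → ℕ, (∀ l, w l ≤ n l) ∧ ∑ l, w l = s := by
  induction s with
  | zero => exact ⟨0, fun l => Nat.zero_le _, by simp⟩
  | succ s ih =>
    obtain ⟨w, h1, h2⟩ := ih (by omega)
    obtain ⟨j, -, hj⟩ : ∃ j ∈ (univ : Finset (Fin m)), w j < n j :=
      exists_lt_of_sum_lt (by omega)
    refine ⟨w + Pi.single j 1, fun l => ?_, ?_⟩
    · by_cases e : l = j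
      · subst e
        simpa using hj
      · simpa [e] using h1 l
    · simp only [Pi.add_apply, sum_add_distrib, h2, sum_single]

theorem pick (d L T₀ : ℕ) (n : Fin (d + 1) → ℕ) (hL : T₀ + 1 ≤ L)
    (hn : ∑ l, n l + T₀ = 2 * (2 * (d + 1) * L)) :
    ∃ (j : Fin (d + 1)) (w r : Fin (d + 1) → ℕ), ∑ l, w l = 2 * (d + 1) ∧ 1 ≤ w j ∧
      n = (fun l => L * w l) + Pi.single j 1 + r := by
  have hL0 : 0 < L := by omega
  have h1 : 2 * d + 3 ≤ ∑ l, n l / L := by
    by_contra h
    have h2 : ∑ l, n l ≤ ∑ l : Fin (d + 1), (L * (n l / L) + L) := sum_le_sum fun l _ => by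
      have := Nat.div_add_mod (n l) L
      have := Nat.mod_lt (n l) hL0
      omega
    rw [sum_add_distrib, ← mul_sum, sum_const, card_univ, Fintype.card_fin, smul_eq_mul] at h2
    have h3 : L * ∑ l, n l / L ≤ L * (2 * d + 2) := Nat.mul_le_mul_left _ (by omega)
    nlinarith
  obtain ⟨w, h2, h3⟩ := sub_sum (fun l => n l / L) _ h1
  obtain ⟨j, -, hj⟩ : ∃ j ∈ (univ : Finset (Fin (d + 1))), 1 < w j :=
    exists_lt_of_sum_lt (f := fun _ => 1) (by
      rw [h3, sum_const, card_univ, Fintype.card_fin, smul_eq_mul]; omega)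
  obtain ⟨w', hw'⟩ : ∃ w' : Fin (d + 1) → ℕ, w = w' + Pi.single j 1 := by
    refine ⟨w - Pi.single j 1, funext fun l => ?_⟩
    by_cases e : l = j
    · subst e
      simp only [Pi.add_apply, Pi.sub_apply, Pi.single_eq_same]
      omega
    · simp [e]
  have h4 : ∀ l, L * w' l + (Pi.single j 1 : Fin (d + 1) → ℕ) l ≤ n l := by
    intro l
    have h5 : L * w l ≤ n l := (Nat.mul_le_mul_left L (h2 l)).trans (Nat.mul_div_le _ _)
    rw [hw', Pi.add_apply, mul_add] at h5
    exact le_trans (Nat.add_le_add_left (Nat.le_mul_of_pos_left _ hL0) _) h5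
  refine ⟨j, w', fun l => n l - (L * w' l + (Pi.single j 1 : Fin (d + 1) → ℕ) l), ?_, ?_,
    funext fun l => ?_⟩
  · rw [hw'] at h3
    simp only [Pi.add_apply, sum_add_distrib, sum_single] at h3
    omega
  · rw [hw'] at hj
    simp only [Pi.add_apply, Pi.single_eq_same] at hj
    omega
  · have := h4 l
    simp only [Pi.add_apply]
    omega

/-- the exponents -/
def ex (d L : ℕ) (x : Ix d) : Fin (d + 1) → ℕ :=
  if ∑ l, (x.2 l : ℕ) = 2 * (d + 1) ∧ 1 ≤ (x.2 x.1 : ℕ) then fun l => L * x.2 l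
  else Pi.single x.1 (2 * (d + 1) * L)

theorem ex_spec (d L : ℕ) (hL : 1 ≤ L) (x : Ix d) : ∃ r : Fin (d + 1) → ℕ,
    ex d L x = Pi.single x.1 1 + r ∧ ∑ l, r l + 1 = 2 * (d + 1) * L := by
  have h : ∑ l, ex d L x l = 2 * (d + 1) * L ∧ 1 ≤ ex d L x x.1 := by
    unfold ex
    split_ifs with h
    · exact ⟨by rw [← mul_sum, h.1, mul_comm], Nat.mul_pos hL h.2⟩
    · exact ⟨sum_single _ _, by rw [Pi.single_eq_same]; exact Nat.mul_pos (by omega) hL⟩
  have h1 : ex d L x = Pi.single x.1 1 + (ex d L x - Pi.single x.1 1) := by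
    funext l
    by_cases e : l = x.1
    · subst e
      have := h.2
      simp only [Pi.add_apply, Pi.sub_apply, Pi.single_eq_same]
      omega
    · simp [e]
  refine ⟨_, h1, ?_⟩
  have h2 := h.1
  rw [h1] at h2
  simp only [Pi.add_apply, sum_add_distrib, sum_single] at h2
  omega

/-- combinations with coefficients in a subspace -/
def cmb {ι : Type} [Fintype ι] (W : Submodule k Ω) (z : ι → Ω) : AddSubmonoid Ω where
  carrier := {w | ∃ v : ι → Ω, (∀ x, v x ∈ W) ∧ ∑ x, z x * v x = w}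
  add_mem' := by
    rintro _ _ ⟨v, hv, rfl⟩ ⟨v', hv', rfl⟩
    exact ⟨v + v', fun x => W.add_mem (hv x) (hv' x), by
      simp only [Pi.add_apply, mul_add, sum_add_distrib]⟩
  zero_mem' := ⟨0, fun _ => W.zero_mem, by simp⟩

theorem cmb_one {ι : Type} [Fintype ι] (W : Submodule k Ω) (z : ι → Ω) (x : ι) {u : Ω}
    (hu : u ∈ W) : z x * u ∈ cmb W z := by
  classical
  refine ⟨Pi.single x u, fun y => ?_, ?_⟩
  · by_cases e : y = x
    · subst e
      simpa using hu
    · simp [e]
  · rw [sum_eq_single x]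
    · simp
    · intro y _ hy
      simp [hy]
    · intro h
      exact absurd (mem_univ x) h

end GGen

open GGen in
theorem rGen : RGen := by
  intro k Ω _ _ _ V d a hd ha hS
  obtain ⟨γ, T₀, g, hγ, hg, hC, hG⟩ := hS
  have hg' : ∀ j, g j ∈ V ^ γ := fun j => (hg j).2
  refine ⟨γ, T₀ + 1, hγ, fun L hL => ⟨fun x => mon g (ex d L x), fun x => ?_, fun x => ?_, ?_⟩⟩
  · exact prod_ne_zero_iff.2 fun l _ => pow_ne_zero _ (hg l).1
  · obtain ⟨r, h1, h2⟩ := ex_spec d L (by omega) x
    have h3 : ∀ u ∈ V ^ γ, u * mon g r ∈ V ^ (2 * (d + 1) * L * γ) := fun u hu => by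
      rw [← h2, add_mul, one_mul, add_comm, pow_add]
      exact Submodule.mul_mem_mul hu (mon_mem hg' r)
    show mon g (ex d L x) ∈ _ ∧ a x * mon g (ex d L x) ∈ _
    rw [h1, mon_add, mon_single]
    refine ⟨h3 _ (hg' _), ?_⟩
    rw [← mul_assoc, mul_comm (a x)]
    exact h3 _ (hC x.1 x.2).1
  · intro I w hw
    have hN : T₀ ≤ 2 * (2 * (d + 1) * L) := by nlinarith
    obtain ⟨N, hN'⟩ := Nat.exists_eq_add_of_le hN
    have h1 : 2 * (2 * (d + 1) * L * γ) = T₀ * γ + N * γ := by
      rw [← add_mul, ← hN']; ring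
    rw [h1] at hw
    have h2 := ind hG (T := T₀ * γ) (Nat.le_mul_of_pos_right _ hγ)
      (cmb (V ^ (2 * (d + 1) * L * γ)) fun x =>
        if I x = true then a x * mon g (ex d L x) else mon g (ex d L x)) N 1 ?_ w hw
    · rw [one_mul] at h2
      exact h2
    intro n hn x hx
    obtain ⟨j, w, r, e1, e2, e3⟩ := pick d L T₀ n hL (by omega)
    have e4 : ∀ l, w l < 2 * d + 3 := fun l => by
      have := single_le_sum (f := w) (fun l _ => Nat.zero_le _) (mem_univ l)
      omega
    obtain ⟨y, hy⟩ : ∃ y : Ix d, y = (j, fun l => ⟨w l, e4 l⟩) := ⟨_, rfl⟩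
    have e5 : ex d L y = fun l => L * w l := by
      rw [hy]
      exact if_pos ⟨e1, e2⟩
    have e6 : 2 * (d + 1) * L * γ = γ + ((∑ l, r l) * γ + T₀ * γ) := by
      have e7 := hn
      rw [e3] at e7
      simp only [Pi.add_apply, sum_add_distrib, sum_single, ← mul_sum, e1] at e7
      have e8 : 2 * (d + 1) * L = 1 + (∑ l, r l + T₀) := by nlinarith
      rw [e8]
      ring
    have e9 : ∀ u ∈ V ^ γ, u * (mon g r * x) ∈ V ^ (2 * (d + 1) * L * γ) := fun u hu => by
      rw [e6, pow_add, pow_add]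
      exact Submodule.mul_mem_mul hu (Submodule.mul_mem_mul (mon_mem hg' r) hx)
    rw [e3, mon_add, mon_add, mon_single, ← e5]
    by_cases hI : I y = true
    · have e10 : g j / a y ∈ V ^ γ := by rw [hy]; exact (hC _ _).2
      have := cmb_one _ (fun x => if I x = true then a x * mon g (ex d L x)
        else mon g (ex d L x)) y (e9 _ e10)
      simp only [hI, if_true] at this
      convert this using 1
      have := ha y
      field_simp
    · have := cmb_one _ (fun x => if I x = true then a x * mon g (ex d L x)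
        else mon g (ex d L x)) y (e9 _ (hg' j))
      rw [if_neg hI] at this
      convert this using 1
      ring

end Pool.Agent.MP_f3836a_nt.BT
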