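import Pool.Agent.MP_f3836a_nt.BT.SpecG

set_option autoImplicit false

/-! Growth of the powers of a finite-dimensional subspace of a field. -/

namespace Pool.Agent.MP_f3836a_nt.BT

open MvPolynomial Submodule

namespace GGrow

variable {k Ω : Type} [Field k] [Field Ω] [Algebra k Ω] {s : ℕ}

/-- the span of the monomials with bounded exponents -/
def P (k : Type) [Field k] [Algebra k Ω] (y : Fin s → Ω) (n : ℕ) : Submodule k Ω :=
  span k {x | ∃ e : Fin s → ℕ, (∀ j, e j ≤ n) ∧ x = ∏ j, y j ^ e j}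

theorem P_mul (y : Fin s → Ω) (a b : ℕ) : P k y a * P k y b ≤ P k y (a + b) := by
  unfold P
  rw [span_mul_span]
  refine span_mono ?_
  rintro _ ⟨_, ⟨e, he, rfl⟩, _, ⟨e', he', rfl⟩, rfl⟩
  exact ⟨e + e', fun j => add_le_add (he j) (he' j), by simp [pow_add, Finset.prod_mul_distrib]⟩

theorem P_mono (y : Fin s → Ω) {a b : ℕ} (h : a ≤ b) : P k y a ≤ P k y b :=
  span_mono fun _ ⟨e, he, hx⟩ => ⟨e, fun j => (he j).trans h, hx⟩

theorem P_ev (y : Fin s → Ω) (f : MvPolynomial (Fin s) k) : ∃ n, aeval y f ∈ P k y n := by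
  refine ⟨f.totalDegree, ?_⟩
  rw [aeval_def, eval₂_eq']
  refine sum_mem fun e he => ?_
  rw [← Algebra.smul_def]
  exact smul_mem _ _ (subset_span ⟨e, fun j => (monomial_le_degreeOf j he).trans
    (degreeOf_le_totalDegree f j), rfl⟩)

theorem P_dim {m : ℕ} (r : Fin m → Ω) (y : Fin s → Ω) (n : ℕ) (V : Submodule k Ω)
    (h : V ≤ span k (Set.range r) * P k y n) : Module.finrank k V ≤ m * (n + 1) ^ s := by
  let b : Fin m × (Fin s → Fin (n + 1)) → Ω := fun x => r x.1 * ∏ j, y j ^ (x.2 j : ℕ)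
  have h1 : V ≤ span k (Set.range b) := by
    refine h.trans ?_
    unfold P
    rw [span_mul_span]
    refine span_mono ?_
    rintro _ ⟨_, ⟨l, rfl⟩, _, ⟨e, he, rfl⟩, rfl⟩
    exact ⟨(l, fun j => ⟨e j, Nat.lt_succ_of_le (he j)⟩), rfl⟩
  have := FiniteDimensional.span_of_finite k (Set.finite_range b)
  refine (finrank_mono h1).trans ((finrank_range_le_card b).trans_eq ?_)
  simp

theorem up (U : Submodule k Ω) [FiniteDimensional k U] (d : ℕ)
    (hd : Algebra.trdeg k (IntermediateField.adjoin k (U : Set Ω)) ≤ d) :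
    ∃ C : ℕ, ∀ t, 1 ≤ t → hh U t ≤ C * t ^ d := by
  have hU : U.FG := (Submodule.fg_top U).1 Module.Finite.fg_top
  set R := Algebra.adjoin k (U : Set Ω) with hR
  have : Algebra.FiniteType k R := by
    obtain ⟨S, hS⟩ := hU
    exact R.fg_iff_finiteType.1 ⟨S, by rw [hR, ← hS, Algebra.adjoin_span]⟩
  obtain ⟨s, g, g1, g2⟩ := exists_finite_inj_algHom_of_fg k R
  have hs : s ≤ d := by
    have h := (trdeg_le_of_injective ((Subalgebra.inclusion
      (IntermediateField.algebra_adjoin_le_adjoin k (U : Set Ω))).comp g)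
      ((Subalgebra.inclusion_injective
        (IntermediateField.algebra_adjoin_le_adjoin k (U : Set Ω))).comp g1)).trans hd
    rw [MvPolynomial.trdeg_of_isDomain] at h
    simpa using h
  let y : Fin s → Ω := fun j => g (X j)
  have hy : ∀ f, (g f : Ω) = aeval y f := fun f =>
    DFunLike.congr_fun (algHom_ext (f := R.val.comp g) (g := aeval y) fun j => by simp [y]) f
  obtain ⟨m, r, hr⟩ : ∃ (m : ℕ) (r : Fin m → Ω), (∀ l, r l ∈ R) ∧
      ∀ x ∈ R, ∃ n, x ∈ span k (Set.range r) * P k y n := by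
    let _ := g.toRingHom.toAlgebra
    have : Module.Finite (MvPolynomial (Fin s) k) R := g2
    obtain ⟨m, r, hr⟩ := Module.Finite.exists_fin (R := MvPolynomial (Fin s) k) (M := R)
    refine ⟨m, fun l => r l, fun l => (r l).2, fun x hx => ?_⟩
    obtain ⟨c, hc⟩ := (mem_span_range_iff_exists_fun _).1 (hr ▸ mem_top (x := (⟨x, hx⟩ : R)))
    choose n hn using fun l => P_ev y (c l)
    refine ⟨Finset.univ.sup n, ?_⟩
    have e : x = ∑ l, (r l : Ω) * aeval y (c l) := by
      have := congrArg Subtype.val hc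
      rw [AddSubmonoidClass.coe_finsetSum] at this
      rw [← show _ = x from this]
      exact Finset.sum_congr rfl fun l _ => by rw [← hy, mul_comm]; rfl
    rw [e]
    exact sum_mem fun l _ => mul_mem_mul (subset_span ⟨l, rfl⟩)
      (P_mono y (Finset.le_sup (Finset.mem_univ l)) (hn l))
  obtain ⟨D0, h0⟩ := hr.2 1 (one_mem R)
  obtain ⟨D, hD⟩ : ∃ D, U * span k (Set.range r) ≤ span k (Set.range r) * P k y D := by
    obtain ⟨S, hS⟩ := hU.mul (fg_span (Set.finite_range r))
    have h1 : U * span k (Set.range r) ≤ Subalgebra.toSubmodule R :=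
      mul_le.2 fun a ha b hb => R.mul_mem (Algebra.subset_adjoin ha)
        ((span_le (p := Subalgebra.toSubmodule R)).2 (Set.range_subset_iff.2 hr.1) hb)
    choose! n hn using fun x (hx : x ∈ S) => hr.2 x (h1 (hS ▸ subset_span hx))
    refine ⟨S.sup n, hS ▸ span_le.2 fun x hx => ?_⟩
    exact mul_le_mul_right (P_mono y (Finset.le_sup hx)) _ (hn x hx)
  have key : ∀ t, U ^ t ≤ span k (Set.range r) * P k y (D * t + D0) := fun t => by
    induction t with
    | zero => simpa [Submodule.one_le] using h0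
    | succ t ih =>
      calc U ^ (t + 1) = U * U ^ t := pow_succ' _ _
        _ ≤ U * (span k (Set.range r) * P k y (D * t + D0)) := mul_le_mul_right ih _
        _ ≤ span k (Set.range r) * P k y D * P k y (D * t + D0) := by
          rw [← mul_assoc]; exact mul_le_mul_left hD _
        _ ≤ _ := by
          rw [mul_assoc, show D * (t + 1) + D0 = D + (D * t + D0) by ring]
          exact mul_le_mul_right (P_mul y _ _) _
  refine ⟨m * (D + D0 + 1) ^ s, fun t ht => (P_dim r y _ _ (key t)).trans ?_⟩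
  calc m * (D * t + D0 + 1) ^ s ≤ m * ((D + D0 + 1) * t) ^ s := by gcongr; nlinarith
    _ = m * (D + D0 + 1) ^ s * t ^ s := by rw [mul_pow, mul_assoc]
    _ ≤ _ := by gcongr

theorem low (U : Submodule k Ω) [FiniteDimensional k U] (d : ℕ) (y : Fin d → Ω) (hd : 1 ≤ d)
    (h1 : 1 ∈ U) (hy : ∀ j, y j ∈ U) (hi : AlgebraicIndependent k y) (t : ℕ) :
    t ^ d ≤ d ^ d * hh U t := by
  have hU : U.FG := (Submodule.fg_top U).1 Module.Finite.fg_top
  have : Module.Finite k (U ^ t : Submodule k Ω) := Module.Finite.iff_fg.2 (hU.pow t)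
  have mono : ∀ {a b : ℕ}, a ≤ b → U ^ a ≤ U ^ b := fun h => pow_le_pow_right' (Submodule.one_le.2 h1) h
  let E : (Fin d → Fin (t / d + 1)) → Fin d →₀ ℕ := fun e =>
    Finsupp.equivFunOnFinite.symm fun j => e j
  have hE : Function.Injective E := fun e e' h => funext fun j =>
    Fin.ext (by simpa [E] using DFunLike.congr_fun h j)
  have hm : ∀ e, aeval y (monomial (E e) (1 : k)) ∈ U ^ t := fun e => by
    rw [aeval_monomial, map_one, one_mul, Finsupp.prod_fintype _ _ fun _ => pow_zero _]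
    have h : ∀ S : Finset (Fin d), ∏ j ∈ S, y j ^ E e j ∈ U ^ (t / d * S.card) := fun S => by
      induction S using Finset.induction_on with
      | empty => simpa using (1 : Submodule k Ω).one_le.1 le_rfl
      | insert j S hj ih =>
        rw [Finset.prod_insert hj, Finset.card_insert_of_notMem hj, mul_add_one, add_comm, pow_add]
        exact mul_mem_mul (mono (Nat.lt_succ_iff.1 (e j).2) (pow_mem_pow U (hy j) _)) ih
    exact mono (by simpa using Nat.div_mul_le_self t d) (h Finset.univ)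
  have li : LinearIndependent k fun e => (⟨_, hm e⟩ : (U ^ t : Submodule k Ω)) :=
    LinearIndependent.of_comp (U ^ t).subtype (by
      have := ((basisMonomials (Fin d) k).linearIndependent.comp E hE).map'
        (aeval y : MvPolynomial (Fin d) k →ₐ[k] Ω).toLinearMap (LinearMap.ker_eq_bot.2 hi)
      simpa [Function.comp_def] using this)
  have h2 := li.fintype_card_le_finrank
  rw [Fintype.card_fun, Fintype.card_fin, Fintype.card_fin] at h2
  calc t ^ d ≤ (d * (t / d + 1)) ^ d := Nat.pow_le_pow_left (Nat.lt_mul_div_succ t hd).le d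
    _ = d ^ d * (t / d + 1) ^ d := mul_pow _ _ _
    _ ≤ _ := Nat.mul_le_mul_left _ h2

end GGrow

theorem rGrow : RGrow := fun _ _ _ _ _ U _ d => ⟨GGrow.up U d, GGrow.low U d⟩

end Pool.Agent.MP_f3836a_nt.BT
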