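import Pool.Agent.MP_f3836a_nt.BT.SpecG

set_option autoImplicit false

/-! The order along the fibre is bounded by the multiplicity. -/

namespace Pool.Agent.MP_f3836a_nt.BT

open Polynomial

namespace GLen

variable {k A R : Type} [Field k] [CommRing A] [Algebra k A] [CommRing R] [Algebra k R]

theorem fin [Algebra.FiniteType k R] (χ : R →ₐ[k] k) (T : ℕ) :
    Module.Finite k (R ⧸ RingHom.ker χ ^ T) := by
  have : Algebra.IsIntegral k (R ⧸ RingHom.ker χ ^ T) := ⟨fun x => by
    obtain ⟨r, rfl⟩ := Ideal.Quotient.mkₐ_surjective k _ x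
    refine ⟨(X - C (χ r)) ^ T, (monic_X_sub_C _).pow _, ?_⟩
    rw [← aeval_def, aeval_algHom_apply]
    refine Ideal.Quotient.eq_zero_iff_mem.2 ?_
    simpa using Ideal.pow_mem_pow (by simp [RingHom.mem_ker]) T⟩
  exact Algebra.IsIntegral.finite

theorem rad [IsAlgClosed k] [Algebra.FiniteType k R] (χ : R →ₐ[k] k) (I : Ideal R)
    (h : ∀ χ' : R →ₐ[k] k, I ≤ RingHom.ker χ' → χ' = χ) : ∃ b, RingHom.ker χ ^ b ≤ I := by
  have := isJacobsonRing_of_finiteType (A := k) (B := R)
  have := Algebra.FiniteType.isNoetherianRing k R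
  refine Ideal.exists_pow_le_of_le_radical_of_fg ?_ (IsNoetherian.noetherian _)
  rw [Ideal.radical_eq_jacobson]
  refine le_sInf fun M ⟨h1, h2⟩ => ?_
  let _ := Ideal.Quotient.field M
  have := finite_of_finite_type_of_isJacobsonRing k (R ⧸ M)
  let e := AlgEquiv.ofBijective (Algebra.ofId k (R ⧸ M))
    IsAlgClosed.algebraMap_bijective_of_isIntegral
  have e1 : ∀ x, (e.symm : _ →ₐ[k] k).comp (Ideal.Quotient.mkₐ k M) x = 0 ↔ x ∈ M := fun x =>
    (map_eq_zero_iff e.symm e.symm.injective).trans Ideal.Quotient.eq_zero_iff_mem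
  rw [← h _ fun x hx => (e1 x).2 (h1 hx)]
  exact fun x hx => (e1 x).1 hx

variable [Algebra A R] [IsScalarTower k A R]

omit [Algebra k R] [IsScalarTower k A R] in
theorem mem (e : A →ₐ[k] k) (z : R) {P : A[X]} (h : P.map e.toRingHom = 0) :
    aeval z P ∈ (RingHom.ker e).map (algebraMap A R) := by
  rw [aeval_eq_sum_range]
  refine Ideal.sum_mem _ fun i _ => ?_
  rw [Algebra.smul_def]
  refine Ideal.mul_mem_right _ _ (Ideal.mem_map_of_mem _ ?_)
  simpa using congrArg (coeff · i) h

theorem core (h1 : RLen1) [IsAlgClosed k] [IsDomain A] [IsIntegrallyClosed A] [IsNoetherianRing A]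
    [IsDomain R] [FaithfulSMul A R] [Module.Finite A R] [Algebra.FiniteType k R] (χ : R →ₐ[k] k)
    (z : R) (e : A →ₐ[k] k) (he : ∀ a, χ (algebraMap A R a) = e a)
    (hR : Rd ((RingHom.ker e).map (algebraMap A R)) (RingHom.ker χ))
    (hu : ∀ χ' : R →ₐ[k] k, (∀ a, χ' (algebraMap A R a) = e a) → χ' z = χ z → χ' = χ) :
    ∃ o c : ℕ, 1 ≤ o ∧ (((minpoly A z).map e.toRingHom).comp (X + C (χ z))).coeff o ≠ 0 ∧
      ∀ (t : ℕ) (f : Fin o → A), ∑ i, f i • (z - algebraMap k R (χ z)) ^ (i : ℕ) ∈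
        RingHom.ker χ ^ (t + c) → ∀ i, f i ∈ RingHom.ker e ^ t := by
  have hz : IsIntegral A z := Algebra.IsIntegral.isIntegral z
  have h0 : (minpoly A z).map e.toRingHom ≠ 0 := ((minpoly.monic hz).map _).ne_zero
  obtain ⟨u, u1, u2⟩ := exists_eq_pow_rootMultiplicity_mul_and_not_dvd _ h0 (χ z)
  have ho : 0 < rootMultiplicity (χ z) ((minpoly A z).map e.toRingHom) :=
    (rootMultiplicity_pos h0).2 (by
      have := hom_eval₂ (minpoly A z) (algebraMap A R) χ.toRingHom z
      rw [← aeval_def, minpoly.aeval, map_zero,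
        show χ.toRingHom.comp (algebraMap A R) = e.toRingHom from RingHom.ext he] at this
      rw [IsRoot, eval_map]
      exact this.symm)
  generalize rootMultiplicity (χ z) ((minpoly A z).map e.toRingHom) = o at u1 ho
  rw [dvd_iff_isRoot] at u2
  obtain ⟨c, hc⟩ := h1 k A R e z (χ z) _ u o (minpoly.monic hz)
    (fun P => minpoly.isIntegrallyClosed_dvd hz) u1 u2
  rw [← IsScalarTower.algebraMap_apply] at hc
  obtain ⟨c1, hR⟩ := hR
  set q := (RingHom.ker e).map (algebraMap A R)
  set w := z - algebraMap k R (χ z) with hw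
  obtain ⟨b, hb⟩ := rad χ (q ⊔ Ideal.span {w}) fun χ' h => hu χ' (fun a => by
    have := h (Ideal.mem_sup_left (Ideal.mem_map_of_mem (algebraMap A R)
      (show a - algebraMap k A (e a) ∈ RingHom.ker e by simp [RingHom.mem_ker])))
    rwa [RingHom.mem_ker, map_sub, ← IsScalarTower.algebraMap_apply, map_sub, AlgHom.commutes,
      sub_eq_zero] at this) (by
    have := h (Ideal.mem_sup_right (Ideal.mem_span_singleton_self w))
    rwa [RingHom.mem_ker, map_sub, AlgHom.commutes, sub_eq_zero] at this)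
  have hq : aeval z (u.map (algebraMap k A)) * w ^ o ∈ q := by
    have := mem e z (P := ((X - C (χ z)) ^ o * u).map (algebraMap k A) - minpoly A z) (by
      rw [Polynomial.map_sub, u1, map_map, show e.toRingHom.comp (algebraMap k A) = RingHom.id k
        from e.comp_algebraMap, map_id, sub_self])
    rw [map_sub, minpoly.aeval, sub_zero, Polynomial.map_mul, map_mul, aeval_map_algebraMap,
      mul_comm] at this
    simpa [hw] using this
  refine ⟨o, c + c1, ho, ?_, fun t f hf => hc t (t + c) f ?_⟩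
  · rw [u1, mul_comp, pow_comp, sub_comp, X_comp, C_comp, add_sub_cancel_right,
      ← zero_add o, coeff_X_pow_mul', if_pos le_rfl, Nat.sub_self, coeff_zero_eq_eval_zero]
    simpa [eval_comp] using u2
  · rw [← add_assoc] at hf
    obtain ⟨x, hx, x', hx', e1⟩ := Submodule.mem_sup.1 (hR _ (b * (t + c + o * (t + c))) hf)
    rw [pow_mul] at hx'
    obtain ⟨x1, h2, x2, h3, rfl⟩ := Submodule.mem_sup.1
      (Ideal.sup_pow_add_le_pow_sup_pow (Ideal.pow_right_mono hb _ hx'))
    rw [Ideal.span_singleton_pow, Ideal.mem_span_singleton'] at h3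
    obtain ⟨r, rfl⟩ := h3
    rw [← e1, ← add_assoc, mul_add, mul_left_comm, pow_mul, ← mul_pow]
    exact add_mem (Ideal.mul_mem_left _ _ (add_mem hx h2))
      (Ideal.mul_mem_left _ _ (Ideal.pow_mem_pow hq _))

end GLen

open GLen in
theorem rLen : RLen1 → RMon → RLen := by
  intro h1 h2 k R _ _ _ _ _ _ d y z χ hd hy hi hR hu
  let _ : Algebra (MvPolynomial (Fin d) k) R := (MvPolynomial.aeval y).toRingHom.toAlgebra
  have ea : ∀ a, algebraMap (MvPolynomial (Fin d) k) R a = MvPolynomial.aeval y a := fun _ => rfl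
  have : IsScalarTower k (MvPolynomial (Fin d) k) R :=
    .of_algebraMap_eq fun a => ((MvPolynomial.aeval y).commutes a).symm
  have := (faithfulSMul_iff_algebraMap_injective (MvPolynomial (Fin d) k) R).2 hy
  have : Algebra.IsIntegral (MvPolynomial (Fin d) k) R := ⟨fun x =>
    (hi.isIntegral x).map_of_comp_eq hy.aevalEquiv.symm.toRingEquiv.toRingHom (RingHom.id R)
      (RingHom.ext fun a => by
        obtain ⟨a, rfl⟩ := hy.aevalEquiv.surjective a
        simp [ea])⟩
  have := Algebra.FiniteType.of_restrictScalars_finiteType k (MvPolynomial (Fin d) k) R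
  have : Module.Finite (MvPolynomial (Fin d) k) R := Algebra.IsIntegral.finite
  obtain ⟨c1, hR⟩ := hR
  obtain ⟨o, c, o1, o2, o3⟩ := core h1 χ z (MvPolynomial.aeval fun j => χ (y j))
    (fun a => by rw [ea, ← AlgHom.comp_apply, MvPolynomial.comp_aeval])
    ⟨c1, fun t M => (hR t M).trans (sup_le_sup_right (Ideal.pow_right_mono (Ideal.span_le.2 (by
      rintro _ ⟨j, rfl⟩
      simpa [ea] using Ideal.mem_map_of_mem (algebraMap (MvPolynomial (Fin d) k) R)
        (show MvPolynomial.X j - MvPolynomial.C (χ (y j)) ∈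
          RingHom.ker (MvPolynomial.aeval fun j => χ (y j)) by simp [RingHom.mem_ker]))) _) _)⟩
    fun χ' h => hu χ' fun j => by simpa [ea] using h (MvPolynomial.X j)
  refine ⟨o, 1 + c, o1, ⟨_, minpoly.aeval (MvPolynomial (Fin d) k) z, o2⟩, fun t => ?_⟩
  obtain ⟨S, _, s1, s2⟩ := h2 k d (t / d) fun j => χ (y j)
  have := fin χ (t + (1 + c))
  let Φ : (Fin o → S) →ₗ[k] R ⧸ RingHom.ker χ ^ (t + (1 + c)) :=
    (Ideal.Quotient.mkₐ k _).toLinearMap ∘ₗ ∑ i : Fin o, (LinearMap.toSpanSingleton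
      (MvPolynomial (Fin d) k) R ((z - algebraMap k R (χ z)) ^ (i : ℕ))).restrictScalars k ∘ₗ
        S.subtype ∘ₗ LinearMap.proj i
  have hΦ := LinearMap.finrank_le_finrank_of_injective (f := Φ)
    ((injective_iff_map_eq_zero _).2 fun f hf => funext fun i => Subtype.ext (s2 _ (f i).2
      (Ideal.pow_le_pow_right (Nat.succ_le_succ (Nat.mul_div_le t d))
        (o3 (t + 1) (fun i => f i) (by
          rw [add_assoc, ← Ideal.Quotient.eq_zero_iff_mem, map_sum]
          simpa [Φ] using hf) i))))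
  rw [Module.finrank_pi_fintype, Finset.sum_const, Finset.card_fin, smul_eq_mul] at hΦ
  calc o * t ^ d ≤ o * (d * (t / d + 1)) ^ d := by
        gcongr
        exact (Nat.lt_mul_div_succ t hd).le
    _ = d ^ d * (o * (t / d + 1) ^ d) := by rw [mul_pow]; ring
    _ ≤ _ := Nat.mul_le_mul_left _ ((Nat.mul_le_mul_left _ s1).trans hΦ)

end Pool.Agent.MP_f3836a_nt.BT
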