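import Pool.Agent.MP_f3836a_nt.BT.SpecG

set_option autoImplicit false

/-! Independence modulo powers of the maximal ideal, and monomials in a box. -/

namespace Pool.Agent.MP_f3836a_nt.BT

namespace GLen1

open Polynomial

variable {k A : Type} [Field k] [CommRing A] [Algebra k A]

/-- a linear form applied to the coefficients -/
noncomputable def cw (lam : A →ₗ[k] k) : A[X] →ₗ[k] k[X] :=
  lsum fun n => (monomial n).comp lam

theorem cw_coeff (lam : A →ₗ[k] k) (P : A[X]) (n : ℕ) : (cw lam P).coeff n = lam (P.coeff n) := by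
  induction P using Polynomial.induction_on' with
  | add p q hp hq => rw [map_add, coeff_add, coeff_add, map_add, hp, hq]
  | monomial m a =>
    have : cw lam (monomial m a) = monomial m (lam a) := by
      simp [cw, lsum_apply, sum_monomial_index]
    rw [this, coeff_monomial, coeff_monomial]
    split_ifs <;> simp

theorem cw_mul (lam : A →ₗ[k] k) (e : A →+* k) (F H : A[X])
    (h : ∀ a n, lam (a * H.coeff n) = e a * lam (H.coeff n)) :
    cw lam (F * H) = F.map e * cw lam H := by
  ext n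
  rw [cw_coeff, coeff_mul, coeff_mul, map_sum]
  exact Finset.sum_congr rfl fun x _ => by rw [h, coeff_map, cw_coeff]

theorem indep {ζ : k} {o : ℕ} {c : Fin o → k}
    (h : (X - C ζ) ^ o ∣ ∑ i : Fin o, (X - C ζ) ^ (i : ℕ) * C (c i)) (i : Fin o) : c i = 0 := by
  have h1 := map_dvd (aeval (X + C ζ : k[X])) h
  simp only [map_pow, map_sub, map_sum, map_mul, aeval_X, aeval_C, algebraMap_eq,
    add_sub_cancel_right] at h1
  have h2 := X_pow_dvd_iff.1 h1 i i.2
  simpa [coeff_X_pow, Fin.val_inj] using h2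

theorem step (e : A →ₐ[k] k) {ζ : k} {G H P : A[X]} {u : k[X]} {o N j : ℕ} {f : Fin o → A}
    (hG : G.Monic) (he : G.map e.toRingHom = (X - C ζ) ^ o * u) (hu : u.eval ζ ≠ 0)
    (hP : ∀ n, P.coeff n ∈ RingHom.ker e ^ (j + 1)) (hf : ∀ i, f i ∈ RingHom.ker e ^ j)
    (h : ∑ i : Fin o, (u.map (algebraMap k A) ^ N * (X - C (algebraMap k A ζ)) ^ (i : ℕ)) * C (f i) -
      P = G * H) (i : Fin o) : f i ∈ RingHom.ker e ^ (j + 1) := by
  have hH : ∀ n, H.coeff n ∈ RingHom.ker e ^ j := by
    have h1 : G * H ∈ (RingHom.ker e ^ j).map (C : A →+* A[X]) :=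
      h ▸ sub_mem (sum_mem fun i _ => Ideal.mul_mem_left _ _ (Ideal.mem_map_of_mem _ (hf i)))
        (Ideal.mem_map_C_iff.2 fun n => Ideal.pow_le_pow_right j.le_succ (hP n))
    have h2 : (G * H).map (Ideal.Quotient.mk (RingHom.ker e ^ j)) = 0 := by
      ext n
      rw [coeff_map, coeff_zero, Ideal.Quotient.eq_zero_iff_mem]
      exact Ideal.mem_map_C_iff.1 h1 n
    rw [Polynomial.map_mul, (hG.map _).mul_right_eq_zero_iff] at h2
    intro n
    rw [← Ideal.Quotient.eq_zero_iff_mem, ← coeff_map, h2, coeff_zero]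
  by_contra hi
  obtain ⟨lam, l1, l2⟩ := Submodule.exists_dual_map_eq_bot_of_notMem
    (p := (RingHom.ker e ^ (j + 1)).restrictScalars k) hi inferInstance
  have l3 : ∀ x ∈ RingHom.ker e ^ (j + 1), lam x = 0 := fun x hx =>
    (Submodule.mem_bot k).1 (l2 ▸ Submodule.mem_map_of_mem hx)
  have l4 : ∀ a, ∀ x ∈ RingHom.ker e ^ j, lam (a * x) = e.toRingHom a * lam x := by
    intro a x hx
    have := l3 ((a - algebraMap k A (e a)) * x) (by
      rw [pow_succ']
      exact Ideal.mul_mem_mul (by simp [RingHom.mem_ker]) hx)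
    rw [sub_mul, map_sub, ← Algebra.smul_def, map_smul, sub_eq_zero] at this
    exact this
  have c1 : cw lam P = 0 := by
    ext n
    rw [cw_coeff, l3 _ (hP n), coeff_zero]
  have c2 : ∀ a, cw lam (C a) = C (lam a) := fun a => by
    ext n
    rw [cw_coeff, coeff_C, coeff_C]
    split_ifs <;> simp
  have c3 : e.toRingHom.comp (algebraMap k A) = RingHom.id k := RingHom.ext fun a => by simp
  have h1 := congrArg (cw lam) h
  rw [map_sub, c1, sub_zero, map_sum, cw_mul lam e.toRingHom G H fun a n => l4 a _ (hH n), he,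
    Finset.sum_congr rfl (g := fun i : Fin o => u ^ N * ((X - C ζ) ^ (i : ℕ) * C (lam (f i))))
      fun i _ => ?_, ← Finset.mul_sum] at h1
  · have cp : IsCoprime ((X - C ζ) ^ o) (u ^ N) :=
      ((irreducible_X_sub_C ζ).coprime_iff_not_dvd.2 fun h => hu (dvd_iff_isRoot.1 h)).pow
    exact l1 (indep (cp.dvd_of_dvd_mul_left ⟨_, h1.trans (mul_assoc _ _ _)⟩) i)
  · rw [cw_mul lam e.toRingHom _ _ fun a n => l4 a _ ?_, c2, Polynomial.map_mul, Polynomial.map_pow,
      Polynomial.map_pow, Polynomial.map_map, c3, Polynomial.map_id, Polynomial.map_sub, map_X,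
      map_C, ← RingHom.comp_apply e.toRingHom, c3, RingHom.id_apply, mul_assoc]
    rw [coeff_C]
    split_ifs
    exacts [hf i, zero_mem _]

end GLen1

open Polynomial GLen1 in
theorem rLen1 : RLen1 := by
  intro k A R _ _ _ _ _ _ _ e z ζ G u o hG hk he hu
  obtain ⟨c, hc⟩ := (RingHom.ker e).exists_pow_inf_eq_pow_smul
    (LinearMap.range (aeval z : A[X] →ₐ[A] R).toLinearMap)
  refine ⟨c, fun t N f h => ?_⟩
  have e1 : aeval z (u.map (algebraMap k A)) ^ N *
      ∑ i, f i • (z - algebraMap A R (algebraMap k A ζ)) ^ (i : ℕ) = aeval z (∑ i : Fin o,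
        (u.map (algebraMap k A) ^ N * (X - C (algebraMap k A ζ)) ^ (i : ℕ)) * C (f i)) := by
    rw [map_sum, Finset.mul_sum]
    refine Finset.sum_congr rfl fun i _ => ?_
    rw [map_mul, map_mul, map_pow, map_pow, map_sub, aeval_X, aeval_C, aeval_C, Algebra.smul_def]
    ring
  rw [e1, ← Ideal.map_pow, ← Submodule.restrictScalars_mem A, ← Ideal.smul_top_eq_map] at h
  have h1 := (hc (t + c) (by omega)).le ⟨h, LinearMap.mem_range_self _ _⟩
  rw [Nat.add_sub_cancel] at h1
  have h2 := Submodule.smul_mono le_rfl inf_le_right h1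
  rw [LinearMap.range_eq_map, ← Submodule.map_smul''] at h2
  obtain ⟨P, p1, p2⟩ := h2
  rw [Ideal.smul_top_eq_map] at p1
  have p3 : ∀ n, P.coeff n ∈ RingHom.ker e ^ t := Ideal.mem_map_C_iff.1 p1
  obtain ⟨H, hH⟩ := hk (_ - P) (by rw [map_sub]; exact sub_eq_zero.2 p2.symm)
  have key : ∀ j ≤ t, ∀ i, f i ∈ RingHom.ker e ^ j := by
    intro j
    induction j with
    | zero => simp
    | succ j ih =>
      exact fun hj => step e hG he hu (fun n => Ideal.pow_le_pow_right hj (p3 n))
        (ih (by omega)) hH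
  exact key t le_rfl

open MvPolynomial in
theorem rMon : RMon := by
  intro k _ d n a
  let τ : MvPolynomial (Fin d) k →ₐ[k] MvPolynomial (Fin d) k := aeval fun j => X j - C (a j)
  let τ' : MvPolynomial (Fin d) k →ₐ[k] MvPolynomial (Fin d) k := aeval fun j => X j + C (a j)
  have h1 : ∀ g, τ' (τ g) = g := fun g =>
    AlgHom.congr_fun (algHom_ext fun j => by simp [τ, τ'] : τ'.comp τ = AlgHom.id k _) g
  have h2 : ∀ g, constantCoeff (τ' g) = aeval a g := fun g => by
    refine (aeval_zero (S₁ := k) (τ' g)).symm.trans ?_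
    exact AlgHom.congr_fun (algHom_ext fun j => by simp [τ'] :
      (aeval (0 : Fin d → k)).comp τ' = aeval a) g
  refine ⟨(restrictDegree (Fin d) k n).map τ.toLinearMap, inferInstance, ?_, ?_⟩
  · rw [← (Submodule.equivMapOfInjective τ.toLinearMap (Function.LeftInverse.injective h1)
      _).finrank_eq, restrictDegree, Module.finrank_eq_nat_card_basis (basisRestrictSupport k _)]
    have : Module.Finite k (restrictSupport k {m : Fin d →₀ ℕ | ∀ i, m i ≤ n}) :=
      inferInstanceAs (Module.Finite k (restrictDegree (Fin d) k n))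
    have := Module.Finite.finite_basis (basisRestrictSupport k {m : Fin d →₀ ℕ | ∀ i, m i ≤ n})
    have := Nat.card_le_card_of_injective (fun x : Fin d → Fin (n + 1) =>
      (⟨Finsupp.equivFunOnFinite.symm fun i => (x i : ℕ), fun i => Nat.le_of_lt_succ (x i).2⟩ :
        {m : Fin d →₀ ℕ | ∀ i, m i ≤ n})) fun x y h => funext fun i =>
      Fin.ext (congrFun (Finsupp.equivFunOnFinite.symm.injective (Subtype.ext_iff.1 h)) i)
    exact le_of_eq_of_le (by simp) this
  · rintro _ ⟨g, hg, rfl⟩ hf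
    have h3 : (RingHom.ker (aeval a : MvPolynomial (Fin d) k →ₐ[k] k)).map τ' ≤
        idealOfVars (Fin d) k := by
      rw [Ideal.map_le_iff_le_comap]
      intro f hf
      rw [Ideal.mem_comap, ← pow_one (idealOfVars (Fin d) k), mem_pow_idealOfVars_iff']
      intro x hx
      obtain rfl : x = 0 := (Finsupp.degree_eq_zero_iff x).1 (by omega)
      exact (h2 f).trans hf
    have h4 := Ideal.pow_right_mono h3 _ (Ideal.map_pow τ' _ _ ▸ Ideal.mem_map_of_mem τ' hf)
    rw [AlgHom.toLinearMap_apply, h1, mem_pow_idealOfVars_iff'] at h4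
    have h5 : g = 0 := by
      ext x
      by_contra hx
      refine hx (h4 x (Nat.lt_succ_of_le ?_))
      have := (mem_restrictDegree _ _ _).1 hg x (mem_support_iff.2 hx)
      rw [Finsupp.degree_eq_sum]
      simpa using Finset.sum_le_sum fun i (_ : i ∈ Finset.univ) => this i
    rw [h5, map_zero]

end Pool.Agent.MP_f3836a_nt.BT
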