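import Pool.Agent.MP_f3836a_nt.BT.SpecG

set_option autoImplicit false

/-! Reduction to symbols with unit entries. -/

namespace Pool.Agent.MP_f3836a_nt.BT

open Function

namespace GM1

theorem blk_aux (hB : RBas) {Ω ι : Type} [Field Ω] [DecidableEq ι] [Fintype ι] {A U : Set Ω}
    {n r : ℕ} {φ : (ι → Ω) → ℚ} {J : Finset ι} {a : ι → Ω} (hM : M1P A U n) (hφ : St φ)
    (hc : J.card + r + n ≤ Fintype.card ι)
    (h : ∀ a', Nz a' → (∀ i, a' i ∈ A) → (∀ i ∈ J, a' i = a i) →
      (∃ J' : Finset ι, Disjoint J J' ∧ J'.card = r ∧ ∀ i ∈ J', a' i ∈ U) → φ a' = 0) (m : ℕ) :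
    ∀ a', Nz a' → (∀ i, a' i ∈ A) → (∀ i ∈ J, a' i = a i) → ∀ J' : Finset ι, Disjoint J J' →
      J'.card + m = r → (∀ i ∈ J', a' i ∈ U) → φ a' = 0 := by
  induction m with
  | zero =>
    intro a' h1 h2 h3 J' hd hcard hu
    exact h a' h1 h2 h3 ⟨J', hd, by simpa using hcard, hu⟩
  | succ m ih =>
    intro a' h1 h2 h3 J' hd hcard hu
    have hinj : Injective (Subtype.val : {i // i ∉ J ∪ J'} → ι) := Subtype.val_injective
    have hS := (hB ι Ω φ hφ).res {i // i ∉ J ∪ J'} Subtype.val a' hinj h1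
    have hcd : n ≤ Fintype.card {i // i ∉ J ∪ J'} := by
      rw [Fintype.card_subtype_compl, Fintype.card_coe, Finset.card_union_of_disjoint hd]
      omega
    have hin : ∀ (b : {i // i ∉ J ∪ J'} → Ω) (i : ι), i ∈ J ∪ J' →
        extend Subtype.val b a' i = a' i := by
      intro b i hi
      apply extend_apply'
      rintro ⟨⟨j, hj⟩, rfl⟩
      exact hj hi
    have hout : ∀ (b : {i // i ∉ J ∪ J'} → Ω) (i : ι) (hi : i ∉ J ∪ J'),
        extend Subtype.val b a' i = b ⟨i, hi⟩ := fun b i hi => hinj.extend_apply b a' ⟨i, hi⟩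
    have key := hM {i // i ∉ J ∪ J'} (fun b => φ (extend Subtype.val b a')) hS hcd (by
      rintro b hb1 hb2 ⟨⟨i, hi⟩, hiU⟩
      have hiJ : i ∉ J := fun h => hi (Finset.mem_union_left _ h)
      have hiJ' : i ∉ J' := fun h => hi (Finset.mem_union_right _ h)
      refine ih _ ?_ ?_ ?_ (insert i J') ?_ ?_ ?_
      · intro j
        by_cases hj : j ∈ J ∪ J'
        · rw [hin b j hj]; exact h1 j
        · rw [hout b j hj]; exact hb1 _
      · intro j
        by_cases hj : j ∈ J ∪ J'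
        · rw [hin b j hj]; exact h2 j
        · rw [hout b j hj]; exact hb2 _
      · intro j hj
        rw [hin b j (Finset.mem_union_left _ hj)]
        exact h3 j hj
      · exact Finset.disjoint_insert_right.2 ⟨hiJ, hd⟩
      · rw [Finset.card_insert_of_notMem hiJ']
        omega
      · intro j hj
        rcases Finset.mem_insert.1 hj with rfl | hj
        · rw [hout b j hi]; exact hiU
        · rw [hin b j (Finset.mem_union_right _ hj)]; exact hu j hj)
      (fun i => a' i) (fun i => h1 i) (fun i => h2 i)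
    have e : extend (Subtype.val : {i // i ∉ J ∪ J'} → ι) (fun i => a' i) a' = a' := by
      funext j
      by_cases hj : j ∈ J ∪ J'
      · exact hin _ j hj
      · exact hout _ j hj
    rwa [e] at key

theorem lam_mem {k Ω : Type} [Field k] [Field Ω] [Algebra k Ω] (R : Subalgebra k Ω) {d B : ℕ}
    (y : Fin d → R) (z l : R) (h : Lam k y z B l) :
    (l : Ω) ∈ Submodule.span (IntermediateField.adjoin k (Set.range fun j => (y j : Ω)))
      (Set.range fun j : Fin B => (z : Ω) ^ (j : ℕ)) := by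
  obtain ⟨g, rfl⟩ := h
  have e : ((∑ j, MvPolynomial.aeval y (g j) * z ^ (j : ℕ) : R) : Ω) =
      ∑ j, MvPolynomial.aeval (fun j => (y j : Ω)) (g j) * (z : Ω) ^ (j : ℕ) := by
    change R.val _ = _
    rw [map_sum]
    refine Finset.sum_congr rfl fun j _ => ?_
    rw [map_mul, map_pow, MvPolynomial.comp_aeval_apply]
    rfl
  rw [e]
  refine Submodule.sum_mem _ fun j _ => ?_
  have hm : MvPolynomial.aeval (fun j => (y j : Ω)) (g j) ∈
      IntermediateField.adjoin k (Set.range fun j => (y j : Ω)) := by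
    apply IntermediateField.algebra_adjoin_le_adjoin
    rw [Algebra.adjoin_range_eq_range_aeval]
    exact ⟨g j, rfl⟩
  exact Submodule.smul_mem _ (⟨_, hm⟩ : IntermediateField.adjoin k (Set.range fun j => (y j : Ω)))
    (Submodule.subset_span ⟨j, rfl⟩)

end GM1

theorem rBlk : RBas → RBlk := by
  intro hB Ω ι _ _ _ A U n r φ J a hM hφ ha haA hc h
  exact GM1.blk_aux hB hM hφ hc h r a ha haA (fun _ _ => rfl) ∅ (Finset.disjoint_empty_right _)
    (by simp) (by simp)

theorem rM1 : RBas → RDep → RRat → RChF → RChart → RPrep → RM1 := by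
  intro hB hDep hRat hChF hChart hPrep k Ω _ _ _ _ _ p _ _ N d s B b ξ hVan hV htr hSml hb S hS hpt
    ι _ _ φ hφ hcard hU a ha haA
  obtain ⟨hemp, l, hl, hl0, χ, hχ⟩ := hChart k Ω N ξ S hV hS hpt
  rcases S.eq_empty_or_nonempty with hS0 | hS0
  · obtain ⟨i⟩ : Nonempty ι := Fintype.card_pos_iff.1 (by omega)
    exact hU a ha haA ⟨i, hemp hS0 (a i) (haA i) (ha i)⟩
  have : FiniteDimensional k (Sp k ξ) :=
    FiniteDimensional.span_of_finite k (Set.finite_range ξ)
  obtain ⟨hft, hsub, hfrac, -, htr'⟩ := hChF k Ω (Sp k ξ) l hl hl0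
  have := hft
  have : Finite S := hS.to_subtype
  have : Nonempty S := hS0.to_subtype
  choose r hr r' hr' hr0 hrr using fun i => hfrac (a i) (haA i)
  let T : Set (Chart (Sp k ξ) l) :=
    (Set.range fun i => (⟨r i, hr i⟩ : Chart (Sp k ξ) l)) ∪
      Set.range fun i => (⟨r' i, hr' i⟩ : Chart (Sp k ξ) l)
  have hT : T.Finite := (Set.finite_range _).union (Set.finite_range _)
  obtain ⟨y, z, hyz⟩ := hPrep k (Chart (Sp k ξ) l) p (d + 1) B b (by omega) (htr'.trans htr) hb S χ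
    (fun x => hSml l hl hl0 (χ x)) T hT
  let F₀ : IntermediateField k Ω := IntermediateField.adjoin k (Set.range fun j => (y j : Ω))
  let Λ : Submodule F₀ Ω := Submodule.span F₀ (Set.range fun j : Fin B => (z : Ω) ^ (j : ℕ))
  have : FiniteDimensional F₀ Λ := FiniteDimensional.span_of_finite F₀ (Set.finite_range _)
  have hΛ : Van (Λ : Set Ω) (B + (2 + s)) := by
    refine hDep k Ω F₀ Λ B (2 + s) ?_ (hRat k Ω d s hVan _)
    exact (finrank_range_le_card (R := F₀) fun j : Fin B => (z : Ω) ^ (j : ℕ)).trans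
      (Fintype.card_fin B).le
  have hBas := hB ι Ω φ hφ
  let G : Set Ω := {g | g ≠ 0 ∧ g ∈ RatF (Sp k ξ) ∧ (g ∈ Un ξ S ∨ g ∈ Λ)}
  have hG : ∀ g : ι → Ω, (∀ i, g i ∈ G) → φ g = 0 := by
    intro g hg
    by_cases hu : ∃ i, g i ∈ Un ξ S
    · exact hU g (fun i => (hg i).1) (fun i => (hg i).2.1) hu
    · exact hΛ ι φ hφ hcard g (fun i => (hg i).1)
        fun i => (hg i).2.2.resolve_left fun h => hu ⟨i, h⟩
  have hun : ∀ u : Chart (Sp k ξ) l, (∀ x, χ x u ≠ 0) → (u : Ω) ∈ G := by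
    intro u hu
    have hu0 : u ≠ 0 := by
      rintro rfl
      exact hu (Classical.arbitrary S) (map_zero _)
    exact ⟨fun h => hu0 (Subtype.ext h), hsub _ u.2, Or.inl (hχ u hu0 hu)⟩
  have hlam : ∀ w : Chart (Sp k ξ) l, Lam k y z B w → w ≠ 0 → (w : Ω) ∈ G := fun w hw hw0 =>
    ⟨fun h => hw0 (Subtype.ext h), hsub _ w.2, Or.inr (GM1.lam_mem _ y z w hw)⟩
  let G₁ : Set Ω := {g | g ≠ 0 ∧ ∃ t ∈ T, (t : Ω) = g}
  have hG₁ : ∀ g : ι → Ω, (∀ i, g i ∈ G₁) → φ g = 0 := by
    intro g hg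
    refine hBas.span (fun _ => G) (fun _ _ h => h.1) hG g (fun i => (hg i).1) fun i => ?_
    obtain ⟨hg0, t, ht, htg⟩ := hg i
    have ht0 : t ≠ 0 := by
      rintro rfl
      exact hg0 htg.symm
    obtain ⟨n, u, u', w, w', hn, hu, hu', hw, hw', hw0, hw0', e⟩ := hyz t ht ht0
    refine ⟨n, [(w : Ω), (u' : Ω)], [(w' : Ω), (u : Ω)], hn, ?_, ?_, ?_⟩
    · intro x hx
      rcases List.mem_pair.1 hx with rfl | rfl
      · exact hlam w hw hw0
      · exact hun u' hu'
    · intro x hx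
      rcases List.mem_pair.1 hx with rfl | rfl
      · exact hlam w' hw' hw0'
      · exact hun u hu
    · have e' := congrArg (Subtype.val : Chart (Sp k ξ) l → Ω) e
      rw [← htg]
      simpa using e'
  refine hBas.span (fun _ => G₁) (fun _ _ h => h.1) hG₁ a ha fun i => ?_
  refine ⟨1, [r i], [r' i], one_pos, ?_, ?_, by simpa using hrr i⟩
  · intro x hx
    rw [List.mem_singleton.1 hx]
    refine ⟨?_, ⟨r i, hr i⟩, Or.inl ⟨i, rfl⟩, rfl⟩
    rw [← hrr i]
    exact mul_ne_zero (ha i) (hr0 i)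
  · intro x hx
    rw [List.mem_singleton.1 hx]
    exact ⟨hr0 i, ⟨r' i, hr' i⟩, Or.inr ⟨i, rfl⟩, rfl⟩

end Pool.Agent.MP_f3836a_nt.BT
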