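import Pool.Agent.MP_f3836a_nt.BT.SpecG

set_option autoImplicit false

/-! Normalisation with reductions. -/

namespace Pool.Agent.MP_f3836a_nt.BT

open MvPolynomial

namespace GNN

variable {k R : Type} [Field k] [CommRing R] [Algebra k R]

theorem rd_trans {q m n : Ideal R} (h1 : Rd q m) (h2 : Rd m n) (h : m ≤ n) : Rd q n := by
  obtain ⟨c, h1⟩ := h1
  obtain ⟨c', h2⟩ := h2
  refine ⟨c + c', fun t M => ?_⟩
  rw [← add_assoc]
  exact (h2 (t + c) M).trans (sup_le ((h1 t M).trans
    (sup_le_sup_left (Ideal.pow_right_mono h M) _)) le_sup_right)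

theorem cI_le {σ : Type} (χ : R →ₐ[k] k) (v : σ → R) : cI χ v ≤ RingHom.ker χ := by
  refine Ideal.span_le.2 ?_
  rintro _ ⟨i, rfl⟩
  simp [RingHom.mem_ker]

theorem ker_le {n : ℕ} (χ : R →ₐ[k] k) (f : MvPolynomial (Fin n) k →ₐ[k] R)
    (hf : Function.Surjective f) : RingHom.ker χ ≤ cI χ (fun i => f (X i)) := by
  have key : ∀ p, f p - algebraMap k R (χ (f p)) ∈ cI χ (fun i => f (X i)) := fun p => by
    induction p using MvPolynomial.induction_on with
    | C a => simp
    | add p q hp hq =>
      rw [map_add, map_add, map_add, add_sub_add_comm]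
      exact add_mem hp hq
    | mul_X p i hp =>
      have h1 : f (X i) - algebraMap k R (χ (f (X i))) ∈ cI χ (fun i => f (X i)) :=
        Ideal.subset_span ⟨i, rfl⟩
      have h2 := add_mem (Ideal.mul_mem_right (f (X i)) _ hp)
        (Ideal.mul_mem_left _ (algebraMap k R (χ (f p))) h1)
      rw [map_mul, map_mul, map_mul]
      convert h2 using 1
      ring
  intro x hx
  obtain ⟨p, rfl⟩ := hf x
  have := key p
  rwa [(RingHom.mem_ker).1 hx, map_zero, sub_zero] at this

theorem int_trans {n : ℕ} (v : Fin (n + 1) → R) (α : Fin n → k)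
    (h : Algebra.IsIntegral (Algebra.adjoin k (Set.range v)) R)
    (h0 : IsIntegral (Algebra.adjoin k (Set.range (sh v α))) (v 0)) :
    Algebra.IsIntegral (Algebra.adjoin k (Set.range (sh v α))) R := by
  have hle : Algebra.adjoin k (Set.range v) ≤
      (integralClosure (Algebra.adjoin k (Set.range (sh v α))) R).restrictScalars k := by
    refine Algebra.adjoin_le ?_
    rintro _ ⟨i, rfl⟩
    refine Fin.cases h0 (fun i => ?_) i
    have e : v i.succ = sh v α i + α i • v 0 := by simp [sh]
    rw [e]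
    refine add_mem ?_ (Subalgebra.smul_mem _ h0 _)
    exact isIntegral_algebraMap
      (x := (⟨sh v α i, Algebra.subset_adjoin ⟨i, rfl⟩⟩ : Algebra.adjoin k (Set.range (sh v α))))
  refine ⟨fun x => isIntegral_trans
    (A := integralClosure (Algebra.adjoin k (Set.range (sh v α))) R) x ?_⟩
  obtain ⟨p, hp, hx⟩ := h.1 x
  let g : Algebra.adjoin k (Set.range v) →+*
      integralClosure (Algebra.adjoin k (Set.range (sh v α))) R :=
    (Subalgebra.inclusion hle).toRingHom
  exact ⟨p.map g, hp.map g, by rw [Polynomial.eval₂_map]; exact hx⟩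

end GNN

theorem rNN : RNN0 → RNN := by
  intro h0 k R _ _ _ _ _ _ d hd σ _ χ
  have key : ∀ (n : ℕ) (v : Fin n → R), Algebra.IsIntegral (Algebra.adjoin k (Set.range v)) R →
      (∀ s, Rd (cI (χ s) v) (RingHom.ker (χ s))) → ∃ y : Fin d → R, AlgebraicIndependent k y ∧
      Algebra.IsIntegral (Algebra.adjoin k (Set.range y)) R ∧
      ∀ s, Rd (cI (χ s) y) (RingHom.ker (χ s)) := by
    have base : ∀ (n : ℕ) (v : Fin n → R), AlgebraicIndependent k v →
        Algebra.IsIntegral (Algebra.adjoin k (Set.range v)) R → n = d := fun n v hv hi => by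
      have h1 : IsTranscendenceBasis k v :=
        hv.isTranscendenceBasis_iff_isAlgebraic.2 Algebra.IsIntegral.isAlgebraic
      have h2 := h1.cardinalMk_eq_trdeg
      rw [hd, Cardinal.mk_fin] at h2
      exact_mod_cast h2
    intro n
    induction n with
    | zero =>
      intro v hi hr
      have hv : AlgebraicIndependent k v :=
        algebraicIndependent_empty_type_iff.2 (algebraMap k R).injective
      obtain rfl := base 0 v hv hi
      exact ⟨v, hv, hi, hr⟩
    | succ n ih =>
      intro v hi hr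
      by_cases hv : AlgebraicIndependent k v
      · obtain rfl := base _ v hv hi
        exact ⟨v, hv, hi, hr⟩
      obtain ⟨⟨ρ, hρ, h1⟩, h2⟩ := h0 k R n v hv
      choose ρ' hρ' h2 using h2
      have := Fintype.ofFinite σ
      have h3 : ρ * ∏ s, ρ' (χ s) ≠ 0 :=
        mul_ne_zero hρ (Finset.prod_ne_zero_iff.2 fun s _ => hρ' _)
      obtain ⟨α, hα⟩ : ∃ α, eval α (ρ * ∏ s, ρ' (χ s)) ≠ 0 := by
        by_contra hn
        exact h3 (MvPolynomial.funext fun α => by
          rw [map_zero]; exact not_not.1 fun h => hn ⟨α, h⟩)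
      rw [map_mul, map_prod, mul_ne_zero_iff, Finset.prod_ne_zero_iff] at hα
      exact ih (sh v α) (GNN.int_trans v α hi (h1 α hα.1)) fun s =>
        GNN.rd_trans (h2 _ α (hα.2 s (Finset.mem_univ s))) (hr s) (GNN.cI_le _ _)
  obtain ⟨n, f, hf⟩ := Algebra.FiniteType.iff_quotient_mvPolynomial''.1
    (inferInstance : Algebra.FiniteType k R)
  refine key n (fun i => f (X i)) ⟨fun x => ?_⟩ fun s => ⟨0, fun t M => ?_⟩
  · have hx : x ∈ Algebra.adjoin k (Set.range fun i => f (X i)) := by
      rw [Algebra.adjoin_range_eq_range_aeval]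
      obtain ⟨p, rfl⟩ := hf x
      exact ⟨p, (DFunLike.congr_fun (aeval_unique f) p).symm⟩
    exact isIntegral_algebraMap (x := (⟨x, hx⟩ : Algebra.adjoin k (Set.range fun i => f (X i))))
  · exact (Ideal.pow_right_mono (GNN.ker_le (χ s) f hf) t).trans le_sup_left

end Pool.Agent.MP_f3836a_nt.BT
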