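import Pool.Agent.MP_f3836a_nt.BT.SpecG

set_option autoImplicit false

/-! One projection: integrality and reductions. -/

namespace Pool.Agent.MP_f3836a_nt.BT

open MvPolynomial

namespace GNN0

variable {k : Type} [Field k]

/-- induction on forms -/
theorem ind {σ : Type} {P : ℕ → MvPolynomial σ k → Prop} (hC : ∀ c, P 0 (C c))
    (h0 : ∀ j, P j 0) (ha : ∀ j f g, P j f → P j g → P j (f + g))
    (hX : ∀ j f i, P j f → P (j + 1) (f * X i)) {j : ℕ} {H : MvPolynomial σ k}
    (hH : H.IsHomogeneous j) : P j H := by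
  have key : ∀ (d : σ →₀ ℕ) (c : k), ∃ j, (monomial d c).IsHomogeneous j ∧ P j (monomial d c) :=
    induction_on_monomial (motive := fun p => ∃ j, p.IsHomogeneous j ∧ P j p)
      (fun c => ⟨0, isHomogeneous_C _ c, hC c⟩)
      fun p i ⟨j, a, b⟩ => ⟨j + 1, a.mul (isHomogeneous_X k i), hX j p i b⟩
  rw [H.as_sum]
  refine Finset.sum_induction _ (P j) (ha j) (h0 j) fun d hd => ?_
  obtain ⟨j', a, b⟩ := key d (coeff d H)
  have hc := mem_support_iff.1 hd
  have e : d.degree = j := by
    by_contra h
    exact hc (hH.coeff_eq_zero h)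
  rwa [(isHomogeneous_monomial _ e).inj_right a (by simpa using hc)]

/-- the first variable is set to one -/
noncomputable def rho {n : ℕ} (H : MvPolynomial (Fin (n + 1)) k) : MvPolynomial (Fin n) k :=
  aeval (Fin.cons 1 X : Fin (n + 1) → MvPolynomial (Fin n) k) H

theorem aeval_cons {S : Type} [CommRing S] [Algebra k S] {n j : ℕ}
    {H : MvPolynomial (Fin (n + 1)) k} (hH : H.IsHomogeneous j) (t : S) (a : Fin n → S) :
    aeval (Fin.cons t fun i => t * a i : Fin (n + 1) → S) H = t ^ j * aeval a (rho H) := by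
  refine ind (P := fun j H => aeval (Fin.cons t fun i => t * a i : Fin (n + 1) → S) H =
    t ^ j * aeval a (rho H)) (fun c => by simp [rho]) (fun j => by simp [rho])
    (fun j f g a b => ?_) (fun j f i b => ?_) hH
  · rw [map_add, a, b, rho, rho, rho, map_add, map_add, mul_add]
  · rw [map_mul, b, rho, rho, map_mul, map_mul, aeval_X, aeval_X]
    refine Fin.cases ?_ (fun i => ?_) i
    · simp only [Fin.cons_zero, map_one]
      ring
    · simp only [Fin.cons_succ, aeval_X]
      ring

theorem rho_ne {n j : ℕ} {H : MvPolynomial (Fin (n + 1)) k} (hH : H.IsHomogeneous j)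
    (h : H ≠ 0) : rho H ≠ 0 := by
  intro e
  let P := MvPolynomial (Fin (n + 1)) k
  let f : P →ₐ[k] FractionRing P := IsScalarTower.toAlgHom k P (FractionRing P)
  have inj : Function.Injective f := IsFractionRing.injective P (FractionRing P)
  have h0 : f (X 0) ≠ 0 := fun z => X_ne_zero _ (inj (z.trans (map_zero f).symm))
  have h1 := aeval_cons hH (f (X 0)) fun i => f (X i.succ) / f (X 0)
  have h2 : (Fin.cons (f (X 0)) fun i => f (X 0) * (f (X i.succ) / f (X 0)) :
      Fin (n + 1) → FractionRing P) = fun i => f (X i) := by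
    funext i
    refine Fin.cases rfl (fun i => ?_) i
    rw [Fin.cons_succ, mul_div_cancel₀ _ h0]
  rw [h2, e, map_zero, mul_zero] at h1
  exact h (inj (by rw [map_zero, ← h1]; exact congrArg (· H) (aeval_unique f)))

section filt
variable {A S : Type} [CommRing A] [CommRing S] [Algebra k A] [Algebra A S] [Algebra k S]
  [IsScalarTower k A S]

theorem mem_pow {σ : Type} {M : Submodule A S} {x : σ → S} (hx : ∀ i, x i ∈ M) {j : ℕ}
    {H : MvPolynomial σ k} (hH : H.IsHomogeneous j) : aeval x H ∈ M ^ j := by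
  refine ind (P := fun j H => aeval x H ∈ M ^ j) (fun c => ?_) (fun j => by simp)
    (fun j f g a b => ?_) (fun j f i b => ?_) hH
  · rw [aeval_C, pow_zero, IsScalarTower.algebraMap_apply k A S]
    exact Submodule.algebraMap_mem _
  · rw [map_add]
    exact add_mem a b
  · rw [map_mul, aeval_X, pow_succ]
    exact Submodule.mul_mem_mul b (hx i)

theorem diff {σ : Type} {M N : Submodule A S} {x y : σ → S} (hx : ∀ i, x i ∈ M)
    (hy : ∀ i, y i ∈ M) (hxy : ∀ i, x i - y i ∈ N) {j : ℕ} {H : MvPolynomial σ k}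
    (hH : H.IsHomogeneous j) : ∀ r ∈ M, r * (aeval x H - aeval y H) ∈ N * M ^ j := by
  refine (ind (P := fun j H => aeval x H ∈ M ^ j ∧
    ∀ r ∈ M, r * (aeval x H - aeval y H) ∈ N * M ^ j)
    (fun c => ⟨mem_pow hx (isHomogeneous_C _ c), fun r _ => by simp⟩) (fun j => by simp)
    (fun j f g a b => ⟨?_, fun r hr => ?_⟩) (fun j f i b => ⟨?_, fun r hr => ?_⟩) hH).2
  · rw [map_add]
    exact add_mem a.1 b.1
  · rw [map_add, map_add, add_sub_add_comm, mul_add]
    exact add_mem (a.2 r hr) (b.2 r hr)
  · rw [map_mul, aeval_X, pow_succ]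
    exact Submodule.mul_mem_mul b.1 (hx i)
  · have e : r * (aeval x (f * X i) - aeval y (f * X i)) =
        (x i - y i) * (aeval x f * r) + y i * (aeval x f - aeval y f) * r := by
      rw [map_mul, map_mul, aeval_X, aeval_X]
      ring
    rw [e, pow_succ]
    refine add_mem (Submodule.mul_mem_mul (hxy i) (Submodule.mul_mem_mul b.1 hr)) ?_
    rw [← mul_assoc]
    exact Submodule.mul_mem_mul (b.2 _ (hy i)) hr

theorem pow_le (N : Submodule A S) (z : S) (j : ℕ) :
    (N ⊔ Submodule.span A {z}) ^ (j + 1) ≤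
      N * (N ⊔ Submodule.span A {z}) ^ j ⊔ Submodule.span A {z ^ (j + 1)} := by
  have hz : ∀ j, Submodule.span A {z ^ j} = Submodule.span A {z} ^ j := fun j => by
    rw [Submodule.span_pow, Set.singleton_pow]
  induction j with
  | zero => simp
  | succ j ih =>
    rw [pow_succ _ (j + 1)]
    refine (mul_le_mul_left ih _).trans ?_
    rw [Submodule.sup_mul, mul_assoc, ← pow_succ]
    refine sup_le le_sup_left ?_
    rw [Submodule.mul_sup, hz, hz, ← pow_succ, mul_comm]
    exact sup_le_sup_right (mul_le_mul_right (pow_le_pow_left' le_sup_right _) _) _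

/-- the main step -/
theorem step {n : ℕ} {N E : Submodule A S} {x : Fin (n + 1) → S} {α : Fin n → k}
    (hN : ∀ i, sh x α i ∈ N) {j : ℕ} {H : MvPolynomial (Fin (n + 1)) k} (hH : H.IsHomogeneous j)
    (hc : eval α (rho H) ≠ 0) (hE : x 0 * aeval x H ∈ E) :
    (N ⊔ Submodule.span A {x 0}) ^ (j + 1) ≤ N * (N ⊔ Submodule.span A {x 0}) ^ j ⊔ E := by
  have h0 : x 0 ∈ N ⊔ Submodule.span A {x 0} :=
    Submodule.mem_sup_right (Submodule.mem_span_singleton_self _)
  have e : ∀ i, x 0 * algebraMap k S (α i) = α i • x 0 := fun i => by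
    rw [mul_comm, Algebra.smul_def]
  have hy : ∀ i, (Fin.cons (x 0) fun i => x 0 * algebraMap k S (α i) : Fin (n + 1) → S) i ∈
      N ⊔ Submodule.span A {x 0} := fun i => Fin.cases h0 (fun i => by
    rw [Fin.cons_succ, e]
    exact Submodule.smul_of_tower_mem _ _ h0) i
  have hxy : ∀ i, x i - (Fin.cons (x 0) fun i => x 0 * algebraMap k S (α i) : Fin (n + 1) → S) i
      ∈ N := fun i => Fin.cases (by simp) (fun i => by
    rw [Fin.cons_succ, e]
    exact hN i) i
  have h1 := diff (fun i => by simpa using add_mem (Submodule.mem_sup_left (hxy i)) (hy i))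
    hy hxy hH _ h0
  have e1 : aeval (fun i => algebraMap k S (α i)) (rho H) = algebraMap k S (eval α (rho H)) :=
    (aeval_algebraMap_apply S α _).trans (by rw [aeval_eq_eval])
  rw [aeval_cons hH, e1] at h1
  refine (pow_le N _ j).trans (sup_le le_sup_left ?_)
  rw [Submodule.span_singleton_le_iff_mem]
  have h2 := Submodule.smul_of_tower_mem _ (eval α (rho H))⁻¹
    (sub_mem (Submodule.mem_sup_right hE) (Submodule.mem_sup_left h1))
  have e2 : x 0 * aeval x H - x 0 * (aeval x H - x 0 ^ j * algebraMap k S (eval α (rho H))) =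
      eval α (rho H) • x 0 ^ (j + 1) := by
    rw [Algebra.smul_def]
    ring
  rwa [e2, inv_smul_smul₀ hc] at h2

omit [Algebra k A] [IsScalarTower k A S] in
theorem split {σ : Type} {E : Submodule A S} {x : σ → S} {z : S} {G : MvPolynomial σ k}
    (hG : aeval x G = 0) (o : ℕ) (h : ∀ j ≠ o, z * aeval x (homogeneousComponent j G) ∈ E) :
    z * aeval x (homogeneousComponent o G) ∈ E := by
  by_cases ho : o ∈ Finset.range (G.totalDegree + 1)
  · rw [← sum_homogeneousComponent G, ← Finset.add_sum_erase _ _ ho, map_add,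
      add_eq_zero_iff_eq_neg] at hG
    rw [hG, mul_neg, map_sum, Finset.mul_sum]
    exact neg_mem (sum_mem fun j hj => h j (Finset.ne_of_mem_erase hj))
  · rw [homogeneousComponent_eq_zero _ _ (by simpa using ho), map_zero, mul_zero]
    exact zero_mem _

end filt

theorem ex_comp {σ : Type} {G : MvPolynomial σ k} (h : G ≠ 0) :
    ∃ j ≤ G.totalDegree, homogeneousComponent j G ≠ 0 := by
  by_contra c
  push Not at c
  exact h ((sum_homogeneousComponent G).symm.trans
    (Finset.sum_eq_zero fun j hj => c j (Nat.lt_succ_iff.1 (Finset.mem_range.1 hj))))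

theorem ex_top {σ : Type} {G : MvPolynomial σ k} (h : G ≠ 0) :
    ∃ o, homogeneousComponent o G ≠ 0 ∧ ∀ j, o < j → homogeneousComponent j G = 0 := by
  classical
  obtain ⟨j, a, b⟩ := ex_comp h
  refine ⟨_, Nat.findGreatest_spec (P := fun j => homogeneousComponent j G ≠ 0) a b,
    fun i hi => ?_⟩
  by_cases c : i ≤ G.totalDegree
  · exact not_not.1 (Nat.findGreatest_is_greatest hi c)
  · exact homogeneousComponent_eq_zero _ _ (not_le.1 c)

theorem ex_low {σ : Type} {G : MvPolynomial σ k} (h : G ≠ 0) :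
    ∃ o, homogeneousComponent o G ≠ 0 ∧ ∀ j, j < o → homogeneousComponent j G = 0 := by
  classical
  have e : ∃ j, homogeneousComponent j G ≠ 0 := (ex_comp h).imp fun _ a => a.2
  exact ⟨_, Nat.find_spec e, fun i hi => not_not.1 (Nat.find_min e hi)⟩

/-- a stable power gives integrality -/
theorem integral {A S : Type} [CommRing A] [CommRing S] [Algebra A S] {z : S} {D : ℕ}
    (h : (1 ⊔ Submodule.span A {z}) ^ (D + 1) ≤ (1 ⊔ Submodule.span A {z}) ^ D) :
    IsIntegral A z := by
  have fg : (1 ⊔ Submodule.span A {z} : Submodule A S).FG := by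
    rw [Submodule.one_eq_span]
    exact (Submodule.fg_span_singleton _).sup (Submodule.fg_span_singleton _)
  have h1 : (1 : S) ∈ (1 ⊔ Submodule.span A {z} : Submodule A S) ^ D :=
    Submodule.one_le.1 (one_le_pow_of_one_le' le_sup_left D)
  have hz : z ∈ (1 ⊔ Submodule.span A {z} : Submodule A S) :=
    Submodule.mem_sup_right (Submodule.mem_span_singleton_self _)
  generalize (1 ⊔ Submodule.span A {z} : Submodule A S) = M at *
  have h2 : ∀ s, M ^ (D + s) ≤ M ^ D := fun s => by
    induction s with
    | zero => exact le_rfl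
    | succ s ih =>
      rw [← add_assoc, pow_succ]
      exact (mul_le_mul_left ih _).trans ((pow_succ M D).ge.trans h)
  refine IsIntegral.of_mem_of_fg ((M ^ D).toSubalgebra h1 fun a b ha hb => h2 D ?_) (fg.pow D) z
    (h ?_)
  · rw [pow_add]
    exact Submodule.mul_mem_mul ha hb
  · rw [pow_succ]
    simpa using Submodule.mul_mem_mul h1 hz

/-- iteration of one inclusion -/
theorem rd {R : Type} [CommRing R] {q m : Ideal R} {o : ℕ}
    (h : m ^ (o + 1) ≤ q * m ^ o ⊔ m ^ (o + 2)) : Rd q m := by
  have h1 : ∀ s, m ^ (o + 1) ≤ q * m ^ o ⊔ m ^ (o + 1 + s) := fun s => by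
    induction s with
    | zero => exact le_sup_right
    | succ s ih =>
      refine ih.trans (sup_le le_sup_left ?_)
      rw [pow_add]
      refine (mul_le_mul_left h _).trans ?_
      rw [Ideal.sup_mul, ← pow_add, show o + 2 + s = o + 1 + (s + 1) by ring]
      exact sup_le_sup_right Ideal.mul_le_left _
  have h2 : ∀ t M, m ^ (t + o) ≤ q ^ t * m ^ o ⊔ m ^ M := fun t M => by
    induction t with
    | zero => simp
    | succ t ih =>
      rw [add_right_comm, pow_succ]
      refine (mul_le_mul_left ih _).trans ?_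
      rw [Ideal.sup_mul, mul_assoc, ← pow_succ]
      refine sup_le ((mul_le_mul_right (h1 M) _).trans ?_) (le_sup_of_le_right Ideal.mul_le_left)
      rw [Ideal.mul_sup, ← mul_assoc, ← pow_succ]
      exact sup_le_sup_left (Ideal.mul_le_right.trans (Ideal.pow_le_pow_right (by omega))) _
  exact ⟨o, fun t M => (h2 t M).trans (sup_le_sup_right Ideal.mul_le_left _)⟩

end GNN0

open GNN0 in
theorem rNN0 : RNN0 := by
  intro k R _ _ _ n v hv
  rw [algebraicIndependent_iff] at hv
  push Not at hv
  obtain ⟨G, hG, G0⟩ := hv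
  refine ⟨?_, fun χ => ?_⟩
  · obtain ⟨o, a, b⟩ := ex_top G0
    have hH := homogeneousComponent_isHomogeneous o G
    refine ⟨_, rho_ne hH a, fun α hα => integral (D := o) ?_⟩
    have hN : ∀ i, sh v α i ∈ (1 : Submodule (Algebra.adjoin k (Set.range (sh v α))) R) :=
      fun i => Submodule.algebraMap_mem
        (⟨_, Algebra.subset_adjoin ⟨i, rfl⟩⟩ : Algebra.adjoin k (Set.range (sh v α)))
    have h0 : v 0 ∈ (1 : Submodule (Algebra.adjoin k (Set.range (sh v α))) R) ⊔
        Submodule.span _ {v 0} := Submodule.mem_sup_right (Submodule.mem_span_singleton_self _)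
    have hx : ∀ i, v i ∈ (1 : Submodule (Algebra.adjoin k (Set.range (sh v α))) R) ⊔
        Submodule.span _ {v 0} := fun i => Fin.cases h0 (fun i => by
      simpa [sh] using add_mem (Submodule.mem_sup_left (hN i))
        (Submodule.smul_of_tower_mem _ (α i) h0)) i
    refine (step hN hH hα (split hG o fun j hj => ?_)).trans (sup_le (one_mul _).le le_rfl)
    rcases lt_or_gt_of_ne hj with c | c
    · refine SetLike.le_def.1 (pow_le_pow_right' le_sup_left (Nat.succ_le_of_lt c)) ?_
      rw [pow_succ']
      exact Submodule.mul_mem_mul h0 (mem_pow hx (homogeneousComponent_isHomogeneous j G))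
    · rw [b j c, map_zero, mul_zero]
      exact zero_mem _
  · let w : Fin (n + 1) → R := fun i => v i - algebraMap k R (χ (v i))
    let G' : MvPolynomial (Fin (n + 1)) k := aeval (fun i => X i + C (χ (v i))) G
    have hG' : aeval w G' = 0 := by
      rw [← hG, comp_aeval_apply]
      simp [w]
    have G0' : G' ≠ 0 := fun e => G0 (by
      have := congrArg (aeval fun i => (X i - C (χ (v i)) : MvPolynomial (Fin (n + 1)) k)) e
      rw [comp_aeval_apply] at this
      simpa using this)
    obtain ⟨o, a, b⟩ := ex_low G0'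
    have hH := homogeneousComponent_isHomogeneous o G'
    refine ⟨_, rho_ne hH a, fun α hα => rd (o := o) ?_⟩
    have e : ∀ i, sh v α i - algebraMap k R (χ (sh v α i)) = sh w α i := fun i => by
      simp only [sh, w, map_sub, map_mul, Algebra.smul_def]
      simp only [AlgHom.commutes, Algebra.algebraMap_self, RingHom.id_apply]
      ring
    have hN : ∀ i, sh w α i ∈ cI χ (sh v α) := fun i => Ideal.subset_span ⟨i, e i⟩
    have hx : ∀ i, w i ∈ cI χ v := fun i => Ideal.subset_span ⟨i, rfl⟩
    have hm : cI χ v = cI χ (sh v α) ⊔ Submodule.span R {w 0} := by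
      refine le_antisymm (Ideal.span_le.2 ?_) (sup_le (Ideal.span_le.2 ?_) ?_)
      · rintro _ ⟨i, rfl⟩
        have h0 : w 0 ∈ cI χ (sh v α) ⊔ Submodule.span R {w 0} :=
          Submodule.mem_sup_right (Submodule.mem_span_singleton_self _)
        change w i ∈ cI χ (sh v α) ⊔ Submodule.span R {w 0}
        refine Fin.cases h0 (fun i => ?_) i
        simpa only [sh, sub_add_cancel] using add_mem (Submodule.mem_sup_left (hN i))
          (Submodule.smul_of_tower_mem _ (α i) h0)
      · rintro _ ⟨i, rfl⟩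
        change _ - _ ∈ cI χ v
        rw [e]
        exact sub_mem (hx _) (Submodule.smul_of_tower_mem _ (α i) (hx 0))
      · exact (Submodule.span_singleton_le_iff_mem _ _).2 (hx 0)
    have h := step hN hH hα (split (E := cI χ v ^ (o + 2)) hG' o fun j hj => ?_)
    · rwa [← hm] at h
    rcases lt_or_gt_of_ne hj with c | c
    · rw [b j c, map_zero, mul_zero]
      exact zero_mem _
    · refine Ideal.pow_le_pow_right (show o + 2 ≤ j + 1 by omega) ?_
      rw [pow_succ']
      exact Submodule.mul_mem_mul (hx 0) (mem_pow hx (homogeneousComponent_isHomogeneous j G'))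

end Pool.Agent.MP_f3836a_nt.BT
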