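import Pool.Agent.MP_f3836a_nt.BT.SpecG

set_option autoImplicit false

/-! Division by a local equation near finitely many points, through the lemma of Nakayama. -/

namespace Pool.Agent.MP_f3836a_nt.BT

namespace GNak

open Polynomial

variable {A C : Type} [CommRing A] [CommRing C] [Algebra A C]

/-- low powers of `z` together with the multiples of `c` -/
def NN (A : Type) [CommRing A] [Algebra A C] (z c : C) (B : ℕ) : Submodule A C :=
  Submodule.span A (Set.range fun j : Fin B => z ^ (j : ℕ)) ⊔ (Ideal.span {c}).restrictScalars A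

lemma low_mem (z c : C) (B : ℕ) (P : A[X]) (hP : P.degree < B) : aeval z P ∈ NN A z c B := by
  refine Submodule.mem_sup_left ?_
  rw [aeval_def, eval₂_eq_sum, Polynomial.sum_def]
  refine Submodule.sum_mem _ fun i hi => ?_
  have h1 : (i : WithBot ℕ) < B := lt_of_le_of_lt (le_degree_of_mem_supp i hi) hP
  have h2 : i < B := by exact_mod_cast h1
  rw [← Algebra.smul_def]
  exact Submodule.smul_mem _ _ (Submodule.subset_span ⟨⟨i, h2⟩, rfl⟩)

lemma top_le (z c : C) (B : ℕ) (hgen : ∀ x : C, ∃ P : A[X], aeval z P = x) (q : Ideal A)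
    (hq : q ≠ ⊤) (ζ : A)
    (h : (z - algebraMap A C ζ) ^ B ∈ q.map (algebraMap A C) ⊔ Ideal.span {c}) (x : C) :
    x ∈ NN A z c B ⊔ q • (⊤ : Submodule A C) := by
  have : Nontrivial A := by
    by_contra hn
    rw [not_nontrivial_iff_subsingleton] at hn
    exact hq (Subsingleton.elim _ _)
  obtain ⟨P, rfl⟩ := hgen x
  have hm : ((X - Polynomial.C ζ) ^ B : A[X]).Monic := (monic_X_sub_C ζ).pow B
  have hd : ((X - Polynomial.C ζ) ^ B : A[X]).degree = B := by
    rw [degree_eq_natDegree hm.ne_zero, (monic_X_sub_C ζ).natDegree_pow, natDegree_X_sub_C,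
      mul_one]
  rw [← modByMonic_add_div P ((X - Polynomial.C ζ) ^ B), map_add]
  refine Submodule.add_mem _ (Submodule.mem_sup_left (low_mem z c B _ ?_)) ?_
  · rw [← hd]
    exact degree_modByMonic_lt P hm
  · rw [map_mul, map_pow, map_sub, aeval_X, aeval_C]
    obtain ⟨u, hu, v, hv, huv⟩ := Submodule.mem_sup.1 (Ideal.mul_mem_right
      (aeval z (P /ₘ (X - Polynomial.C ζ) ^ B)) _ h)
    rw [← huv]
    refine Submodule.add_mem _ (Submodule.mem_sup_right ?_)
      (Submodule.mem_sup_left (Submodule.mem_sup_right hv))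
    rw [Ideal.smul_top_eq_map]
    exact hu

lemma not_le [Module.Finite A C] (N : Submodule A C) (q : Ideal A) (hq : q ≠ ⊤)
    (h : ∀ x : C, x ∈ N ⊔ q • (⊤ : Submodule A C)) : ¬Module.annihilator A (C ⧸ N) ≤ q := by
  intro hle
  have h1 : (⊤ : Submodule A (C ⧸ N)) ≤ q • ⊤ := by
    intro m _
    obtain ⟨x, rfl⟩ := N.mkQ_surjective m
    obtain ⟨u, hu, v, hv, rfl⟩ := Submodule.mem_sup.1 (h x)
    have h0 : N.mkQ u = 0 := (Submodule.Quotient.mk_eq_zero N).2 hu
    rw [map_add, h0, zero_add]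
    have h2 := Submodule.mem_map_of_mem (f := N.mkQ) hv
    rw [Submodule.map_smul''] at h2
    exact Submodule.smul_mono le_rfl le_top h2
  obtain ⟨r, hr, hr'⟩ := Submodule.exists_sub_one_mem_and_smul_eq_zero_of_fg_of_le_smul q ⊤
    Module.Finite.fg_top h1
  have h3 : r ∈ q := hle (Module.mem_annihilator.2 fun m => hr' m trivial)
  have h4 : r - (r - 1) ∈ q := q.sub_mem h3 hr
  rw [sub_sub_cancel] at h4
  exact hq ((Ideal.eq_top_iff_one q).2 h4)

lemma core [Module.Finite A C] (z c : C) (B : ℕ) (hgen : ∀ x : C, ∃ P : A[X], aeval z P = x)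
    {σ : Type} [Finite σ] (q : σ → Ideal A) (hq : ∀ s, (q s).IsPrime) (ζ : σ → A)
    (h : ∀ s, (z - algebraMap A C (ζ s)) ^ B ∈ (q s).map (algebraMap A C) ⊔ Ideal.span {c}) :
    ∃ w : A, (∀ s, w ∉ q s) ∧ ∀ x : C, ∃ (g : Fin B → A) (b : C),
      algebraMap A C w * x = ∑ j, algebraMap A C (g j) * z ^ (j : ℕ) + c * b := by
  have := Fintype.ofFinite σ
  have key : ∃ w ∈ Module.annihilator A (C ⧸ NN A z c B), ∀ s, w ∉ q s := by
    by_contra hn
    push Not at hn
    obtain ⟨s₀, -⟩ := hn 0 (Ideal.zero_mem _)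
    obtain ⟨s, -, hs⟩ := (Ideal.subset_union_prime (s := Finset.univ) (f := q) s₀ s₀
      (fun i _ _ _ => hq i) (I := Module.annihilator A (C ⧸ NN A z c B))).1 (by
        intro w hw
        obtain ⟨s, hs⟩ := hn w hw
        exact Set.mem_biUnion (Finset.mem_coe.2 (Finset.mem_univ s)) hs)
    exact not_le _ (q s) (hq s).ne_top (top_le z c B hgen (q s) (hq s).ne_top (ζ s) (h s)) hs
  obtain ⟨w, hw, hw'⟩ := key
  refine ⟨w, hw', fun x => ?_⟩
  have h1 : w • x ∈ NN A z c B := by
    rw [← Submodule.Quotient.mk_eq_zero, Submodule.Quotient.mk_smul]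
    exact Module.mem_annihilator.1 hw _
  obtain ⟨u, hu, v, hv, huv⟩ := Submodule.mem_sup.1 h1
  obtain ⟨g, rfl⟩ := (Submodule.mem_span_range_iff_exists_fun A).1 hu
  obtain ⟨b, rfl⟩ := Ideal.mem_span_singleton'.1 hv
  refine ⟨g, b, ?_⟩
  rw [← Algebra.smul_def, ← huv, mul_comm b c]
  simp only [Algebra.smul_def]

end GNak

theorem rNak : RNak := by
  intro k C _ _ _ d B y z c hadj hint σ _ χ h
  set A := Algebra.adjoin k (Set.range y) with hA
  have htop : Algebra.adjoin A {z} = ⊤ := by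
    apply Subalgebra.restrictScalars_injective k
    rw [← Algebra.adjoin_union_eq_adjoin_adjoin, Set.union_singleton, hadj]
    rfl
  have hgen : ∀ x : C, ∃ P : Polynomial A, Polynomial.aeval z P = x := fun x => by
    have hx : x ∈ Algebra.adjoin A {z} := htop ▸ Algebra.mem_top
    rw [Algebra.adjoin_singleton_eq_range_aeval] at hx
    exact hx
  have hfin : Module.Finite A C := by
    refine ⟨?_⟩
    have h1 := hint.fg_adjoin_singleton
    rw [htop] at h1
    exact h1
  let e : σ → A →ₐ[k] k := fun s => (χ s).comp A.val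
  obtain ⟨w, hw, hx⟩ := GNak.core (A := A) z c B hgen (fun s => RingHom.ker (e s))
    (fun s => RingHom.ker_isPrime _) (fun s => algebraMap k A (χ s z)) (fun s => by
      rw [← IsScalarTower.algebraMap_apply]
      refine (sup_le_sup_right ?_ _ : cI (χ s) y ⊔ _ ≤ _) (h s)
      refine Ideal.span_le.2 ?_
      rintro _ ⟨i, rfl⟩
      have hy : y i ∈ A := Algebra.subset_adjoin ⟨i, rfl⟩
      have h1 : (⟨y i, hy⟩ : A) - algebraMap k A (χ s (y i)) ∈ RingHom.ker (e s) := by
        rw [RingHom.mem_ker, map_sub, AlgHom.commutes]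
        exact sub_self _
      exact Ideal.mem_map_of_mem (algebraMap A C) h1)
  refine ⟨w, hw, fun x => ?_⟩
  obtain ⟨g, b, hg⟩ := hx x
  have hr : ∀ j, ∃ G : MvPolynomial (Fin d) k, MvPolynomial.aeval y G = (g j : C) := fun j => by
    have h1 : (g j : C) ∈ Algebra.adjoin k (Set.range y) := (g j).2
    rw [Algebra.adjoin_range_eq_range_aeval] at h1
    exact h1
  choose G hG using hr
  refine ⟨_, b, ⟨G, rfl⟩, ?_⟩
  simp only [hG]
  exact hg

end Pool.Agent.MP_f3836a_nt.BT
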