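import Pool.Agent.MP_f3836a_nt.BT.SpecG

set_option autoImplicit false

/-! Forms without a common zero on the cone generate in large degree; blocks give a system. -/

namespace Pool.Agent.MP_f3836a_nt.BT

open MvPolynomial

namespace GNull

variable {k Ω : Type} [Field k] [Field Ω] [Algebra k Ω] {N : ℕ}

/-- the graded evaluation map -/
noncomputable def Phi (k : Type) [Field k] [Algebra k Ω] (ξ : Fin N → Ω) :
    MvPolynomial (Fin N) k →ₐ[k] Polynomial Ω :=
  aeval fun i => Polynomial.C (ξ i) * Polynomial.X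

lemma phi_hom (ξ : Fin N → Ω) {H : MvPolynomial (Fin N) k} {n : ℕ} (hH : H.IsHomogeneous n) :
    Phi k ξ H = Polynomial.C (aeval ξ H) * Polynomial.X ^ n := by
  conv_lhs => rw [H.as_sum]
  conv_rhs => rw [H.as_sum]
  rw [map_sum, map_sum, map_sum, Finset.sum_mul]
  refine Finset.sum_congr rfl fun s hs => ?_
  rw [hH.degree_eq_sum_deg_support hs, Phi, aeval_monomial, aeval_monomial, map_mul,
    Polynomial.algebraMap_apply, mul_assoc]
  congr 1
  simp only [Finsupp.prod, mul_pow, Finset.prod_mul_distrib, Finset.prod_pow_eq_pow_sum, map_prod,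
    map_pow]

lemma phi_coeff (V : Submodule k Ω) (ξ : Fin N → Ω) (T : ℕ)
    (hV : ∀ G : MvPolynomial (Fin N) k, G.IsHomogeneous T → aeval ξ G ∈ V)
    (b : MvPolynomial (Fin N) k) : (Phi k ξ b).coeff T ∈ V := by
  rw [← sum_homogeneousComponent b, map_sum, Polynomial.finsetSum_coeff]
  refine Submodule.sum_mem _ fun i _ => ?_
  rw [phi_hom ξ (homogeneousComponent_isHomogeneous i b), Polynomial.coeff_C_mul_X_pow]
  split_ifs with h
  · subst h
    exact hV _ (homogeneousComponent_isHomogeneous _ b)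
  · exact V.zero_mem

/-- forms vanishing at the generic point -/
def P0 (k : Type) [Field k] [Algebra k Ω] (ξ : Fin N → Ω) : Set (MvPolynomial (Fin N) k) :=
  {H | ∃ n, H.IsHomogeneous n ∧ aeval ξ H = 0}

lemma phi_P0 (ξ : Fin N → Ω) {p : MvPolynomial (Fin N) k} (hp : p ∈ Ideal.span (P0 k ξ)) :
    Phi k ξ p = 0 := by
  have : Ideal.span (P0 k ξ) ≤ RingHom.ker (Phi k ξ) := by
    rw [Ideal.span_le]
    rintro H ⟨n, hH, h0⟩
    rw [SetLike.mem_coe, RingHom.mem_ker, phi_hom ξ hH, h0]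
    simp
  exact this hp

lemma big [IsAlgClosed k] (ξ : Fin N → Ω) {n : ℕ} (G : Fin n → MvPolynomial (Fin N) k)
    (h : ∀ x, IsPt ξ x → ∃ j, eval x (G j) ≠ 0) :
    ∃ c : ℕ, ∀ (m : ℕ) (H : MvPolynomial (Fin N) k), c ≤ m → H.IsHomogeneous m →
      H ∈ Ideal.span (P0 k ξ) ⊔ Ideal.span (Set.range G) := by
  have h1 : idealOfVars (Fin N) k ≤ (Ideal.span (P0 k ξ) ⊔ Ideal.span (Set.range G)).radical := by
    rw [← vanishingIdeal_zeroLocus_eq_radical (K := k), Ideal.span_le]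
    rintro _ ⟨i, rfl⟩ x hx
    have hx0 : x = 0 := by
      by_contra hne
      obtain ⟨j, hj⟩ := h x ⟨hne, fun m H hH h0 => by
        have := hx H (Ideal.mem_sup_left (Ideal.subset_span ⟨m, hH, h0⟩))
        rwa [aeval_eq_eval] at this⟩
      have := hx (G j) (Ideal.mem_sup_right (Ideal.subset_span ⟨j, rfl⟩))
      rw [aeval_eq_eval] at this
      exact hj this
    simp [hx0]
  obtain ⟨c, hc⟩ := Ideal.exists_pow_le_of_le_radical_of_fg h1 (idealOfVars_fg _ _)
  refine ⟨c, fun m H hm hH => hc ?_⟩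
  rw [mem_pow_idealOfVars_iff']
  intro s hs
  exact hH.coeff_eq_zero (by omega)

lemma cmp_pow (V : Submodule k Ω) {γ m : ℕ} {g a : Ω} (hm : 1 ≤ m) (hg : g ∈ V ^ γ)
    (h : Cmp V γ g a) : Cmp V (γ * m) (g ^ m) a := by
  obtain ⟨m, rfl⟩ := Nat.exists_eq_add_of_le' hm
  have h1 : g ^ m ∈ V ^ (γ * m) := by
    rw [pow_mul]
    exact Submodule.pow_mem_pow _ hg m
  constructor
  · rw [mul_add, mul_one, pow_add, pow_succ, mul_assoc]
    exact Submodule.mul_mem_mul h1 h.1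
  · rw [mul_add, mul_one, pow_add, pow_succ, mul_div_assoc]
    exact Submodule.mul_mem_mul h1 h.2

end GNull

open GNull

theorem rNull : RPw → RNull := by
  intro hPw k Ω _ _ _ _ N n γ ξ G hG hpt
  have hP := (hPw k Ω N ξ).1
  obtain ⟨c, hc⟩ := big ξ G hpt
  refine ⟨c, fun T hT w hw => ?_⟩
  obtain ⟨H, hH, rfl⟩ := (hP _ _).1 hw
  obtain ⟨p, hp, q, hq, hpq⟩ := Submodule.mem_sup.1 (hc _ H (by omega) hH)
  obtain ⟨b, rfl⟩ := Ideal.mem_span_range_iff_exists_fun.1 hq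
  refine ⟨fun j => (Phi k ξ (b j)).coeff T, fun j =>
    phi_coeff _ ξ T (fun G' hG' => (hP _ _).2 ⟨G', hG', rfl⟩) _, ?_⟩
  have h1 := congrArg (fun P => (Phi k ξ P).coeff (T + γ)) hpq
  simp only [map_add, phi_P0 ξ hp, zero_add, map_sum, map_mul, phi_hom ξ hH,
    Polynomial.coeff_C_mul_X_pow, if_true, Polynomial.finsetSum_coeff] at h1
  rw [← h1]
  refine Finset.sum_congr rfl fun j _ => ?_
  rw [phi_hom ξ (hG j), ← mul_assoc, Polynomial.coeff_mul_X_pow, Polynomial.coeff_mul_C, mul_comm]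

theorem rSys2 : RPw → RNull → RSys2 := by
  intro hPw hNull k Ω ι W _ _ _ _ _ N n ξ J a ⟨Jb, G, γ, hJ, hJb, hb, hpt⟩
  classical
  have hP := (hPw k Ω N ξ).1
  have he : ∀ j, Nonempty (W ≃ Jb j) := fun j =>
    Fintype.card_eq.1 (by rw [Fintype.card_coe, (hb j).1])
  let e : ∀ j, W ≃ Jb j := fun j => (he j).some
  let m : Fin n → ℕ := fun j => ∏ l ∈ Finset.univ.erase j, γ l
  have hm : ∀ j, γ j * m j = ∏ l, γ l := fun j =>
    Finset.mul_prod_erase Finset.univ γ (Finset.mem_univ j)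
  have hm1 : ∀ j, 1 ≤ m j := fun j => Finset.one_le_prod' fun l _ => (hb l).2.1
  have hhom : ∀ j, (G j ^ m j).IsHomogeneous (∏ l, γ l) := fun j => by
    rw [← hm j]
    exact (hb j).2.2.1.pow _
  obtain ⟨T₀, hT⟩ := hNull k Ω N n (∏ l, γ l) ξ (fun j => G j ^ m j) hhom (fun x hx => by
    rcases hpt x hx with ⟨H, hH, _⟩ | ⟨j, hj⟩
    · exact absurd hH (Set.notMem_empty _)
    · exact ⟨j, by rw [map_pow]; exact pow_ne_zero _ hj⟩)
  refine ⟨fun x => (e x.1 x.2 : ι), ?_, ?_, ∏ l, γ l, T₀, fun j => aeval ξ (G j ^ m j),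
    Finset.one_le_prod' fun l _ => (hb l).2.1, fun j => ⟨?_, (hP _ _).2 ⟨_, hhom j, rfl⟩⟩,
    fun j w => ?_, hT⟩
  · rintro ⟨j, w⟩ ⟨j', w'⟩ h
    have hjj : j = j' := by
      by_contra hne
      have h1 : (e j w : ι) ∈ Jb j := (e j w).2
      have h2 : (e j' w' : ι) ∈ Jb j' := (e j' w').2
      rw [← show (e j w : ι) = e j' w' from h] at h2
      exact Finset.disjoint_left.1 (hJb j j' hne) h1 h2
    subst hjj
    have hw : w = w' := (e j).injective (Subtype.ext h)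
    rw [hw]
  · rintro ⟨j, w⟩ h
    exact Finset.disjoint_left.1 (hJ j) h (e j w).2
  · beta_reduce
    rw [map_pow]
    exact pow_ne_zero _ (hb j).2.2.2.1
  · beta_reduce
    rw [map_pow, ← hm j]
    exact cmp_pow _ (hm1 j) ((hP _ _).2 ⟨_, (hb j).2.2.1, rfl⟩) ((hb j).2.2.2.2 _ (e j w).2)

end Pool.Agent.MP_f3836a_nt.BT
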