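import Pool.Agent.MP_f3836a_nt.BT.SpecG

set_option autoImplicit false

/-! The multiplicity bound and the preparation step. -/

namespace Pool.Agent.MP_f3836a_nt.BT

open MvPolynomial

namespace GPrep

theorem point (k R : Type) [Field k] [IsAlgClosed k] [CommRing R] [Nontrivial R] [Algebra k R]
    [Algebra.FiniteType k R] : Nonempty (R →ₐ[k] k) := by
  obtain ⟨m, hm⟩ := Ideal.exists_maximal R
  let _ : Field (R ⧸ m) := Ideal.Quotient.field m
  have : Module.Finite k (R ⧸ m) := finite_of_finite_type_of_isJacobsonRing k (R ⧸ m)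
  exact ⟨(IsAlgClosed.lift : (R ⧸ m) →ₐ[k] k).comp (Ideal.Quotient.mkₐ k m)⟩

section
variable {k C R : Type} [Field k] [CommRing C] [Algebra k C] [CommRing R] [Algebra k R]

theorem ordZ (f : C →ₐ[k] R) (hf : Function.Injective f) {d : ℕ} (χ : R →ₐ[k] k) (y : Fin d → C)
    (z : C) (o : ℕ) (h : OrdZ χ (fun j => f (y j)) (f z) o) : OrdZ (χ.comp f) y z o := by
  obtain ⟨G, h1, h2⟩ := h
  refine ⟨G, hf ?_, h2⟩
  rw [map_zero, ← h1]
  refine (Polynomial.hom_eval₂ G _ f.toRingHom z).trans ?_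
  rw [← comp_aeval]
  rfl

theorem lam (f : C →ₐ[k] R) {d B : ℕ} (y : Fin d → C) (z l : C) (h : Lam k y z B l) :
    Lam k (fun j => f (y j)) (f z) B (f l) := by
  obtain ⟨g, rfl⟩ := h
  refine ⟨g, ?_⟩
  rw [map_sum]
  refine Finset.sum_congr rfl fun j _ => ?_
  rw [map_mul, map_pow, comp_aeval_apply]

theorem top {d : ℕ} (v : Fin (d + 1) → C) (α : Fin d → k)
    (h : Algebra.adjoin k (Set.range v) = ⊤) :
    Algebra.adjoin k (insert (v 0) (Set.range (sh v α))) = ⊤ := by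
  refine top_unique (h.ge.trans (Algebra.adjoin_le ?_))
  have h0 : v 0 ∈ Algebra.adjoin k (insert (v 0) (Set.range (sh v α))) :=
    Algebra.subset_adjoin (Set.mem_insert _ _)
  rintro _ ⟨i, rfl⟩
  refine Fin.cases h0 (fun i => ?_) i
  have e : v i.succ = sh v α i + α i • v 0 := (sub_add_cancel _ _).symm
  rw [e]
  exact add_mem (Algebra.subset_adjoin (Set.mem_insert_of_mem _ ⟨i, rfl⟩))
    (Subalgebra.smul_mem _ h0 _)

theorem sub {n : ℕ} (w : Fin n → R) [IsDomain R] :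
    ∃ (C : Type) (_ : CommRing C) (_ : IsDomain C) (_ : Algebra k C) (f : C →ₐ[k] R)
      (v : Fin n → C), Function.Injective f ∧ (∀ i, f (v i) = w i) ∧
      Algebra.adjoin k (Set.range v) = ⊤ ∧ ∀ x ∈ Algebra.adjoin k (Set.range w), ∃ c, f c = x := by
  refine ⟨Algebra.adjoin k (Set.range w), inferInstance, inferInstance, inferInstance,
    Subalgebra.val _, fun i => ⟨w i, Algebra.subset_adjoin ⟨i, rfl⟩⟩, Subtype.val_injective,
    fun _ => rfl, ?_, fun x hx => ⟨⟨x, hx⟩, rfl⟩⟩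
  refine top_unique (Algebra.adjoin_adjoin_coe_preimage.ge.trans (Algebra.adjoin_mono ?_))
  rintro x ⟨i, hi⟩
  exact ⟨i, Subtype.ext hi⟩

end

theorem nak (hN : RNak) {k C : Type} [Field k] [CommRing C] [Algebra k C] {d B : ℕ}
    (y : Fin d → C) (z c c0 a : C) (h1 : Algebra.adjoin k (insert z (Set.range y)) = ⊤)
    (h2 : IsIntegral (Algebra.adjoin k (Set.range y)) z) {σ : Type} [Finite σ]
    (χ : σ → C →ₐ[k] k) (h0 : ∀ s, χ s c0 = 0) (hd : a * c0 ∣ c)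
    (h3 : ∀ s, (z - algebraMap k C (χ s z)) ^ B ∈ cI (χ s) y ⊔ Ideal.span {c}) :
    ∃ u, (∀ s, χ s u ≠ 0) ∧ Lam k y z B (a * u) := by
  obtain ⟨w, hw, h⟩ := hN k C d B y z (a * c0) h1 h2 σ χ fun s =>
    sup_le_sup_left (Ideal.span_singleton_le_span_singleton.2 hd) _ (h3 s)
  obtain ⟨l, b, hl, e⟩ := h a
  refine ⟨w - c0 * b, fun s => ?_, ?_⟩
  · rw [map_sub, map_mul, h0, zero_mul, sub_zero]
    exact hw s
  · have e' : a * (w - c0 * b) = l := by linear_combination e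
    rw [e']
    exact hl

theorem start (hN : RNN) (hP : RPrim) (hL : RLen) (hA : RAr) (k R : Type) [Field k]
    [IsAlgClosed k] (p : ℕ) [Fact p.Prime] [CharP k p] [CommRing R] [IsDomain R] [Algebra k R]
    [Algebra.FiniteType k R] (d : ℕ) (b : ℝ) (hd : 1 ≤ d) (ht : Algebra.trdeg k R = d)
    (σ : Type) [Finite σ] (χ : σ → R →ₐ[k] k) (hb : ∀ s, ¬Big d b (χ s)) :
    ∃ (y : Fin d → R) (z : R), AlgebraicIndependent k y ∧
      (∀ s, ∃ o : ℕ, 1 ≤ o ∧ (o : ℝ) ≤ b * d ^ d ∧ OrdZ (χ s) y z o) ∧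
      ∀ r : R, ∃ (n : ℕ) (c c' : R), 0 < n ∧ c ∈ Algebra.adjoin k (insert z (Set.range y)) ∧
        c' ∈ Algebra.adjoin k (insert z (Set.range y)) ∧ c' ≠ 0 ∧ r ^ n * c' = c := by
  obtain ⟨y, hy, hi, hr⟩ := hN k R d ht σ χ
  obtain ⟨z, hz, hz'⟩ := hP k R p d y hi σ χ
  refine ⟨y, z, hy, fun s => ?_, hz'⟩
  obtain ⟨o, c, ho, h1, h2⟩ := hL k R d y z (χ s) hd hy hi (hr s) (hz s)
  exact ⟨o, ho, hA.1 d o c b (len (χ s)) hd h2 (hb s), h1⟩

end GPrep

theorem rKap : RNN → RPrim → RLen → RAr → RKap := by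
  intro hN hP hL hA k R _ _ p _ _ _ _ _ _ d b hd ht hb
  obtain ⟨χ⟩ := GPrep.point k R
  obtain ⟨y, z, -, h, -⟩ := GPrep.start hN hP hL hA k R p d b hd ht Unit (fun _ => χ) fun _ => hb χ
  obtain ⟨o, h1, h2, -⟩ := h ()
  exact le_trans (by exact_mod_cast h1) h2

theorem rPrep : RNN → RPrim → RLen → RAr → RDir → RNak → RPrep := by
  intro hN hP hL hA hD hK k R _ _ p _ _ _ _ _ _ d B b hd ht hB σ _ _ χ hb T hT
  classical
  obtain ⟨y, z, hy, ho, hz⟩ := GPrep.start hN hP hL hA k R p d b hd ht σ χ hb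
  obtain ⟨C, _, _, _, f, v, hf, hv, htop, hC⟩ := GPrep.sub (k := k) (Fin.cons z y : Fin (d + 1) → R)
  rw [Fin.range_cons] at hC
  have hz' : ∀ r : R, ∃ (n : ℕ) (a a' : C), 0 < n ∧ a' ≠ 0 ∧ r ^ n * f a' = f a := fun r => by
    obtain ⟨n, c, c', hn, hc, hc', h0, e⟩ := hz r
    obtain ⟨a, rfl⟩ := hC c hc
    obtain ⟨a', rfl⟩ := hC c' hc'
    exact ⟨n, a, a', hn, fun h => h0 (by rw [h, map_zero]), e⟩
  choose n a a' hn ha' e using hz'
  have ha : ∀ r, r ≠ 0 → a r ≠ 0 := fun r hr h => by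
    have h1 := e r
    rw [h, map_zero] at h1
    exact mul_ne_zero (pow_ne_zero _ hr) ((map_ne_zero_iff f hf).2 (ha' r)) h1
  obtain ⟨c0, hc0, h0⟩ : ∃ c0 : C, c0 ≠ 0 ∧ ∀ s, (χ s).comp f c0 = 0 := by
    let _ := Fintype.ofFinite σ
    let j : Fin d := ⟨0, hd⟩
    refine ⟨∏ s, (v j.succ - algebraMap k C ((χ s).comp f (v j.succ))),
      Finset.prod_ne_zero_iff.2 fun s _ h => ?_, fun s => ?_⟩
    · have h1 := congrArg f (sub_eq_zero.1 h)
      rw [hv, Fin.cons_succ, AlgHom.commutes] at h1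
      exact hy.transcendental j (h1 ▸ isAlgebraic_algebraMap _)
    · rw [map_prod]
      refine Finset.prod_eq_zero (Finset.mem_univ s) ?_
      rw [map_sub, AlgHom.commutes]
      exact sub_self _
  obtain ⟨c, hc, hdv⟩ : ∃ c : C, c ≠ 0 ∧ ∀ r ∈ T, r ≠ 0 → a r * c0 ∣ c ∧ a' r * c0 ∣ c := by
    refine ⟨∏ r ∈ hT.toFinset.erase 0, (a r * c0) * (a' r * c0),
      Finset.prod_ne_zero_iff.2 fun r hr => mul_ne_zero
        (mul_ne_zero (ha r (Finset.ne_of_mem_erase hr)) hc0) (mul_ne_zero (ha' r) hc0),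
      fun r hr hr0 => ?_⟩
    have h1 := Finset.dvd_prod_of_mem (fun r => (a r * c0) * (a' r * c0))
      (Finset.mem_erase.2 ⟨hr0, hT.mem_toFinset.2 hr⟩)
    exact ⟨(dvd_mul_right _ _).trans h1, (dvd_mul_left _ _).trans h1⟩
  obtain ⟨α, hi, hα⟩ := hD k C d B v htop ((trdeg_le_of_injective f hf).trans ht.le) σ
    (fun s => (χ s).comp f) (fun s => by
      obtain ⟨o, -, h2, h3⟩ := ho s
      refine ⟨o, by exact_mod_cast h2.trans hB, GPrep.ordZ f hf (χ s) _ _ o ?_⟩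
      simp only [hv, Fin.cons_succ, Fin.cons_zero]
      exact h3) c hc
  refine ⟨fun j => f (sh v α j), f (v 0), fun r hr hr0 => ?_⟩
  obtain ⟨u, hu, hl⟩ := GPrep.nak hK (sh v α) (v 0) c c0 (a r) (GPrep.top v α htop) hi
    (fun s => (χ s).comp f) h0 (hdv r hr hr0).1 hα
  obtain ⟨u', hu', hl'⟩ := GPrep.nak hK (sh v α) (v 0) c c0 (a' r) (GPrep.top v α htop) hi
    (fun s => (χ s).comp f) h0 (hdv r hr hr0).2 hα
  obtain ⟨s⟩ := (inferInstance : Nonempty σ)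
  have hu0 : u ≠ 0 := fun h => hu s (by rw [h, map_zero])
  have hu0' : u' ≠ 0 := fun h => hu' s (by rw [h, map_zero])
  refine ⟨n r, f u, f u', f (a r * u), f (a' r * u'), hn r, hu, hu', GPrep.lam f _ _ _ hl,
    GPrep.lam f _ _ _ hl', (map_ne_zero_iff f hf).2 (mul_ne_zero (ha r hr0) hu0),
    (map_ne_zero_iff f hf).2 (mul_ne_zero (ha' r) hu0'), ?_⟩
  rw [map_mul, map_mul]
  linear_combination (f u * f u') * e r

end Pool.Agent.MP_f3836a_nt.BT
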