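import Pool.Agent.MP_f3836a_nt.BT.SpecG

set_option autoImplicit false

/-! A separating element. -/

namespace Pool.Agent.MP_f3836a_nt.BT

namespace GPrim

open Polynomial

variable {k R : Type} [Field k] [CommRing R] [Algebra k R]

theorem agree {K : Type} [CommRing K] [Algebra k K] (S : Set R) (φ ψ : R →ₐ[k] K)
    (h : ∀ x ∈ S, φ x = ψ x) : ∀ x ∈ Algebra.adjoin k S, φ x = ψ x := by
  intro x hx
  have hle : Algebra.adjoin k S ≤ AlgHom.equalizer φ ψ := Algebra.adjoin_le h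
  exact hle hx

/-- finitely many maps agree with a given one on the coordinates -/
theorem fin_agree [Algebra.FiniteType k R] {K : Type} [Field K] [Algebra k K] (S : Set R)
    (hS : Algebra.IsIntegral (Algebra.adjoin k S) R) (φ : R →ₐ[k] K) :
    {ψ : R →ₐ[k] K | ∀ x ∈ S, ψ x = φ x}.Finite := by
  classical
  obtain ⟨G, hG⟩ := (Algebra.FiniteType.out : (⊤ : Subalgebra k R).FG)
  have hP : ∀ g : R, ∃ T : Set K, T.Finite ∧
      ∀ ψ : R →ₐ[k] K, (∀ x ∈ S, ψ x = φ x) → ψ g ∈ T := by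
    intro g
    obtain ⟨P, hm, hP⟩ := hS.isIntegral g
    let e : Algebra.adjoin k S →+* K := φ.toRingHom.comp (algebraMap (Algebra.adjoin k S) R)
    have hm' : (P.map e).Monic := hm.map e
    refine ⟨{x | IsRoot (P.map e) x}, finite_setOfPred_isRoot hm'.ne_zero, fun ψ hψ => ?_⟩
    have he : e = ψ.toRingHom.comp (algebraMap (Algebra.adjoin k S) R) := by
      ext a
      exact (agree S ψ φ hψ a.1 a.2).symm
    have h1 := congrArg ψ.toRingHom hP
    rw [hom_eval₂, map_zero, ← he] at h1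
    change eval (ψ g) (P.map e) = 0
    rw [eval_map]
    exact h1
  choose T hT hT' using hP
  let f : (R →ₐ[k] K) → (G → K) := fun ψ g => ψ g
  have hf : Function.Injective f := by
    intro ψ ψ' h
    ext x
    refine agree (G : Set R) ψ ψ' (fun g hg => congrFun h ⟨g, hg⟩) x ?_
    rw [hG]
    trivial
  refine Set.Finite.of_finite_image (f := f) ?_ hf.injOn
  refine (Set.Finite.pi' (fun g : G => hT g)).subset ?_
  rintro _ ⟨ψ, hψ, rfl⟩ g
  exact hT' g ψ hψ

/-- avoiding finitely many proper subspaces -/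
theorem avoid [Infinite k] (W : Set (Submodule k R)) (hW : W.Finite) (h : ⊤ ∉ W) :
    ∃ z : R, ∀ U ∈ W, z ∉ U := by
  have h1 := Subspace.biUnion_ne_univ_of_top_notMem (s := hW.toFinset) (by simpa using h)
  obtain ⟨z, hz⟩ := (Set.ne_univ_iff_exists_notMem _).1 h1
  refine ⟨z, fun U hU hz' => hz ?_⟩
  simp only [Set.mem_iUnion]
  exact ⟨U, by simpa using hU, hz'⟩

/-- the equalisers with the other maps -/
def eqs {K : Type} [Field K] [Algebra k K] (S : Set R) (φ : R →ₐ[k] K) : Set (Submodule k R) :=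
  (fun ψ : R →ₐ[k] K => LinearMap.eqLocus ψ.toLinearMap φ.toLinearMap) ''
    {ψ | (∀ x ∈ S, ψ x = φ x) ∧ ψ ≠ φ}

theorem eqs_fin [Algebra.FiniteType k R] {K : Type} [Field K] [Algebra k K] (S : Set R)
    (hS : Algebra.IsIntegral (Algebra.adjoin k S) R) (φ : R →ₐ[k] K) : (eqs S φ).Finite :=
  ((fin_agree S hS φ).subset fun _ h => h.1).image _

theorem eqs_top {K : Type} [Field K] [Algebra k K] (S : Set R) (φ : R →ₐ[k] K) :
    ⊤ ∉ eqs S φ := by
  rintro ⟨ψ, ⟨-, hne⟩, h⟩
  apply hne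
  ext x
  have hx : x ∈ LinearMap.eqLocus ψ.toLinearMap φ.toLinearMap := by
    have h' : LinearMap.eqLocus ψ.toLinearMap φ.toLinearMap = ⊤ := h
    rw [h']
    trivial
  exact hx

theorem eqs_sep {K : Type} [Field K] [Algebra k K] (S : Set R) (φ : R →ₐ[k] K) (z : R)
    (hz : ∀ U ∈ eqs S φ, z ∉ U) (ψ : R →ₐ[k] K) (h : ∀ x ∈ S, ψ x = φ x) (h' : ψ z = φ z) :
    ψ = φ := by
  by_contra hne
  exact hz _ ⟨ψ, ⟨h, hne⟩, rfl⟩ h'

/-- only one embedding gives pure inseparability -/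
theorem insep [IsDomain R] (p : ℕ) [Fact p.Prime] [CharP k p] (S : Set R)
    (h : ∀ ψ : R →ₐ[k] AlgebraicClosure (FractionRing R),
      (∀ x ∈ S, ψ x = algebraMap R _ x) → ∀ x, ψ x = algebraMap R _ x) (r : R) :
    ∃ (n : ℕ) (c c' : R), 0 < n ∧ c ∈ Algebra.adjoin k S ∧ c' ∈ Algebra.adjoin k S ∧ c' ≠ 0 ∧
      r ^ n * c' = c := by
  let j : R →ₐ[k] FractionRing R := IsScalarTower.toAlgHom k R (FractionRing R)
  have hj : Function.Injective j := IsFractionRing.injective R (FractionRing R)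
  let L : IntermediateField k (FractionRing R) := IntermediateField.adjoin k (j '' S)
  have hone : ∀ ψ : Field.Emb L (FractionRing R), ∀ x : R, ψ (j x) = algebraMap R _ x := by
    intro ψ
    refine h ((ψ.restrictScalars k).comp j) fun x hx => ?_
    have hx' : j x ∈ L := IntermediateField.subset_adjoin k _ ⟨x, hx, rfl⟩
    exact (ψ.commutes ⟨j x, hx'⟩).trans
      (IsScalarTower.algebraMap_apply R (FractionRing R) _ x).symm
  have hsub : Subsingleton (Field.Emb L (FractionRing R)) := by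
    refine ⟨fun ψ ψ' => ?_⟩
    apply AlgHom.coe_ringHom_injective
    refine IsLocalization.ringHom_ext (nonZeroDivisors R) ?_
    ext x
    exact (hone ψ x).trans (hone ψ' x).symm
  have hdeg : Field.finSepDegree L (FractionRing R) = 1 := Nat.card_unique
  have hpi := isPurelyInseparable_of_finSepDegree_eq_one hdeg
  have hc : CharP L p := charP_of_injective_algebraMap (algebraMap k L).injective p
  have hp : p.Prime := Fact.out
  have he : ExpChar L p := ExpChar.prime hp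
  obtain ⟨n, a, ha⟩ := IsPurelyInseparable.pow_mem L p (j r)
  have hmem : j r ^ p ^ n ∈ L := by
    rw [← ha]
    exact a.2
  obtain ⟨c, hc, c', hc', hq⟩ := IntermediateField.mem_adjoin_iff_div.1 hmem
  rw [← AlgHom.map_adjoin] at hc hc'
  obtain ⟨c, hc, rfl⟩ := hc
  obtain ⟨c', hc', rfl⟩ := hc'
  by_cases h0 : c' = 0
  · refine ⟨p ^ n, 0, 1, pow_pos hp.pos n, zero_mem _, one_mem _, one_ne_zero, hj ?_⟩
    rw [mul_one, map_pow, hq, h0]
    simp
  · refine ⟨p ^ n, c, c', pow_pos hp.pos n, hc, hc', h0, hj ?_⟩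
    have h1 : j c' ≠ 0 := fun h2 => h0 (hj (h2.trans (map_zero j).symm))
    rw [map_mul, map_pow, hq]
    exact div_mul_cancel₀ _ h1

end GPrim

theorem rPrim : RPrim := by
  intro k R _ _ p _ _ _ _ _ _ d y hy σ _ χ
  let ι : R →ₐ[k] AlgebraicClosure (FractionRing R) := IsScalarTower.toAlgHom k R _
  obtain ⟨z, hz⟩ := GPrim.avoid (k := k) (R := R)
    (GPrim.eqs (Set.range y) ι ∪ ⋃ s, GPrim.eqs (Set.range y) (χ s))
    ((GPrim.eqs_fin _ hy ι).union (Set.finite_iUnion fun s => GPrim.eqs_fin _ hy (χ s))) (by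
      rintro (h | h)
      · exact GPrim.eqs_top _ _ h
      · obtain ⟨s, hs⟩ := Set.mem_iUnion.1 h
        exact GPrim.eqs_top _ _ hs)
  refine ⟨z, fun s χ' h h' => ?_, fun r => ?_⟩
  · refine GPrim.eqs_sep (Set.range y) (χ s) z
      (fun U hU => hz U (Or.inr (Set.mem_iUnion.2 ⟨s, hU⟩))) χ' ?_ h'
    rintro _ ⟨j, rfl⟩
    exact h j
  · refine GPrim.insep p (insert z (Set.range y)) (fun ψ hψ x => ?_) r
    have h1 : ψ = ι := GPrim.eqs_sep (Set.range y) ι z (fun U hU => hz U (Or.inl hU)) ψ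
      (fun x hx => hψ x (Or.inr hx)) (hψ z (Or.inl rfl))
    rw [h1]
    rfl

end Pool.Agent.MP_f3836a_nt.BT
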