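import Pool.Agent.MP_f3836a_nt.BT.SpecG

set_option autoImplicit false

/-! Forms and powers of a span; the ring of an affine chart. -/

namespace Pool.Agent.MP_f3836a_nt.BT

open MvPolynomial

namespace GPw

variable {k Ω : Type} [Field k] [Field Ω] [Algebra k Ω]

lemma sp_pow {N : ℕ} (ξ : Fin N → Ω) (n : ℕ) : Sp k ξ ^ n =
    Submodule.map (aeval ξ : MvPolynomial (Fin N) k →ₐ[k] Ω).toLinearMap
      (homogeneousSubmodule (Fin N) k n) := by
  rw [← homogeneousSubmodule_one_pow, Submodule.map_pow]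
  congr 1
  simp [Sp, homogeneousSubmodule_one_eq_span_X, Submodule.map_span, ← Set.range_comp,
    Function.comp_def]

lemma ratF_eq (V : Submodule k Ω) (l : Ω) (hl : l ∈ V) (l0 : l ≠ 0) :
    RatF V = IntermediateField.adjoin k {x | ∃ a ∈ V, x = a / l} := by
  refine le_antisymm (IntermediateField.adjoin_le_iff.2 ?_) (IntermediateField.adjoin_le_iff.2 ?_)
  · rintro x ⟨a, ha, b, hb, rfl⟩
    have e : a / b = (a / l) / (b / l) := by rw [div_div_div_cancel_right₀ l0]
    rw [e]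
    exact div_mem (IntermediateField.subset_adjoin _ _ ⟨a, ha, rfl⟩)
      (IntermediateField.subset_adjoin _ _ ⟨b, hb, rfl⟩)
  · rintro x ⟨a, ha, rfl⟩
    exact IntermediateField.subset_adjoin _ _ ⟨a, ha, l, hl, rfl⟩

lemma finiteType (V : Submodule k Ω) [FiniteDimensional k V] (l : Ω) :
    Algebra.FiniteType k (Chart V l) := by
  obtain ⟨s, hs⟩ : V.FG := Module.Finite.iff_fg.1 inferInstance
  have e : Chart V l = Algebra.adjoin k ((fun a => a / l) '' (s : Set Ω)) := by
    refine le_antisymm (Algebra.adjoin_le ?_) (Algebra.adjoin_mono ?_)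
    · rintro x ⟨a, ha, rfl⟩
      rw [← hs] at ha
      induction ha using Submodule.span_induction with
      | mem x hx => exact Algebra.subset_adjoin ⟨x, hx, rfl⟩
      | zero => rw [zero_div]; exact zero_mem _
      | add x y _ _ hx hy => rw [add_div]; exact add_mem hx hy
      | smul c x _ hx => rw [smul_div_assoc]; exact Subalgebra.smul_mem _ hx c
    · rintro x ⟨a, ha, rfl⟩
      exact ⟨a, hs ▸ Submodule.subset_span ha, rfl⟩
  rw [e]
  exact .adjoin_of_finite (s.finite_toSet.image _)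

lemma clear (V : Submodule k Ω) (l : Ω) (hl : l ∈ V) (l0 : l ≠ 0) (r : Ω) (hr : r ∈ Chart V l) :
    ∃ n : ℕ, ∀ m, n ≤ m → r * l ^ m ∈ V ^ m := by
  have up : ∀ (r : Ω) (n : ℕ), r * l ^ n ∈ V ^ n → ∀ m, n ≤ m → r * l ^ m ∈ V ^ m := by
    intro r n h m hm
    obtain ⟨c, rfl⟩ := Nat.exists_eq_add_of_le hm
    rw [pow_add, pow_add, ← mul_assoc]
    exact Submodule.mul_mem_mul h (Submodule.pow_mem_pow V hl c)
  induction hr using Algebra.adjoin_induction with
  | mem x hx =>
    obtain ⟨a, ha, rfl⟩ := hx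
    exact ⟨1, up _ 1 (by rwa [pow_one, pow_one, div_mul_cancel₀ _ l0])⟩
  | algebraMap c =>
    exact ⟨0, fun m _ => by
      rw [← Algebra.smul_def]; exact Submodule.smul_mem _ c (Submodule.pow_mem_pow V hl m)⟩
  | add x y _ _ hx hy =>
    obtain ⟨a, ha⟩ := hx
    obtain ⟨b, hb⟩ := hy
    exact ⟨a + b, fun m hm => by
      rw [add_mul]; exact add_mem (ha m (by omega)) (hb m (by omega))⟩
  | mul x y _ _ hx hy =>
    obtain ⟨a, ha⟩ := hx
    obtain ⟨b, hb⟩ := hy
    refine ⟨a + b, up _ _ ?_⟩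
    rw [pow_add, pow_add, mul_mul_mul_comm]
    exact Submodule.mul_mem_mul (ha a le_rfl) (hb b le_rfl)

open scoped IntermediateField.algebraAdjoinAdjoin in
lemma trdeg_adj (S : Set Ω) :
    Algebra.trdeg k (Algebra.adjoin k S) = Algebra.trdeg k (IntermediateField.adjoin k S) := by
  rw [← trdeg_add_eq k (Algebra.adjoin k S) (A := IntermediateField.adjoin k S),
    trdeg_eq_zero (R := Algebra.adjoin k S) (A := IntermediateField.adjoin k S), add_zero]

end GPw

open GPw

theorem rPw : RPw := by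
  intro k Ω _ _ _ _ N ξ
  refine ⟨fun n g => by rw [sp_pow]; rfl, fun h S hS h0 => ?_⟩
  have := hS.to_subtype
  obtain ⟨g, hg, g0⟩ := Submodule.exists_mem_ne_zero_of_ne_bot h
  rw [← pow_one (Sp k ξ), sp_pow] at hg
  obtain ⟨G, hG, rfl⟩ := hg
  let H := homogeneousSubmodule (Fin N) k 1
  let p : Option S → Submodule k H := fun o => o.elim
    (LinearMap.ker ((aeval ξ : MvPolynomial (Fin N) k →ₐ[k] Ω).toLinearMap ∘ₗ H.subtype))
    fun x => LinearMap.ker ((aeval x.1 : MvPolynomial (Fin N) k →ₐ[k] k).toLinearMap ∘ₗ H.subtype)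
  obtain ⟨L, hL⟩ := Submodule.exists_forall_notMem_of_forall_ne_top p (by
    rintro (_ | x) e
    · exact g0 ((Submodule.eq_top_iff'.1 e) ⟨G, hG⟩)
    · refine h0 x x.2 (funext fun i => ?_)
      simpa [p] using (Submodule.eq_top_iff'.1 e) ⟨X i, isHomogeneous_X k i⟩)
  exact ⟨L, L.2, hL none, fun x hx => by simpa [p, aeval_eq_eval] using hL (some ⟨x, hx⟩)⟩

theorem rChF : RChF := by
  intro k Ω _ _ _ V _ l hl l0
  refine ⟨finiteType V l, fun r hr => ?_, fun a ha => ?_, clear V l hl l0, ?_⟩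
  · rw [ratF_eq V l hl l0]
    exact IntermediateField.algebra_adjoin_le_adjoin _ _ hr
  · rw [ratF_eq V l hl l0] at ha
    obtain ⟨r, hr, s, hs, rfl⟩ := IntermediateField.mem_adjoin_iff_div.1 ha
    by_cases s0 : s = 0
    · exact ⟨0, zero_mem _, 1, one_mem _, one_ne_zero, by simp [s0]⟩
    · exact ⟨r, hr, s, hs, s0, div_mul_cancel₀ _ s0⟩
  · rw [ratF_eq V l hl l0]
    exact trdeg_adj _

end Pool.Agent.MP_f3836a_nt.BT
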