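import Pool.Agent.MP_f3836a_nt.BT.SpecG

set_option autoImplicit false

/-! The inductive step and the induction on the transcendence degree. -/

namespace Pool.Agent.MP_f3836a_nt.BT

namespace GStep

variable {k Ω : Type} [Field k] [Field Ω] [Algebra k Ω]

theorem indep (S : IntermediateField k Ω) {n : ℕ} (h : Algebra.trdeg k S = n) :
    ∃ y : Fin n → Ω, AlgebraicIndependent k y ∧ ∀ j, y j ∈ S := by
  obtain ⟨s, hs⟩ := exists_isTranscendenceBasis k S
  obtain ⟨e⟩ := Cardinal.mk_eq_nat_iff.1 (hs.cardinalMk_eq_trdeg.trans h)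
  exact ⟨_, (hs.1.comp _ e.symm.injective).map' (f := S.val) Subtype.val_injective,
    fun j => (e.symm j).1.2⟩

theorem mono {F G : IntermediateField k Ω} (h : F ≤ G) : Algebra.trdeg k F ≤ Algebra.trdeg k G :=
  trdeg_le_of_injective (IntermediateField.inclusion h) (IntermediateField.inclusion_injective h)

theorem low {F G : IntermediateField k Ω} (h : F ≤ G) (h0 : 0 < F.relfinrank G) {n : ℕ}
    {y : Fin n → Ω} (hy : AlgebraicIndependent k y) (hG : ∀ j, y j ∈ G) :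
    (n : Cardinal) ≤ Algebra.trdeg k F := by
  rw [IntermediateField.relfinrank_eq_finrank_of_le h] at h0
  have := Module.finite_of_finrank_pos h0
  have e := trdeg_add_eq k F (A := IntermediateField.extendScalars h)
  rw [trdeg_eq_zero (R := F), add_zero] at e
  have hy' : AlgebraicIndependent k
      fun j => (⟨y j, hG j⟩ : IntermediateField.extendScalars h) :=
    AlgebraicIndependent.of_comp ((IntermediateField.extendScalars h).val.restrictScalars k) hy
  simpa [e] using hy'.cardinalMk_le_trdeg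

theorem van_mono {A : Set Ω} {m n : ℕ} (h : Van A m) (hm : m ≤ n) : Van A n :=
  fun ι _ _ φ hφ hn => h ι φ hφ (hm.trans hn)

theorem arith (d : ℕ) : 3 * (d + 1) ^ (d + 1) + (2 * ((d + 2) * (2 * d + 5) ^ (d + 2)) +
    (3 * (d + 1) ^ (d + 1) + (2 + (2 * d + 3) ^ (d + 3)))) ≤ (2 * (d + 1) + 3) ^ (d + 1 + 3) := by
  have h1 : (d + 1) ^ (d + 1) ≤ (2 * d + 5) ^ (d + 1) := Nat.pow_le_pow_left (by omega) _
  have h2 : (2 * d + 3) ^ (d + 3) ≤ (2 * d + 5) ^ (d + 3) := Nat.pow_le_pow_left (by omega) _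
  have h3 : 1 ≤ (2 * d + 5) ^ (d + 1) := Nat.one_le_pow _ _ (by omega)
  have e2 : (2 * d + 5) ^ (d + 2) = (2 * d + 5) ^ (d + 1) * (2 * d + 5) := pow_succ _ _
  have e3 : (2 * d + 5) ^ (d + 3) = (2 * d + 5) ^ (d + 2) * (2 * d + 5) := pow_succ _ _
  have e4 : (2 * (d + 1) + 3) ^ (d + 1 + 3) = (2 * d + 5) ^ (d + 3) * (2 * d + 5) := pow_succ _ _
  have h4 : (2 * d + 5) ^ (d + 1) * 5 ≤ (2 * d + 5) ^ (d + 2) :=
    e2 ▸ Nat.mul_le_mul_left _ (by omega)
  have h5 : (2 * d + 5) ^ (d + 2) * 5 ≤ (2 * d + 5) ^ (d + 3) :=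
    e3 ▸ Nat.mul_le_mul_left _ (by omega)
  have h6 : (2 * d + 5) ^ (d + 3) * 5 ≤ (2 * (d + 1) + 3) ^ (d + 1 + 3) :=
    e4 ▸ Nat.mul_le_mul_left _ (by omega)
  have h7 : 2 * ((d + 2) * (2 * d + 5) ^ (d + 2)) ≤ (2 * d + 5) ^ (d + 3) := by
    rw [e3, ← mul_assoc, mul_comm]
    exact Nat.mul_le_mul_left _ (by omega)
  omega

end GStep

open GStep in
theorem rStepG : RDep → RKap → RAlb → RChF → RM1 → RVanV → RStepG := by
  intro hDep hKap hAlb hChF hM1 hVan k Ω _ _ _ _ _ p _ _ d s hT hV S hS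
  by_cases h : Algebra.trdeg k S ≤ d
  · exact van_mono (hV S h) (by omega)
  intro ι _ _ φ hφ hn a ha haS
  obtain ⟨y, hy, hyS⟩ := indep S (n := d + 1) (le_antisymm hS (by
    rw [Nat.cast_succ]
    exact Cardinal.natCast_add_one_le_iff.2 (not_le.1 h)))
  obtain ⟨U, fU, u1, ua, uy, uS⟩ : ∃ U : Submodule k Ω, FiniteDimensional k U ∧ 1 ∈ U ∧
      (∀ i, a i ∈ U) ∧ (∀ j, y j ∈ U) ∧ IntermediateField.adjoin k (U : Set Ω) ≤ S := by
    refine ⟨Submodule.span k (insert 1 (Set.range a ∪ Set.range y)),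
      FiniteDimensional.span_of_finite k (((Set.finite_range a).union (Set.finite_range y)).insert _),
      Submodule.subset_span (.inl rfl), fun i => Submodule.subset_span (.inr (.inl ⟨i, rfl⟩)),
      fun j => Submodule.subset_span (.inr (.inr ⟨j, rfl⟩)),
      IntermediateField.adjoin_le_iff.2 ?_⟩
    refine Submodule.span_le (p := S.toSubmodule).2 ?_
    rintro _ (rfl | ⟨i, rfl⟩ | ⟨j, rfl⟩)
    exacts [S.one_mem, haS i, hyS j]
  have tF := (mono uS).trans hS
  obtain ⟨V, fV, v0, vF, k0, hs⟩ := hAlb k Ω U (d + 1) y (by omega) u1 uy hy tF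
  obtain ⟨N, ξ, rfl⟩ : ∃ (N : ℕ) (ξ : Fin N → Ω), Sp k ξ = V :=
    Submodule.fg_iff_exists_fin_generating_family.1 (Module.Finite.iff_fg.1 fV)
  have tV : Algebra.trdeg k (RatF (Sp k ξ)) = (d + 1 : ℕ) := le_antisymm ((mono vF).trans tF)
    (low vF k0 hy fun j => IntermediateField.subset_adjoin _ _ (uy j))
  obtain ⟨l, hl, l0⟩ := Submodule.exists_mem_ne_zero_of_ne_bot v0
  obtain ⟨c1, -, -, -, c5⟩ := hChF k Ω _ l hl l0
  have kb := hKap k _ p (d + 1) _ (by omega) (c5.trans tV) (hs l hl l0)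
  have e := IntermediateField.relfinrank_eq_finrank_of_le vF
  generalize (RatF (Sp k ξ)).relfinrank (IntermediateField.adjoin k (U : Set Ω)) = κ at *
  have k1 : (1 : ℝ) ≤ κ := by exact_mod_cast k0
  have kB : κ ≤ 3 * (d + 1) ^ (d + 1) := by
    rw [div_mul_eq_mul_div, one_le_div (by linarith)] at kb
    exact_mod_cast kb
  have h1 := hVan k Ω p N (d + 1) _ ξ _ hT (by omega) v0 tV.le
    (hM1 k Ω p N d s (3 * (d + 1) ^ (d + 1)) _ ξ hV v0 tV hs (by
      push_cast
      exact mul_le_mul_of_nonneg_right (div_le_self (by norm_num) k1) (by positivity)))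
  have := Module.finite_of_finrank_pos (e ▸ k0)
  exact @hDep k Ω _ _ _ _ (IntermediateField.extendScalars vF).toSubmodule this _ _ (e ▸ kB) h1 ι
    _ _ φ hφ hn a ha fun i => IntermediateField.subset_adjoin k _ (ua i)

open GStep in
theorem rMainT : RBas → RStepG → MainT := by
  intro hB hS k Ω _ _ _ _ _ p _ _ hT d
  induction d with
  | zero =>
    intro S h ι _ _ φ hφ hn a ha haS
    have := trdeg_eq_zero_iff.1 (le_antisymm (by simpa using h) zero_le)
    obtain ⟨i⟩ : Nonempty ι := Fintype.card_pos_iff.1 (lt_of_lt_of_le (by norm_num) hn)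
    obtain ⟨c, hc⟩ := (IsAlgClosed.algebraMap_bijective_of_isIntegral (k := k) (K := S)).2
      ⟨a i, haS i⟩
    have e : algebraMap k Ω c = a i := congrArg Subtype.val hc
    obtain ⟨n, n0, hn⟩ := hT c fun h0 => ha i (by rw [← e, h0, map_zero])
    exact (hB ι Ω φ hφ).tors a i n ha n0 (by rw [← e, ← map_pow, hn, map_one])
  | succ d ih => exact fun S h => van_mono (hS k Ω p d _ hT ih S h) (arith d)

end Pool.Agent.MP_f3836a_nt.BT
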