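import Pool.Agent.MP_f3836a_nt.BT.SpecG

set_option autoImplicit false

/-! Placement of blocks of entries and vanishing on a model. -/

namespace Pool.Agent.MP_f3836a_nt.BT

open MvPolynomial Filter

namespace GSys1

variable {k Ω ι : Type} [Field k] [Field Ω] [Algebra k Ω] {N : ℕ}

/-- one form for a whole block -/
theorem one_form [DecidableEq ι] (ξ : Fin N → Ω) (S : Set (Fin N → k)) (J : Finset ι) (a : ι → Ω)
    (hpw : ∀ (n : ℕ) (G : MvPolynomial (Fin N) k), G.IsHomogeneous n → aeval ξ G ∈ Sp k ξ ^ n)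
    (L : MvPolynomial (Fin N) k) (hL : L.IsHomogeneous 1) (hL0 : aeval ξ L ≠ 0)
    (hLS : ∀ x ∈ S, eval x L ≠ 0) (ha : ∀ i ∈ J, a i ∈ Un ξ S) :
    ∃ (γ : ℕ) (G : MvPolynomial (Fin N) k), 1 ≤ γ ∧ G.IsHomogeneous γ ∧ aeval ξ G ≠ 0 ∧
      (∀ x ∈ S, eval x G ≠ 0) ∧ ∀ i ∈ J, Cmp (Sp k ξ) γ (aeval ξ G) (a i) := by
  induction J using Finset.induction_on with
  | empty => exact ⟨1, L, le_rfl, hL, hL0, hLS, by simp⟩
  | insert i J hi ih =>
    obtain ⟨γ, G, h1, hG, hG0, hGS, hc⟩ := ih fun j hj => ha j (Finset.mem_insert_of_mem hj)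
    obtain ⟨γ', G', hG', hG0', hGS', hc'⟩ := ha i (Finset.mem_insert_self i J)
    refine ⟨γ + γ', G * G', by omega, hG.mul hG', ?_, ?_, ?_⟩
    · rw [map_mul]
      exact mul_ne_zero hG0 hG0'
    · intro x hx
      rw [map_mul]
      exact mul_ne_zero (hGS x hx) (hGS' x hx)
    · intro j hj
      rw [map_mul]
      rcases Finset.mem_insert.mp hj with rfl | hj
      · refine ⟨?_, ?_⟩
        · rw [mul_assoc, pow_add]
          exact Submodule.mul_mem_mul (hpw γ G hG) hc'.1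
        · rw [mul_div_assoc, pow_add]
          exact Submodule.mul_mem_mul (hpw γ G hG) hc'.2
      · refine ⟨?_, ?_⟩
        · rw [mul_right_comm, pow_add]
          exact Submodule.mul_mem_mul (hc j hj).1 (hpw γ' G' hG')
        · rw [mul_div_right_comm, pow_add]
          exact Submodule.mul_mem_mul (hc j hj).2 (hpw γ' G' hG')

/-- one more block -/
theorem blocks_cons [DecidableEq ι] (ξ : Fin N → Ω) (J J' : Finset ι) (a : ι → Ω) (n r γ₀ : ℕ)
    (I : Set (MvPolynomial (Fin N) k)) (G₀ : MvPolynomial (Fin N) k) (hd : Disjoint J J')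
    (hc : J'.card = r) (h1 : 1 ≤ γ₀) (hG : G₀.IsHomogeneous γ₀) (hG0 : aeval ξ G₀ ≠ 0)
    (hcm : ∀ i ∈ J', Cmp (Sp k ξ) γ₀ (aeval ξ G₀) (a i))
    (hB : Blocks ξ (J ∪ J') a n r (insert G₀ I)) : Blocks ξ J a (n + 1) r I := by
  obtain ⟨Jb, G, γ, b1, b2, b3, b4⟩ := hB
  refine ⟨Fin.cons J' Jb, Fin.cons G₀ G, Fin.cons γ₀ γ, ?_, ?_, ?_, ?_⟩
  · intro j
    refine Fin.cases ?_ (fun j => ?_) j
    · simpa using hd
    · simpa using (b1 j).mono_left Finset.subset_union_left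
  · intro j j'
    refine Fin.cases ?_ (fun j => ?_) j <;> refine Fin.cases ?_ (fun j' => ?_) j'
    · intro h
      exact absurd rfl h
    · intro _
      simpa using (b1 j').mono_left Finset.subset_union_right
    · intro _
      simpa using ((b1 j).mono_left Finset.subset_union_right).symm
    · intro h
      simpa using b2 j j' fun e => h (by rw [e])
  · intro j
    refine Fin.cases ?_ (fun j => ?_) j
    · simp only [Fin.cons_zero]
      exact ⟨hc, h1, hG, hG0, hcm⟩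
    · simp only [Fin.cons_succ]
      exact b3 j
  · intro x hx
    rcases b4 x hx with ⟨H, hH, hHx⟩ | ⟨j, hj⟩
    · rcases Set.mem_insert_iff.mp hH with rfl | hH
      · exact Or.inr ⟨0, by simpa using hHx⟩
      · exact Or.inl ⟨H, hH, hHx⟩
    · exact Or.inr ⟨j.succ, by simpa using hj⟩

end GSys1

theorem rSys1 : RPw → RBlk → RSys1 := by
  intro hPw hBlk k Ω ι _ _ _ _ _ _ N d n₀ r ξ A D φ hSp hDim hM hφ n
  induction n with
  | zero =>
    intro I J a hD hI ha haA _ hyp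
    refine hyp a ha haA (fun _ _ => rfl) ⟨Fin.elim0, Fin.elim0, Fin.elim0, ?_, ?_, ?_, ?_⟩
    · intro j
      exact j.elim0
    · intro j
      exact j.elim0
    · intro j
      exact j.elim0
    · intro x hx
      exact Or.inl (hDim.bot I hD hI x hx)
  | succ n ih =>
    intro I J a hD hI ha haA hcard hyp
    obtain ⟨S, hSf, hSp', hstep⟩ := hDim.step n I hD
    obtain ⟨hpw, hL⟩ := hPw k Ω N ξ
    obtain ⟨L, hL1, hL0, hLS⟩ := hL hSp S hSf fun x hx => (hSp' x hx).1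
    have hr : (n + 1) * r = n * r + r := by ring
    refine hBlk Ω ι A (Un ξ S) n₀ r φ J a (hM S hSf hSp') hφ ha haA (by omega) ?_
    rintro a' ha' haA' hag ⟨J', hd, hc, hU⟩
    obtain ⟨γ₀, G₀, h1, hG, hG0, hGS, hcm⟩ := GSys1.one_form ξ S J' a'
      (fun m G hG => (hpw m _).mpr ⟨G, hG, rfl⟩) L hL1 hL0 hLS hU
    refine ih (insert G₀ I) (J ∪ J') a' (hstep G₀ hGS) ?_ ha' haA' ?_ ?_
    · intro G hG'
      rcases Set.mem_insert_iff.mp hG' with rfl | hG'
      · exact ⟨γ₀, hG⟩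
      · exact hI G hG'
    · rw [Finset.card_union_of_disjoint hd]
      omega
    · intro a'' ha'' haA'' hag' hB
      refine hyp a'' ha'' haA'' (fun i hi => ?_) ?_
      · rw [hag' i (Finset.mem_union_left _ hi), hag i hi]
      · refine GSys1.blocks_cons ξ J J' a'' n r γ₀ I G₀ hd hc h1 hG hG0 (fun i hi => ?_) hB
        rw [hag' i (Finset.mem_union_right _ hi)]
        exact hcm i hi

theorem rVanV : RDrop → RSys1 → RSys2 → RTwo → RVanV := by
  intro hDrop hS1 hS2 hTwo k Ω _ _ _ _ p _ _ N d n ξ A hTor hd hSp htr hM ι _ _ φ hφ hcard a ha haA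
  obtain ⟨D, hDim⟩ := hDrop k Ω N d ξ htr
  have : FiniteDimensional k (Sp k ξ) := FiniteDimensional.span_of_finite k (Set.finite_range ξ)
  have hW : Fintype.card (Fin (d + 1) → Fin (2 * d + 3)) = (2 * d + 3) ^ (d + 1) := by simp
  refine hS1 k Ω ι N d n (Fintype.card (Fin (d + 1) → Fin (2 * d + 3))) ξ A D φ hSp hDim hM hφ
    (d + 1) ∅ ∅ a hDim.top (by simp) ha haA (by rw [hW, Finset.card_empty]; omega) ?_
  intro a' ha' haA' _ hB
  obtain ⟨f, hf, -, hSy⟩ := hS2 k Ω ι _ N (d + 1) ξ ∅ a' hB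
  have hJ : (Finset.univ.image f).card ≤ (d + 1) * (2 * d + 3) ^ (d + 1) := by
    refine Finset.card_image_le.trans ?_
    rw [Finset.card_univ, Fintype.card_prod, hW, Fintype.card_fin]
  refine hS1 k Ω ι N d n (Fintype.card (Fin (d + 1) → Fin (2 * d + 3))) ξ A D φ hSp hDim hM hφ
    (d + 1) ∅ (Finset.univ.image f) a' hDim.top (by simp) ha' haA' (by rw [hW]; omega) ?_
  intro a'' ha'' _ hag hB'
  obtain ⟨f', hf', hnot, hSy'⟩ := hS2 k Ω ι _ N (d + 1) ξ _ a'' hB'
  have he : a'' ∘ f = a' ∘ f := by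
    funext x
    exact hag (f x) (Finset.mem_image_of_mem f (Finset.mem_univ x))
  refine hTwo k Ω ι p (Sp k ξ) d φ a'' f f' hTor hd hφ ha'' hf hf' ?_ (he ▸ hSy) hSy'
  intro x x' e
  exact hnot x' (e ▸ Finset.mem_image_of_mem f (Finset.mem_univ x))

end Pool.Agent.MP_f3836a_nt.BT
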