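import Pool.Agent.MP_f3836a_nt.BT.SpecG

set_option autoImplicit false

/-! Row GTwo: two systems kill the symbol. -/

namespace Pool.Agent.MP_f3836a_nt.BT

open Function

namespace GTwo

theorem ext_comp {ι ι' Ω : Type} {F : ι' → ι} (hF : Injective F) (a : ι → Ω) :
    extend F (a ∘ F) a = a := by
  funext i
  by_cases h : ∃ x, F x = i
  · obtain ⟨x, rfl⟩ := h
    exact hF.extend_apply _ _ x
  · exact extend_apply' _ _ _ h

variable {k Ω X : Type} [Field k] [Field Ω] [Algebra k Ω] [Fintype X] {U : Submodule k Ω}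

theorem left {c : X → Ω} {t : X ⊕ X → Ω} {w : Ω} (e : ∀ x, t (Sum.inl x) = c x)
    (h : ∃ v : X → Ω, (∀ x, v x ∈ U) ∧ ∑ x, c x * v x = w) :
    ∃ v : X ⊕ X → Ω, (∀ x, v x ∈ U) ∧ ∑ x, t x * v x = w := by
  obtain ⟨v, h1, h2⟩ := h
  refine ⟨Sum.elim v 0, fun x => x.rec h1 fun _ => U.zero_mem, ?_⟩
  simpa [Fintype.sum_sum_type, e] using h2

theorem right {c : X → Ω} {t : X ⊕ X → Ω} {w : Ω} (e : ∀ x, t (Sum.inr x) = c x)
    (h : ∃ v : X → Ω, (∀ x, v x ∈ U) ∧ ∑ x, c x * v x = w) :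
    ∃ v : X ⊕ X → Ω, (∀ x, v x ∈ U) ∧ ∑ x, t x * v x = w := by
  obtain ⟨v, h1, h2⟩ := h
  refine ⟨Sum.elim 0 v, fun x => x.rec (fun _ => U.zero_mem) h1, ?_⟩
  simpa [Fintype.sum_sum_type, e] using h2

theorem fin (V : Submodule k Ω) [FiniteDimensional k V] (n : ℕ) :
    FiniteDimensional k (V ^ n : Submodule k Ω) :=
  Module.Finite.iff_fg.2 ((Module.Finite.iff_fg.1 inferInstance).pow n)

end GTwo

open GTwo in
theorem rTwo : RBas → RId → RCoreK → RGen → RTwo := by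
  intro hB hI hC hG k Ω ι _ _ _ _ p _ _ _ _ V _ d φ a f f' tor hd hφ ha i1 i2 i3 s1 s2
  have hF : Injective (Sum.elim f f') := i1.sumElim i2 i3
  have h0 := (hB ι Ω φ hφ).res (Ix d ⊕ Ix d) (Sum.elim f f') a hF ha
  obtain ⟨γ, L, g1, H⟩ := hG k Ω V d (a ∘ f) hd (fun x => ha _) s1
  obtain ⟨γ', L', g2, H'⟩ := hG k Ω V d (a ∘ f') hd (fun x => ha _) s2
  obtain ⟨b, n1, m1, c1⟩ := H (γ' * max L L')
    ((le_max_left _ _).trans (Nat.le_mul_of_pos_left _ g2))
  obtain ⟨b', n2, m2, c2⟩ := H' (γ * max L L')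
    ((le_max_right _ _).trans (Nat.le_mul_of_pos_left _ g1))
  rw [show 2 * (d + 1) * (γ * max L L') * γ' = 2 * (d + 1) * (γ' * max L L') * γ by ring] at m2 c2
  generalize 2 * (d + 1) * (γ' * max L L') * γ = D at m1 c1 m2 c2
  have x0 : Ix d := (0, fun _ => 0)
  have nb : Nz (Sum.elim b b') := fun x => x.rec n1 n2
  have := fin V D
  have := fin V (2 * D)
  rw [← ext_comp hF a]
  refine (hI _ Ω _ h0).2 (a ∘ Sum.elim f f') (Sum.elim b b') (b x0) (fun x => ha _) nb (n1 x0)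
    fun I => hC k Ω _ p tor (V ^ D) (V ^ (2 * D)) (by rw [two_mul, pow_add]) _ h0 _ ?_ ?_ ?_
  · rintro (_ | x)
    · exact n1 x0
    · dsimp only [Option.elim]
      split_ifs
      exacts [mul_ne_zero (ha _) (nb x), nb x]
  · rintro (_ | x | x)
    · exact (m1 x0).1
    · dsimp only [Option.elim]
      split_ifs
      exacts [(m1 x).2, (m1 x).1]
    · dsimp only [Option.elim]
      split_ifs
      exacts [(m2 x).2, (m2 x).1]
  · rintro (_ | y | y) w hw
    · exact left (fun x => by rw [face_none]; rfl) (c1 (I ∘ Sum.inl) w hw)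
    · exact right (fun x => by rw [face_some, update_of_ne Sum.inr_ne_inl]; rfl)
        (c2 (I ∘ Sum.inr) w hw)
    · exact left (fun x => by rw [face_some, update_of_ne Sum.inl_ne_inr]; rfl)
        (c1 (I ∘ Sum.inl) w hw)

end Pool.Agent.MP_f3836a_nt.BT
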