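import Pool.Agent.MP_f3836a_nt.BT.AllA
import Pool.Agent.MP_f3836a_nt.BT.GNN0
import Pool.Agent.MP_f3836a_nt.BT.GNN
import Pool.Agent.MP_f3836a_nt.BT.GPrim
import Pool.Agent.MP_f3836a_nt.BT.GLen1
import Pool.Agent.MP_f3836a_nt.BT.GLen
import Pool.Agent.MP_f3836a_nt.BT.GAr
import Pool.Agent.MP_f3836a_nt.BT.GDir
import Pool.Agent.MP_f3836a_nt.BT.GNak
import Pool.Agent.MP_f3836a_nt.BT.GPrep
import Pool.Agent.MP_f3836a_nt.BT.GGrow
import Pool.Agent.MP_f3836a_nt.BT.GA1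
import Pool.Agent.MP_f3836a_nt.BT.GA2
import Pool.Agent.MP_f3836a_nt.BT.GPw
import Pool.Agent.MP_f3836a_nt.BT.GChart
import Pool.Agent.MP_f3836a_nt.BT.GM1
import Pool.Agent.MP_f3836a_nt.BT.GDrop
import Pool.Agent.MP_f3836a_nt.BT.GNull
import Pool.Agent.MP_f3836a_nt.BT.GSys1
import Pool.Agent.MP_f3836a_nt.BT.GGen
import Pool.Agent.MP_f3836a_nt.BT.GTwo
import Pool.Agent.MP_f3836a_nt.BT.GStep

set_option autoImplicit false

namespace Pool.Agent.MP_f3836a_nt.BT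

theorem nnA : RNN := rNN rNN0

theorem lenA : RLen := rLen rLen1 rMon

theorem m1A : RM1 := rM1 rBas depA ratA rChF (rChart rPw rChF)
  (rPrep nnA rPrim lenA rAr (rDir rNN0) rNak)

theorem vanA : RVanV := rVanV rDrop (rSys1 rPw (rBlk rBas)) (rSys2 rPw (rNull rPw))
  (rTwo rBas idA coreKA rGen)

theorem final : Final := finalA (rMainT rBas (rStepG depA (rKap nnA rPrim lenA rAr)
  (rAlb rGrow rAr rA1 rA2) rChF m1A vanA))

end Pool.Agent.MP_f3836a_nt.BT
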