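import Pool.Agent.MP_f3836a_nt.BT.SpecC

set_option autoImplicit false

/-! Row CCore: the finite core. -/

namespace Pool.Agent.MP_f3836a_nt.BT

open Function Finset

namespace CCore

theorem fib {X Y : Type} [Fintype Y] [DecidableEq Y] (Z : Finset X) (g : X → Y) (h : Y → ℝ) :
    ∑ ω ∈ Z, h (g ω) = ∑ τ, ((Z.filter fun ω => g ω = τ).card : ℝ) * h τ := by
  rw [← Finset.sum_fiberwise Z g]
  refine Finset.sum_congr rfl fun τ _ => ?_
  rw [Finset.sum_congr rfl fun ω hω => congrArg h (Finset.mem_filter.1 hω).2, Finset.sum_const,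
    nsmul_eq_mul]

theorem fc_update {V ι : Type} [DecidableEq ι] (ω : Option ι → Bool → V) (j : Option ι)
    (I : Option ι → Bool) (b : Bool) : fc ω j (update I j b) = fc ω j I := by
  funext i
  have h : Equiv.swap none j (some i) ≠ j := fun e => by
    have e' : Equiv.swap none j (some i) = Equiv.swap none j none :=
      e.trans (Equiv.swap_apply_left _ _).symm
    exact Option.some_ne_none i ((Equiv.swap none j).injective e')
  simp only [fc, face, update_of_ne h]

theorem half {α : Type} [DecidableEq α] [Fintype α] (j : α) (F : (α → Bool) → ℝ)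
    (hF : ∀ I b, F (update I j b) = F I) :
    ∑ I, F I = 2 * ∑ I, if I j = false then F I else 0 := by
  have inv : Involutive fun I : α → Bool => update I j (!I j) := fun I => by
    simp only [update_self, update_idem, Bool.not_not, update_eq_self]
  have e : (∑ I, if I j = false then F I else 0) = ∑ I, if I j = true then F I else 0 := by
    rw [← Equiv.sum_comp inv.toPerm]
    refine Finset.sum_congr rfl fun I _ => ?_
    simp only [Involutive.coe_toPerm, update_self, hF, Bool.not_eq_false']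
  rw [two_mul]
  nth_rewrite 2 [e]
  rw [← Finset.sum_add_distrib]
  refine Finset.sum_congr rfl fun I _ => ?_
  cases I j <;> simp

theorem sub {α : Type} [DecidableEq α] [Fintype α] (H : α → (α → Bool) → ℝ)
    (hH : ∀ j I b, H j (update I j b) = H j I) (h : ∑ I, ∑ j, H j I = 0) :
    ∑ a : {a : α × (α → Bool) // a.2 a.1 = false}, H a.1.1 a.1.2 = 0 := by
  rw [Finset.sum_comm, Finset.sum_congr rfl fun j _ => half j (H j) (hH j), ← Finset.mul_sum] at h
  rw [← Finset.sum_subtype (univ.filter fun a : α × (α → Bool) => a.2 a.1 = false) (by simp)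
    fun a => H a.1 a.2, Finset.sum_filter, Fintype.sum_prod_type]
  exact (mul_eq_zero.1 h).resolve_left two_ne_zero

theorem del_cast {V ι : Type} [DecidableEq ι] [Fintype ι] (φ : (ι → V) → ℚ) (T : Option ι → V) :
    del (fun τ => (φ τ : ℝ)) T = ((del φ T : ℚ) : ℝ) := by
  simp only [del, Rat.cast_sum, Rat.cast_mul]
  refine Finset.sum_congr rfl fun j _ => ?_
  cases j <;> simp [sg]

end CCore

open CCore in
theorem rCore : RProj → RFin → RPar → ROrth → RDead → RCore := by
  intro hP hF _ hO hD m N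
  obtain ⟨M, hM⟩ : ∃ M : ℕ, M = (m + 1) * 2 ^ (m + 1) := ⟨_, rfl⟩
  obtain ⟨D, hDD⟩ : ∃ D : ℕ, D = (m + 1) * (2 ^ (m + 1) + 2) * (2 * N + 2) := ⟨_, rfl⟩
  have M0 : 0 < M := by rw [hM]; positivity
  have D0 : 0 < D := by rw [hDD]; positivity
  refine ⟨(4 * M) ^ 2 + 4 * M * D + 2, ?_⟩
  intro κ V W ι _ _ _ _ _ _ _ _ _ _ _ μ φ hm hN hQ hs ha hid T hT hG
  classical
  let _ := Fintype.ofFinite κ
  let _ := Fintype.ofFinite V
  let _ := Fintype.ofFinite W
  have : FiniteDimensional κ W := Module.Finite.of_finite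
  obtain ⟨ψ, p1, p2, p3⟩ := hP V ι (fun τ => Nz τ ∧ Gn μ τ) (fun τ => (φ τ : ℝ)) (fun _ h => h.1)
    (fun τ i j h => ⟨fun l => h.1 _, fun w => (by
      obtain ⟨v, hv⟩ := h.2 w
      exact ⟨v ∘ Equiv.swap i j,
        (Equiv.sum_comp (Equiv.swap i j) fun l => μ (τ l) (v l)).trans hv⟩)⟩)
    (fun τ i j hij h => by rw [ha τ i j hij h.1, Rat.cast_neg])
  obtain ⟨Z, hZ, o1, o2⟩ : ∃ Z : Finset (Option ι → Bool → V), (∀ ω, ω ∈ Z ↔ Rel μ ω) ∧
      (∀ j I, ∑ ω ∈ Z, ψ (fc ω j I) ^ 2 =
        (Fintype.card V : ℝ) ^ (Fintype.card ι + 2) / Fintype.card W * ∑ τ, ψ τ ^ 2) ∧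
      ∀ j I j' I', I j = false → I' j' = false → (j, I) ≠ (j', I') →
        (∑ ω ∈ Z, ψ (fc ω j I) * ψ (fc ω j' I')) ^ 2 * Fintype.card κ ≤
          (∑ ω ∈ Z, ψ (fc ω j I) ^ 2) * ∑ ω ∈ Z, ψ (fc ω j' I') ^ 2 :=
    ⟨_, fun ω => (by simp), hO κ V W ι μ hs ψ (fun τ h => p1 τ fun h' => h h'.2) p2⟩
  obtain ⟨N₀, hN₀⟩ : ∃ N₀ : ℝ, N₀ =
    (Fintype.card V : ℝ) ^ (Fintype.card ι + 2) / Fintype.card W * ∑ τ, ψ τ ^ 2 := ⟨_, rfl⟩
  rw [← hN₀] at o1
  have n0 : 0 ≤ N₀ := by rw [hN₀]; positivity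
  have M1 : (0 : ℝ) < 4 * M := by positivity
  have : Nonempty {a : Option ι × (Option ι → Bool) // a.2 a.1 = false} :=
    ⟨⟨(none, fun _ => false), rfl⟩⟩
  have key : N₀ = 0 := by
    refine hF (Option ι → Bool → V) {a : Option ι × (Option ι → Bool) // a.2 a.1 = false} Z
      (Z.filter fun ω => ¬Alive μ ω) (fun a ω => ψ (fc ω a.1.1 a.1.2)) (fun a => sg ℝ a.1.1) N₀
      (1 / (4 * M)) (1 / (4 * M)) (Finset.filter_subset _ _) (fun a => ?_) (by positivity)
      (by positivity) (fun a => o1 _ _) (fun a b hab => ?_) (fun a => ?_) (fun ω h1 h2 => ?_) ?_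
    · rcases a with ⟨⟨j, I⟩, h⟩
      cases j
      · exact Or.inl rfl
      · exact Or.inr rfl
    · have h := o2 a.1.1 a.1.2 b.1.1 b.1.2 a.2 b.2 fun e => hab (Subtype.ext e)
      rw [o1, o1] at h
      have hq : ((4 * M : ℝ)) ^ 2 ≤ Fintype.card κ := by
        rw [Nat.card_eq_fintype_card] at hQ
        exact_mod_cast (by omega : (4 * M) ^ 2 ≤ Fintype.card κ)
      refine abs_le_of_sq_le_sq ?_ (by positivity)
      rw [one_div_mul_eq_div, div_pow, le_div_iff₀ (by positivity)]
      exact (mul_le_mul_of_nonneg_left hq (sq_nonneg _)).trans (h.trans_eq (sq N₀).symm)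
    · rw [← o1 a.1.1 a.1.2, fib _ (fun ω => fc ω a.1.1 a.1.2) fun τ => ψ τ ^ 2,
        fib Z (fun ω => fc ω a.1.1 a.1.2) fun τ => ψ τ ^ 2, Finset.mul_sum]
      refine Finset.sum_le_sum fun τ _ => ?_
      by_cases hτ : Nz τ ∧ Gn μ τ
      swap
      · rw [p1 τ hτ]; simp
      have h := hD κ V W ι μ hs a.1.1 a.1.2 τ hτ.2 hτ.1
      have e1 : {ω | Fib μ a.1.1 a.1.2 τ ω ∧ ¬Alive μ ω} =
          (((Z.filter fun ω => ¬Alive μ ω).filter fun ω => fc ω a.1.1 a.1.2 = τ : Finset _) : Set _) := by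
        ext ω
        simp only [Fib, Set.mem_ofPred_eq, Finset.coe_filter, Finset.mem_filter, hZ]
        tauto
      have e2 : {ω | Fib μ a.1.1 a.1.2 τ ω} =
          ((Z.filter fun ω => fc ω a.1.1 a.1.2 = τ : Finset _) : Set _) := by
        ext ω
        simp only [Fib, Set.mem_ofPred_eq, Finset.coe_filter, hZ]
      rw [e1, e2, Set.ncard_coe_finset, Set.ncard_coe_finset, hm] at h
      generalize ((Z.filter fun ω => ¬Alive μ ω).filter fun ω => fc ω a.1.1 a.1.2 = τ).card = c₁
        at h ⊢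
      generalize (Z.filter fun ω => fc ω a.1.1 a.1.2 = τ).card = c₂ at h ⊢
      have h1 : D * (4 * M * c₁) ≤ D * c₂ := by
        calc D * (4 * M * c₁) = 4 * M * D * c₁ := by ring
          _ ≤ (Nat.card κ - 1) * c₁ := Nat.mul_le_mul_right _ (by omega)
          _ ≤ _ := h
          _ ≤ D * c₂ := by rw [hDD]; gcongr
      have h2 : (4 * M * c₁ : ℝ) ≤ c₂ := by exact_mod_cast Nat.le_of_mul_le_mul_left h1 D0
      rw [← mul_assoc]
      refine mul_le_mul_of_nonneg_right ?_ (sq_nonneg _)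
      rw [one_div_mul_eq_div, le_div_iff₀ M1, mul_comm]
      exact h2
    · have al : Alive μ ω := by
        by_contra hn
        exact h2 (Finset.mem_filter.2 ⟨h1, hn⟩)
      have h3 := hid (fun j => ω j true) (fun j => ω j false) (fun j => al.1 j true)
        (fun j => al.1 j false) ((Finset.sum_congr rfl fun j _ => hs _ _).trans ((hZ ω).1 h1))
      refine sub (fun j I => sg ℝ j * ψ (fc ω j I)) (fun j I b => by rw [fc_update]) ?_
      have h4 : ((∑ I : Option ι → Bool,
          del φ (fun j => if I j = true then ω j true else ω j false) : ℚ) : ℝ) = 0 := by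
        rw [h3, Rat.cast_zero]
      rw [Rat.cast_sum] at h4
      refine (Finset.sum_congr rfl fun I _ => ?_).trans h4
      have e : (fun j => if I j = true then ω j true else ω j false) = fun l => ω l (I l) := by
        funext l
        cases I l <;> simp
      rw [e, ← del_cast, p3 (fun l => ω l (I l)) fun j => ⟨fun i => al.1 _ (I _), al.2 j I⟩]
      rfl
    · have h1 : Fintype.card {a : Option ι × (Option ι → Bool) // a.2 a.1 = false} ≤ M := by
        refine (Fintype.card_subtype_le _).trans_eq ?_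
        rw [Fintype.card_prod, Fintype.card_fun, Fintype.card_option, Fintype.card_bool, hm, hM]
      have h2 : (Fintype.card {a : Option ι × (Option ι → Bool) // a.2 a.1 = false} : ℝ) ≤ M := by
        exact_mod_cast h1
      have h3 : (M : ℝ) * (1 / (4 * M) + 1 / (4 * M)) = 1 / 2 := by
        have : (M : ℝ) ≠ 0 := by positivity
        field_simp
        norm_num
      exact ((mul_le_mul_of_nonneg_right h2 (by positivity)).trans_eq h3).trans_lt (by norm_num)
  have hS : ∑ τ, ψ τ ^ 2 = 0 := by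
    rw [key] at hN₀
    refine (mul_eq_zero.1 hN₀.symm).resolve_left ?_
    have h1 : 0 < Fintype.card V := Fintype.card_pos
    have h2 : 0 < Fintype.card W := Fintype.card_pos
    positivity
  have h0 : ∀ τ, ψ τ = 0 := fun τ => pow_eq_zero_iff two_ne_zero |>.1
    ((Finset.sum_eq_zero_iff_of_nonneg fun τ _ => sq_nonneg (ψ τ)).1 hS τ (Finset.mem_univ _))
  have h1 := p3 T fun j => ⟨fun i => hT _, hG j⟩
  rw [del_cast] at h1
  have h2 : del ψ T = 0 := Finset.sum_eq_zero fun j _ => by rw [h0, mul_zero]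
  exact_mod_cast h1.trans h2

end Pool.Agent.MP_f3836a_nt.BT
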