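import Pool.Agent.MP_f3836a_nt.BT.SpecC

set_option autoImplicit false

/-! Few bad points on a conic, and a double count. -/

namespace Pool.Agent.MP_f3836a_nt.BT

open Function Finset Polynomial

namespace CDet

variable {κ : Type} [Field κ]

theorem roots {P : κ[X]} {D : ℕ} {S : Set κ} (h0 : P.eval 0 ≠ 0) (hD : P.natDegree ≤ D)
    (h : ∀ t ∈ S, P.eval t = 0) : S.ncard ≤ D := by
  classical
  have hP : P ≠ 0 := fun e => h0 (by simp [e])
  refine (Set.ncard_le_ncard (t := (P.roots.toFinset : Set κ)) (fun t ht => by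
    simpa [hP] using h t ht)).trans ?_
  rw [Set.ncard_coe_finset]
  exact (Multiset.toFinset_card_le _).trans ((card_roots' P).trans hD)

theorem deg (a b c : κ) : (C a + C b * X + C c * X ^ 2).natDegree ≤ 2 := by compute_degree

end CDet

open CDet in
theorem rDet : RDet := by
  intro κ V W ι _ _ _ _ _ _ _ _ _ μ
  refine ⟨fun τ₀ τ₁ τ₂ h => ?_, fun v₀ v₁ v₂ h => ?_⟩
  · let b := Module.finBasis κ W
    choose v hv using fun k => h (b k)
    let u : (ι → V) → Fin (Module.finrank κ W) → W := fun τ k => ∑ i, μ (τ i) (v k i)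
    let M : Matrix (Fin (Module.finrank κ W)) (Fin (Module.finrank κ W)) κ[X] :=
      Matrix.of fun i k => C (b.repr (u τ₀ k) i) + C (b.repr (u τ₁ k) i) * X
        + C (b.repr (u τ₂ k) i) * X ^ 2
    have hM : ∀ t, M.det.eval t = b.det (u (τ₀ + t • τ₁ + t ^ 2 • τ₂)) := fun t => by
      rw [← coe_evalRingHom, RingHom.map_det, Module.Basis.det_apply]
      congr 1
      ext i k
      simp [M, u, Module.Basis.toMatrix_apply, sum_add_distrib, ← mul_sum, eval_finsetSum]
      ring
    refine roots (P := M.det) ?_ ?_ fun t ht => ?_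
    · have : u τ₀ = b := funext hv
      rw [hM, zero_pow two_ne_zero, zero_smul, zero_smul, add_zero, add_zero, this, b.det_self]
      exact one_ne_zero
    · rw [Matrix.det_apply]
      refine natDegree_sum_le_of_forall_le _ _ fun σ _ => (natDegree_smul_le _ _).trans
        ((natDegree_prod_le _ _).trans ((sum_le_card_nsmul _ _ 2 fun i _ => deg _ _ _).trans ?_))
      simp [mul_comm]
    · by_contra hc
      rw [hM] at hc
      refine ht fun w => ?_
      have h1 := (b.is_basis_iff_det.2 (Ne.isUnit hc)).2
      obtain ⟨c, hc⟩ := (Submodule.mem_span_range_iff_exists_fun κ).1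
        (h1 ▸ Submodule.mem_top (x := w))
      refine ⟨fun i => ∑ k, c k • v k i, ?_⟩
      simp only [← hc, u, map_sum, map_smul, smul_sum]
      exact sum_comm
  · obtain ⟨f, hf⟩ := not_forall.1 (mt (Module.forall_dual_apply_eq_zero_iff κ v₀).1 h)
    refine roots (by simpa using hf) (deg (f v₀) (f v₁) (f v₂)) fun t ht => ?_
    have := congrArg f (show v₀ + t • v₁ + t ^ 2 • v₂ = 0 from ht)
    simp at this ⊢
    linear_combination this

theorem rCnt : RCnt := by
  intro κ E _ _ _ _ _ B p D h
  classical
  have := Fintype.ofFinite κ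
  have := Fintype.ofFinite E
  have h1 := card_mul_le_card_mul (s := (univ : Finset κ).erase 0) (t := (univ : Finset E))
    (m := B.ncard) (n := D) (fun t p' => p + t • p' ∈ B) (fun t ht => by
      rw [← Set.ncard_coe_finset]
      have h0 := (mem_erase.1 ht).1
      refine Set.ncard_le_ncard_of_injOn (fun x => t⁻¹ • (x - p)) (fun x hx => ?_) fun x _ y _ e => ?_
      · simpa [smul_inv_smul₀ h0] using hx
      · exact sub_left_injective (smul_right_injective E (inv_ne_zero h0) e)) fun p' _ => by
      rw [← Set.ncard_coe_finset]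
      exact (Set.ncard_le_ncard fun t ht => by simpa using (mem_bipartiteBelow _).1 ht |>.2).trans
        (h p')
  rwa [card_erase_of_mem (mem_univ _), card_univ, card_univ, ← Nat.card_eq_fintype_card,
    ← Nat.card_eq_fintype_card, mul_comm _ D] at h1

end Pool.Agent.MP_f3836a_nt.BT
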