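import Pool.Agent.MP_f3836a_nt.BT.SpecC

set_option autoImplicit false

/-! Large finite subfields and the passage of the core to an infinite field. -/

namespace Pool.Agent.MP_f3836a_nt.BT

open Function

theorem rFF : RFF := by
  intro k _ _ p _ _ hT s Q hs
  classical
  obtain ⟨t, hst, ht⟩ := Infinite.exists_superset_card_eq hs.toFinset (hs.toFinset.card + Q)
    (Nat.le_add_right _ _)
  let : Algebra (ZMod p) k := ZMod.algebra k p
  have hint : ∀ x ∈ (t : Set k), IsIntegral (ZMod p) x := by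
    intro x _
    by_cases hx : x = 0
    · rw [hx]
      exact isIntegral_zero
    · obtain ⟨n, hn, h⟩ := hT x hx
      refine IsIntegral.of_pow hn ?_
      rw [h]
      exact isIntegral_one
  have : FiniteDimensional (ZMod p) (IntermediateField.adjoin (ZMod p) (t : Set k)) :=
    IntermediateField.finiteDimensional_adjoin hint
  have hf : Finite (IntermediateField.adjoin (ZMod p) (t : Set k)) :=
    Module.finite_of_finite (ZMod p)
  have hsub : (t : Set k) ⊆ (IntermediateField.adjoin (ZMod p) (t : Set k)).toSubfield :=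
    IntermediateField.subset_adjoin (ZMod p) (t : Set k)
  have hf' : Finite (IntermediateField.adjoin (ZMod p) (t : Set k)).toSubfield := hf
  refine ⟨(IntermediateField.adjoin (ZMod p) (t : Set k)).toSubfield, hf', ?_, ?_⟩
  · intro x hx
    exact hsub (hst (hs.mem_toFinset.2 hx))
  · have h1 : Nat.card (t : Set k) ≤
        Nat.card ((IntermediateField.adjoin (ZMod p) (t : Set k)).toSubfield : Set k) :=
      Nat.card_mono (Set.finite_coe_iff.1 hf') hsub
    have h2 : Nat.card (t : Set k) = t.card := by simp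
    have h3 : Q ≤ Nat.card (t : Set k) := by omega
    exact h3.trans h1

namespace CK

theorem mem_sp {k Ω A : Type} [Field k] [Field Ω] [Algebra k Ω] [Fintype A] (κ : Subfield k)
    (v : A → Ω) (c : A → k) (hc : ∀ a, c a ∈ κ) :
    ∑ a, c a • v a ∈ Submodule.span κ (Set.range v) := by
  refine Submodule.sum_mem _ fun a _ => ?_
  have h : c a • v a = (⟨c a, hc a⟩ : κ) • v a := rfl
  rw [h]
  exact Submodule.smul_mem _ _ (Submodule.subset_span ⟨a, rfl⟩)

/-- the multiplication between subspaces -/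
def mu {κ Ω : Type} [Field κ] [Field Ω] [Algebra κ Ω] (V W : Submodule κ Ω)
    (h : ∀ x ∈ V, ∀ y ∈ V, x * y ∈ W) : V →ₗ[κ] V →ₗ[κ] W :=
  LinearMap.mk₂ κ (fun x y => ⟨x.1 * y.1, h _ x.2 _ y.2⟩)
    (fun x x' y => Subtype.ext (add_mul _ _ _))
    (fun c x y => Subtype.ext (smul_mul_assoc c x.1 y.1))
    (fun x y y' => Subtype.ext (mul_add _ _ _))
    (fun c x y => Subtype.ext (mul_smul_comm c x.1 y.1))

theorem mu_val {κ Ω : Type} [Field κ] [Field Ω] [Algebra κ Ω] (V W : Submodule κ Ω)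
    (h : ∀ x ∈ V, ∀ y ∈ V, x * y ∈ W) (x y : V) : (mu V W h x y).1 = x.1 * y.1 := rfl

theorem nz_val {κ Ω ι : Type} [Field κ] [Field Ω] [Algebra κ Ω] (V : Submodule κ Ω)
    (τ : ι → V) (h : Nz τ) : Nz fun i => (τ i).1 := fun i hi => h i (Subtype.ext hi)

theorem del_val {κ Ω ι : Type} [Field κ] [Field Ω] [Algebra κ Ω] [DecidableEq ι] [Fintype ι]
    (V : Submodule κ Ω) (φ : (ι → Ω) → ℚ) (T : Option ι → V) :
    del (fun τ : ι → V => φ fun i => (τ i).1) T = del φ fun j => (T j).1 := rfl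

theorem gn {κ Ω ι A : Type} [Field κ] [Field Ω] [Algebra κ Ω] [Fintype ι] (V : Submodule κ Ω)
    (w : A → Ω) (h : ∀ x ∈ V, ∀ y ∈ V, x * y ∈ Submodule.span κ (Set.range w)) (τ : ι → V)
    (hw : ∀ c, ∃ u : ι → Ω, (∀ i, u i ∈ V) ∧ ∑ i, (τ i).1 * u i = w c) :
    Gn (mu V _ h) τ := by
  rintro ⟨x, hx⟩
  have key : ∃ u : ι → Ω, (∀ i, u i ∈ V) ∧ ∑ i, (τ i).1 * u i = x := by
    induction hx using Submodule.span_induction with
    | mem x hx =>
      obtain ⟨c, rfl⟩ := hx
      exact hw c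
    | zero => exact ⟨0, fun _ => V.zero_mem, by simp⟩
    | add x y _ _ hx hy =>
      obtain ⟨u, hu, rfl⟩ := hx
      obtain ⟨u', hu', rfl⟩ := hy
      refine ⟨fun i => u i + u' i, fun i => V.add_mem (hu i) (hu' i), ?_⟩
      rw [← Finset.sum_add_distrib]
      exact Finset.sum_congr rfl fun i _ => mul_add _ _ _
    | smul c x _ hx =>
      obtain ⟨u, hu, rfl⟩ := hx
      refine ⟨fun i => c • u i, fun i => V.smul_mem c (hu i), ?_⟩
      rw [Finset.smul_sum]
      exact Finset.sum_congr rfl fun i _ => mul_smul_comm _ _ _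
  obtain ⟨u, hu, hx'⟩ := key
  refine ⟨fun i => ⟨u i, hu i⟩, Subtype.ext ?_⟩
  rw [Submodule.coe_sum]
  exact hx'

theorem core (hB : RBas) (hI : RId) {κ Ω ι A : Type} [Field κ] [Finite κ] [Field Ω]
    [Algebra κ Ω] [DecidableEq ι] [Fintype ι] [Nonempty ι] [Fintype A] (N Q : ℕ)
    (hQ : ∀ (V W : Type) [AddCommGroup V] [Module κ V] [Finite V] [AddCommGroup W] [Module κ W]
      [Finite W] (μ : V →ₗ[κ] V →ₗ[κ] W) (φ : (ι → V) → ℚ), Module.finrank κ W ≤ N →
      (∀ x y, μ x y = μ y x) →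
      (∀ τ i j, i ≠ j → Nz τ → φ (τ ∘ Equiv.swap i j) = -φ τ) →
      (∀ x y : Option ι → V, Nz x → Nz y → ∑ j, μ (x j) (y j) = 0 →
        ∑ I : Option ι → Bool, del φ (fun j => if I j = true then x j else y j) = 0) →
      ∀ T : Option ι → V, Nz T → (∀ j, Gn μ (face T j)) → del φ T = 0)
    (v : A → Ω) (w : Fin N → Ω)
    (hm : ∀ a b, v a * v b ∈ Submodule.span κ (Set.range w))
    (φ : (ι → Ω) → ℚ) (hφ : St φ) (T : Option ι → Ω) (hT : Nz T)
    (hTV : ∀ j, T j ∈ Submodule.span κ (Set.range v))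
    (hw : ∀ j c, ∃ u : ι → Ω, (∀ i, u i ∈ Submodule.span κ (Set.range v)) ∧
      ∑ i, face T j i * u i = w c) : del φ T = 0 := by
  have hmul : ∀ x ∈ Submodule.span κ (Set.range v), ∀ y ∈ Submodule.span κ (Set.range v),
      x * y ∈ Submodule.span κ (Set.range w) := by
    intro x hx y hy
    have h := Submodule.mul_mem_mul hx hy
    rw [Submodule.span_mul_span] at h
    refine (Submodule.span_le.2 ?_) h
    rintro _ ⟨_, ⟨a, rfl⟩, _, ⟨b, rfl⟩, rfl⟩
    exact hm a b
  have : Module.Finite κ (Submodule.span κ (Set.range v)) :=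
    Module.Finite.span_of_finite κ (Set.finite_range v)
  have : Module.Finite κ (Submodule.span κ (Set.range w)) :=
    Module.Finite.span_of_finite κ (Set.finite_range w)
  have : Finite (Submodule.span κ (Set.range v)) := Module.finite_of_finite κ
  have : Finite (Submodule.span κ (Set.range w)) := Module.finite_of_finite κ
  have hN : Module.finrank κ (Submodule.span κ (Set.range w)) ≤ N := by
    have h := finrank_range_le_card (R := κ) w
    rw [Fintype.card_fin] at h
    exact h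
  have h := hQ _ _ (mu _ _ hmul) (fun τ => φ fun i => (τ i).1) hN
    (fun x y => Subtype.ext (mul_comm _ _))
    (fun τ i j hij hτ => (hB ι Ω φ hφ).swap (fun i => (τ i).1) i j hij (nz_val _ τ hτ))
    (fun x y hx hy hxy => by
      have h0 : ∑ j, (x j).1 * (y j).1 = 0 := by
        have h1 := congrArg Subtype.val hxy
        rw [Submodule.coe_sum] at h1
        exact h1
      have h2 := (hI ι Ω φ hφ).1 _ _ (nz_val _ x hx) (nz_val _ y hy) h0
      rw [← h2]
      refine Finset.sum_congr rfl fun I _ => ?_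
      rw [del_val]
      refine congrArg (del φ) (funext fun j => ?_)
      split_ifs <;> rfl)
    (fun j => ⟨T j, hTV j⟩) (fun j hj => hT j (congrArg Subtype.val hj))
    (fun j => gn _ w hmul _ (hw j))
  exact h

end CK

theorem rCoreK : RBas → RId → RCore → RFF → RCoreK := by
  intro hB hI hC hF k Ω ι _ _ _ _ p _ _ _ _ _ hT V W _ _ hVW φ hφ T hNz hTV hG
  obtain ⟨n, v, hv⟩ := Submodule.fg_iff_exists_fin_generating_family.1
    (Module.Finite.iff_fg.1 (inferInstance : Module.Finite k V))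
  obtain ⟨N, w, hw⟩ := Submodule.fg_iff_exists_fin_generating_family.1
    (Module.Finite.iff_fg.1 (inferInstance : Module.Finite k W))
  have hvV : ∀ a, v a ∈ V := fun a => hv ▸ Submodule.subset_span ⟨a, rfl⟩
  have hwW : ∀ c, w c ∈ W := fun c => hw ▸ Submodule.subset_span ⟨c, rfl⟩
  have eV : ∀ x ∈ V, ∃ c : Fin n → k, ∑ a, c a • v a = x := fun x hx =>
    (Submodule.mem_span_range_iff_exists_fun k).1 (hv ▸ hx)
  have eW : ∀ x ∈ W, ∃ c : Fin N → k, ∑ a, c a • w a = x := fun x hx =>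
    (Submodule.mem_span_range_iff_exists_fun k).1 (hw ▸ hx)
  choose cM hM using fun a b => eW (v a * v b) (hVW (Submodule.mul_mem_mul (hvV a) (hvV b)))
  choose cT hcT using fun j => eV (T j) (hTV j)
  choose u hu hu' using fun j c => hG j (w c) (hwW c)
  choose cU hU using fun j c i => eV (u j c i) (hu j c i)
  obtain ⟨Q, hQ⟩ := hC (Fintype.card ι) N
  obtain ⟨κ, hκ, hs, hQκ⟩ := hF k p hT
    ((Set.range fun x : Fin n × Fin n × Fin N => cM x.1 x.2.1 x.2.2) ∪
      (Set.range fun x : Option ι × Fin n => cT x.1 x.2) ∪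
      Set.range fun x : Option ι × Fin N × ι × Fin n => cU x.1 x.2.1 x.2.2.1 x.2.2.2) Q
    (((Set.finite_range _).union (Set.finite_range _)).union (Set.finite_range _))
  refine CK.core (κ := κ) hB hI N Q
    (fun V' W' _ _ _ _ _ _ μ ψ hN => hQ κ V' W' ι μ ψ rfl hN hQκ) v w ?_ φ hφ T hNz ?_ ?_
  · intro a b
    rw [← hM a b]
    exact CK.mem_sp κ w _ fun c => hs (Or.inl (Or.inl ⟨(a, b, c), rfl⟩))
  · intro j
    rw [← hcT j]
    exact CK.mem_sp κ v _ fun a => hs (Or.inl (Or.inr ⟨(j, a), rfl⟩))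
  · intro j c
    refine ⟨u j c, fun i => ?_, hu' j c⟩
    rw [← hU j c i]
    exact CK.mem_sp κ v _ fun a => hs (Or.inr ⟨(j, c, i, a), rfl⟩)

end Pool.Agent.MP_f3836a_nt.BT
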