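import Pool.Agent.MP_f3836a_nt.BT.SpecC

set_option autoImplicit false

/-! Norms and near orthogonality of the face functions. -/

namespace Pool.Agent.MP_f3836a_nt.BT

open Function Finset

namespace COrth

/-- averaging over a finite group of moves -/
theorem avg {X κ : Type} [AddCommGroup κ] [Fintype κ] (Z : Finset X) (M : κ → X → X)
    (hZ : ∀ t, ∀ ω ∈ Z, M t ω ∈ Z) (hadd : ∀ t t' ω, M t (M t' ω) = M (t + t') ω)
    (h0 : ∀ ω, M 0 ω = ω) (f g : X → ℝ) (hg : ∀ t ω, g (M t ω) = g ω)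
    (hf : ∀ s, s ≠ 0 → ∑ ω ∈ Z, f ω * f (M s ω) = 0) :
    (∑ ω ∈ Z, f ω * g ω) ^ 2 * Fintype.card κ ≤ (∑ ω ∈ Z, f ω ^ 2) * ∑ ω ∈ Z, g ω ^ 2 := by
  classical
  have inv : ∀ (h : X → ℝ) (t : κ), ∑ ω ∈ Z, h (M t ω) = ∑ ω ∈ Z, h ω := fun h t =>
    sum_nbij' (M t) (M (-t)) (hZ t) (hZ (-t)) (fun ω _ => by rw [hadd, neg_add_cancel, h0])
      (fun ω _ => by rw [hadd, add_neg_cancel, h0]) fun _ _ => rfl
  have e1 : ∑ ω ∈ Z, (∑ t, f (M t ω)) * g ω = Fintype.card κ * ∑ ω ∈ Z, f ω * g ω := by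
    simp only [sum_mul]
    rw [sum_comm]
    have : ∀ t : κ, ∑ ω ∈ Z, f (M t ω) * g ω = ∑ ω ∈ Z, f ω * g ω := fun t => by
      rw [← inv (fun ω => f ω * g ω) t]
      exact sum_congr rfl fun ω _ => by rw [hg]
    simp only [this, sum_const, card_univ, nsmul_eq_mul]
  have e2 : ∑ ω ∈ Z, (∑ t, f (M t ω)) ^ 2 = Fintype.card κ * ∑ ω ∈ Z, f ω ^ 2 := by
    have a1 : ∀ t t' : κ, ∑ ω ∈ Z, f (M t ω) * f (M t' ω) =
        if t' = t then ∑ ω ∈ Z, f ω ^ 2 else 0 := fun t t' => by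
      have a2 : ∑ ω ∈ Z, f (M t ω) * f (M t' ω) = ∑ ω ∈ Z, f ω * f (M (t' - t) ω) := by
        rw [← inv (fun ω => f ω * f (M (t' - t) ω)) t]
        exact sum_congr rfl fun ω _ => by rw [hadd, sub_add_cancel]
      rw [a2]
      split_ifs with h
      · rw [h, sub_self]
        exact sum_congr rfl fun ω _ => by rw [h0, sq]
      · exact hf _ (sub_ne_zero.mpr h)
    simp only [sq (∑ t, f (M t _)), sum_mul_sum]
    rw [sum_comm]
    have a3 : ∀ t : κ, ∑ ω ∈ Z, ∑ t', f (M t ω) * f (M t' ω) = ∑ ω ∈ Z, f ω ^ 2 := fun t => by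
      rw [sum_comm]
      simp only [a1, sum_ite_eq', mem_univ, if_true]
    simp only [a3, sum_const, card_univ, nsmul_eq_mul]
  have cs := sum_mul_sq_le_sq_mul_sq Z (fun ω => ∑ t, f (M t ω)) g
  rw [e1, e2] at cs
  have hq : (0 : ℝ) < Fintype.card κ := by exact_mod_cast Fintype.card_pos
  refine le_of_mul_le_mul_left ?_ hq
  nlinarith

section
variable {κ V W ι : Type} [Field κ] [AddCommGroup V] [Module κ V] [AddCommGroup W] [Module κ W]
  [DecidableEq ι]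

/-- the move -/
def mv (j j₁ : Option ι) (β γ : Bool) (t : κ) (ω : Option ι → Bool → V) : Option ι → Bool → V :=
  fun l b => ω l b + (if l = j₁ ∧ b = γ then t • ω j (!β) else 0) -
    if l = j ∧ b = β then t • ω j₁ (!γ) else 0

variable {j j₁ : Option ι} (β γ : Bool)

theorem mv_v (h : j₁ ≠ j) (t : κ) (ω : Option ι → Bool → V) :
    mv j j₁ β γ t ω j (!β) = ω j (!β) := by
  simp [mv, h.symm]

theorem mv_u (h : j₁ ≠ j) (t : κ) (ω : Option ι → Bool → V) :
    mv j j₁ β γ t ω j₁ (!γ) = ω j₁ (!γ) := by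
  simp [mv, h]

theorem mv_add (h : j₁ ≠ j) (t t' : κ) (ω : Option ι → Bool → V) :
    mv j j₁ β γ t (mv j j₁ β γ t' ω) = mv j j₁ β γ (t + t') ω := by
  funext l b
  rw [mv, mv_v β γ h, mv_u β γ h]
  simp only [mv, add_smul]
  split_ifs <;> abel

theorem mv_zero (ω : Option ι → Bool → V) : mv j j₁ β γ (0 : κ) ω = ω := by
  funext l b
  simp [mv]

theorem mv_rel [Fintype ι] (μ : V →ₗ[κ] V →ₗ[κ] W) (hs : ∀ x y, μ x y = μ y x) (h : j₁ ≠ j)
    (t : κ) (ω : Option ι → Bool → V) (hω : Rel μ ω) : Rel μ (mv j j₁ β γ t ω) := by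
  have e : ∀ l, μ (mv j j₁ β γ t ω l false) (mv j j₁ β γ t ω l true) =
      μ (ω l false) (ω l true) + (if l = j₁ then t • μ (ω j (!β)) (ω j₁ (!γ)) else 0) -
        if l = j then t • μ (ω j (!β)) (ω j₁ (!γ)) else 0 := by
    intro l
    by_cases h1 : l = j₁
    · subst h1
      cases γ
      · simp [mv, h]
      · simp [mv, h, hs (ω l false) (ω j (!β))]
    · by_cases h2 : l = j
      · subst h2
        cases β
        · simp [mv, h1, hs (ω j₁ (!γ)) (ω l true)]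
        · simp [mv, h1]
      · simp [mv, h1, h2]
  unfold Rel at hω ⊢
  simp only [e, sum_sub_distrib, sum_add_distrib, sum_ite_eq', mem_univ, if_true, hω]
  abel

theorem swap_ne (j : Option ι) (i : ι) : Equiv.swap none j (some i) ≠ j := by
  intro h
  have := (Equiv.swap none j).injective (h.trans (Equiv.swap_apply_left none j).symm)
  cases this

theorem mv_fix {j' : Option ι} {I' : Option ι → Bool} (h1 : j₁ ≠ j' → I' j₁ ≠ γ)
    (h2 : I' j ≠ β) (t : κ) (ω : Option ι → Bool → V) :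
    fc (mv j j₁ β γ t ω) j' I' = fc ω j' I' := by
  funext i
  have hne := swap_ne j' i
  simp only [fc, face, mv]
  rw [if_neg, if_neg, add_zero, sub_zero]
  · rintro ⟨a, b⟩
    rw [a] at b
    exact h2 b
  · rintro ⟨a, b⟩
    rw [a] at b hne
    exact h1 hne b

theorem mv_fc {I : Option ι → Bool} {i₁ : ι} (h : Equiv.swap none j (some i₁) = j₁) (t : κ)
    (ω : Option ι → Bool → V) :
    fc (mv j j₁ β (I j₁) t ω) j I = update (fc ω j I) i₁ (fc ω j I i₁ + t • ω j (!β)) := by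
  funext i
  have hne := swap_ne j i
  by_cases hi : i = i₁
  · subst hi
    rw [update_self]
    simp only [fc, face, mv]
    rw [if_pos ⟨h, by rw [h]⟩, if_neg fun a => hne a.1, sub_zero]
  · rw [update_of_ne hi]
    simp only [fc, face, mv]
    rw [if_neg, if_neg fun a => hne a.1, add_zero, sub_zero]
    rintro ⟨a, -⟩
    exact hi (Option.some.inj ((Equiv.swap none j).injective (a.trans h.symm)))

end

section
variable {κ V W ι : Type} [Field κ] [AddCommGroup V] [Module κ V] [Fintype V] [AddCommGroup W]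
  [Module κ W] [DecidableEq ι] [Fintype ι] {μ : V →ₗ[κ] V →ₗ[κ] W}

omit [AddCommGroup V] in
open Classical in
theorem fib_sum (Z : Finset (Option ι → Bool → V)) (j : Option ι) (I : Option ι → Bool)
    (h : (ι → V) → (Option ι → Bool → V) → ℝ) :
    ∑ ω ∈ Z, h (fc ω j I) ω = ∑ τ, ∑ ω ∈ Z.filter (fun ω => fc ω j I = τ), h τ ω := by
  rw [← sum_fiberwise Z (fun ω => fc ω j I) fun ω => h (fc ω j I) ω]
  exact sum_congr rfl fun τ _ => sum_congr rfl fun ω hω => by rw [(mem_filter.mp hω).2]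

open Classical in
theorem par_sum {Z : Finset (Option ι → Bool → V)} (hZ : ∀ ω, ω ∈ Z ↔ Rel μ ω) {j : Option ι}
    {I : Option ι → Bool} {τ : ι → V} {E : Submodule κ (ι → V)} [Fintype E]
    {Θ : V × V × E → Option ι → Bool → V} (hP : Par μ j I τ E Θ)
    (h : (Option ι → Bool → V) → ℝ) :
    ∑ ω ∈ Z.filter (fun ω => fc ω j I = τ), h ω = ∑ p, h (Θ p) := by
  refine (sum_nbij Θ (fun p _ => ?_) hP.inj.injOn (fun ω hω => ?_) fun _ _ => rfl).symm
  · have := (hP.rng (Θ p)).mpr ⟨p, rfl⟩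
    exact mem_filter.mpr ⟨(hZ _).mpr this.1, this.2⟩
  · have h1 := mem_filter.mp (mem_coe.mp hω)
    obtain ⟨p, hp⟩ := (hP.rng ω).mp ⟨(hZ _).mp h1.1, h1.2⟩
    exact ⟨p, mem_coe.mpr (mem_univ _), hp⟩

omit [Fintype ι] in
theorem marg {ψ : (ι → V) → ℝ} (hψ : ∀ τ i, ∑ v : V, ψ (update τ i v) = 0) (τ : ι → V) (i : ι)
    {s : κ} (hs : s ≠ 0) : ∑ v : V, ψ (update τ i (τ i + s • v)) = 0 := by
  rw [← hψ τ i]
  refine Fintype.sum_bijective (fun v => τ i + s • v) ?_ _ _ fun _ => rfl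
  exact (Finite.injective_iff_bijective).mp fun a b h =>
    smul_right_injective V hs (add_left_cancel h)

theorem corr (hP : RPar) (hs : ∀ x y, μ x y = μ y x) {ψ : (ι → V) → ℝ}
    (h0 : ∀ τ, ¬Gn μ τ → ψ τ = 0) (hψ : ∀ τ i, ∑ v : V, ψ (update τ i v) = 0)
    {Z : Finset (Option ι → Bool → V)} (hZ : ∀ ω, ω ∈ Z ↔ Rel μ ω) (j : Option ι)
    (I : Option ι → Bool) (i : ι) (b : Bool) {s : κ} (hs0 : s ≠ 0) :
    ∑ ω ∈ Z, ψ (fc ω j I) * ψ (update (fc ω j I) i (fc ω j I i + s • ω j b)) = 0 := by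
  classical
  rw [fib_sum Z j I fun τ ω => ψ τ * ψ (update τ i (τ i + s • ω j b))]
  refine sum_eq_zero fun τ _ => ?_
  rw [← mul_sum]
  by_cases hG : Gn μ τ
  · obtain ⟨E, Θ, hE⟩ := hP κ V W ι μ hs j I τ hG
    let _ : Fintype E := Fintype.ofFinite E
    rw [par_sum hZ hE fun ω => ψ (update τ i (τ i + s • ω j b))]
    refine mul_eq_zero_of_right _ ?_
    cases b
    · simp only [hE.fst]
      rw [Fintype.sum_prod_type_right]
      exact sum_eq_zero fun _ _ => marg hψ τ i hs0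
    · simp only [hE.snd]
      rw [Fintype.sum_prod_type]
      refine sum_eq_zero fun _ _ => ?_
      rw [Fintype.sum_prod_type_right]
      exact sum_eq_zero fun _ _ => marg hψ τ i hs0
  · rw [h0 τ hG, zero_mul]

theorem nrm [Fintype W] (hP : RPar) (hs : ∀ x y, μ x y = μ y x) {ψ : (ι → V) → ℝ}
    (h0 : ∀ τ, ¬Gn μ τ → ψ τ = 0) {Z : Finset (Option ι → Bool → V)} (hZ : ∀ ω, ω ∈ Z ↔ Rel μ ω)
    (j : Option ι) (I : Option ι → Bool) :
    ∑ ω ∈ Z, ψ (fc ω j I) ^ 2 =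
      (Fintype.card V : ℝ) ^ (Fintype.card ι + 2) / Fintype.card W * ∑ τ, ψ τ ^ 2 := by
  classical
  rw [fib_sum Z j I fun τ _ => ψ τ ^ 2, mul_sum]
  refine sum_congr rfl fun τ _ => ?_
  by_cases hG : Gn μ τ
  · obtain ⟨E, Θ, hE⟩ := hP κ V W ι μ hs j I τ hG
    let _ : Fintype E := Fintype.ofFinite E
    rw [par_sum hZ hE fun _ => ψ τ ^ 2, sum_const, card_univ, nsmul_eq_mul]
    congr 1
    have hc := hE.crd
    simp only [Nat.card_eq_fintype_card] at hc
    have hc' : (Fintype.card E : ℝ) * Fintype.card W = (Fintype.card V : ℝ) ^ Fintype.card ι := by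
      exact_mod_cast hc
    have hW : (0 : ℝ) < Fintype.card W := by exact_mod_cast Fintype.card_pos
    rw [eq_div_iff hW.ne', Fintype.card_prod, Fintype.card_prod, pow_add, ← hc']
    push_cast
    ring
  · simp [h0 τ hG]

end

end COrth

open COrth in
theorem rOrth : RPar → ROrth := by
  classical
  intro hP κ V W ι _ _ _ _ _ _ _ _ _ _ μ hs ψ h0 hψ
  refine ⟨fun j I => nrm hP hs h0 (fun ω => by simp) j I, fun j I j' I' hI hI' hne => ?_⟩
  obtain ⟨j₁, h1, h2⟩ : ∃ j₁, j₁ ≠ j ∧ (j₁ ≠ j' → I' j₁ ≠ I j₁) := by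
    by_cases h : j' = j
    · subst h
      have : I' ≠ I := fun e => hne (by rw [e])
      obtain ⟨l, hl⟩ := Function.ne_iff.mp this
      exact ⟨l, fun e => hl (by rw [e, hI, hI']), fun _ => hl⟩
    · exact ⟨j', h, fun e => absurd rfl e⟩
  obtain ⟨i₁, hi⟩ : ∃ i₁ : ι, Equiv.swap none j (some i₁) = j₁ := by
    cases e : Equiv.swap none j j₁ with
    | none =>
      exact absurd ((Equiv.swap none j).injective (e.trans (Equiv.swap_apply_right _ _).symm)) h1
    | some i => exact ⟨i, by rw [← e, Equiv.swap_apply_self]⟩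
  refine avg (κ := κ) _ (mv j j₁ (!I' j) (I j₁)) (fun t ω hω => ?_) (mv_add _ _ h1) (mv_zero _ _)
    (fun ω => ψ (fc ω j I)) (fun ω => ψ (fc ω j' I')) (fun t ω => ?_) fun s hs0 => ?_
  · exact mem_filter.mpr ⟨mem_univ _, mv_rel _ _ μ hs h1 t ω (mem_filter.mp hω).2⟩
  · rw [mv_fix _ _ h2 (by simp)]
  · simp only [mv_fc _ hi]
    exact corr hP hs h0 hψ (fun ω => by simp) j I i₁ _ hs0

end Pool.Agent.MP_f3836a_nt.BT
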