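import Pool.Agent.MP_f3836a_nt.BT.SpecC

set_option autoImplicit false

/-! The fibre over a face: parametrisation and special points. -/

namespace Pool.Agent.MP_f3836a_nt.BT

open Function Finset

namespace CPar

variable {κ V W ι : Type} [Field κ] [AddCommGroup V] [Module κ V] [AddCommGroup W] [Module κ W]
  [DecidableEq ι] [Fintype ι] (μ : V →ₗ[κ] V →ₗ[κ] W)

/-- the point with given coordinates -/
def mk {V ι : Type} [DecidableEq ι] (j : Option ι) (I : Option ι → Bool) (τ : ι → V) (v v' : V)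
    (u : ι → V) : Option ι → Bool → V := fun l b =>
  (Equiv.swap none j l).elim (if b = true then v' else v) fun i => if b = I l then τ i else u i

theorem mk_self {V ι : Type} [DecidableEq ι] (j : Option ι) (I : Option ι → Bool) (τ : ι → V)
    (v v' : V) (u : ι → V) (b : Bool) : mk j I τ v v' u j b = if b = true then v' else v := by
  simp [mk]

theorem mk_sw {V ι : Type} [DecidableEq ι] (j : Option ι) (I : Option ι → Bool) (τ : ι → V)
    (v v' : V) (u : ι → V) (i : ι) (b : Bool) : mk j I τ v v' u (Equiv.swap none j (some i)) b =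
      if b = I (Equiv.swap none j (some i)) then τ i else u i := by
  simp [mk]

theorem cases_idx {ι : Type} [DecidableEq ι] (j l : Option ι) :
    l = j ∨ ∃ i, l = Equiv.swap none j (some i) := by
  rcases h : Equiv.swap none j l with _ | i
  · left
    rw [← Equiv.swap_apply_self none j l, h, Equiv.swap_apply_left]
  · exact Or.inr ⟨i, by rw [← h, Equiv.swap_apply_self]⟩

theorem sw_ne {ι : Type} [DecidableEq ι] (j : Option ι) (i : ι) :
    Equiv.swap none j (some i) ≠ j := fun h => by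
  have := congrArg (Equiv.swap none j) h
  simp at this

theorem fib_mk (hμ : ∀ x y, μ x y = μ y x) (j : Option ι) (I : Option ι → Bool) (τ : ι → V)
    (v v' : V) (u : ι → V) :
    Fib μ j I τ (mk j I τ v v' u) ↔ μ v v' + ∑ i, μ (τ i) (u i) = 0 := by
  have e : fc (mk j I τ v v' u) j I = τ := by
    funext i
    simp [fc, face, mk_sw]
  rw [Fib, and_iff_left e, Rel, sum_face _ j]
  have e2 : ∀ i, μ (mk j I τ v v' u (Equiv.swap none j (some i)) false)
      (mk j I τ v v' u (Equiv.swap none j (some i)) true) = μ (τ i) (u i) := fun i => by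
    rw [mk_sw, mk_sw]
    cases I (Equiv.swap none j (some i)) <;> simp [hμ (u i)]
  simp only [e2, mk_self]
  simp

omit [AddCommGroup V] [Fintype ι] in
theorem eq_mk {j : Option ι} {I : Option ι → Bool} {τ : ι → V} {ω : Option ι → Bool → V}
    (h : fc ω j I = τ) : ω = mk j I τ (ω j false) (ω j true) fun i =>
      ω (Equiv.swap none j (some i)) (!I (Equiv.swap none j (some i))) := by
  funext l b
  rcases cases_idx j l with rfl | ⟨i, rfl⟩
  · rw [mk_self]
    cases b <;> simp
  · rw [mk_sw, ← h]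
    simp only [fc, face]
    cases b <;> cases I (Equiv.swap none j (some i)) <;> simp

/-- the linear map of a tuple -/
def lin (τ : ι → V) : (ι → V) →ₗ[κ] W := ∑ i, (μ (τ i)).comp (LinearMap.proj i)

omit [DecidableEq ι] in
theorem lin_apply (τ u : ι → V) : lin μ τ u = ∑ i, μ (τ i) (u i) := by
  simp [lin]

theorem lin_single (τ : ι → V) (i : ι) (x : V) : lin μ τ (Pi.single i x) = μ (τ i) x := by
  rw [lin_apply, sum_eq_single i (fun k _ hk => by simp [hk]) (by simp), Pi.single_eq_same]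

theorem gn {τ τ' : ι → V} (hτ : Gn μ τ)
    (h : ∀ S : Submodule κ V, (∀ i, τ' i ∈ S) → ∀ i, τ i ∈ S) : Gn μ τ' := fun w => by
  have h1 := h (⨅ y, (LinearMap.range (lin μ τ')).comap (μ.flip y)) fun i =>
    (Submodule.mem_iInf _).2 fun y => ⟨Pi.single i y, lin_single μ τ' i y⟩
  obtain ⟨v, rfl⟩ := hτ w
  obtain ⟨u, hu⟩ : ∑ i, μ (τ i) (v i) ∈ LinearMap.range (lin μ τ') :=
    Submodule.sum_mem _ fun i _ => (Submodule.mem_iInf _).1 (h1 i) (v i)
  exact ⟨u, (lin_apply μ τ' u).symm.trans hu⟩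

omit [Fintype ι] in
theorem step (hμ : ∀ x y, μ x y = μ y x) {τ u : ι → V} {A : Finset ι} {a : ι} (ha : a ∉ A)
    (h : μ (∑ i ∈ A, τ i) (∑ i ∈ A, τ i) + ∑ i ∈ A, μ (τ i) (u i) = 0) :
    μ (τ a + ∑ i ∈ A, τ i) (τ a + ∑ i ∈ A, τ i) + ∑ i ∈ insert a A,
      μ (τ i) (update u a (-(τ a + (∑ i ∈ A, τ i + ∑ i ∈ A, τ i))) i) = 0 := by
  have e : ∀ x, ∑ i ∈ A, μ (τ i) (update u a x i) = ∑ i ∈ A, μ (τ i) (u i) := fun x =>
    sum_congr rfl fun i hi => by rw [update_of_ne (ne_of_mem_of_not_mem hi ha)]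
  rw [sum_insert ha, update_self, e, ← h]
  generalize ∑ i ∈ A, τ i = σ
  simp only [map_add, map_neg, LinearMap.add_apply, hμ σ (τ a)]
  abel

omit [Fintype ι] in
theorem tri (hμ : ∀ x y, μ x y = μ y x) (τ : ι → V) (A : Finset ι) : ∃ u : ι → V,
    μ (∑ i ∈ A, τ i) (∑ i ∈ A, τ i) + ∑ i ∈ A, μ (τ i) (u i) = 0 ∧
    ∀ S : Submodule κ V, (∀ i ∈ A, u i ∈ S) → ∀ i ∈ A, τ i ∈ S := by
  induction A using Finset.induction_on with
  | empty => exact ⟨0, by simp, by simp⟩
  | insert a A ha ih =>
    obtain ⟨u, h1, h2⟩ := ih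
    refine ⟨_, by rw [sum_insert ha]; exact step μ hμ ha h1, fun S hS => ?_⟩
    have h3 := h2 S fun i hi => by
      have := hS i (mem_insert_of_mem hi)
      rwa [update_of_ne (ne_of_mem_of_not_mem hi ha)] at this
    have h4 := hS a (mem_insert_self a A)
    rw [update_self, neg_mem_iff] at h4
    have h5 := S.sum_mem h3
    exact (forall_mem_insert ..).2 ⟨(S.add_mem_iff_left (S.add_mem h5 h5)).1 h4, h3⟩

theorem fib_of (hμ : ∀ x y, μ x y = μ y x) (j : Option ι) (I : Option ι → Bool) {τ u : ι → V}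
    {σ : V} {A : Finset ι} (h : μ σ σ + ∑ i ∈ A, μ (τ i) (u i) = 0) :
    Fib μ j I τ (mk j I τ σ σ fun i => if i ∈ A then u i else 0) := by
  rw [fib_mk μ hμ, ← h]
  simp only [apply_ite (μ _), map_zero, sum_ite_mem, univ_inter]

end CPar

open CPar in
theorem rPar : RPar := by
  intro κ V W ι _ _ _ _ _ _ _ _ μ hμ j I τ hτ
  have hs : Surjective (lin μ τ) := fun w => (hτ w).imp fun v hv => (lin_apply μ τ v).trans hv
  obtain ⟨s, hs'⟩ := (lin μ τ).exists_rightInverse_of_surjective (LinearMap.range_eq_top.2 hs)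
  have hs2 : ∀ w, lin μ τ (s w) = w := fun w => LinearMap.congr_fun hs' w
  refine ⟨LinearMap.ker (lin μ τ), fun p => mk j I τ p.1 p.2.1 (s (-μ p.1 p.2.1) + p.2.2), ?_, ?_,
    fun p => by simp [mk_self], fun p => by simp [mk_self], ?_, ?_⟩
  · rintro ⟨v, v', e⟩ ⟨w, w', e'⟩ h
    obtain rfl : v = w := by simpa [mk_self] using congrFun (congrFun h j) false
    obtain rfl : v' = w' := by simpa [mk_self] using congrFun (congrFun h j) true
    obtain rfl : e = e' := Subtype.ext (funext fun i => by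
      simpa [mk_sw] using congrFun (congrFun h (Equiv.swap none j (some i)))
        (!I (Equiv.swap none j (some i))))
    rfl
  · refine fun ω => ⟨fun h => ?_, ?_⟩
    · have e := eq_mk h.2
      rw [e, fib_mk μ hμ, ← lin_apply] at h
      refine ⟨(ω j false, ω j true, ⟨(fun i => ω (Equiv.swap none j (some i))
        (!I (Equiv.swap none j (some i)))) - s (-μ (ω j false) (ω j true)), ?_⟩), ?_⟩
      · rw [LinearMap.mem_ker, map_sub, hs2, sub_neg_eq_add, add_comm, h]
      · simp only [add_sub_cancel]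
        exact e.symm
    · rintro ⟨p, rfl⟩
      rw [fib_mk μ hμ, ← lin_apply, map_add, hs2, LinearMap.mem_ker.1 p.2.2.2]
      simp
  · rw [← Nat.card_congr ((lin μ τ).quotKerEquivOfSurjective hs).toEquiv,
      ← Submodule.card_eq_card_quotient_mul_card, Nat.card_fun, Nat.card_eq_fintype_card (α := ι)]
  · rintro ⟨v, v', e⟩ ⟨w, w', e'⟩
    refine ⟨mk j I 0 w w' (s (-(μ v w' + μ w v')) + e'), mk j I 0 0 0 (s (-μ w w')),
      fun t => ?_⟩
    funext l b
    rcases cases_idx j l with rfl | ⟨i, rfl⟩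
    · cases b <;> simp [mk_self]
    · simp only [Pi.add_apply, Pi.smul_apply, mk_sw]
      split_ifs
      · simp
      · simp only [Prod.fst_add, Prod.snd_add, Prod.smul_fst, Prod.smul_snd, map_add, map_smul,
          map_neg, LinearMap.add_apply, LinearMap.smul_apply, Submodule.coe_add,
          Submodule.coe_smul, Pi.add_apply, Pi.smul_apply, Pi.neg_apply]
        module

open CPar in
theorem rSpec : RSpec := by
  intro κ V W ι _ _ _ _ _ _ _ _ μ hμ j I τ hτ hz
  refine ⟨fun j' I' => ?_, fun j' b => ?_⟩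
  · have ent : ∀ (ω : Option ι → Bool → V) (S : Submodule κ V), (∀ i, fc ω j' I' i ∈ S) →
        ∀ l, l ≠ j' → ω l (I' l) ∈ S := fun ω S h l hl => by
      rcases cases_idx j' l with e | ⟨i, rfl⟩
      · exact absurd e hl
      · exact h i
    obtain ⟨A, hA⟩ : ∃ A : Finset ι, ∀ i, i ∈ A ↔ Equiv.swap none j (some i) ≠ j' ∧
        I' (Equiv.swap none j (some i)) ≠ I (Equiv.swap none j (some i)) :=
      ⟨univ.filter _, fun i => mem_filter.trans (and_iff_right (mem_univ i))⟩
    obtain ⟨u, h1, h2⟩ := tri μ hμ τ A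
    have key : ∀ (σ : V) (u' : ι → V) (S : Submodule κ V), (∀ i ∈ A, u' i = u i) →
        (∀ i, fc (mk j I τ σ σ u') j' I' i ∈ S) →
        ∀ i, Equiv.swap none j (some i) ≠ j' → τ i ∈ S := fun σ u' S hu h i hi => by
      by_cases e : i ∈ A
      · refine h2 S (fun k hk => ?_) i e
        have := ent _ S h _ ((hA k).1 hk).1
        rwa [mk_sw, if_neg ((hA k).1 hk).2, hu k hk] at this
      · have := ent _ S h _ hi
        rwa [mk_sw, if_pos (by_contra fun e' => e ((hA i).2 ⟨hi, e'⟩))] at this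
    rcases cases_idx j j' with rfl | ⟨a, rfl⟩
    · exact ⟨_, fib_of μ hμ j' I h1, gn μ hτ fun S s1 i =>
        key _ _ S (fun k hk => if_pos hk) s1 i (sw_ne _ i)⟩
    · have ha : a ∉ A := fun h => ((hA a).1 h).1 rfl
      refine ⟨_, fib_of μ hμ j I (step μ hμ ha h1), gn μ hτ fun S s1 i => ?_⟩
      have k1 := fun h => key _ _ S h s1
      replace k1 := k1 fun k hk => by
        rw [if_pos (mem_insert_of_mem hk), update_of_ne (ne_of_mem_of_not_mem hk ha)]
      by_cases e : i = a
      · have k2 := ent _ S s1 j (sw_ne j a).symm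
        rw [mk_self, ite_self] at k2
        rw [e]
        exact (S.add_mem_iff_left (S.sum_mem fun k hk => k1 k ((hA k).1 hk).1)).1 k2
      · exact k1 i fun h => e (Option.some.inj ((Equiv.swap none j).injective h))
  · have h : ∀ i, Fib μ j I τ (mk j I τ (τ i) (τ i) (Pi.single i (-τ i))) := fun i => by
      rw [fib_mk μ hμ, ← lin_apply, lin_single]
      simp
    rcases cases_idx j j' with rfl | ⟨a, rfl⟩
    · refine ⟨_, h (Classical.arbitrary ι), ?_⟩
      rw [mk_self, ite_self]
      exact hz _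
    · refine ⟨_, h a, ?_⟩
      rw [mk_sw, Pi.single_eq_same]
      split_ifs
      · exact hz a
      · exact neg_ne_zero.2 (hz a)

end Pool.Agent.MP_f3836a_nt.BT
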