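import Pool.Agent.MP_f3836a_nt.BT.SpecC

set_option autoImplicit false

/-! Removal of the coboundary part, and almost orthogonal functions. -/

namespace Pool.Agent.MP_f3836a_nt.BT

open Function Finset

namespace CProj

variable {V ι : Type} [DecidableEq ι]

/-- alternating functions -/
def Alt (u : (ι → V) → ℝ) : Prop := ∀ τ i j, i ≠ j → u (τ ∘ Equiv.swap i j) = -u τ

theorem upd_swap (τ : ι → V) (i j l : ι) (v : V) :
    update (τ ∘ Equiv.swap i j) l v = update τ (Equiv.swap i j l) v ∘ Equiv.swap i j := by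
  funext k
  by_cases h : k = l
  · subst h
    simp
  · have h' : Equiv.swap i j k ≠ Equiv.swap i j l := fun e => h ((Equiv.swap i j).injective e)
    simp [update_of_ne h, update_of_ne h']

variable [Fintype ι]

/-- the cone over zero -/
def cg [Zero V] (u : (ι → V) → ℝ) (τ : ι → V) : ℝ := ∑ i, u (update τ i 0)

theorem cg_alt [Zero V] {u : (ι → V) → ℝ} (hu : Alt u) : Alt (cg u) := by
  intro τ i j hij
  unfold cg
  rw [← sum_neg_distrib, ← Equiv.sum_comp (Equiv.swap i j) fun l => -u (update τ l 0)]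
  exact sum_congr rfl fun l _ => by rw [upd_swap, hu _ i j hij]

theorem del_cg [Zero V] {u : (ι → V) → ℝ} (hu : Alt u) (T : Option ι → V) : del (cg u) T = 0 := by
  unfold del
  rw [Fintype.sum_option, face_none]
  simp only [face_some, sg, one_mul, neg_one_mul]
  obtain ⟨τ, hτ⟩ : ∃ τ : ι → V, τ = fun i => T (some i) := ⟨_, rfl⟩
  rw [← hτ]
  obtain ⟨F, hF⟩ : ∃ F : ι → ι → ℝ,
      F = fun i l => if l = i then 0 else u (update (update τ i (T none)) l 0) := ⟨_, rfl⟩
  have h1 : ∀ i, cg u (update τ i (T none)) = u (update τ i 0) + ∑ l, F i l := by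
    intro i
    have h2 : ∀ l, u (update (update τ i (T none)) l 0) =
        (if l = i then u (update τ i 0) else 0) + F i l := by
      intro l
      rw [hF]
      by_cases h : l = i
      · subst h
        simp
      · simp [h]
    unfold cg
    rw [sum_congr rfl fun l _ => h2 l, sum_add_distrib, sum_ite_eq', if_pos (mem_univ _)]
  have h3 : ∀ i l, F i l = -F l i := by
    intro i l
    rw [hF]
    by_cases h : l = i
    · simp [h]
    · have h' : ¬ i = l := fun e => h e.symm
      simp only [h, h', if_false]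
      rw [← hu _ i l h']
      congr 1
      funext k
      by_cases h4 : k = l
      · subst h4
        simp
      · by_cases h5 : k = i
        · subst h5
          simp [update_of_ne h4, update_of_ne h]
        · simp [Equiv.swap_apply_of_ne_of_ne h5 h4, update_of_ne h4, update_of_ne h5]
  have h4 : ∑ i, ∑ l, F i l = 0 := by
    have h5 : ∑ i, ∑ l, F i l = -∑ i, ∑ l, F i l := by
      conv_lhs => rw [sum_comm]
      rw [← sum_neg_distrib]
      refine sum_congr rfl fun i _ => ?_
      rw [← sum_neg_distrib]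
      exact sum_congr rfl fun l _ => h3 l i
    linarith
  rw [sum_neg_distrib, sum_congr rfl fun i _ => h1 i, sum_add_distrib, h4]
  unfold cg
  ring

theorem sum_upd [Fintype V] (F : (ι → V) → ℝ) (i : ι) :
    ∑ τ : ι → V, ∑ v : V, F (update τ i v) = Fintype.card V * ∑ τ, F τ := by
  have hinv : Involutive fun p : (ι → V) × V => (update p.1 i p.2, p.1 i) := by
    rintro ⟨τ, v⟩
    simp
  have h1 := Equiv.sum_comp hinv.toPerm fun p : (ι → V) × V => F p.1
  rw [Fintype.sum_prod_type, Fintype.sum_prod_type] at h1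
  simp only [Involutive.coe_toPerm, sum_const, card_univ, nsmul_eq_mul] at h1
  rw [h1, mul_sum]

open Classical in
/-- the cones restricted to `G` -/
def sub [Fintype V] [Zero V] (G : (ι → V) → Prop) : Submodule ℝ (EuclideanSpace ℝ (ι → V)) where
  carrier := {x | ∃ u, Alt u ∧ ∀ τ, x τ = if G τ then cg u τ else 0}
  add_mem' := by
    rintro x y ⟨u, hu, hx⟩ ⟨w, hw, hy⟩
    refine ⟨fun τ => u τ + w τ, fun τ i j hij => ?_, fun τ => ?_⟩
    · simp only [hu τ i j hij, hw τ i j hij, neg_add]
    · rw [PiLp.add_apply, hx, hy]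
      unfold cg
      split_ifs
      · rw [sum_add_distrib]
      · rw [add_zero]
  zero_mem' := ⟨fun _ => 0, fun _ _ _ _ => by simp, fun τ => by simp [cg]⟩
  smul_mem' := by
    rintro c x ⟨u, hu, hx⟩
    refine ⟨fun τ => c * u τ, fun τ i j hij => ?_, fun τ => ?_⟩
    · simp only [hu τ i j hij, mul_neg]
    · rw [PiLp.smul_apply, hx, smul_eq_mul]
      unfold cg
      split_ifs
      · rw [mul_sum]
      · rw [mul_zero]

end CProj

open CProj in
theorem rProj : RProj := by
  intro V ι _ _ _ _ G φ hG hGs hφ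
  classical
  obtain ⟨y, ⟨u, hu, hy⟩, z, hz, hyz⟩ := (sub G).exists_add_mem_mem_orthogonal
    (WithLp.toLp 2 fun τ => if G τ then φ τ else 0)
  obtain ⟨ψ, hψ⟩ : ∃ ψ : (ι → V) → ℝ, ψ = fun τ => z τ := ⟨_, rfl⟩
  have h0 : ∀ τ, (if G τ then φ τ else 0) = (if G τ then cg u τ else 0) + ψ τ := by
    intro τ
    have h := congrArg (fun x : EuclideanSpace ℝ (ι → V) => x τ) hyz
    simp only [PiLp.add_apply] at h
    rw [hy] at h
    rw [hψ]
    convert h
  have h1 : ∀ τ, ¬G τ → ψ τ = 0 := fun τ h => by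
    have := h0 τ
    simp only [h, if_false] at this
    linarith
  have h2 : ∀ τ, G τ → φ τ = cg u τ + ψ τ := fun τ h => by
    simpa only [h, if_true] using h0 τ
  have h3 : Alt ψ := by
    intro τ i j hij
    by_cases h : G τ
    · have a1 := h2 τ h
      have a2 := h2 _ (hGs τ i j h)
      rw [hφ τ i j hij h, cg_alt hu τ i j hij] at a2
      linarith
    · have h' : ¬G (τ ∘ Equiv.swap i j) := fun e => h (by
        have := hGs _ i j e
        rwa [comp_assoc, ← Equiv.coe_trans, Equiv.swap_swap, Equiv.coe_refl, comp_id] at this)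
      rw [h1 _ h, h1 _ h', neg_zero]
  have h4 : ∀ w, Alt w → ∑ τ, ψ τ * cg w τ = 0 := by
    intro w hw
    have a1 := (Submodule.mem_orthogonal _ _).1 hz
      (WithLp.toLp 2 fun τ => if G τ then cg w τ else 0) ⟨w, hw, fun τ => by congr⟩
    rw [PiLp.inner_apply] at a1
    rw [← a1]
    refine sum_congr rfl fun τ _ => ?_
    by_cases h : G τ
    · simp [h, hψ]
    · simp [h, h1 τ h]
  obtain ⟨M, hM⟩ : ∃ M : ι → (ι → V) → ℝ, M = fun i τ => ∑ v : V, ψ (update τ i v) := ⟨_, rfl⟩
  have m1 : ∀ i τ v, M i (update τ i v) = M i τ := fun i τ v => by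
    simp only [hM, update_idem]
  have m2 : Alt fun ρ => ∑ i, if ρ i = 0 then M i ρ else 0 := by
    intro ρ a b hab
    show (∑ i, if ρ (Equiv.swap a b i) = 0 then M i (ρ ∘ Equiv.swap a b) else 0) =
      -∑ i, if ρ i = 0 then M i ρ else 0
    rw [← sum_neg_distrib,
      ← Equiv.sum_comp (Equiv.swap a b) fun i => -(if ρ i = 0 then M i ρ else 0)]
    refine sum_congr rfl fun i _ => ?_
    split_ifs
    · simp only [hM]
      rw [← sum_neg_distrib]
      exact sum_congr rfl fun v _ => by rw [upd_swap, h3 _ a b hab]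
    · rw [neg_zero]
  have m3 : ∀ τ, ψ τ * cg (fun ρ => ∑ i, if ρ i = 0 then M i ρ else 0) τ = ∑ i, ψ τ * M i τ := by
    intro τ
    by_cases h : G τ
    · rw [← mul_sum]
      congr 1
      refine sum_congr rfl fun i _ => ?_
      show (∑ l, if update τ i 0 l = 0 then M l (update τ i 0) else 0) = M i τ
      rw [sum_eq_single i, update_self, if_pos rfl, m1]
      · intro l _ hl
        rw [update_of_ne hl, if_neg (hG τ h l)]
      · intro e
        exact absurd (mem_univ i) e
    · simp [h1 τ h]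
  have m4 : ∑ i, ∑ τ, M i τ ^ 2 = 0 := by
    have a1 := h4 _ m2
    rw [sum_congr rfl fun τ _ => m3 τ, sum_comm] at a1
    have a2 : ∀ i, ∑ τ, M i τ ^ 2 = Fintype.card V * ∑ τ, ψ τ * M i τ := by
      intro i
      rw [← sum_upd (fun τ => ψ τ * M i τ) i]
      refine sum_congr rfl fun τ _ => ?_
      simp only [m1]
      rw [← sum_mul, sq]
      congr 1
      rw [hM]
    rw [sum_congr rfl fun i _ => a2 i, ← mul_sum, a1, mul_zero]
  refine ⟨ψ, h1, fun τ i => ?_, fun T hT => ?_⟩
  · have a1 := (sum_eq_zero_iff_of_nonneg fun i _ => sum_nonneg fun τ _ => sq_nonneg (M i τ)).1 m4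
      i (mem_univ i)
    have a2 := (sum_eq_zero_iff_of_nonneg fun τ _ => sq_nonneg (M i τ)).1 a1 τ (mem_univ τ)
    have a3 := pow_eq_zero_iff two_ne_zero |>.1 a2
    rw [hM] at a3
    exact a3
  · have a1 := del_cg hu T
    unfold del at a1 ⊢
    rw [sum_congr rfl fun j _ => by rw [h2 _ (hT j), mul_add], sum_add_distrib, a1, zero_add]

theorem rFin : RFin := by
  intro X A _ _ Z Z' f s N ε η hZ hs hε hη hN ho hZ' hrel hc
  classical
  have hN0 : 0 ≤ N := by
    rw [← hN (Classical.arbitrary A)]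
    exact sum_nonneg fun ω _ => sq_nonneg _
  obtain ⟨n, hn⟩ : ∃ n : ℝ, n = Fintype.card A := ⟨_, rfl⟩
  have hn0 : 0 < n := by rw [hn]; exact_mod_cast Fintype.card_pos
  have hs2 : ∀ a, s a ^ 2 = 1 := fun a => by rcases hs a with h | h <;> simp [h]
  have h1 : ∑ ω ∈ Z', (∑ a, s a * f a ω) ^ 2 = ∑ ω ∈ Z, (∑ a, s a * f a ω) ^ 2 :=
    sum_subset hZ fun ω h h' => by rw [hrel ω h h']; simp
  have h2 : ∑ ω ∈ Z', (∑ a, s a * f a ω) ^ 2 ≤ n * (n * (η * N)) := by
    calc _ ≤ ∑ ω ∈ Z', n * ∑ a, f a ω ^ 2 := by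
          refine sum_le_sum fun ω _ => ?_
          have := sq_sum_le_card_mul_sum_sq (s := (univ : Finset A)) (f := fun a => s a * f a ω)
          rw [card_univ, ← hn] at this
          simpa only [mul_pow, hs2, one_mul] using this
      _ = n * ∑ a, ∑ ω ∈ Z', f a ω ^ 2 := by rw [← mul_sum, sum_comm]
      _ ≤ n * ∑ _a : A, η * N :=
          mul_le_mul_of_nonneg_left (sum_le_sum fun a _ => hZ' a) hn0.le
      _ = _ := by rw [sum_const, card_univ, nsmul_eq_mul, ← hn]
  have h3 : n * N - n * (n * (ε * N)) ≤ ∑ ω ∈ Z, (∑ a, s a * f a ω) ^ 2 := by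
    have e1 : ∑ ω ∈ Z, (∑ a, s a * f a ω) ^ 2 =
        ∑ a, ∑ b, s a * s b * ∑ ω ∈ Z, f a ω * f b ω := by
      simp only [sq, sum_mul_sum]
      simp only [mul_sum]
      rw [sum_comm]
      refine sum_congr rfl fun a _ => ?_
      rw [sum_comm]
      exact sum_congr rfl fun b _ => sum_congr rfl fun ω _ => by ring
    have e2 : ∀ a b, (if b = a then N else 0) - ε * N ≤ s a * s b * ∑ ω ∈ Z, f a ω * f b ω := by
      intro a b
      by_cases h : b = a
      · subst h
        simp only [if_true, ← sq, hs2, hN, one_mul]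
        nlinarith
      · rw [if_neg h]
        have a1 := abs_le.1 (ho a b fun e => h e.symm)
        rcases hs a with h1 | h1 <;> rcases hs b with h2 | h2 <;> rw [h1, h2] <;> linarith
    rw [e1]
    refine le_trans (le_of_eq ?_) (sum_le_sum fun a _ => sum_le_sum fun b _ => e2 a b)
    simp only [sum_sub_distrib, sum_ite_eq', mem_univ, if_true, sum_const, card_univ, nsmul_eq_mul,
      ← hn]
  rw [← hn] at hc
  have h4 : n * (N * (1 - n * (ε + η))) ≤ 0 := by nlinarith
  have h5 : N * (1 - n * (ε + η)) ≤ 0 := by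
    by_contra h
    exact absurd h4 (not_le.2 (mul_pos hn0 (not_le.1 h)))
  by_contra h
  have h6 : 0 < N := lt_of_le_of_ne hN0 (Ne.symm h)
  exact absurd h5 (not_le.2 (mul_pos h6 (by linarith)))

end Pool.Agent.MP_f3836a_nt.BT
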