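import Pool.Agent.MP_f3836a_nt.BT.ABas
import Pool.Agent.MP_f3836a_nt.BT.AAdj
import Pool.Agent.MP_f3836a_nt.BT.AWg
import Pool.Agent.MP_f3836a_nt.BT.AMa
import Pool.Agent.MP_f3836a_nt.BT.ARec
import Pool.Agent.MP_f3836a_nt.BT.ATr
import Pool.Agent.MP_f3836a_nt.BT.ADep
import Pool.Agent.MP_f3836a_nt.BT.AId
import Pool.Agent.MP_f3836a_nt.BT.CProj
import Pool.Agent.MP_f3836a_nt.BT.CPar
import Pool.Agent.MP_f3836a_nt.BT.COrth
import Pool.Agent.MP_f3836a_nt.BT.CDet
import Pool.Agent.MP_f3836a_nt.BT.CDead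
import Pool.Agent.MP_f3836a_nt.BT.CCore
import Pool.Agent.MP_f3836a_nt.BT.CK

set_option autoImplicit false

namespace Pool.Agent.MP_f3836a_nt.BT

theorem wgA : RWg := rWg rBas

theorem trA : RTr := rTr rBas (rStep (rMa rBas) (rRec wgA rVS (rMa rBas) (rMb rBas)))

theorem depA : RDep := rDep rBas

theorem ratA : RRat := rRat rBas depA

theorem idA : RId := rId rBas wgA rVS

theorem coreA : RCore := rCore rProj rFin rPar (rOrth rPar) (rDead rPar rSpec rDet rCnt)

theorem coreKA : RCoreK := rCoreK rBas idA coreA rFF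

theorem finalA : MainT → Final := rFinal trA (rBr rAdj)

end Pool.Agent.MP_f3836a_nt.BT
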