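import Pool.Agent.MP_f3836a_nt.BT.SpecC

set_option autoImplicit false

/-! Few points of a fibre are dead. -/

namespace Pool.Agent.MP_f3836a_nt.BT

open Function Finset

namespace CDead

theorem union_le {X A : Type} [Finite X] [Fintype A] (B : A → Set X) (c M : ℕ)
    (h : ∀ a, c * (B a).ncard ≤ M) : c * (⋃ a, B a).ncard ≤ Fintype.card A * M := by
  refine (Nat.mul_le_mul_left c (Set.ncard_iUnion_le_of_fintype B)).trans ?_
  rw [mul_sum]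
  exact (sum_le_card_nsmul _ _ M fun a _ => h a).trans (by rw [card_univ, smul_eq_mul])

theorem one {κ E X : Type} [Field κ] [Finite κ] [AddCommGroup E] [Module κ E] [Finite E]
    (hC : RCnt) {Θ : E → X} (hi : Injective Θ) {F : X → Prop} (hr : ∀ ω, F ω ↔ ∃ p, Θ p = ω)
    (P : X → Prop) (p : E) (D : ℕ) (h : ∀ p', {t : κ | P (Θ (p + t • p'))}.ncard ≤ D) :
    (Nat.card κ - 1) * {ω | F ω ∧ P ω}.ncard ≤ D * {ω | F ω}.ncard := by
  have e1 : {ω | F ω ∧ P ω} = Θ '' {q | P (Θ q)} := by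
    ext ω
    constructor
    · rintro ⟨h1, h2⟩
      obtain ⟨q, rfl⟩ := (hr ω).1 h1
      exact ⟨q, h2, rfl⟩
    · rintro ⟨q, h2, rfl⟩
      exact ⟨(hr _).2 ⟨q, rfl⟩, h2⟩
  have e2 : {ω | F ω} = Θ '' Set.univ := by
    ext ω
    simp [hr]
  rw [e1, e2, Set.ncard_image_of_injective _ hi, Set.ncard_image_of_injective _ hi,
    Set.ncard_univ]
  exact hC κ E _ p D h

end CDead

theorem rDead : RPar → RSpec → RDet → RCnt → RDead := by
  intro hP hS hD hC κ V W ι _ _ _ _ _ _ _ _ _ _ _ μ hs j I τ hG hN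
  obtain ⟨E, Θ, hΘ⟩ := hP κ V W ι μ hs j I τ hG
  obtain ⟨s1, s2⟩ := hS κ V W ι μ hs j I τ hG hN
  obtain ⟨d1, d2⟩ := hD κ V W ι μ
  set M := (2 * Module.finrank κ W + 2) * {ω | Fib μ j I τ ω}.ncard with hM
  have a1 : ∀ a : Option ι × (Option ι → Bool),
      (Nat.card κ - 1) * {ω | Fib μ j I τ ω ∧ ¬Gn μ (fc ω a.1 a.2)}.ncard ≤ M := fun a => by
    obtain ⟨ω, h1, h2⟩ := s1 a.1 a.2
    obtain ⟨p, rfl⟩ := (hΘ.rng ω).1 h1
    refine CDead.one hC hΘ.inj hΘ.rng (fun ω => ¬Gn μ (fc ω a.1 a.2)) p _ fun p' => ?_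
    obtain ⟨ω₁, ω₂, h⟩ := hΘ.quad p p'
    simp only [h]
    exact (d1 (fc (Θ p) a.1 a.2) (fc ω₁ a.1 a.2) (fc ω₂ a.1 a.2) h2).trans (Nat.le_add_right _ _)
  have a2 : ∀ a : Option ι × Bool,
      (Nat.card κ - 1) * {ω | Fib μ j I τ ω ∧ ω a.1 a.2 = 0}.ncard ≤ M := fun a => by
    obtain ⟨ω, h1, h2⟩ := s2 a.1 a.2
    obtain ⟨p, rfl⟩ := (hΘ.rng ω).1 h1
    refine CDead.one hC hΘ.inj hΘ.rng (fun ω => ω a.1 a.2 = 0) p _ fun p' => ?_
    obtain ⟨ω₁, ω₂, h⟩ := hΘ.quad p p'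
    simp only [h]
    exact (d2 (Θ p a.1 a.2) (ω₁ a.1 a.2) (ω₂ a.1 a.2) h2).trans (Nat.le_add_left _ _)
  have b1 := CDead.union_le _ _ _ a1
  have b2 := CDead.union_le _ _ _ a2
  have hsub : {ω | Fib μ j I τ ω ∧ ¬Alive μ ω} ⊆
      (⋃ a : Option ι × (Option ι → Bool), {ω | Fib μ j I τ ω ∧ ¬Gn μ (fc ω a.1 a.2)}) ∪
        ⋃ a : Option ι × Bool, {ω | Fib μ j I τ ω ∧ ω a.1 a.2 = 0} := by
    rintro ω ⟨h1, h2⟩
    by_contra hc
    simp only [Set.mem_union, Set.mem_iUnion, Set.mem_ofPred_eq, not_or, not_exists, not_and,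
      not_not] at hc
    exact h2 ⟨fun j' b => hc.2 (j', b) h1, fun j' I' => hc.1 (j', I') h1⟩
  have c1 := (Set.ncard_le_ncard hsub).trans (Set.ncard_union_le _ _)
  refine (Nat.mul_le_mul_left _ c1).trans ?_
  rw [mul_add]
  refine (add_le_add b1 b2).trans (le_of_eq ?_)
  simp only [Fintype.card_prod, Fintype.card_option, Fintype.card_fun, Fintype.card_bool, hM]
  ring

end Pool.Agent.MP_f3836a_nt.BT
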