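import Mathlib

set_option autoImplicit false

namespace Pool.Agent.MP_f3836a_nt.BT

/-- The `n`-th tensor power over the integers of the multiplicative group of `F`. -/
abbrev TP (F : Type) [Field F] (n : ℕ) : Type := PiTensorProduct ℤ fun _ : Fin n => Additive Fˣ

/-- The subgroup generated by the pure tensors with two neighbouring entries of sum one. -/
def stein (F : Type) [Field F] (n : ℕ) : AddSubgroup (TP F n) :=
  AddSubgroup.closure {x | ∃ (a : Fin n → Fˣ) (i j : Fin n), (j : ℕ) = i + 1 ∧
    (a i : F) + a j = 1 ∧ x = PiTensorProduct.tprod ℤ fun l => Additive.ofMul (a l)}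

/-- The Milnor group `K_n^M(F)`. -/
abbrev KM (F : Type) [Field F] (n : ℕ) : Type := TP F n ⧸ stein F n

end Pool.Agent.MP_f3836a_nt.BT
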