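import Pool.Agent.MP_f3836a_nt.BT.SpecG

set_option autoImplicit false

/-! Projection from a point. -/

namespace Pool.Agent.MP_f3836a_nt.BT

namespace GA1

variable {k Ω : Type} [Field k] [Field Ω] [Algebra k Ω] {V : Submodule k Ω} {l : Ω}

theorem mul_mem {m n : ℕ} {x y : Ω} (hx : x ∈ V ^ m) (hy : y ∈ V ^ n) : x * y ∈ V ^ (m + n) :=
  pow_add V m n ▸ Submodule.mul_mem_mul hx hy

theorem one_mem : (1 : Ω) ∈ V ^ 0 := by
  rw [pow_zero]; exact Submodule.mem_one.2 ⟨1, map_one _⟩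

theorem frac {x : Ω} (hx : x ∈ RatF V) : ∃ (n : ℕ) (s : Ω), s ∈ V ^ n ∧ s ≠ 0 ∧ x * s ∈ V ^ n := by
  have z : ∃ (n : ℕ) (s : Ω), s ∈ V ^ n ∧ s ≠ 0 ∧ 0 * s ∈ V ^ n :=
    ⟨0, 1, one_mem, one_ne_zero, by rw [zero_mul]; exact zero_mem _⟩
  induction hx using IntermediateField.adjoin_induction with
  | mem x hx =>
    obtain ⟨a, ha, b, hb, rfl⟩ := hx
    by_cases h : b = 0
    · rwa [h, div_zero]
    · exact ⟨1, b, by rwa [pow_one], h, by rwa [pow_one, div_mul_cancel₀ _ h]⟩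
  | algebraMap c =>
    exact ⟨0, 1, one_mem, one_ne_zero, by rw [← Algebra.smul_def]; exact (V ^ 0).smul_mem c one_mem⟩
  | add x y _ _ hx hy =>
    obtain ⟨n, s, a1, a2, a3⟩ := hx
    obtain ⟨n', s', b1, b2, b3⟩ := hy
    refine ⟨n + n', s * s', mul_mem a1 b1, mul_ne_zero a2 b2, ?_⟩
    rw [show (x + y) * (s * s') = x * s * s' + s * (y * s') by ring]
    exact add_mem (mul_mem a3 b1) (mul_mem a1 b3)
  | inv x _ hx =>
    obtain ⟨n, s, a1, a2, a3⟩ := hx
    by_cases h : x = 0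
    · rwa [h, inv_zero]
    · exact ⟨n, x * s, a3, mul_ne_zero h a2, by rwa [inv_mul_cancel_left₀ h]⟩
  | mul x y _ _ hx hy =>
    obtain ⟨n, s, a1, a2, a3⟩ := hx
    obtain ⟨n', s', b1, b2, b3⟩ := hy
    refine ⟨n + n', s * s', mul_mem a1 b1, mul_ne_zero a2 b2, ?_⟩
    rw [mul_mul_mul_comm]
    exact mul_mem a3 b3

theorem den {ι : Type} (b : ι → Ω) (hb : ∀ i, b i ∈ RatF V) (S : Finset ι) :
    ∃ (n : ℕ) (s : Ω), s ∈ V ^ n ∧ s ≠ 0 ∧ ∀ i ∈ S, b i * s ∈ V ^ n := by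
  classical
  induction S using Finset.induction_on with
  | empty => exact ⟨0, 1, one_mem, one_ne_zero, by simp⟩
  | insert j S _ ih =>
    obtain ⟨n, s, a1, a2, a3⟩ := ih
    obtain ⟨n', s', b1, b2, b3⟩ := frac (hb j)
    refine ⟨n + n', s * s', mul_mem a1 b1, mul_ne_zero a2 b2, fun i hi => ?_⟩
    rcases Finset.mem_insert.1 hi with rfl | hi
    · rw [mul_left_comm]; exact mul_mem a1 b3
    · rw [← mul_assoc]; exact mul_mem (a3 i hi) b1

theorem div_mem (S : Subalgebra k Ω) (h : ∀ a ∈ V, a / l ∈ S) {n : ℕ} {w : Ω} (hw : w ∈ V ^ n) :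
    w / l ^ n ∈ S := by
  induction hw using Submodule.pow_induction_on_left' with
  | algebraMap c => simp
  | add x y i _ _ hx hy => rw [add_div]; exact add_mem hx hy
  | mem_mul m hm i x _ hx =>
    rw [pow_succ', mul_div_mul_comm]; exact S.mul_mem (h m hm) hx

theorem gen_mem {a : Ω} (ha : a ∈ V) : a / l ∈ Chart V l := Algebra.subset_adjoin ⟨a, ha, rfl⟩

/-- division by a power of `l` -/
noncomputable def dv (V : Submodule k Ω) (l : Ω) (n : ℕ) :
    (V ^ n : Submodule k Ω) →ₗ[k] Chart V l where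
  toFun w := ⟨w / l ^ n, div_mem _ (fun _ => gen_mem) w.2⟩
  map_add' _ _ := Subtype.ext (add_div _ _ _)
  map_smul' c _ := Subtype.ext (smul_div_assoc c _ _)

theorem dv_mul {m n : ℕ} {x y : Ω} (hx : x ∈ V ^ m) (hy : y ∈ V ^ n) :
    dv V l (m + n) ⟨x * y, mul_mem hx hy⟩ = dv V l m ⟨x, hx⟩ * dv V l n ⟨y, hy⟩ :=
  Subtype.ext (by
    change x * y / l ^ (m + n) = x / l ^ m * (y / l ^ n)
    rw [pow_add, mul_div_mul_comm])

theorem onto (hl : l ∈ V) (h0 : l ≠ 0) (χ : Chart V l →ₐ[k] k) (t : ℕ) (r : Chart V l) :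
    ∃ w, r - dv V l t w ∈ RingHom.ker χ ^ t := by
  induction t generalizing r with
  | zero => exact ⟨0, by simp⟩
  | succ t ih =>
    have sm : ∀ (c : k) (r : Chart V l), (∃ w, r - dv V l (t + 1) w ∈ RingHom.ker χ ^ (t + 1)) →
        ∃ w, algebraMap k _ c * r - dv V l (t + 1) w ∈ RingHom.ker χ ^ (t + 1) := by
      rintro c r ⟨w, hw⟩
      exact ⟨c • w, by rw [map_smul, Algebra.smul_def, ← mul_sub]; exact Ideal.mul_mem_left _ _ hw⟩
    have ad : ∀ r r' : Chart V l, (∃ w, r - dv V l (t + 1) w ∈ RingHom.ker χ ^ (t + 1)) →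
        (∃ w, r' - dv V l (t + 1) w ∈ RingHom.ker χ ^ (t + 1)) →
        ∃ w, r + r' - dv V l (t + 1) w ∈ RingHom.ker χ ^ (t + 1) := by
      rintro r r' ⟨w, hw⟩ ⟨w', hw'⟩
      exact ⟨w + w', by rw [map_add, add_sub_add_comm]; exact add_mem hw hw'⟩
    obtain ⟨x, hx⟩ := r
    suffices h : ∀ r : Chart V l, (∃ w, r - dv V l (t + 1) w ∈ RingHom.ker χ ^ (t + 1)) →
        ∃ w, ⟨x, hx⟩ * r - dv V l (t + 1) w ∈ RingHom.ker χ ^ (t + 1) by
      rw [← mul_one (⟨x, hx⟩ : Chart V l)]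
      refine h 1 ⟨⟨l ^ (t + 1), Submodule.pow_mem_pow V hl _⟩, ?_⟩
      rw [show dv V l (t + 1) ⟨l ^ (t + 1), Submodule.pow_mem_pow V hl _⟩ = 1 from
        Subtype.ext (div_self (pow_ne_zero _ h0)), sub_self]
      exact zero_mem _
    induction hx using Algebra.adjoin_induction with
    | mem x hx =>
      obtain ⟨a, ha, rfl⟩ := hx
      intro r hr
      obtain ⟨w, hw⟩ := ih r
      set c := χ ⟨a / l, gen_mem ha⟩ with hc
      have h1 : a - c • l ∈ V ^ 1 := by rw [pow_one]; exact sub_mem ha (V.smul_mem c hl)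
      have h2 : (⟨a / l, gen_mem ha⟩ : Chart V l) = algebraMap k _ c + dv V l 1 ⟨_, h1⟩ :=
        Subtype.ext (by
          change a / l = algebraMap k Ω c + (a - c • l) / l ^ 1
          rw [Algebra.smul_def]
          field_simp
          ring)
      have h3 : dv V l 1 ⟨_, h1⟩ ∈ RingHom.ker χ := by
        rw [RingHom.mem_ker, ← sub_eq_iff_eq_add'.2 h2, map_sub, AlgHom.commutes, ← hc]
        exact sub_self c
      rw [h2, add_mul]
      refine ad _ _ (sm c r hr) ⟨⟨_, mul_mem w.2 h1⟩, ?_⟩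
      rw [dv_mul w.2 h1, mul_comm _ r, ← sub_mul, pow_succ]
      exact Ideal.mul_mem_mul hw h3
    | algebraMap c => exact sm c
    | add x y hx hy ix iy =>
      intro r hr
      have := ad _ _ (ix r hr) (iy r hr)
      rwa [← add_mul] at this
    | mul x y hx hy ix iy =>
      intro r hr
      have := ix _ (iy r hr)
      rwa [← mul_assoc] at this

theorem dv_ker (χ : Chart V l →ₐ[k] k) {V' : Submodule k Ω} (h : V' ≤ V)
    (h' : ∀ a (ha : a ∈ V'), χ ⟨a / l, gen_mem (h ha)⟩ = 0) {t : ℕ} {f : Ω} (hf : f ∈ V' ^ t) :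
    dv V l t ⟨f, pow_le_pow_left' h t hf⟩ ∈ RingHom.ker χ ^ t := by
  induction hf using Submodule.pow_induction_on_left' with
  | algebraMap c => simp
  | add x y i hx hy ix iy =>
    have := add_mem ix iy
    rwa [← map_add] at this
  | mem_mul m hm i x hx ix =>
    have : dv V l (i + 1) ⟨m * x, pow_le_pow_left' h _
        (pow_succ' V' i ▸ Submodule.mul_mem_mul hm hx)⟩ =
        ⟨m / l, gen_mem (h hm)⟩ * dv V l i ⟨x, pow_le_pow_left' h i hx⟩ := Subtype.ext (by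
      change m * x / l ^ (i + 1) = m / l * (x / l ^ i)
      rw [pow_succ', mul_div_mul_comm])
    exact this ▸ pow_succ' (RingHom.ker χ) i ▸ Ideal.mul_mem_mul (h' m hm) ix

theorem indep {V' : Submodule k Ω} (h : V' ≤ V) : ∃ (a : ℕ)
    (w : Fin ((RatF V').relfinrank (RatF V)) → Ω), (∀ i, w i ∈ V ^ a) ∧
      ∀ g : _ → Ω, (∀ i, g i ∈ RatF V') → ∑ i, g i * w i = 0 → ∀ i, g i = 0 := by
  have hle : RatF V' ≤ RatF V := IntermediateField.adjoin.mono _ _ _
    fun _ ⟨a, ha, b, hb, e⟩ => ⟨a, h ha, b, h hb, e⟩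
  obtain ⟨b, hb⟩ := exists_linearIndependent_of_le_finrank
    (IntermediateField.relfinrank_eq_finrank_of_le hle).le
  obtain ⟨a, s, -, s0, hs⟩ := den (V := V) (fun i => (b i : Ω)) (fun i => (b i).2) Finset.univ
  refine ⟨a, fun i => b i * s, fun i => hs i (Finset.mem_univ i), fun g hg e i => ?_⟩
  refine congrArg Subtype.val (Fintype.linearIndependent_iff.1 hb (fun i => ⟨g i, hg i⟩)
    (Subtype.ext (mul_right_cancel₀ s0 ?_)) i)
  rw [ZeroMemClass.coe_zero, zero_mul, ← e, AddSubmonoidClass.coe_finsetSum, Finset.sum_mul]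
  exact Finset.sum_congr rfl fun i _ => mul_assoc _ _ _

end GA1

open GA1 Module in
theorem rA1 : RA1 := by
  intro k Ω _ _ _ V _ l hl h0 χ
  let ψ : V →ₗ[k] k :=
    { toFun := fun a => χ ⟨a / l, gen_mem a.2⟩
      map_add' := fun x y => by rw [← map_add]; exact congrArg χ (Subtype.ext (add_div _ _ _))
      map_smul' := fun c x => by
        rw [RingHom.id_apply, ← map_smul]; exact congrArg χ (Subtype.ext (smul_div_assoc c _ _)) }
  have hψ : ψ ≠ 0 := fun e => one_ne_zero (α := k) (by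
    rw [← map_one χ]
    exact (congrArg χ (Subtype.ext (div_self h0).symm)).trans (LinearMap.congr_fun e ⟨l, hl⟩))
  have h : (LinearMap.ker ψ).map V.subtype ≤ V := V.map_subtype_le _
  have h' : ∀ a (ha : a ∈ (LinearMap.ker ψ).map V.subtype), χ ⟨a / l, gen_mem (h ha)⟩ = 0 := by
    rintro _ ⟨a, ha, rfl⟩
    exact ha
  refine ⟨_, h, ?_, fun hb _ => ?_⟩
  · rw [Submodule.finrank_map_subtype_eq]
    exact Module.Dual.finrank_ker_add_one_of_ne_zero hψ
  generalize (LinearMap.ker ψ).map V.subtype = V' at h h' hb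
  obtain ⟨v, hv, v0⟩ := Submodule.exists_mem_ne_zero_of_ne_bot hb
  obtain ⟨a, w, hw, hi⟩ := indep h
  refine ⟨a, fun t => ?_⟩
  have fin : ∀ n, Module.Finite k (V ^ n : Submodule k Ω) := fun n =>
    Module.Finite.iff_fg.2 ((Module.Finite.iff_fg.1 ‹_›).pow n)
  have := Submodule.finiteDimensional_of_le (pow_le_pow_left' h t)
  let π := (Ideal.Quotient.mkₐ k (RingHom.ker χ ^ t)).toLinearMap ∘ₗ dv V l (t + a)
  have s : LinearMap.range π = ⊤ := LinearMap.range_eq_top.2 fun q => by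
    obtain ⟨r, rfl⟩ := Ideal.Quotient.mk_surjective q
    obtain ⟨u, hu⟩ := onto hl h0 χ (t + a) r
    exact ⟨u, (Ideal.Quotient.eq.2 (Ideal.pow_le_pow_right (Nat.le_add_right t a) hu)).symm⟩
  let Ψ : (Fin ((RatF V').relfinrank (RatF V)) → (V' ^ t : Submodule k Ω)) →ₗ[k] Ω :=
    ∑ i, LinearMap.mulRight k (w i) ∘ₗ (V' ^ t).subtype ∘ₗ LinearMap.proj i
  have e : ∀ f, Ψ f = ∑ i, (f i : Ω) * w i := fun f => by simp [Ψ]
  have inj : Function.Injective Ψ := (injective_iff_map_eq_zero _).2 fun f hf => funext fun i => by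
    have := hi (fun i => f i / v ^ t) (fun i => div_mem (RatF V').toSubalgebra
      (fun a ha => IntermediateField.subset_adjoin _ _ ⟨a, ha, v, hv, rfl⟩) (f i).2) (by
        simp only [div_mul_eq_mul_div]
        rw [← Finset.sum_div, ← e, hf, zero_div]) i
    exact Subtype.ext ((div_eq_zero_iff.1 this).resolve_right (pow_ne_zero _ v0))
  have le : LinearMap.range Ψ ≤ (LinearMap.ker π).map (V ^ (t + a)).subtype := by
    rintro _ ⟨f, rfl⟩
    rw [e]
    refine sum_mem fun i _ => ⟨⟨_, mul_mem (pow_le_pow_left' h t (f i).2) (hw i)⟩, ?_, rfl⟩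
    refine Ideal.Quotient.eq_zero_iff_mem.2 ?_
    rw [dv_mul (pow_le_pow_left' h t (f i).2) (hw i)]
    exact Ideal.mul_mem_right _ _ (dv_ker χ h h' (f i).2)
  have k1 := Submodule.finrank_mono le
  rw [LinearMap.finrank_range_of_inj inj, Submodule.finrank_map_subtype_eq, finrank_pi_fintype,
    Finset.sum_const, Finset.card_univ, Fintype.card_fin, smul_eq_mul] at k1
  have k2 := π.finrank_range_add_finrank_ker
  rw [s, finrank_top] at k2
  unfold len hh
  omega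

end Pool.Agent.MP_f3836a_nt.BT
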