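import Pool.Agent.MP_f3836a_nt.BT.Defs

set_option autoImplicit false

/-! Part A: rational symbol functionals, residues, transfer. -/

namespace Pool.Agent.MP_f3836a_nt.BT

open Function Polynomial

/-- all entries are nonzero -/
def Nz {ι R : Type} [Zero R] (a : ι → R) : Prop := ∀ i, a i ≠ 0

/-- a rational functional on symbols -/
structure St {ι R : Type} [DecidableEq ι] [CommRing R] (φ : (ι → R) → ℚ) : Prop where
  mul : ∀ a i x y, Nz a → x ≠ 0 → y ≠ 0 →
    φ (update a i (x * y)) = φ (update a i x) + φ (update a i y)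
  rep : ∀ a i j, i ≠ j → Nz a → a i = a j → φ a = 0
  hs : ∀ a i j f g, i ≠ j → Nz a → f ≠ 0 → g ≠ 0 → f + g ≠ 0 →
    φ (update (update a i f) j g) =
      φ (update (update a i f) j (f + g)) + φ (update (update a i (f + g)) j g)

/-- the tuple with one entry removed -/
def face {ι V : Type} [DecidableEq ι] (T : Option ι → V) (j : Option ι) : ι → V :=
  fun i => T (Equiv.swap none j (some i))

/-- the sign of a face -/
def sg {ι : Type} (K : Type) [Ring K] : Option ι → K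
  | none => 1
  | some _ => -1

/-- the coboundary -/
def del {ι V K : Type} [DecidableEq ι] [Fintype ι] [Ring K] (φ : (ι → V) → K)
    (T : Option ι → V) : K := ∑ j, sg K j * φ (face T j)

/-- the weighted coboundary -/
def wg {ι V : Type} [DecidableEq ι] [Fintype ι] (φ : (ι → V) → ℚ) (T : Option ι → V)
    (w : Option ι → ℚ) : ℚ := ∑ j, sg ℚ j * (w j * φ (face T j))

theorem face_none {ι V : Type} [DecidableEq ι] (T : Option ι → V) :
    face T none = fun i => T (some i) := by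
  funext i
  simp [face]

theorem face_some {ι V : Type} [DecidableEq ι] (T : Option ι → V) (i : ι) :
    face T (some i) = update (fun i => T (some i)) i (T none) := by
  funext l
  by_cases h : l = i
  · subst h
    simp [face]
  · rw [update_of_ne h, face, Equiv.swap_apply_of_ne_of_ne (by simp) (by simpa using h)]

theorem sum_face {ι M : Type} [DecidableEq ι] [Fintype ι] [AddCommMonoid M] (F : Option ι → M)
    (j : Option ι) : ∑ l, F l = F j + ∑ i : ι, F (Equiv.swap none j (some i)) := by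
  rw [← Equiv.sum_comp (Equiv.swap none j) F, Fintype.sum_option, Equiv.swap_apply_left]

/-- elementary facts -/
structure Bas {ι R : Type} [DecidableEq ι] [Fintype ι] [CommRing R] (φ : (ι → R) → ℚ) : Prop where
  pow : ∀ a i x (n : ℕ), Nz a → x ≠ 0 → φ (update a i (x ^ n)) = n * φ (update a i x)
  tors : ∀ a i (n : ℕ), Nz a → 0 < n → a i ^ n = 1 → φ a = 0
  neg : ∀ a i x, Nz a → x ≠ 0 → φ (update a i (-x)) = φ (update a i x)
  swap : ∀ a i j, i ≠ j → Nz a → φ (a ∘ Equiv.swap i j) = -φ a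
  sum0 : ∀ a (J : Finset ι), Nz a → J.Nonempty → ∑ i ∈ J, a i = 0 → φ a = 0
  sum1 : ∀ a (J : Finset ι), Nz a → ∑ i ∈ J, a i = 1 → φ a = 0
  exp : ∀ x y, Nz x → Nz y →
    φ (x * y) = ∑ I : ι → Bool, φ fun i => if I i = true then x i else y i
  span : ∀ G : ι → Set R, (∀ i, ∀ g ∈ G i, g ≠ 0) → (∀ g, (∀ i, g i ∈ G i) → φ g = 0) →
    ∀ a, Nz a → (∀ i, ∃ (n : ℕ) (l l' : List R), 0 < n ∧ (∀ g ∈ l, g ∈ G i) ∧
      (∀ g ∈ l', g ∈ G i) ∧ a i ^ n * l'.prod = l.prod) → φ a = 0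
  res : ∀ (ι' : Type) [DecidableEq ι'] (f : ι' → ι) (a : ι → R), Injective f → Nz a →
    St fun b : ι' → R => φ (extend f b a)
  comap : ∀ (R' : Type) [CommRing R'] (g : R' →+* R), Injective g → St fun b : ι → R' => φ (g ∘ b)

def RBas : Prop := ∀ (ι R : Type) [DecidableEq ι] [Fintype ι] [CommRing R] [IsDomain R]
  (φ : (ι → R) → ℚ), St φ → Bas φ

/-- neighbouring relations are enough -/
def RAdj : Prop := ∀ (F : Type) [Field F] (n : ℕ) (φ : (Fin n → F) → ℚ),
  (∀ a i x y, Nz a → x ≠ 0 → y ≠ 0 →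
    φ (update a i (x * y)) = φ (update a i x) + φ (update a i y)) →
  (∀ a (i j : Fin n), (j : ℕ) = i + 1 → Nz a → a i + a j = 1 → φ a = 0) → St φ

/-- duality -/
def RBr : Prop := ∀ (F : Type) [Field F] (n : ℕ),
  (∀ φ : (Fin n → F) → ℚ, St φ → ∀ a, Nz a → φ a = 0) → ∀ x : KM F n, ∃ N : ℕ, 0 < N ∧ N • x = 0

/-- an order function with leading terms -/
structure VS {R κ : Type} [CommRing R] [Field κ] (v : R → ℚ) (s : R → κ) : Prop where
  vmul : ∀ f g, f ≠ 0 → g ≠ 0 → v (f * g) = v f + v g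
  smul : ∀ f g, f ≠ 0 → g ≠ 0 → s (f * g) = s f * s g
  sne : ∀ f, f ≠ 0 → s f ≠ 0
  add : ∀ f g, f ≠ 0 → g ≠ 0 → f + g ≠ 0 → (v g = v (f + g) ∧ s g = s (f + g)) ∨
    (v f = v (f + g) ∧ s f = s (f + g)) ∨ (v f = v g ∧ s g = -s f) ∨
    (v f = v g ∧ v g = v (f + g) ∧ s f + s g = s (f + g))

/-- the residue of a symbol -/
def RWg : Prop := ∀ (ι R κ : Type) [DecidableEq ι] [Fintype ι] [CommRing R] [IsDomain R] [Field κ]
  (v : R → ℚ) (s : R → κ) (ψ : (ι → κ) → ℚ), VS v s → St ψ →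
  St fun T : Option ι → R => wg ψ (s ∘ T) (v ∘ T)

def RVS : Prop := ∀ (F : Type) [Field F],
  VS (fun f : F[X] => (f.natDegree : ℚ)) (fun f : F[X] => f.leadingCoeff) ∧
  ∀ (π : F[X]) [Fact (Irreducible π)], ∃ (v : F[X] → ℚ) (s : F[X] → AdjoinRoot π), VS v s ∧
    v π = 1 ∧ ∀ f, ¬π ∣ f → v f = 0 ∧ s f = AdjoinRoot.mk π f

/-- all entries are nonzero of degree less than `e` -/
def Lw {ι F : Type} [Field F] (e : ℕ) (T : ι → F[X]) : Prop := ∀ j, T j ≠ 0 ∧ (T j).natDegree < e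

/-- vanishing in low degree -/
def Low {ι F : Type} [Field F] (e : ℕ) (Θ : (ι → F[X]) → ℚ) : Prop := ∀ T, Lw e T → Θ T = 0

def RMa : Prop := ∀ (ι F : Type) [DecidableEq ι] [Fintype ι] [Field F]
  (Θ : (Option ι → F[X]) → ℚ) (π : F[X]) [Fact (Irreducible π)], π.Monic → St Θ →
  Low π.natDegree Θ → ∃ ψ : (ι → AdjoinRoot π) → ℚ, St ψ ∧ ∀ g : ι → F[X], Lw π.natDegree g →
    ψ (AdjoinRoot.mk π ∘ g) = Θ fun j => j.elim π g

def RMb : Prop := ∀ (ι F : Type) [DecidableEq ι] [Fintype ι] [Field F]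
  (Θ : (Option ι → F[X]) → ℚ) (e : ℕ), St Θ → 1 ≤ e → Low e Θ →
  (∀ (π : F[X]) (g : ι → F[X]), π.Monic → Irreducible π → π.natDegree = e → Lw e g →
    Θ (fun j => j.elim π g) = 0) → Low (e + 1) Θ

def RRec : Prop := ∀ (ι F : Type) [DecidableEq ι] [Fintype ι] [Field F] (φ : (ι → F) → ℚ),
  St φ → ∀ e : ℕ, 1 ≤ e → ∃ Θ : (Option ι → F[X]) → ℚ, St Θ ∧ Low e Θ ∧
    ∀ (π : F[X]) (c : ι → F), π.Monic → Irreducible π → e ≤ π.natDegree → Nz c →
      Θ (fun j => j.elim π fun i => C (c i)) = π.natDegree * φ c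

/-- extension to a simple algebraic extension -/
def RStep : Prop := ∀ (ι F E : Type) [DecidableEq ι] [Fintype ι] [Field F] [Field E] [Algebra F E]
  (α : E), IsIntegral F α → Algebra.adjoin F {α} = ⊤ → ∀ φ : (ι → F) → ℚ, St φ →
  ∃ φ' : (ι → E) → ℚ, St φ' ∧ ∀ a, Nz a → φ' (algebraMap F E ∘ a) = φ a

/-- extension to an algebraic extension -/
def RTr : Prop := ∀ (ι F E : Type) [DecidableEq ι] [Fintype ι] [Field F] [Field E] [Algebra F E]
  [Algebra.IsAlgebraic F E] (φ : (ι → F) → ℚ), St φ →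
  ∃ φ' : (ι → E) → ℚ, St φ' ∧ ∀ a, Nz a → φ' (algebraMap F E ∘ a) = φ a

/-- long symbols with entries in `A` vanish -/
def Van {Ω : Type} [Field Ω] (A : Set Ω) (n : ℕ) : Prop :=
  ∀ (ι : Type) [DecidableEq ι] [Fintype ι] (φ : (ι → Ω) → ℚ), St φ → n ≤ Fintype.card ι →
    ∀ a, Nz a → (∀ i, a i ∈ A) → φ a = 0

/-- entries in a space of small dimension -/
def RDep : Prop := ∀ (k Ω : Type) [Field k] [Field Ω] [Algebra k Ω] (F : IntermediateField k Ω)
  (Λ : Submodule F Ω) [FiniteDimensional F Λ] (e s : ℕ), Module.finrank F Λ ≤ e →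
  Van (F : Set Ω) s → Van (Λ : Set Ω) (e + s)

/-- vanishing in transcendence degree at most `d` -/
def VanT (k Ω : Type) [Field k] [Field Ω] [Algebra k Ω] (d n : ℕ) : Prop :=
  ∀ S : IntermediateField k Ω, Algebra.trdeg k S ≤ d → Van (S : Set Ω) n

/-- one more variable -/
def RRat : Prop := ∀ (k Ω : Type) [Field k] [Field Ω] [Algebra k Ω] [IsAlgClosed Ω] (d s : ℕ),
  VanT k Ω d s → ∀ y : Fin (d + 1) → Ω,
    Van (IntermediateField.adjoin k (Set.range y) : Set Ω) (2 + s)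

/-- the identity on orthogonal pairs, and the passage from coboundaries to symbols -/
def RId : Prop := ∀ (ι Ω : Type) [DecidableEq ι] [Fintype ι] [Field Ω] (φ : (ι → Ω) → ℚ), St φ →
  (∀ x y : Option ι → Ω, Nz x → Nz y → ∑ j, x j * y j = 0 →
    ∑ I : Option ι → Bool, del φ (fun j => if I j = true then x j else y j) = 0) ∧
  ∀ (a b : ι → Ω) (z : Ω), Nz a → Nz b → z ≠ 0 →
    (∀ I : ι → Bool, del φ (fun j => j.elim z fun i => if I i = true then a i * b i else b i) = 0) →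
    φ a = 0

/-- every nonzero element is a root of unity -/
def Tor (k : Type) [Field k] : Prop := ∀ a : k, a ≠ 0 → ∃ n : ℕ, 0 < n ∧ a ^ n = 1

/-- the statement inside an algebraically closed field -/
def MainT : Prop := ∀ (k Ω : Type) [Field k] [IsAlgClosed k] [Field Ω] [IsAlgClosed Ω] [Algebra k Ω]
  (p : ℕ) [Fact p.Prime] [CharP k p], Tor k → ∀ d : ℕ, VanT k Ω d ((2 * d + 3) ^ (d + 3))

/-- the theorem -/
def Final : Prop := ∀ (d p : ℕ) [Fact p.Prime] (F : Type) [Field F] [Algebra (ZMod p) F],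
  Algebra.trdeg (ZMod p) F ≤ d → ∀ n : ℕ, (2 * d + 3) ^ (d + 3) ≤ n →
  ∀ x : KM F n, ∃ N : ℕ, 0 < N ∧ N • x = 0

end Pool.Agent.MP_f3836a_nt.BT
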