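import Pool.Agent.MP_f3836a_nt.BT.SpecA

set_option autoImplicit false

/-! Part C: generating tuples over a large finite field. -/

namespace Pool.Agent.MP_f3836a_nt.BT

open Function Finset

/-- removal of the coboundary part -/
def RProj : Prop := ∀ (V ι : Type) [Fintype V] [Zero V] [DecidableEq ι] [Fintype ι]
  (G : (ι → V) → Prop) (φ : (ι → V) → ℝ), (∀ τ, G τ → Nz τ) →
  (∀ τ i j, G τ → G (τ ∘ Equiv.swap i j)) →
  (∀ τ i j, i ≠ j → G τ → φ (τ ∘ Equiv.swap i j) = -φ τ) →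
  ∃ ψ : (ι → V) → ℝ, (∀ τ, ¬G τ → ψ τ = 0) ∧ (∀ τ i, ∑ v : V, ψ (update τ i v) = 0) ∧
    ∀ T : Option ι → V, (∀ j, G (face T j)) → del φ T = del ψ T

/-- almost orthogonal functions with a linear relation vanish -/
def RFin : Prop := ∀ (X A : Type) [Fintype A] [Nonempty A] (Z Z' : Finset X) (f : A → X → ℝ)
  (s : A → ℝ) (N ε η : ℝ), Z' ⊆ Z → (∀ a, s a = 1 ∨ s a = -1) → 0 ≤ ε → 0 ≤ η →
  (∀ a, ∑ ω ∈ Z, f a ω ^ 2 = N) → (∀ a b, a ≠ b → |∑ ω ∈ Z, f a ω * f b ω| ≤ ε * N) →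
  (∀ a, ∑ ω ∈ Z', f a ω ^ 2 ≤ η * N) → (∀ ω ∈ Z, ω ∉ Z' → ∑ a, s a * f a ω = 0) →
  Fintype.card A * (ε + η) < 1 → N = 0

section
variable {κ V W ι : Type} [Field κ] [AddCommGroup V] [Module κ V] [AddCommGroup W] [Module κ W]
  [DecidableEq ι] [Fintype ι] (μ : V →ₗ[κ] V →ₗ[κ] W)

/-- the tuple generates -/
def Gn (τ : ι → V) : Prop := ∀ w : W, ∃ v : ι → V, ∑ i, μ (τ i) (v i) = w

/-- orthogonal pairs -/
def Rel (ω : Option ι → Bool → V) : Prop := ∑ j, μ (ω j false) (ω j true) = 0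

/-- the face with missing index `j` and choice `I` -/
def fc (ω : Option ι → Bool → V) (j : Option ι) (I : Option ι → Bool) : ι → V :=
  face (fun l => ω l (I l)) j

/-- the fibre over a face -/
def Fib (j : Option ι) (I : Option ι → Bool) (τ : ι → V) (ω : Option ι → Bool → V) : Prop :=
  Rel μ ω ∧ fc ω j I = τ

/-- all entries are nonzero and all faces generate -/
def Alive (ω : Option ι → Bool → V) : Prop := (∀ j b, ω j b ≠ 0) ∧ ∀ j I, Gn μ (fc ω j I)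

/-- parametrisation of the fibre -/
structure Par (j : Option ι) (I : Option ι → Bool) (τ : ι → V) (E : Submodule κ (ι → V))
    (Θ : V × V × E → Option ι → Bool → V) : Prop where
  inj : Injective Θ
  rng : ∀ ω, Fib μ j I τ ω ↔ ∃ p, Θ p = ω
  fst : ∀ p, Θ p j false = p.1
  snd : ∀ p, Θ p j true = p.2.1
  crd : Nat.card E * Nat.card W = Nat.card V ^ Fintype.card ι
  quad : ∀ p p', ∃ ω₁ ω₂ : Option ι → Bool → V, ∀ t : κ, Θ (p + t • p') = Θ p + t • ω₁ + t ^ 2 • ω₂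

end

def RPar : Prop := ∀ (κ V W ι : Type) [Field κ] [AddCommGroup V] [Module κ V] [Finite V]
  [AddCommGroup W] [Module κ W] [DecidableEq ι] [Fintype ι] (μ : V →ₗ[κ] V →ₗ[κ] W),
  (∀ x y, μ x y = μ y x) → ∀ (j : Option ι) (I : Option ι → Bool) (τ : ι → V), Gn μ τ →
  ∃ (E : Submodule κ (ι → V)) (Θ : V × V × E → Option ι → Bool → V), Par μ j I τ E Θ

open Classical in
/-- norms and near orthogonality -/
def ROrth : Prop := ∀ (κ V W ι : Type) [Field κ] [Fintype κ] [AddCommGroup V] [Module κ V]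
  [Fintype V] [AddCommGroup W] [Module κ W] [Fintype W] [DecidableEq ι] [Fintype ι]
  (μ : V →ₗ[κ] V →ₗ[κ] W), (∀ x y, μ x y = μ y x) → ∀ ψ : (ι → V) → ℝ,
  (∀ τ, ¬Gn μ τ → ψ τ = 0) → (∀ τ i, ∑ v : V, ψ (update τ i v) = 0) →
  (∀ j I, ∑ ω ∈ univ.filter (Rel μ), ψ (fc ω j I) ^ 2 =
    (Fintype.card V : ℝ) ^ (Fintype.card ι + 2) / Fintype.card W * ∑ τ, ψ τ ^ 2) ∧
  ∀ j I j' I', I j = false → I' j' = false → (j, I) ≠ (j', I') →
    (∑ ω ∈ univ.filter (Rel μ), ψ (fc ω j I) * ψ (fc ω j' I')) ^ 2 * Fintype.card κ ≤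
      (∑ ω ∈ univ.filter (Rel μ), ψ (fc ω j I) ^ 2) * ∑ ω ∈ univ.filter (Rel μ), ψ (fc ω j' I') ^ 2

/-- special points of the fibre -/
def RSpec : Prop := ∀ (κ V W ι : Type) [Field κ] [AddCommGroup V] [Module κ V]
  [AddCommGroup W] [Module κ W] [DecidableEq ι] [Fintype ι] [Nonempty ι] (μ : V →ₗ[κ] V →ₗ[κ] W),
  (∀ x y, μ x y = μ y x) → ∀ (j : Option ι) (I : Option ι → Bool) (τ : ι → V), Gn μ τ → Nz τ →
  (∀ j' I', ∃ ω, Fib μ j I τ ω ∧ Gn μ (fc ω j' I')) ∧ ∀ j' b, ∃ ω, Fib μ j I τ ω ∧ ω j' b ≠ 0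

/-- few bad points on a conic -/
def RDet : Prop := ∀ (κ V W ι : Type) [Field κ] [Finite κ] [AddCommGroup V] [Module κ V]
  [AddCommGroup W] [Module κ W] [FiniteDimensional κ W] [DecidableEq ι] [Fintype ι]
  (μ : V →ₗ[κ] V →ₗ[κ] W),
  (∀ τ₀ τ₁ τ₂ : ι → V, Gn μ τ₀ →
    {t : κ | ¬Gn μ (τ₀ + t • τ₁ + t ^ 2 • τ₂)}.ncard ≤ 2 * Module.finrank κ W) ∧
  ∀ v₀ v₁ v₂ : V, v₀ ≠ 0 → {t : κ | v₀ + t • v₁ + t ^ 2 • v₂ = 0}.ncard ≤ 2

/-- counting along the lines through a point -/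
def RCnt : Prop := ∀ (κ E : Type) [Field κ] [Finite κ] [AddCommGroup E] [Module κ E] [Finite E]
  (B : Set E) (p : E) (D : ℕ), (∀ p', {t : κ | p + t • p' ∈ B}.ncard ≤ D) →
  (Nat.card κ - 1) * B.ncard ≤ D * Nat.card E

/-- few points of a fibre are dead -/
def RDead : Prop := ∀ (κ V W ι : Type) [Field κ] [Finite κ] [AddCommGroup V] [Module κ V]
  [Finite V] [AddCommGroup W] [Module κ W] [FiniteDimensional κ W] [DecidableEq ι] [Fintype ι]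
  [Nonempty ι] (μ : V →ₗ[κ] V →ₗ[κ] W), (∀ x y, μ x y = μ y x) →
  ∀ (j : Option ι) (I : Option ι → Bool) (τ : ι → V), Gn μ τ → Nz τ →
  (Nat.card κ - 1) * {ω | Fib μ j I τ ω ∧ ¬Alive μ ω}.ncard ≤
    (Fintype.card ι + 1) * (2 ^ (Fintype.card ι + 1) + 2) * (2 * Module.finrank κ W + 2) *
      {ω | Fib μ j I τ ω}.ncard

/-- the finite core -/
def RCore : Prop := ∀ m N : ℕ, ∃ Q : ℕ, ∀ (κ V W ι : Type) [Field κ] [Finite κ] [AddCommGroup V]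
  [Module κ V] [Finite V] [AddCommGroup W] [Module κ W] [Finite W] [DecidableEq ι] [Fintype ι]
  [Nonempty ι] (μ : V →ₗ[κ] V →ₗ[κ] W) (φ : (ι → V) → ℚ), Fintype.card ι = m →
  Module.finrank κ W ≤ N → Q ≤ Nat.card κ → (∀ x y, μ x y = μ y x) →
  (∀ τ i j, i ≠ j → Nz τ → φ (τ ∘ Equiv.swap i j) = -φ τ) →
  (∀ x y : Option ι → V, Nz x → Nz y → ∑ j, μ (x j) (y j) = 0 →
    ∑ I : Option ι → Bool, del φ (fun j => if I j = true then x j else y j) = 0) →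
  ∀ T : Option ι → V, Nz T → (∀ j, Gn μ (face T j)) → del φ T = 0

/-- large finite subfields -/
def RFF : Prop := ∀ (k : Type) [Field k] [Infinite k] (p : ℕ) [Fact p.Prime] [CharP k p], Tor k →
  ∀ (s : Set k) (Q : ℕ), s.Finite → ∃ κ : Subfield k, Finite κ ∧ s ⊆ κ ∧ Q ≤ Nat.card κ

/-- the core over the algebraic closure of a finite field -/
def RCoreK : Prop := ∀ (k Ω ι : Type) [Field k] [Infinite k] [Field Ω] [Algebra k Ω] (p : ℕ)
  [Fact p.Prime] [CharP k p] [DecidableEq ι] [Fintype ι] [Nonempty ι], Tor k →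
  ∀ (V W : Submodule k Ω) [FiniteDimensional k V] [FiniteDimensional k W], V * V ≤ W →
  ∀ φ : (ι → Ω) → ℚ, St φ → ∀ T : Option ι → Ω, Nz T → (∀ j, T j ∈ V) →
  (∀ j, ∀ w ∈ W, ∃ v : ι → Ω, (∀ i, v i ∈ V) ∧ ∑ i, face T j i * v i = w) → del φ T = 0

end Pool.Agent.MP_f3836a_nt.BT
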