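import Pool.Agent.MP_f3836a_nt.BT.SpecC

set_option autoImplicit false

/-! Part G: normalisation, multiplicities, the projection method, placement of entries. -/

namespace Pool.Agent.MP_f3836a_nt.BT

open MvPolynomial Filter

section
variable {k R : Type} [Field k] [CommRing R] [Algebra k R]

/-- `q` is a reduction of `m` near the point -/
def Rd (q m : Ideal R) : Prop := ∃ c : ℕ, ∀ t M : ℕ, m ^ (t + c) ≤ q ^ t ⊔ m ^ M

/-- the ideal generated by the centred coordinates -/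
def cI {σ : Type} (χ : R →ₐ[k] k) (v : σ → R) : Ideal R :=
  Ideal.span (Set.range fun i => v i - algebraMap k R (χ (v i)))

/-- the coordinates after a projection in the direction `α` -/
def sh {n : ℕ} (v : Fin (n + 1) → R) (α : Fin n → k) : Fin n → R := fun i => v i.succ - α i • v 0

/-- the colength of a power of the maximal ideal -/
noncomputable def len (χ : R →ₐ[k] k) (t : ℕ) : ℕ :=
  Module.finrank k (R ⧸ (RingHom.ker χ) ^ t)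

/-- large multiplicity -/
def Big (d : ℕ) (b : ℝ) (χ : R →ₐ[k] k) : Prop := ∀ᶠ t : ℕ in atTop, b * (t : ℝ) ^ d ≤ len χ t

/-- a relation whose order along the fibre is at most `o` -/
def OrdZ {d : ℕ} (χ : R →ₐ[k] k) (y : Fin d → R) (z : R) (o : ℕ) : Prop :=
  ∃ G : Polynomial (MvPolynomial (Fin d) k), G.eval₂ (aeval y : _ →ₐ[k] R).toRingHom z = 0 ∧
    ((G.map (eval fun j => χ (y j))).comp (Polynomial.X + Polynomial.C (χ z))).coeff o ≠ 0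

/-- polynomials of degree less than `B` in `z` -/
def Lam (k : Type) [Field k] [Algebra k R] {d : ℕ} (y : Fin d → R) (z : R) (B : ℕ) (l : R) : Prop :=
  ∃ g : Fin B → MvPolynomial (Fin d) k, l = ∑ j, aeval y (g j) * z ^ (j : ℕ)

end

/-- one projection -/
def RNN0 : Prop := ∀ (k R : Type) [Field k] [CommRing R] [Algebra k R] (n : ℕ)
  (v : Fin (n + 1) → R), ¬AlgebraicIndependent k v →
  (∃ ρ : MvPolynomial (Fin n) k, ρ ≠ 0 ∧ ∀ α, eval α ρ ≠ 0 →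
    IsIntegral (Algebra.adjoin k (Set.range (sh v α))) (v 0)) ∧
  ∀ χ : R →ₐ[k] k, ∃ ρ : MvPolynomial (Fin n) k, ρ ≠ 0 ∧ ∀ α, eval α ρ ≠ 0 →
    Rd (cI χ (sh v α)) (cI χ v)

/-- normalisation with reductions -/
def RNN : Prop := ∀ (k R : Type) [Field k] [Infinite k] [CommRing R] [IsDomain R] [Algebra k R]
  [Algebra.FiniteType k R] (d : ℕ), Algebra.trdeg k R = d →
  ∀ (σ : Type) [Finite σ] (χ : σ → R →ₐ[k] k), ∃ y : Fin d → R, AlgebraicIndependent k y ∧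
    Algebra.IsIntegral (Algebra.adjoin k (Set.range y)) R ∧
    ∀ s, Rd (cI (χ s) y) (RingHom.ker (χ s))

/-- a separating element -/
def RPrim : Prop := ∀ (k R : Type) [Field k] [Infinite k] (p : ℕ) [Fact p.Prime] [CharP k p]
  [CommRing R] [IsDomain R] [Algebra k R] [Algebra.FiniteType k R] (d : ℕ) (y : Fin d → R),
  Algebra.IsIntegral (Algebra.adjoin k (Set.range y)) R →
  ∀ (σ : Type) [Finite σ] (χ : σ → R →ₐ[k] k), ∃ z : R,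
    (∀ s (χ' : R →ₐ[k] k), (∀ j, χ' (y j) = χ s (y j)) → χ' z = χ s z → χ' = χ s) ∧
    ∀ r : R, ∃ (n : ℕ) (c c' : R), 0 < n ∧ c ∈ Algebra.adjoin k (insert z (Set.range y)) ∧
      c' ∈ Algebra.adjoin k (insert z (Set.range y)) ∧ c' ≠ 0 ∧ r ^ n * c' = c

/-- independence modulo powers of the maximal ideal of the base -/
def RLen1 : Prop := ∀ (k A R : Type) [Field k] [CommRing A] [IsNoetherianRing A] [Algebra k A]
  [CommRing R] [Algebra A R] [Module.Finite A R] (e : A →ₐ[k] k) (z : R) (ζ : k)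
  (G : Polynomial A) (u : Polynomial k) (o : ℕ), G.Monic →
  (∀ P : Polynomial A, Polynomial.aeval z P = 0 → G ∣ P) →
  G.map e.toRingHom = (Polynomial.X - Polynomial.C ζ) ^ o * u → u.eval ζ ≠ 0 →
  ∃ c : ℕ, ∀ (t N : ℕ) (f : Fin o → A),
    Polynomial.aeval z (u.map (algebraMap k A)) ^ N *
      ∑ i, f i • (z - algebraMap A R (algebraMap k A ζ)) ^ (i : ℕ) ∈
        ((RingHom.ker e).map (algebraMap A R)) ^ (t + c) → ∀ i, f i ∈ RingHom.ker e ^ t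

/-- monomials in a box -/
def RMon : Prop := ∀ (k : Type) [Field k] (d n : ℕ) (a : Fin d → k),
  ∃ S : Submodule k (MvPolynomial (Fin d) k), FiniteDimensional k S ∧
    (n + 1) ^ d ≤ Module.finrank k S ∧
    ∀ f ∈ S, f ∈ RingHom.ker (aeval a : MvPolynomial (Fin d) k →ₐ[k] k) ^ (d * n + 1) → f = 0

/-- the order along the fibre is bounded by the multiplicity -/
def RLen : Prop := ∀ (k R : Type) [Field k] [IsAlgClosed k] [CommRing R] [IsDomain R] [Algebra k R]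
  [Algebra.FiniteType k R] (d : ℕ) (y : Fin d → R) (z : R) (χ : R →ₐ[k] k), 1 ≤ d →
  AlgebraicIndependent k y → Algebra.IsIntegral (Algebra.adjoin k (Set.range y)) R →
  Rd (cI χ y) (RingHom.ker χ) →
  (∀ χ' : R →ₐ[k] k, (∀ j, χ' (y j) = χ (y j)) → χ' z = χ z → χ' = χ) →
  ∃ o c : ℕ, 1 ≤ o ∧ OrdZ χ y z o ∧ ∀ t : ℕ, o * t ^ d ≤ d ^ d * len χ (t + c)

/-- real estimates -/
def RAr : Prop :=
  (∀ (d o c : ℕ) (b : ℝ) (l : ℕ → ℕ), 1 ≤ d → (∀ t : ℕ, o * t ^ d ≤ d ^ d * l (t + c)) →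
    ¬(∀ᶠ t : ℕ in atTop, b * (t : ℝ) ^ d ≤ l t) → (o : ℝ) ≤ b * d ^ d) ∧
  ∀ (d C : ℕ) (h : ℕ → ℕ), 1 ≤ d → (∀ t, 1 ≤ t → h t ≤ C * t ^ d) → (∀ t, t ^ d ≤ d ^ d * h t) →
    ∃ (D : ℝ) (s : ℕ), 1 ≤ s ∧ (∀ ε : ℝ, 0 < ε → ∀ᶠ t : ℕ in atTop, (h t : ℝ) ≤ (D + ε) * t ^ d) ∧
      (h (2 * s) : ℝ) < (s + 1) * (h s - D * s ^ d / 3 - 1)

/-- a good direction -/
def RDir : Prop := ∀ (k C : Type) [Field k] [IsAlgClosed k] [CommRing C] [IsDomain C] [Algebra k C]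
  (d B : ℕ) (v : Fin (d + 1) → C), Algebra.adjoin k (Set.range v) = ⊤ → Algebra.trdeg k C ≤ d →
  ∀ (σ : Type) [Finite σ] (χ : σ → C →ₐ[k] k),
  (∀ s, ∃ o ≤ B, OrdZ (χ s) (fun j => v j.succ) (v 0) o) → ∀ c : C, c ≠ 0 →
  ∃ α : Fin d → k, IsIntegral (Algebra.adjoin k (Set.range (sh v α))) (v 0) ∧
    ∀ s, (v 0 - algebraMap k C (χ s (v 0))) ^ B ∈ cI (χ s) (sh v α) ⊔ Ideal.span {c}

/-- division -/
def RNak : Prop := ∀ (k C : Type) [Field k] [CommRing C] [Algebra k C] (d B : ℕ) (y : Fin d → C)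
  (z c : C), Algebra.adjoin k (insert z (Set.range y)) = ⊤ →
  IsIntegral (Algebra.adjoin k (Set.range y)) z → ∀ (σ : Type) [Finite σ] (χ : σ → C →ₐ[k] k),
  (∀ s, (z - algebraMap k C (χ s z)) ^ B ∈ cI (χ s) y ⊔ Ideal.span {c}) →
  ∃ w : C, (∀ s, χ s w ≠ 0) ∧ ∀ x : C, ∃ l b, Lam k y z B l ∧ w * x = l + c * b

/-- the multiplicity is at least one -/
def RKap : Prop := ∀ (k R : Type) [Field k] [IsAlgClosed k] (p : ℕ) [Fact p.Prime] [CharP k p]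
  [CommRing R] [IsDomain R] [Algebra k R] [Algebra.FiniteType k R] (d : ℕ) (b : ℝ), 1 ≤ d →
  Algebra.trdeg k R = d → (∀ χ : R →ₐ[k] k, ¬Big d b χ) → 1 ≤ b * d ^ d

/-- preparation -/
def RPrep : Prop := ∀ (k R : Type) [Field k] [IsAlgClosed k] (p : ℕ) [Fact p.Prime] [CharP k p]
  [CommRing R] [IsDomain R] [Algebra k R] [Algebra.FiniteType k R] (d B : ℕ) (b : ℝ), 1 ≤ d →
  Algebra.trdeg k R = d → b * d ^ d ≤ B → ∀ (σ : Type) [Finite σ] [Nonempty σ]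
  (χ : σ → R →ₐ[k] k), (∀ s, ¬Big d b (χ s)) → ∀ (T : Set R), T.Finite →
  ∃ (y : Fin d → R) (z : R), ∀ r ∈ T, r ≠ 0 → ∃ (n : ℕ) (u u' l l' : R), 0 < n ∧
    (∀ s, χ s u ≠ 0) ∧ (∀ s, χ s u' ≠ 0) ∧ Lam k y z B l ∧ Lam k y z B l' ∧ l ≠ 0 ∧ l' ≠ 0 ∧
    r ^ n * (l' * u) = l * u'

section
variable {k Ω : Type} [Field k] [Field Ω] [Algebra k Ω]

/-- the field generated by the ratios -/
def RatF (V : Submodule k Ω) : IntermediateField k Ω :=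
  IntermediateField.adjoin k {x | ∃ a ∈ V, ∃ b ∈ V, x = a / b}

/-- the ring of the affine chart -/
def Chart (V : Submodule k Ω) (l : Ω) : Subalgebra k Ω :=
  Algebra.adjoin k {x | ∃ a ∈ V, x = a / l}

/-- the dimension of the `t`-th power -/
noncomputable def hh (V : Submodule k Ω) (t : ℕ) : ℕ := Module.finrank k (V ^ t : Submodule k Ω)

/-- no point has large multiplicity -/
def Sml (V : Submodule k Ω) (d : ℕ) (b : ℝ) : Prop :=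
  ∀ l ∈ V, l ≠ 0 → ∀ χ : Chart V l →ₐ[k] k, ¬Big d b χ

/-- the numerator and the denominator of `a` divide `g` -/
def Cmp (V : Submodule k Ω) (γ : ℕ) (g a : Ω) : Prop := g * a ∈ V ^ γ ∧ g / a ∈ V ^ γ

variable {N : ℕ} (ξ : Fin N → Ω)

/-- the span of the coordinates -/
def Sp (k : Type) [Field k] [Algebra k Ω] (ξ : Fin N → Ω) : Submodule k Ω :=
  Submodule.span k (Set.range ξ)

/-- a point of the cone -/
def IsPt (x : Fin N → k) : Prop :=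
  x ≠ 0 ∧ ∀ (n : ℕ) (G : MvPolynomial (Fin N) k), G.IsHomogeneous n → aeval ξ G = 0 → eval x G = 0

/-- units at the points of `S` -/
def Un (S : Set (Fin N → k)) : Set Ω := {a | ∃ (γ : ℕ) (G : MvPolynomial (Fin N) k),
  G.IsHomogeneous γ ∧ aeval ξ G ≠ 0 ∧ (∀ x ∈ S, eval x G ≠ 0) ∧ Cmp (Sp k ξ) γ (aeval ξ G) a}

/-- the elements `g j` generate in degree `T + γ` -/
def GenT {n : ℕ} (V : Submodule k Ω) (γ : ℕ) (g : Fin n → Ω) (T : ℕ) : Prop :=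
  ∀ w ∈ V ^ (T + γ), ∃ v : Fin n → Ω, (∀ j, v j ∈ V ^ T) ∧ ∑ j, g j * v j = w

/-- a system of entries -/
def Sy {n : ℕ} {W : Type} (V : Submodule k Ω) (a : Fin n × W → Ω) : Prop :=
  ∃ (γ T₀ : ℕ) (g : Fin n → Ω), 1 ≤ γ ∧ (∀ j, g j ≠ 0 ∧ g j ∈ V ^ γ) ∧
    (∀ j w, Cmp V γ (g j) (a (j, w))) ∧ ∀ T, T₀ ≤ T → GenT V γ g T

/-- blocks of entries whose forms have no common zero -/
def Blocks {ι : Type} (J : Finset ι) (a : ι → Ω) (n r : ℕ) (I : Set (MvPolynomial (Fin N) k)) :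
    Prop :=
  ∃ (Jb : Fin n → Finset ι) (G : Fin n → MvPolynomial (Fin N) k) (γ : Fin n → ℕ),
    (∀ j, Disjoint J (Jb j)) ∧ (∀ j j', j ≠ j' → Disjoint (Jb j) (Jb j')) ∧
    (∀ j, (Jb j).card = r ∧ 1 ≤ γ j ∧ (G j).IsHomogeneous (γ j) ∧ aeval ξ (G j) ≠ 0 ∧
      ∀ i ∈ Jb j, Cmp (Sp k ξ) (γ j) (aeval ξ (G j)) (a i)) ∧
    ∀ x, IsPt ξ x → (∃ H ∈ I, eval x H ≠ 0) ∨ ∃ j, eval x (G j) ≠ 0

/-- a dimension function -/
structure Dim (d : ℕ) (D : ℕ → Set (MvPolynomial (Fin N) k) → Prop) : Prop where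
  top : D (d + 1) ∅
  step : ∀ n I, D (n + 1) I → ∃ S : Set (Fin N → k), S.Finite ∧ (∀ x ∈ S, IsPt ξ x) ∧
    ∀ G, (∀ x ∈ S, eval x G ≠ 0) → D n (insert G I)
  bot : ∀ I, D 0 I → (∀ G ∈ I, ∃ γ, G.IsHomogeneous γ) → ∀ x, IsPt ξ x → ∃ G ∈ I, eval x G ≠ 0

end

/-- it is enough to treat symbols with an entry in `U` -/
def M1P {Ω : Type} [Field Ω] (A U : Set Ω) (n : ℕ) : Prop :=
  ∀ (ι : Type) [DecidableEq ι] [Fintype ι] (φ : (ι → Ω) → ℚ), St φ → n ≤ Fintype.card ι →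
    (∀ a, Nz a → (∀ i, a i ∈ A) → (∃ i, a i ∈ U) → φ a = 0) →
    ∀ a, Nz a → (∀ i, a i ∈ A) → φ a = 0

/-- growth of the powers -/
def RGrow : Prop := ∀ (k Ω : Type) [Field k] [Field Ω] [Algebra k Ω] (U : Submodule k Ω)
  [FiniteDimensional k U] (d : ℕ),
  (Algebra.trdeg k (IntermediateField.adjoin k (U : Set Ω)) ≤ d →
    ∃ C : ℕ, ∀ t, 1 ≤ t → hh U t ≤ C * t ^ d) ∧
  ∀ y : Fin d → Ω, 1 ≤ d → 1 ∈ U → (∀ j, y j ∈ U) → AlgebraicIndependent k y →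
    ∀ t, t ^ d ≤ d ^ d * hh U t

/-- projection from a point -/
def RA1 : Prop := ∀ (k Ω : Type) [Field k] [Field Ω] [Algebra k Ω] (V : Submodule k Ω)
  [FiniteDimensional k V] (l : Ω), l ∈ V → l ≠ 0 → ∀ χ : Chart V l →ₐ[k] k,
  ∃ V' : Submodule k Ω, V' ≤ V ∧ Module.finrank k V' + 1 = Module.finrank k V ∧
    (V' ≠ ⊥ → 0 < (RatF V').relfinrank (RatF V) → ∃ a : ℕ, ∀ t,
      len χ t + (RatF V').relfinrank (RatF V) * hh V' t ≤ hh V (t + a))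

/-- no collapse -/
def RA2 : Prop := ∀ (k Ω : Type) [Field k] [Field Ω] [Algebra k Ω] (U V : Submodule k Ω)
  [FiniteDimensional k U] (s : ℕ), 1 ∈ U → V ≤ U ^ s →
  RatF V ≤ IntermediateField.adjoin k (U : Set Ω) ∧
  (1 ≤ s → RatF (U ^ s) = IntermediateField.adjoin k (U : Set Ω)) ∧
  (hh U (2 * s) < (s + 1) * Module.finrank k V →
    0 < (RatF V).relfinrank (IntermediateField.adjoin k (U : Set Ω)))

/-- the projection method -/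
def RAlb : Prop := ∀ (k Ω : Type) [Field k] [Field Ω] [Algebra k Ω] (U : Submodule k Ω)
  [FiniteDimensional k U] (d : ℕ) (y : Fin d → Ω), 1 ≤ d → 1 ∈ U → (∀ j, y j ∈ U) →
  AlgebraicIndependent k y → Algebra.trdeg k (IntermediateField.adjoin k (U : Set Ω)) ≤ d →
  ∃ V : Submodule k Ω, FiniteDimensional k V ∧ V ≠ ⊥ ∧
    RatF V ≤ IntermediateField.adjoin k (U : Set Ω) ∧
    0 < (RatF V).relfinrank (IntermediateField.adjoin k (U : Set Ω)) ∧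
    Sml V d (3 / (RatF V).relfinrank (IntermediateField.adjoin k (U : Set Ω)))

/-- forms and powers -/
def RPw : Prop := ∀ (k Ω : Type) [Field k] [Infinite k] [Field Ω] [Algebra k Ω] (N : ℕ)
  (ξ : Fin N → Ω),
  (∀ (n : ℕ) (g : Ω), g ∈ Sp k ξ ^ n ↔
    ∃ G : MvPolynomial (Fin N) k, G.IsHomogeneous n ∧ aeval ξ G = g) ∧
  (Sp k ξ ≠ ⊥ → ∀ S : Set (Fin N → k), S.Finite → (∀ x ∈ S, x ≠ 0) →
    ∃ L : MvPolynomial (Fin N) k, L.IsHomogeneous 1 ∧ aeval ξ L ≠ 0 ∧ ∀ x ∈ S, eval x L ≠ 0)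

/-- the ring of a chart -/
def RChF : Prop := ∀ (k Ω : Type) [Field k] [Field Ω] [Algebra k Ω] (V : Submodule k Ω)
  [FiniteDimensional k V] (l : Ω), l ∈ V → l ≠ 0 →
  Algebra.FiniteType k (Chart V l) ∧ (∀ r ∈ Chart V l, r ∈ RatF V) ∧
  (∀ a ∈ RatF V, ∃ r ∈ Chart V l, ∃ r' ∈ Chart V l, r' ≠ 0 ∧ a * r' = r) ∧
  (∀ r ∈ Chart V l, ∃ n : ℕ, ∀ m, n ≤ m → r * l ^ m ∈ V ^ m) ∧
  Algebra.trdeg k (Chart V l) = Algebra.trdeg k (RatF V)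

/-- a chart containing finitely many points -/
def RChart : Prop := ∀ (k Ω : Type) [Field k] [Infinite k] [Field Ω] [Algebra k Ω] (N : ℕ)
  (ξ : Fin N → Ω) (S : Set (Fin N → k)), Sp k ξ ≠ ⊥ → S.Finite → (∀ x ∈ S, IsPt ξ x) →
  (S = ∅ → ∀ a ∈ RatF (Sp k ξ), a ≠ 0 → a ∈ Un ξ S) ∧
  ∃ l ∈ Sp k ξ, l ≠ 0 ∧ ∃ χ : S → Chart (Sp k ξ) l →ₐ[k] k,
    ∀ u : Chart (Sp k ξ) l, u ≠ 0 → (∀ x, χ x u ≠ 0) → (u : Ω) ∈ Un ξ S

/-- reduction to units -/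
def RM1 : Prop := ∀ (k Ω : Type) [Field k] [IsAlgClosed k] [Field Ω] [IsAlgClosed Ω] [Algebra k Ω]
  (p : ℕ) [Fact p.Prime] [CharP k p] (N d s B : ℕ) (b : ℝ) (ξ : Fin N → Ω), VanT k Ω d s →
  Sp k ξ ≠ ⊥ → Algebra.trdeg k (RatF (Sp k ξ)) = (d + 1 : ℕ) → Sml (Sp k ξ) (d + 1) b →
  b * ((d + 1 : ℕ) : ℝ) ^ (d + 1) ≤ B → ∀ S : Set (Fin N → k), S.Finite → (∀ x ∈ S, IsPt ξ x) →
  M1P (RatF (Sp k ξ) : Set Ω) (Un ξ S) (B + (2 + s))

/-- many units -/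
def RBlk : Prop := ∀ (Ω ι : Type) [Field Ω] [DecidableEq ι] [Fintype ι] (A U : Set Ω) (n r : ℕ)
  (φ : (ι → Ω) → ℚ) (J : Finset ι) (a : ι → Ω), M1P A U n → St φ → Nz a → (∀ i, a i ∈ A) →
  J.card + r + n ≤ Fintype.card ι →
  (∀ a', Nz a' → (∀ i, a' i ∈ A) → (∀ i ∈ J, a' i = a i) →
    (∃ J' : Finset ι, Disjoint J J' ∧ J'.card = r ∧ ∀ i ∈ J', a' i ∈ U) → φ a' = 0) → φ a = 0

def RDrop : Prop := ∀ (k Ω : Type) [Field k] [IsAlgClosed k] [Field Ω] [Algebra k Ω] (N d : ℕ)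
  (ξ : Fin N → Ω), Algebra.trdeg k (RatF (Sp k ξ)) ≤ d →
  ∃ D : ℕ → Set (MvPolynomial (Fin N) k) → Prop, Dim ξ d D

def RNull : Prop := ∀ (k Ω : Type) [Field k] [IsAlgClosed k] [Field Ω] [Algebra k Ω] (N n γ : ℕ)
  (ξ : Fin N → Ω) (G : Fin n → MvPolynomial (Fin N) k), (∀ j, (G j).IsHomogeneous γ) →
  (∀ x, IsPt ξ x → ∃ j, eval x (G j) ≠ 0) →
  ∃ T₀, ∀ T, T₀ ≤ T → GenT (Sp k ξ) γ (fun j => aeval ξ (G j)) T

/-- placement of blocks -/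
def RSys1 : Prop := ∀ (k Ω ι : Type) [Field k] [Infinite k] [Field Ω] [Algebra k Ω] [DecidableEq ι]
  [Fintype ι] (N d n₀ r : ℕ) (ξ : Fin N → Ω) (A : Set Ω)
  (D : ℕ → Set (MvPolynomial (Fin N) k) → Prop) (φ : (ι → Ω) → ℚ), Sp k ξ ≠ ⊥ → Dim ξ d D →
  (∀ S : Set (Fin N → k), S.Finite → (∀ x ∈ S, IsPt ξ x) → M1P A (Un ξ S) n₀) → St φ →
  ∀ (n : ℕ) (I : Set (MvPolynomial (Fin N) k)) (J : Finset ι) (a : ι → Ω), D n I →
  (∀ G ∈ I, ∃ γ, G.IsHomogeneous γ) → Nz a → (∀ i, a i ∈ A) →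
  J.card + n * r + n₀ ≤ Fintype.card ι →
  (∀ a', Nz a' → (∀ i, a' i ∈ A) → (∀ i ∈ J, a' i = a i) → Blocks ξ J a' n r I → φ a' = 0) →
  φ a = 0

/-- blocks give a system -/
def RSys2 : Prop := ∀ (k Ω ι W : Type) [Field k] [IsAlgClosed k] [Field Ω] [Algebra k Ω] [Fintype W]
  (N n : ℕ) (ξ : Fin N → Ω) (J : Finset ι) (a : ι → Ω),
  Blocks (k := k) ξ J a n (Fintype.card W) ∅ →
  ∃ f : Fin n × W → ι, Function.Injective f ∧ (∀ x, f x ∉ J) ∧ Sy (Sp k ξ) (a ∘ f)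

/-- the index set of a system -/
abbrev Ix (d : ℕ) : Type := Fin (d + 1) × (Fin (d + 1) → Fin (2 * d + 3))

/-- the cover by monomials -/
def RGen : Prop := ∀ (k Ω : Type) [Field k] [Field Ω] [Algebra k Ω] (V : Submodule k Ω) (d : ℕ)
  (a : Ix d → Ω), 1 ≤ d → Nz a → Sy V a → ∃ γ L₀ : ℕ, 1 ≤ γ ∧ ∀ L, L₀ ≤ L → ∃ b : Ix d → Ω, Nz b ∧
    (∀ x, b x ∈ V ^ (2 * (d + 1) * L * γ) ∧ a x * b x ∈ V ^ (2 * (d + 1) * L * γ)) ∧
    ∀ I : Ix d → Bool, ∀ w ∈ V ^ (2 * (2 * (d + 1) * L * γ)), ∃ v : Ix d → Ω,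
      (∀ x, v x ∈ V ^ (2 * (d + 1) * L * γ)) ∧
      ∑ x, (if I x = true then a x * b x else b x) * v x = w

/-- two systems kill the symbol -/
def RTwo : Prop := ∀ (k Ω ι : Type) [Field k] [Infinite k] [Field Ω] [Algebra k Ω] (p : ℕ)
  [Fact p.Prime] [CharP k p] [DecidableEq ι] [Fintype ι] (V : Submodule k Ω)
  [FiniteDimensional k V] (d : ℕ) (φ : (ι → Ω) → ℚ) (a : ι → Ω) (f f' : Ix d → ι), Tor k → 1 ≤ d →
  St φ → Nz a → Function.Injective f → Function.Injective f' → (∀ x x', f x ≠ f' x') → Sy V (a ∘ f) →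
  Sy V (a ∘ f') → φ a = 0

/-- vanishing on a model -/
def RVanV : Prop := ∀ (k Ω : Type) [Field k] [IsAlgClosed k] [Field Ω] [Algebra k Ω] (p : ℕ)
  [Fact p.Prime] [CharP k p] (N d n : ℕ) (ξ : Fin N → Ω) (A : Set Ω), Tor k → 1 ≤ d → Sp k ξ ≠ ⊥ →
  Algebra.trdeg k (RatF (Sp k ξ)) ≤ d →
  (∀ S : Set (Fin N → k), S.Finite → (∀ x ∈ S, IsPt ξ x) → M1P A (Un ξ S) n) →
  Van A (2 * ((d + 1) * (2 * d + 3) ^ (d + 1)) + n)

/-- the inductive step -/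
def RStepG : Prop := ∀ (k Ω : Type) [Field k] [IsAlgClosed k] [Field Ω] [IsAlgClosed Ω]
  [Algebra k Ω] (p : ℕ) [Fact p.Prime] [CharP k p] (d s : ℕ), Tor k → VanT k Ω d s →
  VanT k Ω (d + 1) (3 * (d + 1) ^ (d + 1) + (2 * ((d + 2) * (2 * d + 5) ^ (d + 2)) +
    (3 * (d + 1) ^ (d + 1) + (2 + s))))

end Pool.Agent.MP_f3836a_nt.BT
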